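import Pool.Agent.Lib.MP_d48993_lc.AE.Bound.Interfaces

/-!
# Board LB, module ADM (helper44): the points are definable from the nice real
-/

set_option autoImplicit false

namespace Pool.Agent.Lib.MP_d48993_lc.Bound

open MP_8c048d_lc (pre join RecF Sig Pih Clo Cop Del)
open H84 (KK P2)
open H30 (HomC BTree)

/-- Module ADM. -/
theorem adm (hC : CharStatement) (hH : HomdStatement) (hD : DelzStatement)
    (hT : TreecStatement) : AdmStatement := by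
  intro B Z k L hB hZ hL
  obtain ⟨T, hT1, hT2⟩ := hH B hB
  obtain ⟨-, -, -, hcls, hKK, -⟩ := hT B hB
  obtain ⟨hbool, hlist, hquant, hcomp, hcol, -⟩ := hD
  have key : ∀ p : ℕ × ℕ, Up (KK p.1 p.2) ∪ Up B ∈ UU B (Colz Z k) L ↔
      ∀ q : ℕ × ℕ, (∀ t ∈ L, ¬ (Up (KK q.1 q.2) ∪ Up B ∈ t)) →
        Colz Z k ∈ Up (Hm (T q) (T p)) := by
    intro p
    obtain ⟨hp1, hp2, hp3⟩ := hT1 p
    constructor
    · intro hU q hq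
      obtain ⟨hq1, hq2, hq3⟩ := hT1 q
      refine hC.1 B Z (Colz Z k) L hB hZ hL (T q) (T p) hq1 hp1 hp2 ?_ ?_ ?_
      · rw [hq3]
        exact hKK q
      · intro t ht
        rw [hq3]
        exact hq t ht
      · rw [hp3]
        exact hU
    · intro h
      refine hC.2 B (Colz Z k) L hB (fun t ht => (hL t ht).2) _ (hKK p) ?_
      intro R hR hRL
      obtain ⟨-, -, -, q, rfl⟩ := hcls R hR
      obtain ⟨hq1, hq2, hq3⟩ := hT1 q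
      exact ⟨T q, T p, hq1, hp1, hq3.symm.subset, hp3.subset, h q hRL⟩
  have hfun : (fun p : ℕ × ℕ => Up (KK p.1 p.2) ∪ Up B ∈ UU B (Colz Z k) L) =
      fun p : ℕ × ℕ => ∀ q : ℕ × ℕ, (∀ t ∈ L, ¬ (Up (KK q.1 q.2) ∪ Up B ∈ t)) →
        Colz Z k ∈ Up (Hm (T q) (T p)) := funext fun p => propext (key p)
  unfold Adm
  rw [hfun]
  have h1 : DelZ Z (fun r : (ℕ × ℕ) × (ℕ × ℕ) => Colz Z k ∈ Up (Hm (T r.2) (T r.1))) :=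
    hcomp Z ((ℕ × ℕ) × (ℕ × ℕ)) ((ℕ × ℕ) × (ℕ × ℕ))
      (fun q => Colz Z k ∈ Up (Hm (T q.1) (T q.2))) (fun r => (r.2, r.1))
      (Computable.pair Computable.snd Computable.fst)
      (hcol Z ((ℕ × ℕ) × (ℕ × ℕ)) (fun q X => X ∈ Up (Hm (T q.1) (T q.2))) k hT2)
  have h2 : DelZ Z (fun q : ℕ × ℕ => ∀ t ∈ L, ¬ (Up (KK q.1 q.2) ∪ Up B ∈ t)) :=
    (hlist Z (ℕ × ℕ) (Set (Set (ℕ → ℕ))) L
      (fun t q => ¬ (Up (KK q.1 q.2) ∪ Up B ∈ t)) fun t ht =>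
        (hbool Z (ℕ × ℕ) _ _ (hL t ht).1 (hL t ht).1).2.2.1).1
  have h3 : DelZ Z (fun r : (ℕ × ℕ) × (ℕ × ℕ) =>
      ∀ t ∈ L, ¬ (Up (KK r.2.1 r.2.2) ∪ Up B ∈ t)) :=
    hcomp Z ((ℕ × ℕ) × (ℕ × ℕ)) (ℕ × ℕ)
      (fun q => ∀ t ∈ L, ¬ (Up (KK q.1 q.2) ∪ Up B ∈ t)) Prod.snd Computable.snd h2
  exact (hquant Z (ℕ × ℕ) (ℕ × ℕ)
    (fun r => (∀ t ∈ L, ¬ (Up (KK r.2.1 r.2.2) ∪ Up B ∈ t)) →
      Colz Z k ∈ Up (Hm (T r.2) (T r.1)))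
    ((hbool Z ((ℕ × ℕ) × (ℕ × ℕ)) _ _ h3 h1).2.2.2)).1

end Pool.Agent.Lib.MP_d48993_lc.Bound
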