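import Pool.Agent.Lib.MP_d48993_lc.AE.Bound.Interfaces

/-!
# Project AE (MP_d48993), board LB, module BOX (helper38)

Finitely many points have boxes `A k`, `Bd k`, with a real in `A k` outside of `Bd k`, so that
`A k ∩ A l ⊆ Bd l` for all unblocked pairs.
-/

set_option autoImplicit false

namespace Pool.Agent.Lib.MP_d48993_lc.Bound.Box

open Pool.Agent.Lib.MP_d48993_lc.Bound

/-- Dependent choices along a well-founded relation. -/
theorem wf_choice {ι β : Type} [Inhabited β] {r : ι → ι → Prop} (hr : WellFounded r)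
    (Q : ι → (ι → β) → β → Prop)
    (hloc : ∀ a (f f' : ι → β) y, (∀ b, r b a → f b = f' b) → Q a f y → Q a f' y)
    (hex : ∀ a (f : ι → β), (∀ b, r b a → Q b f (f b)) → ∃ y, Q a f y) :
    ∃ f : ι → β, ∀ a, Q a f (f a) := by
  classical
  let F : (a : ι) → ((b : ι) → r b a → β) → β := fun a rec =>
    if h : ∃ y, Q a (fun b => if hb : r b a then rec b hb else default) y then h.choose else default
  refine ⟨hr.fix F, fun a => ?_⟩
  induction a using hr.induction with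
  | _ a ih =>
    have h1 : ∃ y, Q a (hr.fix F) y := hex a _ ih
    have h2 : ∃ y, Q a (fun b => if _ : r b a then hr.fix F b else default) y := by
      obtain ⟨y, hy⟩ := h1
      refine ⟨y, hloc a _ _ y (fun b hb => ?_) hy⟩
      rw [dif_pos hb]
    rw [hr.fix_eq]
    show Q a (hr.fix F) (F a fun b _ => hr.fix F b)
    have h3 : F a (fun b _ => hr.fix F b) = h2.choose := by
      simp only [F]
      exact dif_pos h2
    rw [h3]
    refine hloc a _ _ _ (fun b hb => ?_) h2.choose_spec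
    rw [dif_pos hb]

variable {B : Set (ℕ → ℕ)}

theorem un_cls (hT : TreecStatement) (hB : ClosedC B) {t : Set (Set (ℕ → ℕ))} (ht : PI B t)
    {ι : Type} (f : ι → Set (ℕ → ℕ)) (h0 : Set (ℕ → ℕ)) (hc : IsC B h0) (hn : h0 ∉ t)
    (s : Finset ι) : (∀ b ∈ s, IsC B (f b) ∧ f b ∉ t) →
      IsC B (h0 ∪ ⋃ b ∈ s, f b) ∧ (h0 ∪ ⋃ b ∈ s, f b) ∉ t := by
  classical
  induction s using Finset.induction_on with
  | empty =>
    intro _
    have e : (h0 ∪ ⋃ b ∈ (∅ : Finset ι), f b) = h0 := by simp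
    rw [e]
    exact ⟨hc, hn⟩
  | insert a s _ ih =>
    intro h
    obtain ⟨h1, h2⟩ := ih fun b hb => h b (Finset.mem_insert_of_mem hb)
    obtain ⟨h3, h4⟩ := h a (Finset.mem_insert_self _ _)
    have e : (h0 ∪ ⋃ b ∈ insert a s, f b) = (h0 ∪ ⋃ b ∈ s, f b) ∪ f a := by
      rw [Finset.set_biUnion_insert]
      rw [Set.union_comm (f a), Set.union_assoc]
    rw [e]
    refine ⟨((hT B hB).2.2.1 _ _ h1 h3).2, fun hmem => ?_⟩
    rcases ht.prime _ _ h1 h3 hmem with h5 | h5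
    · exact h2 h5
    · exact h4 h5

theorem int_cls (hT : TreecStatement) (hB : ClosedC B)
    {ι : Type} (f : ι → Set (ℕ → ℕ)) (g0 : Set (ℕ → ℕ)) (hc : IsC B g0)
    (s : Finset ι) : (∀ b ∈ s, IsC B (f b)) → IsC B (g0 ∩ ⋂ b ∈ s, f b) := by
  classical
  induction s using Finset.induction_on with
  | empty =>
    intro _
    have e : (g0 ∩ ⋂ b ∈ (∅ : Finset ι), f b) = g0 := by simp
    rw [e]
    exact hc
  | insert a s _ ih =>
    intro h
    have h1 := ih fun b hb => h b (Finset.mem_insert_of_mem hb)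
    have h3 := h a (Finset.mem_insert_self _ _)
    have e : (g0 ∩ ⋂ b ∈ insert a s, f b) = (g0 ∩ ⋂ b ∈ s, f b) ∩ f a := by
      rw [Finset.set_biInter_insert]
      rw [Set.inter_comm (f a), Set.inter_assoc]
    rw [e]
    exact ((hT B hB).2.2.1 _ _ h1 h3).1

/-- The class of the real `Y` outside of `t`. -/
theorem exists_zz (B : Set (ℕ → ℕ)) : ∃ zz : (ℕ → ℕ) → Set (Set (ℕ → ℕ)) → Set (ℕ → ℕ),
    ∀ Y t, ¬ Fl B Y ⊆ t → zz Y t ∈ Fl B Y ∧ zz Y t ∉ t := by
  classical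
  refine ⟨fun Y t => if h : ∃ z, z ∈ Fl B Y ∧ z ∉ t then h.choose else ∅, fun Y t h => ?_⟩
  have h1 : ∃ z, z ∈ Fl B Y ∧ z ∉ t := by
    by_contra hcon
    push Not at hcon
    exact h hcon
  simp only
  rw [dif_pos h1]
  exact h1.choose_spec

end Pool.Agent.Lib.MP_d48993_lc.Bound.Box

namespace Pool.Agent.Lib.MP_d48993_lc.Bound

open Box

open Classical in
/-- Module BOX. -/
theorem box (hF : FramepStatement) (hT : TreecStatement) : BoxStatement := by
  intro B Z N hBa ι _ e he hP g h hg hh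
  have hB : ClosedC B := hBa.1
  obtain ⟨f1, -, -, -, f5⟩ := hF B Z N hBa
  have hPI : ∀ k, PI B (e k) := fun k => (f1 _ (hP k)).1
  cases nonempty_fintype ι
  obtain ⟨zz, hzz⟩ := exists_zz B
  have hz0 : ∃ z0 : ι → ι → Set (ℕ → ℕ), ∀ b a, ¬ e b ⊆ e a → z0 b a ∈ e b ∧ z0 b a ∉ e a := by
    refine ⟨fun b a => if h : ∃ z, z ∈ e b ∧ z ∉ e a then h.choose else ∅, fun b a hba => ?_⟩
    have h1 : ∃ z, z ∈ e b ∧ z ∉ e a := by
      by_contra hcon
      push Not at hcon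
      exact hba hcon
    simp only
    rw [dif_pos h1]
    exact h1.choose_spec
  obtain ⟨z0, hz0⟩ := hz0
  -- the separating classes, from the reals chosen before
  let zc : ι → ι → (ι → ℕ → ℕ) → Set (ℕ → ℕ) := fun b a f =>
    if e b ⊆ e a then zz (f b) (e a) else z0 b a
  let ub : ι → ι → Prop := fun k l => k ≠ l ∧ Pj B (e l) (e k) = e k
  let u : ι → (ι → ℕ → ℕ) → Set (ℕ → ℕ) := fun a f =>
    h a ∪ ⋃ b ∈ Finset.univ.filter (fun b => ub b a), zc b a f
  let r : ι → ι → Prop := fun b a => e b ⊆ e a ∧ b ≠ a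
  have hr : WellFounded r := by
    have : IsTrans ι r := ⟨fun a b c hab hbc => ⟨hab.1.trans hbc.1, by
      rintro rfl
      exact hab.2 (he (Set.Subset.antisymm hab.1 hbc.1))⟩⟩
    have : Std.Irrefl r := ⟨fun a ha => ha.2 rfl⟩
    exact Finite.wellFounded_of_trans_of_irrefl r
  let Q : ι → (ι → ℕ → ℕ) → (ℕ → ℕ) → Prop := fun a f y =>
    y ∉ Up B ∧ e a ⊆ Fl B y ∧ (∀ b, ub a b → ¬ Fl B y ⊆ e b) ∧ y ∉ u a f
  have hzcl : ∀ a (f f' : ι → ℕ → ℕ), (∀ b, r b a → f b = f' b) → u a f = u a f' := by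
    intro a f f' hff
    have h1 : ∀ b ∈ Finset.univ.filter (fun b => ub b a), zc b a f = zc b a f' := by
      intro b hb
      have hb' : ub b a := (Finset.mem_filter.1 hb).2
      by_cases hba : e b ⊆ e a
      · simp only [zc, if_pos hba]
        rw [hff b ⟨hba, hb'.1⟩]
      · simp only [zc, if_neg hba]
    show h a ∪ _ = h a ∪ _
    congr 1
    exact Set.iUnion₂_congr h1
  -- the classes are outside of `e a`
  have hzc : ∀ a b (f : ι → ℕ → ℕ), ub b a → (r b a → Q b f (f b)) →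
      IsC B (zc b a f) ∧ zc b a f ∉ e a := by
    intro a b f hba hQ
    by_cases hs : e b ⊆ e a
    · have h1 := (hQ ⟨hs, hba.1⟩).2.2.1 a hba
      have h2 := hzz _ _ h1
      simp only [zc, if_pos hs]
      exact ⟨h2.1.1, h2.2⟩
    · have h2 := hz0 _ _ hs
      simp only [zc, if_neg hs]
      exact ⟨(hPI b).sub _ h2.1, h2.2⟩
  have hex : ∀ a (f : ι → ℕ → ℕ), (∀ b, r b a → Q b f (f b)) → ∃ y, Q a f y := by
    intro a f hf
    obtain ⟨hu1, hu2⟩ := un_cls hT hB (hPI a) (fun b => zc b a f) (h a) (hh a).1 (hh a).2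
      (Finset.univ.filter (fun b => ub b a))
      (fun b hb => hzc a b f (Finset.mem_filter.1 hb).2 (hf b))
    obtain ⟨Y, y1, y2, y3, y4⟩ := f5 (e a) (hP a)
      ((Finset.univ.filter (fun b => ub a b)).toList.map e) (by
        intro t ht
        obtain ⟨b, hb, rfl⟩ := List.mem_map.1 ht
        have hb' : ub a b := (Finset.mem_filter.1 (Finset.mem_toList.1 hb)).2
        exact ⟨hP b, hb'.2⟩) _ hu1 hu2
    refine ⟨Y, y1, y2, fun b hb => y3 _ (List.mem_map.2 ⟨b, ?_, rfl⟩), y4⟩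
    exact Finset.mem_toList.2 (Finset.mem_filter.2 ⟨Finset.mem_univ _, hb⟩)
  obtain ⟨Y, hY⟩ := wf_choice hr Q (fun a f f' y hff hq => ⟨hq.1, hq.2.1, hq.2.2.1, by
    rw [← hzcl a f f' hff]; exact hq.2.2.2⟩) hex
  have hzY : ∀ k l, ub k l → IsC B (zc k l Y) ∧ zc k l Y ∉ e l ∧ Y k ∈ zc k l Y := by
    intro k l hkl
    obtain ⟨h1, h2⟩ := hzc l k Y hkl (fun _ => hY k)
    refine ⟨h1, h2, ?_⟩
    by_cases hs : e k ⊆ e l
    · simp only [zc, if_pos hs]
      exact (hzz _ _ ((hY k).2.2.1 l hkl)).1.2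
    · simp only [zc, if_neg hs]
      exact ((hY k).2.1 (hz0 _ _ hs).1).2
  refine ⟨fun k => g k ∩ ⋂ l ∈ Finset.univ.filter (fun l => ub k l), zc k l Y,
    fun k => u k Y, fun k => ⟨?_, ?_, ?_, ?_, ?_⟩, fun k l hkl hub => ?_⟩
  · exact int_cls hT hB _ _ ((hPI k).sub _ (hg k)) _
      fun l hl => (hzY k l (Finset.mem_filter.1 hl).2).1
  · exact (un_cls hT hB (hPI k) (fun b => zc b k Y) (h k) (hh k).1 (hh k).2
      (Finset.univ.filter (fun b => ub b k)) (fun b hb => by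
        have := hzY b k (Finset.mem_filter.1 hb).2
        exact ⟨this.1, this.2.1⟩)).1
  · exact Set.inter_subset_left
  · exact Set.subset_union_left
  · refine ⟨Y k, ⟨((hY k).2.1 (hg k)).2, ?_⟩, (hY k).2.2.2⟩
    refine Set.mem_iInter₂.2 fun l hl => ?_
    exact (hzY k l (Finset.mem_filter.1 hl).2).2.2
  · rintro W ⟨⟨-, hW⟩, -⟩
    refine Or.inr (Set.mem_iUnion₂.2 ⟨k, ?_, ?_⟩)
    · exact Finset.mem_filter.2 ⟨Finset.mem_univ _, hkl, hub⟩
    · exact Set.mem_iInter₂.1 hW l (Finset.mem_filter.2 ⟨Finset.mem_univ _, hkl, hub⟩)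

end Pool.Agent.Lib.MP_d48993_lc.Bound
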