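import Pool.Agent.Lib.MP_d48993_lc.AE.Bound.Interfaces

/-!
# Board LB, module CHAR (helper74): finding 3854 (2) (a), both directions
-/

set_option autoImplicit false

namespace Pool.Agent.Lib.MP_d48993_lc.Bound

open MP_8c048d_lc (pre join RecF Sig Pih Clo Cop Del)
open H84 (KK P2)
open H30 (HomC BTree)

namespace Char

/-- One class of the ideal of `Y` outside of all ideals of the list. -/
theorem exists_class (hT : TreecStatement) {B : Set (ℕ → ℕ)} (hB : ClosedC B) {Y : ℕ → ℕ}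
    (L : List (Set (Set (ℕ → ℕ)))) (hL : ∀ t ∈ L, PI B t) (hY : ∀ t ∈ L, ¬ Fl B Y ⊆ t) :
    ∃ R, IsC B R ∧ Y ∈ R ∧ ∀ t ∈ L, R ∉ t := by
  induction L with
  | nil =>
    obtain ⟨-, h, -⟩ := hT B hB
    exact ⟨Set.univ, h, Set.mem_univ _, fun t ht => absurd ht List.not_mem_nil⟩
  | cons t L ih =>
    obtain ⟨R, hR, hYR, hRL⟩ := ih (fun s hs => hL s (List.mem_cons_of_mem _ hs))
      fun s hs => hY s (List.mem_cons_of_mem _ hs)
    obtain ⟨R', hR', hR't⟩ := Set.not_subset.1 (hY t List.mem_cons_self)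
    have hI : IsC B (R ∩ R') := ((hT B hB).2.2.1 R R' hR hR'.1).1
    refine ⟨R ∩ R', hI, ⟨hYR, hR'.2⟩, ?_⟩
    intro s hs hin
    rcases List.mem_cons.1 hs with rfl | hs'
    · exact hR't ((hL s hs).up _ hin R' hR'.1 Set.inter_subset_right)
    · exact hRL s hs' ((hL s hs).up _ hin R hR Set.inter_subset_left)

end Char

open _root_.Pool.Agent.Lib.MP_d48993_lc.Bound.Char in
/-- Module CHAR. -/
theorem char (hG : GhideStatement) (hT : TreecStatement) (hD : DelzStatement) :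
    CharStatement := by
  refine ⟨?_, ?_⟩
  · intro B Z X L hB hZ hL b c hb hc hc0 hIb hbt hU
    by_contra hX
    obtain ⟨-, -, -, hcls, -⟩ := hT B hB
    obtain ⟨dd, hdd, h1, h2⟩ := hG b c hb hc hc0
    obtain ⟨-, hlist, -, -, -, hlast⟩ := hD
    have hIc : IsC B (Up (Pt c)) := hU.1
    obtain ⟨hBb, hupb, -, -⟩ := hcls _ hIb
    obtain ⟨hBc, -, -, -⟩ := hcls _ hIc
    have key : ∀ e : ℕ, (∃ G, G ∈ KK e 0) ↔ ∃ t ∈ L, Up (P2 dd e) ∪ Up B ∈ t := by
      intro e
      constructor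
      · intro hne
        obtain ⟨F, hF, hXF, hFc⟩ := h2 e X hne hX
        have hFB : F ∉ Up B := fun h => hFc (hBc h)
        have hsub : Fl B X ⊆ Fl B F := fun U hU' =>
          ⟨hU'.1, (hcls U hU'.1).2.1 X F hU'.2 hXF⟩
        by_contra hcon
        push Not at hcon
        refine hFc (hU.2 F hFB hsub ?_)
        intro t ht hFt
        refine hcon t ht (hFt ⟨?_, Or.inl ⟨F, hF, Red.rfl⟩⟩)
        exact (hlast B Z t dd (hL t ht).1 hdd).1 e
      · rintro ⟨t, ht, hK⟩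
        by_contra hne
        refine hbt t ht ((hL t ht).2.up _ hK _ hIb ?_)
        rintro F (⟨F₀, hF₀, hr⟩ | hF)
        · rcases h1 e F₀ hF₀ with h | h
          · exact absurd h hne
          · exact hupb _ _ h.1 hr
        · exact hBb hF
    refine hZ ?_
    have hfun : (fun e : ℕ => ∃ G, G ∈ KK e 0) =
        fun e : ℕ => ∃ t ∈ L, Up (P2 dd e) ∪ Up B ∈ t := funext fun e => propext (key e)
    rw [hfun]
    exact (hlist Z ℕ (Set (Set (ℕ → ℕ))) L (fun t e => Up (P2 dd e) ∪ Up B ∈ t)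
      fun t ht => (hlast B Z t dd (hL t ht).1 hdd).2).2
  · intro B X L hB hL U hU hR
    refine ⟨hU, ?_⟩
    intro Y hYB hXY hYL
    obtain ⟨R, hRc, hYR, hRL⟩ := exists_class hT hB L hL hYL
    obtain ⟨b, c, hb, hc, hRb, hcU, hX⟩ := hR R hRc hRL
    obtain ⟨-, -, -, -, -, hhom, happ, -⟩ := hT B hB
    have h3 : Up (Hm b c) ∪ Up B ∈ Fl B Y := hXY ⟨hhom b c hb hc, Or.inl hX⟩
    rcases h3.2 with h4 | h4
    · exact hcU (happ b c Y hc h4 (hRb hYR))
    · exact absurd h4 hYB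

end Pool.Agent.Lib.MP_d48993_lc.Bound
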