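import Pool.Agent.Lib.MP_d48993_lc.AE.Bound.Interfaces

/-!
# Module COMP (MP_d48993, board LB): the closure operator of `t` adds `t` to the list
-/

set_option autoImplicit false

namespace Pool.Agent.Lib.MP_d48993_lc.Bound

open MP_8c048d_lc (pre join RecF Sig Pih Clo Cop Del)
open H84 (KK P2)
open H30 (HomC BTree)

theorem comp (hCh : CharStatement) (hCu : CurryStatement) (hT : TreecStatement) :
    CompStatement := by
  intro B Z X L t hB hZ hL htA htP
  obtain ⟨_, _, hops, htree, _, hHm, hmp, _, _⟩ := hT B hB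
  have hL' : ∀ s ∈ L ++ [t], Adm B Z s ∧ PI B s := by
    intro s hs
    rcases List.mem_append.1 hs with h | h
    · exact hL s h
    · rw [List.mem_singleton.1 h]
      exact ⟨htA, htP⟩
  apply Set.Subset.antisymm
  · rintro U ⟨hU, hall⟩
    refine ⟨hU, fun Y hY hXY hnt => ?_⟩
    refine hall Y hY (fun V hV => ?_) (hnt t (List.mem_append_right _ (List.mem_singleton.2 rfl)))
    exact ⟨hV.1, hV.2 Y hY hXY fun s hs => hnt s (List.mem_append_left _ hs)⟩
  · rintro U hU
    refine ⟨hU.1, fun Y hY hUY hYt => ?_⟩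
    obtain ⟨R, hRY, hRt⟩ := Set.not_subset.1 hYt
    obtain ⟨_, _, ⟨bR, hbR, _, hbRe⟩, _⟩ := htree R hRY.1
    obtain ⟨_, _, ⟨c, hc, hc0, hce⟩, _⟩ := htree U hU.1
    have hmem : Up (Hm bR c) ∪ Up B ∈ UU B X L := by
      refine hCh.2 B X L hB (fun s hs => (hL s hs).2) _ (hHm bR c hbR hc) ?_
      intro R0 hR0 hR0L
      obtain ⟨_, _, ⟨b0, hb0, _, hb0e⟩, _⟩ := htree R0 hR0
      obtain ⟨p, H, hp, hH, _, hpe, hHe, hcur⟩ := hCu b0 bR c hb0 hbR hc hc0
      have hpC : Up (Pt p) = R0 ∩ R := by rw [hpe, hb0e, hbRe]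
      have hRC : IsC B (R0 ∩ R) := (hops R0 R hR0 hRY.1).1
      refine ⟨b0, H, hb0, hH, hb0e.symm.subset, ?_, ?_⟩
      · rw [hHe]
        exact Set.subset_union_left
      · refine hcur X (hCh.1 B Z X (L ++ [t]) hB hZ hL' p c hp hc hc0 ?_ ?_ ?_)
        · rw [hpC]
          exact hRC
        · intro s hs
          rw [hpC]
          intro hin
          rcases List.mem_append.1 hs with h | h
          · exact hR0L s h ((hL s h).2.up _ hin R0 hR0 Set.inter_subset_left)
          · rw [List.mem_singleton.1 h] at hin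
            exact hRt (htP.up _ hin R hRY.1 Set.inter_subset_right)
        · rw [hce]
          exact hU
    rcases (hUY hmem).2 with h | h
    · have hYR : Y ∈ Up (Pt bR) := by
        rw [hbRe]
        exact hRY.2
      have := hmp bR c Y hc h hYR
      rwa [hce] at this
    · exact absurd h hY

end Pool.Agent.Lib.MP_d48993_lc.Bound
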