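import Pool.Agent.Lib.MP_d48993_lc.AE.Bound.Interfaces
import Pool.Agent.Lib.MP_d48993_lc.AE.Dec

/-!
# Board LB (MP_d48993), module CURRY: homomorphisms from a product
-/

set_option autoImplicit false

namespace Pool.Agent.Lib.MP_d48993_lc.Bound.Curry

open MP_8c048d_lc (pre join RecF length_pre pre_take pre_congr pre_getElem?)
open Hide (ev od)
open ResM (ex ex_pre jn jn_pre jn_length pre_prefix)
open H30 (HomC BTree hd)
open AE.Dec (CP)

/-! ## Codes -/

theorem take_code (s : List ℕ) (k : ℕ) : Encodable.encode (s.take k) ≤ Encodable.encode s := by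
  induction s generalizing k with
  | nil => rw [List.take_nil]
  | cons a l ih =>
    cases k with
    | zero =>
      rw [List.take_zero, Encodable.encode_list_nil]
      exact Nat.zero_le _
    | succ k =>
      rw [List.take_succ_cons, Encodable.encode_list_cons, Encodable.encode_list_cons]
      refine Nat.succ_le_succ ?_
      rcases (ih k).lt_or_eq with h | h
      · exact (Nat.pair_lt_pair_right _ h).le
      · rw [h]

theorem ex_eq (F : ℕ → ℕ) {k i : ℕ} (h : i < k) : ex (pre F k) i = F i := by
  unfold ex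
  rw [pre_getElem?, if_pos h]
  rfl

theorem ex_prefix {σ τ : List ℕ} (h : σ <+: τ) {i : ℕ} (hi : i < σ.length) : ex σ i = ex τ i := by
  obtain ⟨t, rfl⟩ := h
  unfold ex
  rw [List.getElem?_append_left hi]

theorem eq_pre {σ τ : List ℕ} (h : σ <+: τ) : σ = pre (ex τ) σ.length := by
  conv_lhs => rw [← ex_pre σ]
  exact pre_congr fun i hi => ex_prefix h hi

/-! ## Even and odd entries -/

/-- The list of the even entries. -/
def evL (w : List ℕ) : List ℕ := pre (ev (ex w)) ((w.length + 1) / 2)

/-- The list of the odd entries. -/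
def odL (w : List ℕ) : List ℕ := pre (od (ex w)) (w.length / 2)

theorem evL_pre (F : ℕ → ℕ) (k : ℕ) : evL (pre F k) = pre (ev F) ((k + 1) / 2) := by
  unfold evL
  rw [length_pre]
  refine pre_congr fun i hi => ?_
  show ex (pre F k) (2 * i) = F (2 * i)
  exact ex_eq F (by omega)

theorem odL_pre (F : ℕ → ℕ) (k : ℕ) : odL (pre F k) = pre (od F) (k / 2) := by
  unfold odL
  rw [length_pre]
  refine pre_congr fun i hi => ?_
  show ex (pre F k) (2 * i + 1) = F (2 * i + 1)
  exact ex_eq F (by omega)

theorem evL_mono {σ τ : List ℕ} (h : σ <+: τ) : evL σ <+: evL τ := by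
  have h2 : evL σ = pre (ev (ex τ)) ((σ.length + 1) / 2) := by
    conv_lhs => rw [eq_pre h]
    exact evL_pre _ _
  rw [h2]
  have := h.length_le
  exact pre_prefix _ (by omega)

theorem odL_mono {σ τ : List ℕ} (h : σ <+: τ) : odL σ <+: odL τ := by
  have h2 : odL σ = pre (od (ex τ)) (σ.length / 2) := by
    conv_lhs => rw [eq_pre h]
    exact odL_pre _ _
  rw [h2]
  have := h.length_le
  exact pre_prefix _ (by omega)

/-- The alternating list of `a` and `u`. -/
def inL (a u : List ℕ) : List ℕ := jn (ex a) u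

theorem evL_inL {a u : List ℕ} (h : a.length = u.length) : evL (inL a u) = a := by
  have h1 : inL a u = pre (join (ex a) (ex u)) (2 * u.length) := rfl
  rw [h1, evL_pre, Hide.ev_join]
  have h2 : (2 * u.length + 1) / 2 = a.length := by omega
  rw [h2]
  exact ex_pre a

theorem odL_inL (a u : List ℕ) : odL (inL a u) = u := by
  have h1 : inL a u = pre (join (ex a) (ex u)) (2 * u.length) := rfl
  rw [h1, odL_pre, Hide.od_join]
  have h2 : 2 * u.length / 2 = u.length := by omega
  rw [h2]
  exact ex_pre u

theorem ex_take (a : List ℕ) {k i : ℕ} (h : i < k) : ex (a.take k) i = ex a i := by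
  unfold ex
  rw [List.getElem?_take, if_pos h]

theorem inL_take (a u : List ℕ) {k : ℕ} (hk : k ≤ u.length) :
    (inL a u).take (2 * k) = inL (a.take k) (u.take k) := by
  have h1 : inL a u = pre (join (ex a) (ex u)) (2 * u.length) := rfl
  have h2 : inL (a.take k) (u.take k) =
      pre (join (ex (a.take k)) (ex (u.take k))) (2 * (u.take k).length) := rfl
  rw [h1, h2, pre_take, List.length_take, min_eq_left (by omega), min_eq_left hk]
  refine pre_congr fun i hi => ?_
  unfold join
  rw [ex_take a (by omega), ex_take u (by omega)]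

/-! ## Computability -/

theorem c_ex {α : Type} [Primcodable α] {f : α → List ℕ} {g : α → ℕ} (hf : Computable f)
    (hg : Computable g) : Computable fun x => ex (f x) (g x) :=
  Computable.option_getD (Computable.list_getElem?.comp hf hg) (Computable.const 0)

theorem p_ex {α : Type} [Primcodable α] {f : α → List ℕ} {g : α → ℕ} (hf : Primrec f)
    (hg : Primrec g) : Primrec fun x => ex (f x) (g x) :=
  Primrec.option_getD.comp (Primrec.list_getElem?.comp hf hg) (Primrec.const 0)

theorem p_evL : Primrec evL := by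
  refine Primrec.list_map (f := fun w : List ℕ => List.range ((w.length + 1) / 2))
    (g := fun w i => ex w (2 * i)) ?_ ?_
  · exact Primrec.list_range.comp (Primrec.nat_div.comp
      (Primrec.succ.comp Primrec.list_length) (Primrec.const 2))
  · exact p_ex Primrec.fst (Primrec.nat_mul.comp (Primrec.const 2) Primrec.snd)

theorem p_odL : Primrec odL := by
  refine Primrec.list_map (f := fun w : List ℕ => List.range (w.length / 2))
    (g := fun w i => ex w (2 * i + 1)) ?_ ?_
  · exact Primrec.list_range.comp (Primrec.nat_div.comp Primrec.list_length (Primrec.const 2))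
  · exact p_ex Primrec.fst (Primrec.succ.comp (Primrec.nat_mul.comp (Primrec.const 2) Primrec.snd))

theorem p_inL : Primrec fun x : List ℕ × List ℕ => inL x.1 x.2 := by
  refine Primrec.list_map (f := fun x : List ℕ × List ℕ => List.range (2 * x.2.length))
    (g := fun x i => if i % 2 = 0 then ex x.1 (i / 2) else ex x.2 (i / 2)) ?_ ?_
  · exact Primrec.list_range.comp (Primrec.nat_mul.comp (Primrec.const 2)
      (Primrec.list_length.comp Primrec.snd))
  · refine Primrec.ite (c := fun z : (List ℕ × List ℕ) × ℕ => z.2 % 2 = 0) ?_ ?_ ?_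
    · exact PrimrecRel.comp (R := fun a b : ℕ => a = b) Primrec.eq
        (Primrec.nat_mod.comp Primrec.snd (Primrec.const 2)) (Primrec.const 0)
    · exact p_ex (Primrec.fst.comp Primrec.fst) (Primrec.nat_div.comp Primrec.snd (Primrec.const 2))
    · exact p_ex (Primrec.snd.comp Primrec.fst) (Primrec.nat_div.comp Primrec.snd (Primrec.const 2))

/-! ## The product tree -/

/-- The product of two trees. -/
def pr (b₁ b₂ : List ℕ → Bool) (s : List ℕ) : Bool := b₁ (evL s) && b₂ (odL s)

variable {b₁ b₂ c : List ℕ → Bool}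

theorem pr_iff {s : List ℕ} : pr b₁ b₂ s = true ↔ b₁ (evL s) = true ∧ b₂ (odL s) = true :=
  Bool.and_eq_true_iff

theorem pr_tree (h₁ : BTree b₁) (h₂ : BTree b₂) : BTree (pr b₁ b₂) := by
  refine ⟨?_, fun σ τ h hτ => ?_⟩
  · exact Primrec.and.to_comp.comp (h₁.comp.comp p_evL.to_comp) (h₂.comp.comp p_odL.to_comp)
  · obtain ⟨e1, e2⟩ := pr_iff.1 hτ
    exact pr_iff.2 ⟨h₁.tree _ _ (evL_mono h) e1, h₂.tree _ _ (odL_mono h) e2⟩

theorem mem_pt {b : List ℕ → Bool} {F : ℕ → ℕ} : F ∈ Pt b ↔ ∀ k, b (pre F k) = true := Iff.rfl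

theorem mem_pr {F : ℕ → ℕ} : F ∈ Pt (pr b₁ b₂) ↔ ev F ∈ Pt b₁ ∧ od F ∈ Pt b₂ := by
  rw [mem_pt, mem_pt, mem_pt]
  constructor
  · intro h
    refine ⟨fun j => ?_, fun j => ?_⟩
    · have h1 := (pr_iff.1 (h (2 * j))).1
      rw [evL_pre] at h1
      have h2 : (2 * j + 1) / 2 = j := by omega
      rw [h2] at h1
      exact h1
    · have h1 := (pr_iff.1 (h (2 * j))).2
      rw [odL_pre] at h1
      have h2 : 2 * j / 2 = j := by omega
      rw [h2] at h1
      exact h1
  · rintro ⟨h1, h2⟩ k
    rw [pr_iff, evL_pre, odL_pre]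
    exact ⟨h1 _, h2 _⟩

theorem up_pr : Up (Pt (pr b₁ b₂)) = Up (Pt b₁) ∩ Up (Pt b₂) := by
  ext W
  constructor
  · rintro ⟨F, hF, hFW⟩
    obtain ⟨h1, h2⟩ := mem_pr.1 hF
    have e := Hide.join_ev_od F
    refine ⟨⟨ev F, h1, ?_⟩, ⟨od F, h2, ?_⟩⟩
    · have h3 := joinS.1 (ev F) (od F)
      rw [e] at h3
      exact h3.trans hFW
    · have h3 := joinS.2.1 (ev F) (od F)
      rw [e] at h3
      exact h3.trans hFW
  · rintro ⟨⟨f, hf, hfW⟩, ⟨g, hg, hgW⟩⟩
    refine ⟨join f g, mem_pr.2 ?_, joinS.2.2 f g W hfW hgW⟩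
    rw [Hide.ev_join, Hide.od_join]
    exact ⟨hf, hg⟩

/-! ## The tree of the homomorphisms -/

/-- The condition on a homomorphism at `s`. -/
def Q (b₂ c : List ℕ → Bool) (s : List ℕ) (g : ℕ → ℕ) : Prop :=
  b₂ s = true → c (hd g s) = true ∧ s.length ≤ (hd g s).length ∧
    ∀ k < s.length + 1, hd g (s.take k) <+: hd g s

theorem hd_congr {g g' : ℕ → ℕ} {s : List ℕ}
    (h : g (Encodable.encode s) = g' (Encodable.encode s)) : hd g s = hd g' s := by
  unfold hd
  rw [h]

theorem Q_congr {g g' : ℕ → ℕ} {s : List ℕ} (h : ∀ i ≤ Encodable.encode s, g i = g' i) :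
    Q b₂ c s g ↔ Q b₂ c s g' := by
  have h1 : hd g s = hd g' s := hd_congr (h _ le_rfl)
  have h2 : ∀ k, hd g (s.take k) = hd g' (s.take k) := fun k => hd_congr (h _ (take_code s k))
  unfold Q
  simp only [h1, h2]

theorem c_hd {α : Type} [Primcodable α] {f g : α → List ℕ} (hf : Computable f)
    (hg : Computable g) : Computable fun x => hd (ex (f x)) (g x) := by
  have h2 : Computable (fun n : ℕ => (Encodable.decode (α := List ℕ) n).getD []) :=
    Primrec.option_getD.to_comp.comp (Computable.decode) (Computable.const [])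
  exact h2.comp (c_ex hf (Computable.encode.comp hg))

theorem cp_prefix {α : Type} [Primcodable α] {f g : α → List ℕ} (hf : Computable f)
    (hg : Computable g) : CP fun x => f x <+: g x := by
  obtain ⟨d, hd, he⟩ := ComputablePred.computable_iff.1 ResM.prefPair
  refine ⟨fun x => d (f x, g x), hd.comp (hf.pair hg), fun x => ?_⟩
  exact (iff_of_eq (congrFun he (f x, g x))).symm

theorem cp_bool {α : Type} [Primcodable α] {f : α → Bool} (hf : Computable f) :
    CP fun x => f x = true := ⟨f, hf, fun _ => Iff.rfl⟩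

theorem cp_le {α : Type} [Primcodable α] {f g : α → ℕ} (hf : Computable f)
    (hg : Computable g) : CP fun x => f x ≤ g x := by
  obtain ⟨d, hd, he⟩ := ComputablePred.computable_iff.1 ResM.lePair
  refine ⟨fun x => d (f x, g x), hd.comp (hf.pair hg), fun x => ?_⟩
  exact (iff_of_eq (congrFun he (f x, g x))).symm

/-- The string with number `n`. -/
abbrev sn (n : ℕ) : List ℕ := Denumerable.ofNat (List ℕ) n

theorem c_sn : Computable sn := (Primrec.ofNat (List ℕ)).to_comp

theorem cp_Q (h₂ : BTree b₂) (hc : BTree c) :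
    CP fun x : List ℕ × ℕ => Q b₂ c (sn x.2) (ex x.1) := by
  have a1 : Computable fun x : List ℕ × ℕ => sn x.2 := c_sn.comp Computable.snd
  have a2 : Computable fun x : List ℕ × ℕ => hd (ex x.1) (sn x.2) := c_hd Computable.fst a1
  have a3 : CP fun z : (List ℕ × ℕ) × ℕ =>
      hd (ex z.1.1) ((sn z.1.2).take z.2) <+: hd (ex z.1.1) (sn z.1.2) := by
    have c2 : Computable (fun z : (List ℕ × ℕ) × ℕ => (sn z.1.2).take z.2) :=
      (Primrec.list_take (α := ℕ)).to_comp.comp Computable.snd (a1.comp Computable.fst)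
    exact cp_prefix (c_hd (Computable.fst.comp Computable.fst) c2)
      (c_hd (Computable.fst.comp Computable.fst) (a1.comp Computable.fst))
  exact (cp_bool (h₂.comp.comp a1)).imp ((cp_bool (hc.comp.comp a2)).and
    ((cp_le (Computable.list_length.comp a1) (Computable.list_length.comp a2)).and
      (CP.ball (p := fun (x : List ℕ × ℕ) k =>
        hd (ex x.1) ((sn x.2).take k) <+: hd (ex x.1) (sn x.2)) a3
        (Computable.succ.comp (Computable.list_length.comp a1)))))

theorem exists_H (h₂ : BTree b₂) (hc : BTree c) : ∃ H : List ℕ → Bool, Computable H ∧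
    ∀ τ, H τ = true ↔ ∀ n < τ.length, Q b₂ c (sn n) (ex τ) := by
  obtain ⟨H, hH, h⟩ := CP.ball (p := fun (τ : List ℕ) n => Q b₂ c (sn n) (ex τ)) (cp_Q h₂ hc)
    (b := fun τ : List ℕ => τ.length) Computable.list_length
  exact ⟨H, hH, h⟩

theorem Q_ex {σ τ : List ℕ} (h : σ <+: τ) {n : ℕ} (hn : n < σ.length) :
    Q b₂ c (sn n) (ex σ) ↔ Q b₂ c (sn n) (ex τ) := by
  refine Q_congr fun i hi => ?_
  rw [Denumerable.encode_ofNat] at hi
  exact ex_prefix h (by omega)

/-! ## Currying -/

/-- The value of the curried map. -/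
def cur (g : ℕ → ℕ) (s : List ℕ) (n : ℕ) : ℕ :=
  g (Encodable.encode (inL (s.take (sn n).length) (sn n)))

theorem hom_cur {g : ℕ → ℕ} (h₁ : BTree b₁) (hg : g ∈ Hm (pr b₁ b₂) c) {s : List ℕ}
    (hs : b₁ s = true) {n : ℕ} (hn : n < s.length) : Q b₂ c (sn n) (ex (pre (cur g s) s.length)) := by
  intro hu
  have hlen : (sn n).length < s.length := by
    have h1 := Encodable.length_le_encode (sn n)
    rw [Denumerable.encode_ofNat] at h1
    omega
  -- the values
  have val : ∀ k ≤ (sn n).length, hd (ex (pre (cur g s) s.length)) ((sn n).take k) =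
      hd g (inL (s.take k) ((sn n).take k)) := by
    intro k hk
    have h1 : Encodable.encode ((sn n).take k) ≤ n := by
      have h2 := take_code (sn n) k
      rw [Denumerable.encode_ofNat] at h2
      exact h2
    unfold hd
    rw [ex_eq _ (by omega)]
    unfold cur
    rw [sn, Denumerable.ofNat_encode, List.length_take, min_eq_left hk]
  have val0 : hd (ex (pre (cur g s) s.length)) (sn n) =
      hd g (inL (s.take (sn n).length) (sn n)) := by
    have h1 := val _ le_rfl
    rw [List.take_length] at h1
    exact h1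
  have hw : pr b₁ b₂ (inL (s.take (sn n).length) (sn n)) = true := by
    rw [pr_iff, evL_inL (by rw [List.length_take]; omega), odL_inL]
    exact ⟨h₁.tree _ _ (List.take_prefix _ _) hs, hu⟩
  obtain ⟨g1, g2, g3⟩ := hg _ hw
  have hl : (inL (s.take (sn n).length) (sn n)).length = 2 * (sn n).length := jn_length _ _
  rw [hl] at g2 g3
  refine ⟨?_, ?_, fun k hk => ?_⟩
  · rw [val0]
    exact g1
  · rw [val0]
    omega
  · rw [val0, val k (by omega)]
    have h1 := g3 (2 * k) (by omega)
    rw [inL_take _ _ (by omega), List.take_take, min_eq_left (by omega)] at h1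
    exact h1

theorem recF_cur : RecF fun (m : ℕ) g => Encodable.encode (pre (cur g (sn m)) (sn m).length) := by
  have e1 : Computable fun p : List ℕ × ℕ =>
      Encodable.encode (inL (p.1.take (sn p.2).length) (sn p.2)) := by
    have a1 : Computable fun p : List ℕ × ℕ => sn p.2 := c_sn.comp Computable.snd
    have a2 : Computable fun p : List ℕ × ℕ => p.1.take (sn p.2).length :=
      (Primrec.list_take (α := ℕ)).to_comp.comp (Computable.list_length.comp a1) Computable.fst
    exact Computable.encode.comp (p_inL.to_comp.comp (a2.pair a1))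
  have e2 : RecF fun (p : List ℕ × ℕ) g => cur g p.1 p.2 := RecF.at e1
  have e3 := RecF.pre' (Ψ := fun (s : List ℕ) g => cur g s) e2
  have e4 := e3.comp₁ (f := fun m : ℕ => (sn m, (sn m).length))
    (c_sn.pair (Computable.list_length.comp c_sn))
  exact RecF.comp Computable.encode e4

end Pool.Agent.Lib.MP_d48993_lc.Bound.Curry

namespace Pool.Agent.Lib.MP_d48993_lc.Bound

open MP_8c048d_lc (pre join RecF length_pre pre_take pre_congr pre_getElem?)
open ResM (ex ex_pre jn jn_pre jn_length pre_prefix)
open H30 (HomC BTree hd)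
open Curry

/-- **Module CURRY.** -/
theorem curry : CurryStatement := by
  intro b₁ b₂ c h₁ h₂ hc _
  obtain ⟨H, hH, hHs⟩ := exists_H h₂ hc
  refine ⟨pr b₁ b₂, H, pr_tree h₁ h₂, ⟨hH, fun σ τ h hτ => ?_⟩, ?_, up_pr, ?_, ?_⟩
  · rw [hHs] at hτ ⊢
    intro n hn
    have := h.length_le
    exact (Q_ex h hn).2 (hτ n (by omega))
  · rw [hHs]
    intro n hn
    exact absurd hn (Nat.not_lt_zero n)
  · ext F
    rw [mem_pt]
    constructor
    · intro h s
      have h1 := (hHs _).1 (h (Encodable.encode s + 1)) (Encodable.encode s)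
        (by rw [length_pre]; omega)
      rw [sn, Denumerable.ofNat_encode] at h1
      exact (Q_congr fun i hi => ex_eq F (by omega)).1 h1
    · intro h k
      rw [hHs]
      intro n hn
      rw [length_pre] at hn
      refine (Q_congr fun i hi => ?_).2 (h (sn n))
      rw [Denumerable.encode_ofNat] at hi
      exact ex_eq F (by omega)
  · rintro X ⟨g, hg, hgX⟩
    refine ⟨fun m => Encodable.encode (pre (cur g (sn m)) (sn m).length), ?_,
      (red1 _ recF_cur g).trans hgX⟩
    have hv : ∀ s, hd (fun m => Encodable.encode (pre (cur g (sn m)) (sn m).length)) s =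
        pre (cur g s) s.length := by
      intro s
      show (Encodable.decode (α := List ℕ) (Encodable.encode
        (pre (cur g (sn (Encodable.encode s))) (sn (Encodable.encode s)).length))).getD [] = _
      have e : sn (Encodable.encode s) = s := Denumerable.ofNat_encode s
      rw [Encodable.encodek, e]
      rfl
    intro s hs
    rw [hv]
    refine ⟨?_, ?_, fun k hk => ?_⟩
    · refine (hHs _).2 fun n hn => ?_
      rw [length_pre] at hn
      exact hom_cur h₁ hg hs hn
    · rw [length_pre]
    · rw [hv]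
      have hk' : (s.take k).length = k := by
        rw [List.length_take]
        omega
      have h1 : pre (cur g (s.take k)) (s.take k).length = pre (cur g s) k := by
        rw [hk']
        refine pre_congr fun n hn => ?_
        unfold cur
        have h2 := Encodable.length_le_encode (sn n)
        rw [Denumerable.encode_ofNat] at h2
        rw [List.take_take, min_eq_left (by omega)]
      rw [h1]
      exact pre_prefix _ (by omega)

end Pool.Agent.Lib.MP_d48993_lc.Bound
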