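import Pool.Agent.Lib.MP_d48993_lc.AE.Bound.Interfaces

/-!
# Module DELZ (helper97): the calculus of the relations which are `Δ¹₁` in a real
-/

set_option autoImplicit false

namespace Pool.Agent.Lib.MP_d48993_lc.Bound

open MP_8c048d_lc (pre join RecF Sig Pih Clo Cop Del)
open H84 (KK P2)

namespace Delz

variable {α β : Type} [Primcodable α] [Primcodable β] {Z : ℕ → ℕ}

theorem dz_congr {R R' : α → Prop} (h : DelZ Z R) (e : ∀ a, R a ↔ R' a) : DelZ Z R' := by
  obtain ⟨Q, hQ, h1⟩ := h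
  exact ⟨Q, hQ, fun a => (e a).symm.trans (h1 a)⟩

theorem dz_and {R R' : α → Prop} (h : DelZ Z R) (h' : DelZ Z R') :
    DelZ Z (fun a => R a ∧ R' a) := by
  obtain ⟨Q, hQ, h1⟩ := h
  obtain ⟨Q', hQ', h1'⟩ := h'
  exact ⟨_, hQ.and hQ', fun a => and_congr (h1 a) (h1' a)⟩

theorem dz_or {R R' : α → Prop} (h : DelZ Z R) (h' : DelZ Z R') :
    DelZ Z (fun a => R a ∨ R' a) := by
  obtain ⟨Q, hQ, h1⟩ := h
  obtain ⟨Q', hQ', h1'⟩ := h'
  exact ⟨_, hQ.or hQ', fun a => or_congr (h1 a) (h1' a)⟩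

theorem dz_not {R : α → Prop} (h : DelZ Z R) : DelZ Z (fun a => ¬ R a) := by
  obtain ⟨Q, hQ, h1⟩ := h
  exact ⟨_, hQ.not, fun a => not_congr (h1 a)⟩

theorem dz_imp {R R' : α → Prop} (h : DelZ Z R) (h' : DelZ Z R') :
    DelZ Z (fun a => R a → R' a) := by
  obtain ⟨Q, hQ, h1⟩ := h
  obtain ⟨Q', hQ', h1'⟩ := h'
  exact ⟨_, hQ.imp hQ', fun a => imp_congr (h1 a) (h1' a)⟩

theorem dz_iff {R R' : α → Prop} (h : DelZ Z R) (h' : DelZ Z R') :
    DelZ Z (fun a => (R a ↔ R' a)) :=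
  dz_congr (dz_and (dz_imp h h') (dz_imp h' h)) fun _ => iff_iff_implies_and_implies.symm

/-- A relation which is `Δ¹₁`, at the real `Z` itself. -/
theorem dz_del {Q : α → (ℕ → ℕ) → Prop} (hQ : Del Q) : DelZ Z (fun a => Q a Z) :=
  ⟨Q, hQ, fun _ => Iff.rfl⟩

theorem dz_cp {p : α → Prop} (h : ComputablePred p) : DelZ Z p :=
  ⟨_, Del.of_computable h, fun _ => Iff.rfl⟩

theorem dz_true : DelZ Z (fun _ : α => True) :=
  dz_cp ⟨fun _ => inferInstance, (Computable.const true).of_eq fun _ => by simp⟩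

theorem dz_false : DelZ Z (fun _ : α => False) :=
  dz_congr (dz_not (dz_true (α := α))) fun _ => by simp

theorem dz_ballL {ι : Type} (L : List ι) (R : ι → α → Prop) (h : ∀ i ∈ L, DelZ Z (R i)) :
    DelZ Z (fun a => ∀ i ∈ L, R i a) := by
  induction L with
  | nil => exact dz_congr dz_true fun _ => by simp
  | cons i L ih =>
    refine dz_congr (dz_and (h i List.mem_cons_self)
      (ih fun j hj => h j (List.mem_cons_of_mem _ hj))) fun a => ?_
    simp

theorem dz_bexL {ι : Type} (L : List ι) (R : ι → α → Prop) (h : ∀ i ∈ L, DelZ Z (R i)) :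
    DelZ Z (fun a => ∃ i ∈ L, R i a) := by
  induction L with
  | nil => exact dz_congr dz_false fun _ => by simp
  | cons i L ih =>
    refine dz_congr (dz_or (h i List.mem_cons_self)
      (ih fun j hj => h j (List.mem_cons_of_mem _ hj))) fun a => ?_
    simp

theorem dz_all {R : α × β → Prop} (h : DelZ Z R) : DelZ Z (fun a => ∀ b, R (a, b)) := by
  obtain ⟨Q, hQ, h1⟩ := h
  exact ⟨_, Del.all (P := fun a b F => Q (a, b) F) hQ, fun a => forall_congr' fun b => h1 (a, b)⟩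

theorem dz_ex {R : α × β → Prop} (h : DelZ Z R) : DelZ Z (fun a => ∃ b, R (a, b)) := by
  obtain ⟨Q, hQ, h1⟩ := h
  exact ⟨_, Del.ex (P := fun a b F => Q (a, b) F) hQ, fun a => exists_congr fun b => h1 (a, b)⟩

theorem dz_comp {R : β → Prop} (h : DelZ Z R) {g : α → β} (hg : Computable g) :
    DelZ Z (fun a => R (g a)) := by
  obtain ⟨Q, hQ, h1⟩ := h
  exact ⟨_, hQ.comp hg, fun a => h1 (g a)⟩

/-- A relation which is `Δ¹₁`, at a column of `Z`. -/
theorem dz_col {Q : α → (ℕ → ℕ) → Prop} (k : ℕ) (hQ : Del Q) :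
    DelZ Z (fun a => Q a (Colz Z k)) := by
  refine ⟨fun a F => Q a (Colz F k), ?_, fun _ => Iff.rfl⟩
  refine hQ.subst (ψ := fun a _ => a) (RecF.of_computable Computable.id)
    (Ψ := fun _ F => Colz F k) ?_
  exact RecF.at (f := fun p : α × ℕ => Nat.pair k p.2)
    (Primrec₂.natPair.to_comp.comp (Computable.const k) Computable.snd)

theorem kk_closed (r e : ℕ) : ClosedC (KK r e) :=
  H84.KK_clo.comp (f := fun _ : Unit => (r, e)) (Computable.const _)

end Delz

open Delz in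
/-- Module DELZ. -/
theorem delz (hU : Upi2Statement) : DelzStatement := by
  refine ⟨?_, ?_, ?_, ?_, ?_, ?_⟩
  · intro Z α _ R R' h h'
    exact ⟨dz_and h h', dz_or h h', dz_not h, dz_imp h h'⟩
  · intro Z α _ ι L R h
    exact ⟨dz_ballL L R h, dz_bexL L R h⟩
  · intro Z α β _ _ R h
    exact ⟨dz_all h, dz_ex h⟩
  · intro Z α β _ _ R g hg h
    exact dz_comp h hg
  · intro Z α _ Q k hQ
    exact dz_col k hQ
  · intro B Z t dd ht hdd
    obtain ⟨r, hr⟩ := hU dd hdd
    constructor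
    · intro e
      exact ⟨KK r e, kk_closed r e, by rw [hr e]⟩
    · have h1 : DelZ Z (fun e : ℕ => Up (KK r e) ∪ Up B ∈ t) :=
        dz_comp (g := fun e : ℕ => (r, e)) ht ((Computable.const r).pair Computable.id)
      exact dz_congr h1 fun e => by rw [hr e]

end Pool.Agent.Lib.MP_d48993_lc.Bound
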