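import Pool.Agent.Lib.MP_d48993_lc.AE.Bound.Interfaces
import Pool.Agent.Lib.MP_d48993_lc.AE.Dec

/-!
# Module FDEC (helper5): satisfiability in all small finite frames is decidable, uniformly
-/

set_option autoImplicit false

namespace Pool.Agent.Lib.MP_d48993_lc.Bound

namespace Fdec

open AE.Dec (CP)
open AE.Dec

variable {α β : Type} [Primcodable α] [Primcodable β]

theorem ball2 {p : α → ℕ → ℕ → Prop} (hp : CP fun x : (α × ℕ) × ℕ => p x.1.1 x.1.2 x.2)
    {b : α → ℕ} (hb : Computable b) : CP fun a => ∀ k < b a, ∀ l < b a, p a k l :=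
  CP.ball (p := fun a k => ∀ l < b a, p a k l)
    (CP.ball (p := fun (y : α × ℕ) l => p y.1 y.2 l) hp (hb.comp Computable.fst)) hb

theorem ball3 {p : α → ℕ → ℕ → ℕ → Prop}
    (hp : CP fun x : ((α × ℕ) × ℕ) × ℕ => p x.1.1.1 x.1.1.2 x.1.2 x.2)
    {b : α → ℕ} (hb : Computable b) :
    CP fun a => ∀ k < b a, ∀ l < b a, ∀ r < b a, p a k l r :=
  ball2 (p := fun a k l => ∀ r < b a, p a k l r)
    (CP.ball (p := fun (y : (α × ℕ) × ℕ) r => p y.1.1 y.1.2 y.2 r) hp
      (hb.comp (Computable.fst.comp Computable.fst))) hb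

/-! ## Digits -/

/-- The digit `i` of `c` in base `B`. -/
def dg (B c i : ℕ) : ℕ := c / B ^ i % B

theorem exists_dg (B K : ℕ) (p : ℕ → ℕ) (hp : ∀ i < K, p i < B) :
    ∃ c < B ^ K, ∀ i < K, dg B c i = p i := by
  induction K with
  | zero => exact ⟨0, by simp, fun i hi => absurd hi (Nat.not_lt_zero i)⟩
  | succ K ih =>
    obtain ⟨c, hc, h⟩ := ih fun i hi => hp i (by omega)
    have hB : 0 < B := lt_of_le_of_lt (Nat.zero_le _) (hp K (Nat.lt_succ_self K))
    have hBK : 0 < B ^ K := Nat.pow_pos hB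
    refine ⟨c + p K * B ^ K, ?_, fun i hi => ?_⟩
    · have h1 : p K + 1 ≤ B := hp K (Nat.lt_succ_self K)
      calc c + p K * B ^ K < B ^ K + p K * B ^ K := by omega
        _ = (p K + 1) * B ^ K := by ring
        _ ≤ B * B ^ K := Nat.mul_le_mul_right _ h1
        _ = B ^ (K + 1) := by ring
    · unfold dg
      rcases Nat.lt_succ_iff_lt_or_eq.1 hi with hi' | hi'
      · have e : p K * B ^ K = B ^ i * (B * (p K * B ^ (K - i - 1))) := by
          have : B ^ K = B ^ i * (B * B ^ (K - i - 1)) := by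
            rw [← pow_succ', ← pow_add]
            congr 1
            omega
          rw [this]
          ring
        rw [e, Nat.add_mul_div_left _ _ (Nat.pow_pos hB), Nat.add_mul_mod_self_left]
        exact h i hi'
      · subst hi'
        rw [Nat.add_mul_div_right _ _ hBK, Nat.div_eq_of_lt hc, zero_add,
          Nat.mod_eq_of_lt (hp i (Nat.lt_succ_self i))]

theorem dg_prim : Primrec fun p : ℕ × ℕ × ℕ => dg p.1 p.2.1 p.2.2 :=
  Primrec.nat_mod.comp (Primrec.nat_div.comp (Primrec.fst.comp Primrec.snd)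
    (pow_prim.comp Primrec.fst (Primrec.snd.comp Primrec.snd))) Primrec.fst

/-! ## Codes of frames -/

/-- A code: number of variables, length, masks, order, operators. -/
abbrev Pm : Type := ℕ × ℕ × ℕ × ℕ × ℕ

/-- The order. -/
def LEc (x : Pm) (k l : ℕ) : Prop := x.2.2.2.1.testBit (k * x.2.1 + l) = true

/-- The operators. -/
def PIc (x : Pm) (t y : ℕ) : ℕ := dg x.2.1 x.2.2.2.2 (t * x.2.1 + y)

/-- The masks. -/
def MKc (x : Pm) (k : ℕ) : ℕ := dg (2 ^ x.1) x.2.2.1 k

/-- The list of the masks. -/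
def L1 (x : Pm) : List ℕ := (List.range x.2.1).map (MKc x)

theorem cn : Computable fun x : Pm => x.1 := Computable.fst
theorem clen : Computable fun x : Pm => x.2.1 := Computable.fst.comp Computable.snd
theorem cm : Computable fun x : Pm => x.2.2.1 :=
  Computable.fst.comp (Computable.snd.comp Computable.snd)
theorem co : Computable fun x : Pm => x.2.2.2.1 :=
  Computable.fst.comp (Computable.snd.comp (Computable.snd.comp Computable.snd))
theorem cp : Computable fun x : Pm => x.2.2.2.2 :=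
  Computable.snd.comp (Computable.snd.comp (Computable.snd.comp Computable.snd))

theorem CP.lec {x : α → Pm} {k l : α → ℕ} (hx : Computable x) (hk : Computable k)
    (hl : Computable l) : CP fun a => LEc (x a) (k a) (l a) :=
  CP.bit (co.comp hx) (Primrec.nat_add.to_comp.comp
    (Primrec.nat_mul.to_comp.comp hk (clen.comp hx)) hl)

theorem pic_comp {x : α → Pm} {k l : α → ℕ} (hx : Computable x) (hk : Computable k)
    (hl : Computable l) : Computable fun a => PIc (x a) (k a) (l a) :=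
  dg_prim.to_comp.comp (Computable.pair (clen.comp hx) (Computable.pair (cp.comp hx)
    (Primrec.nat_add.to_comp.comp (Primrec.nat_mul.to_comp.comp hk (clen.comp hx)) hl)))

theorem mkc_prim : Primrec₂ MKc :=
  dg_prim.comp (Primrec.pair (pow_prim.comp (Primrec.const 2)
    (Primrec.fst.comp Primrec.fst)) (Primrec.pair
      (Primrec.fst.comp (Primrec.snd.comp (Primrec.snd.comp Primrec.fst))) Primrec.snd))

theorem CP.mkb {x : α → Pm} {k i : α → ℕ} (hx : Computable x) (hk : Computable k)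
    (hi : Computable i) : CP fun a => (MKc (x a) (k a)).testBit (i a) = true :=
  CP.bit (mkc_prim.to_comp.comp hx hk) hi

theorem l1_comp : Computable L1 :=
  (Primrec.list_map (Primrec.list_range.comp (Primrec.fst.comp Primrec.snd)) mkc_prim).to_comp

/-- The list of the pairs with numbers below a bound with a decidable property. -/
theorem plist {p : α → ℕ → Prop} (hp : CP fun x : α × ℕ => p x.1 x.2) {b : α → ℕ}
    (hb : Computable b) : ∃ T : α → List (ℕ × ℕ), Computable T ∧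
      ∀ a q, q ∈ T a ↔ Nat.pair q.1 q.2 < b a ∧ p a (Nat.pair q.1 q.2) := by
  obtain ⟨f, hf, h⟩ := hp
  refine ⟨fun a => Nat.rec (motive := fun _ => List (ℕ × ℕ)) []
    (fun k acc => bif f (a, k) then k.unpair :: acc else acc) (b a), ?_, ?_⟩
  · refine Computable.nat_rec (h := fun a q => bif f (a, q.1) then q.1.unpair :: q.2 else q.2) hb
      (Computable.const []) ?_
    refine Computable.cond
      (hf.comp (Computable.pair Computable.fst (Computable.fst.comp Computable.snd)))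
      (Computable.list_cons.comp
        (Computable.unpair.comp (Computable.fst.comp Computable.snd))
        (Computable.snd.comp Computable.snd)) (Computable.snd.comp Computable.snd)
  · intro a q
    show q ∈ Nat.rec (motive := fun _ => List (ℕ × ℕ)) []
      (fun k acc => bif f (a, k) then k.unpair :: acc else acc) (b a) ↔
        Nat.pair q.1 q.2 < b a ∧ p a (Nat.pair q.1 q.2)
    have hq : ∀ m : ℕ, q = m.unpair ↔ Nat.pair q.1 q.2 = m := by
      intro m
      constructor
      · intro e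
        rw [e, Nat.pair_unpair]
      · intro e
        rw [← e, Nat.unpair_pair]
    generalize b a = B
    induction B with
    | zero => simp
    | succ m ih =>
      show q ∈ (bif f (a, m) then m.unpair :: Nat.rec (motive := fun _ => List (ℕ × ℕ)) []
        (fun k acc => bif f (a, k) then k.unpair :: acc else acc) m else _) ↔ _
      by_cases hm : f (a, m) = true
      · have hm' := (h (a, m)).1 hm
        rw [hm, cond_true, List.mem_cons]
        refine (or_congr (hq m) ih).trans ?_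
        constructor
        · rintro (ht | ⟨ht, hp⟩)
          · rw [ht]
            exact ⟨by omega, hm'⟩
          · exact ⟨by omega, hp⟩
        · rintro ⟨ht, hp⟩
          rcases Nat.lt_succ_iff_lt_or_eq.1 ht with ht' | ht'
          · exact Or.inr ⟨ht', hp⟩
          · exact Or.inl ht'
      · have hm' : ¬ p a m := fun hc => hm ((h (a, m)).2 hc)
        have hm'' : f (a, m) = false := by simpa using hm
        rw [hm'', cond_false]
        refine Iff.trans ih ?_
        constructor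
        · rintro ⟨ht, hp⟩
          exact ⟨by omega, hp⟩
        · rintro ⟨ht, hp⟩
          rcases Nat.lt_succ_iff_lt_or_eq.1 ht with ht' | ht'
          · exact ⟨ht', hp⟩
          · rw [ht'] at hp
            exact absurd hp hm'

theorem exists_l2 : ∃ L2 : Pm → List (ℕ × ℕ), Computable L2 ∧
    ∀ x k l, (k, l) ∈ L2 x ↔ k < x.2.1 ∧ l < x.2.1 ∧ PIc x l k ≠ k := by
  have h1 : CP fun y : Pm × ℕ => y.2.unpair.1 < y.1.2.1 := by
    refine ⟨fun y => decide (y.2.unpair.1 < y.1.2.1), ?_, fun y => by simp⟩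
    exact Primrec.nat_lt.decide.to_comp.comp
      (Computable.fst.comp (Computable.unpair.comp Computable.snd)) (clen.comp Computable.fst)
  have h2 : CP fun y : Pm × ℕ => y.2.unpair.2 < y.1.2.1 := by
    refine ⟨fun y => decide (y.2.unpair.2 < y.1.2.1), ?_, fun y => by simp⟩
    exact Primrec.nat_lt.decide.to_comp.comp
      (Computable.snd.comp (Computable.unpair.comp Computable.snd)) (clen.comp Computable.fst)
  have h3 : CP fun y : Pm × ℕ => ¬ PIc y.1 y.2.unpair.2 y.2.unpair.1 = y.2.unpair.1 :=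
    CP.not (CP.eqN (pic_comp Computable.fst
      (Computable.snd.comp (Computable.unpair.comp Computable.snd))
      (Computable.fst.comp (Computable.unpair.comp Computable.snd)))
      (Computable.fst.comp (Computable.unpair.comp Computable.snd)))
  obtain ⟨T, hT, h⟩ := plist (p := fun (x : Pm) m => m.unpair.1 < x.2.1 ∧ m.unpair.2 < x.2.1 ∧
    ¬ PIc x m.unpair.2 m.unpair.1 = m.unpair.1) (CP.and h1 (CP.and h2 h3))
    (b := fun x => (x.2.1 + 1) ^ 2)
    (pow_prim.to_comp.comp (Primrec.nat_add.to_comp.comp clen (Computable.const 1))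
      (Computable.const 2))
  refine ⟨T, hT, fun x k l => ?_⟩
  rw [h]
  show Nat.pair k l < (x.2.1 + 1) ^ 2 ∧ (Nat.pair k l).unpair.1 < x.2.1 ∧ _ ∧ _ ↔ _
  rw [Nat.unpair_pair]
  constructor
  · rintro ⟨-, a, b, c⟩
    exact ⟨a, b, c⟩
  · rintro ⟨a, b, c⟩
    exact ⟨pair_lt a b, a, b, c⟩

/-! ## The check -/

/-- The code is the code of a frame. -/
def Chk (x : Pm) : Prop :=
  0 < x.2.1 ∧
  (∀ k < x.2.1, LEc x k k) ∧
  (∀ k < x.2.1, ∀ l < x.2.1, ∀ r < x.2.1, LEc x k l → LEc x l r → LEc x k r) ∧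
  (∀ k < x.2.1, ∀ l < x.2.1, LEc x k l → LEc x l k → k = l) ∧
  (∀ k < x.2.1, ∀ l < x.2.1, LEc x k l → ∀ i < x.1, (MKc x k).testBit i = true →
    (MKc x l).testBit i = true) ∧
  (∀ t < x.2.1, ∀ y < x.2.1, PIc x t y < x.2.1) ∧
  (∀ t < x.2.1, ∀ y < x.2.1, ∀ z < x.2.1, LEc x y z → LEc x (PIc x t y) (PIc x t z)) ∧
  (∀ t < x.2.1, ∀ y < x.2.1, LEc x y (PIc x t y)) ∧
  (∀ t < x.2.1, ∀ y < x.2.1, PIc x t (PIc x t y) = PIc x t y) ∧
  (∀ s < x.2.1, ∀ t < x.2.1, ∀ y < x.2.1, PIc x s (PIc x t y) = PIc x t (PIc x s y)) ∧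
  (∀ t < x.2.1, ∀ y < x.2.1, ¬ (LEc x y t ∧ ¬ y = t) → PIc x t y = y) ∧
  (∀ t < x.2.1, ∀ y < x.2.1, LEc x y t → LEc x (PIc x t y) t) ∧
  (∀ s < x.2.1, ∀ t < x.2.1, ∀ y < x.2.1, LEc x s t → LEc x (PIc x s y) (PIc x t y)) ∧
  (∀ k < x.2.1, LEc x 0 k) ∧
  (∀ k < x.2.1, (∀ i < x.1, (MKc x k).testBit i = true → (MKc x 0).testBit i = true) → k = 0) ∧
  (∀ t < x.2.1, PIc x t 0 = 0)

theorem CP.lt {f g : α → ℕ} (hf : Computable f) (hg : Computable g) : CP fun a => f a < g a :=
  ⟨fun a => decide (f a < g a), Primrec.nat_lt.decide.to_comp.comp hf hg, fun a => by simp⟩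

theorem cp_chk : CP Chk := by
  -- projections
  have a0 : Computable fun y : Pm × ℕ => y.1 := Computable.fst
  have a1 : Computable fun y : Pm × ℕ => y.2 := Computable.snd
  have b0 : Computable fun y : (Pm × ℕ) × ℕ => y.1.1 := Computable.fst.comp Computable.fst
  have b1 : Computable fun y : (Pm × ℕ) × ℕ => y.1.2 := Computable.snd.comp Computable.fst
  have b2 : Computable fun y : (Pm × ℕ) × ℕ => y.2 := Computable.snd
  have c0 : Computable fun y : ((Pm × ℕ) × ℕ) × ℕ => y.1.1.1 := b0.comp Computable.fst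
  have c1 : Computable fun y : ((Pm × ℕ) × ℕ) × ℕ => y.1.1.2 := b1.comp Computable.fst
  have c2 : Computable fun y : ((Pm × ℕ) × ℕ) × ℕ => y.1.2 := b2.comp Computable.fst
  have c3 : Computable fun y : ((Pm × ℕ) × ℕ) × ℕ => y.2 := Computable.snd
  refine CP.and (CP.lt (Computable.const 0) clen) ?_
  refine CP.and (CP.ball (p := fun (x : Pm) k => LEc x k k) (CP.lec a0 a1 a1) clen) ?_
  refine CP.and (ball3 (p := fun (x : Pm) k l r => LEc x k l → LEc x l r → LEc x k r)
    (CP.imp (CP.lec c0 c1 c2) (CP.imp (CP.lec c0 c2 c3) (CP.lec c0 c1 c3))) clen) ?_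
  refine CP.and (ball2 (p := fun (x : Pm) k l => LEc x k l → LEc x l k → k = l)
    (CP.imp (CP.lec b0 b1 b2) (CP.imp (CP.lec b0 b2 b1) (CP.eqN b1 b2))) clen) ?_
  refine CP.and (ball2 (p := fun (x : Pm) k l => LEc x k l → ∀ i < x.1,
    (MKc x k).testBit i = true → (MKc x l).testBit i = true)
    (CP.imp (CP.lec b0 b1 b2) (CP.ball (p := fun (y : (Pm × ℕ) × ℕ) i =>
      (MKc y.1.1 y.1.2).testBit i = true → (MKc y.1.1 y.2).testBit i = true)
      (CP.imp (CP.mkb c0 c1 c3) (CP.mkb c0 c2 c3)) (cn.comp b0))) clen) ?_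
  refine CP.and (ball2 (p := fun (x : Pm) t y => PIc x t y < x.2.1)
    (CP.lt (pic_comp b0 b1 b2) (clen.comp b0)) clen) ?_
  refine CP.and (ball3 (p := fun (x : Pm) t y z => LEc x y z → LEc x (PIc x t y) (PIc x t z))
    (CP.imp (CP.lec c0 c2 c3) (CP.lec c0 (pic_comp c0 c1 c2) (pic_comp c0 c1 c3))) clen) ?_
  refine CP.and (ball2 (p := fun (x : Pm) t y => LEc x y (PIc x t y))
    (CP.lec b0 b2 (pic_comp b0 b1 b2)) clen) ?_
  refine CP.and (ball2 (p := fun (x : Pm) t y => PIc x t (PIc x t y) = PIc x t y)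
    (CP.eqN (pic_comp b0 b1 (pic_comp b0 b1 b2)) (pic_comp b0 b1 b2)) clen) ?_
  refine CP.and (ball3 (p := fun (x : Pm) s t y => PIc x s (PIc x t y) = PIc x t (PIc x s y))
    (CP.eqN (pic_comp c0 c1 (pic_comp c0 c2 c3)) (pic_comp c0 c2 (pic_comp c0 c1 c3))) clen) ?_
  refine CP.and (ball2 (p := fun (x : Pm) t y => ¬ (LEc x y t ∧ ¬ y = t) → PIc x t y = y)
    (CP.imp (CP.not (CP.and (CP.lec b0 b2 b1) (CP.not (CP.eqN b2 b1))))
      (CP.eqN (pic_comp b0 b1 b2) b2)) clen) ?_
  refine CP.and (ball2 (p := fun (x : Pm) t y => LEc x y t → LEc x (PIc x t y) t)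
    (CP.imp (CP.lec b0 b2 b1) (CP.lec b0 (pic_comp b0 b1 b2) b1)) clen) ?_
  refine CP.and (ball3 (p := fun (x : Pm) s t y => LEc x s t → LEc x (PIc x s y) (PIc x t y))
    (CP.imp (CP.lec c0 c1 c2) (CP.lec c0 (pic_comp c0 c1 c3) (pic_comp c0 c2 c3))) clen) ?_
  refine CP.and (CP.ball (p := fun (x : Pm) k => LEc x 0 k)
    (CP.lec a0 (Computable.const 0) a1) clen) ?_
  refine CP.and (CP.ball (p := fun (x : Pm) k => (∀ i < x.1, (MKc x k).testBit i = true →
      (MKc x 0).testBit i = true) → k = 0)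
    (CP.imp (CP.ball (p := fun (y : Pm × ℕ) i => (MKc y.1 y.2).testBit i = true →
      (MKc y.1 0).testBit i = true)
      (CP.imp (CP.mkb b0 b1 b2) (CP.mkb b0 (Computable.const 0) b2)) (cn.comp a0))
      (CP.eqN a1 (Computable.const 0))) clen) ?_
  exact CP.ball (p := fun (x : Pm) t => PIc x t 0 = 0)
    (CP.eqN (pic_comp a0 a1 (Computable.const 0)) (Computable.const 0)) clen

theorem l1_length (x : Pm) : (L1 x).length = x.2.1 := by simp [L1]

theorem l1_getD {x : Pm} {k : ℕ} (hk : k < x.2.1) : (L1 x).getD k 0 = MKc x k := by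
  rw [List.getD_eq_getElem _ _ (by rw [l1_length]; exact hk)]
  simp [L1]

theorem isFT_of_chk {x : Pm} {L : List (ℕ × ℕ)}
    (hL : ∀ k l, (k, l) ∈ L ↔ k < x.2.1 ∧ l < x.2.1 ∧ PIc x l k ≠ k) (h : Chk x) :
    IsFT x.1 (L1 x, L) (LEc x) (PIc x) := by
  obtain ⟨h0, h1, h2, h3, h4, h5, h6, h7, h8, h9, h10, h11, h12, h13, h14, h15⟩ := h
  have hl : ((L1 x, L) : Typ).1.length = x.2.1 := l1_length x
  have hIn : ∀ k < x.2.1, ∀ i, Typ.In (L1 x, L) k i ↔ (MKc x k).testBit i = true := by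
    intro k hk i
    unfold Typ.In
    show ((L1 x).getD k 0).testBit i = true ↔ _
    rw [l1_getD hk]
  constructor
  · rw [hl]; exact h0
  · intro m hm
    obtain ⟨k, -, rfl⟩ := List.mem_map.1 hm
    exact Nat.mod_lt _ (Nat.two_pow_pos _)
  all_goals try rw [hl]
  · exact h1
  · exact h2
  · exact h3
  · intro k hk l hl' h i hi
    rw [hIn k hk, hIn l hl']
    exact h4 k hk l hl' h i hi
  · exact h5
  · exact h6
  · exact h7
  · exact h8
  · exact h9
  · exact h10
  · exact h11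
  · exact h12
  · exact h13
  · intro k hk h
    refine h14 k hk fun i hi h' => ?_
    have := h i hi
    rw [hIn k hk, hIn 0 h0] at this
    exact this h'
  · exact h15
  · exact hL

theorem exists_code_frame {n : ℕ} {τ : Typ} (hτ : FrameTyp n τ) :
    ∃ m < 2 ^ (n * τ.1.length), ∃ o < 2 ^ (τ.1.length * τ.1.length),
      ∃ p < τ.1.length ^ (τ.1.length * τ.1.length),
        Chk (n, τ.1.length, m, o, p) ∧ L1 (n, τ.1.length, m, o, p) = τ.1 ∧
        ∀ k l, (k, l) ∈ τ.2 ↔ k < τ.1.length ∧ l < τ.1.length ∧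
          PIc (n, τ.1.length, m, o, p) l k ≠ k := by
  obtain ⟨le, π, h⟩ := hτ
  obtain ⟨m, hm, hm'⟩ := exists_dg (2 ^ n) τ.1.length (fun k => τ.1.getD k 0) (by
    intro k hk
    refine h.lt _ ?_
    show τ.1.getD k 0 ∈ τ.1
    rw [List.getD_eq_getElem _ _ hk]
    exact List.getElem_mem hk)
  obtain ⟨o, ho, ho'⟩ := exists_code (τ.1.length * τ.1.length)
    (fun i => le (i / τ.1.length) (i % τ.1.length))
  obtain ⟨p, hp, hp'⟩ := exists_dg τ.1.length (τ.1.length * τ.1.length)
    (fun i => π (i / τ.1.length) (i % τ.1.length)) (by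
    intro i hi
    exact h.mem _ (Nat.div_lt_of_lt_mul hi) _ (Nat.mod_lt _ h.pos))
  have hpos := h.pos
  have hidx : ∀ k < τ.1.length, ∀ l < τ.1.length,
      k * τ.1.length + l < τ.1.length * τ.1.length ∧
      (k * τ.1.length + l) / τ.1.length = k ∧ (k * τ.1.length + l) % τ.1.length = l := by
    intro k hk l hl
    refine ⟨?_, ?_, ?_⟩
    · have : (k + 1) * τ.1.length ≤ τ.1.length * τ.1.length := Nat.mul_le_mul_right _ hk
      have e : (k + 1) * τ.1.length = k * τ.1.length + τ.1.length := by ring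
      omega
    · rw [mul_comm, Nat.mul_add_div hpos, Nat.div_eq_of_lt hl, add_zero]
    · rw [mul_comm, Nat.mul_add_mod, Nat.mod_eq_of_lt hl]
  have hle : ∀ k < τ.1.length, ∀ l < τ.1.length,
      (LEc (n, τ.1.length, m, o, p) k l ↔ le k l) := by
    intro k hk l hl
    obtain ⟨e1, e2, e3⟩ := hidx k hk l hl
    have := ho' _ e1
    rw [e2, e3] at this
    exact this
  have hpi : ∀ k < τ.1.length, ∀ l < τ.1.length,
      PIc (n, τ.1.length, m, o, p) k l = π k l := by
    intro k hk l hl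
    obtain ⟨e1, e2, e3⟩ := hidx k hk l hl
    have := hp' _ e1
    rw [e2, e3] at this
    exact this
  have hmk : ∀ k < τ.1.length, MKc (n, τ.1.length, m, o, p) k = τ.1.getD k 0 := hm'
  have hmem := h.mem
  refine ⟨m, by rwa [pow_mul], o, ho, p, hp, ?_, ?_, ?_⟩
  · refine ⟨hpos, ?_, ?_, ?_, ?_, ?_, ?_, ?_, ?_, ?_, ?_, ?_, ?_, ?_, ?_, ?_⟩
    · intro k hk
      exact (hle k hk k hk).2 (h.refl k hk)
    · intro k hk l hl r hr
      rw [hle k hk l hl, hle l hl r hr, hle k hk r hr]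
      exact h.trans k hk l hl r hr
    · intro k hk l hl
      rw [hle k hk l hl, hle l hl k hk]
      exact h.antisymm k hk l hl
    · intro k hk l hl
      rw [hle k hk l hl, hmk k hk, hmk l hl]
      exact h.mask k hk l hl
    · intro t ht y hy
      show PIc (n, τ.1.length, m, o, p) t y < τ.1.length
      rw [hpi t ht y hy]
      exact h.mem t ht y hy
    · intro t ht y hy z hz
      rw [hle y hy z hz, hpi t ht y hy, hpi t ht z hz, hle _ (hmem t ht y hy) _ (hmem t ht z hz)]
      exact h.mono t ht y hy z hz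
    · intro t ht y hy
      rw [hpi t ht y hy, hle y hy _ (hmem t ht y hy)]
      exact h.infl t ht y hy
    · intro t ht y hy
      rw [hpi t ht y hy, hpi t ht _ (hmem t ht y hy)]
      exact h.idem t ht y hy
    · intro s hs t ht y hy
      rw [hpi t ht y hy, hpi s hs y hy, hpi s hs _ (hmem t ht y hy), hpi t ht _ (hmem s hs y hy)]
      exact h.comm s hs t ht y hy
    · intro t ht y hy
      rw [hle y hy t ht, hpi t ht y hy]
      exact h.off t ht y hy
    · intro t ht y hy
      rw [hle y hy t ht, hpi t ht y hy, hle _ (hmem t ht y hy) t ht]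
      exact h.below t ht y hy
    · intro s hs t ht y hy
      rw [hle s hs t ht, hpi s hs y hy, hpi t ht y hy,
        hle _ (hmem s hs y hy) _ (hmem t ht y hy)]
      exact h.tmono s hs t ht y hy
    · intro k hk
      exact (hle 0 hpos k hk).2 (h.bot k hk)
    · intro k hk h'
      rw [hmk k hk, hmk 0 hpos] at h'
      exact h.alone k hk h'
    · intro t ht
      rw [hpi t ht 0 hpos]
      exact h.free t ht
  · refine List.ext_getElem (l1_length _) fun k h1 h2 => ?_
    have e := l1_getD (x := (n, τ.1.length, m, o, p)) h2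
    rw [List.getD_eq_getElem _ _ h1] at e
    rw [e, hmk k h2, List.getD_eq_getElem _ _ h2]
  · intro k l
    rw [h.bl k l]
    constructor
    · rintro ⟨hk, hl, h'⟩
      exact ⟨hk, hl, by rwa [hpi l hl k hk]⟩
    · rintro ⟨hk, hl, h'⟩
      exact ⟨hk, hl, by rwa [hpi l hl k hk] at h'⟩

theorem sat_congr {τ τ' : Typ} (n : ℕ) (φ : QF) (h1 : τ.1 = τ'.1)
    (h2 : ∀ k l, (k, l) ∈ τ.2 ↔ (k, l) ∈ τ'.2) : Sat τ n φ ↔ Sat τ' n φ := by
  have key : ∀ τ τ' : Typ, τ.1 = τ'.1 → (∀ k l, (k, l) ∈ τ.2 ↔ (k, l) ∈ τ'.2) →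
      Sat τ n φ → Sat τ' n φ := by
    rintro τ τ' h1 h2 ⟨N, hN, v, ha, hb, hc⟩
    refine ⟨N, hN, v, ?_, ?_, ?_⟩
    · rintro j ⟨k, l⟩ hp
      exact ha j (k, l) ((h2 k l).2 hp)
    · intro i hi k hk a haN
      rw [hb i hi k (by rw [h1]; exact hk) a haN]
      unfold Typ.In
      rw [h1]
    · have e : (fun i j => PLe τ' N (v i) (v j)) = fun i j => PLe τ N (v i) (v j) := by
        funext i j
        unfold PLe
        rw [h1]
      rw [e]
      exact hc
  exact ⟨key τ τ' h1 h2, key τ' τ h1.symm fun k l => (h2 k l).symm⟩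

theorem F_comp : Computable F := by
  have h : Computable fun k : ℕ => Nat.rec (motive := fun _ => ℕ) 0
      (fun _ r => r + (2 * 2 ^ r) ^ (2 ^ r)) k := by
    refine Computable.nat_rec (h := fun (_ : ℕ) q => q.2 + (2 * 2 ^ q.2) ^ (2 ^ q.2))
      Computable.id (Computable.const 0) ?_
    have r : Computable fun y : ℕ × (ℕ × ℕ) => y.2.2 := Computable.snd.comp Computable.snd
    have e : Computable fun y : ℕ × (ℕ × ℕ) => 2 ^ y.2.2 :=
      pow_prim.to_comp.comp (Computable.const 2) r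
    exact Primrec.nat_add.to_comp.comp r (pow_prim.to_comp.comp
      (Primrec.nat_mul.to_comp.comp (Computable.const 2) e) e)
  refine h.of_eq fun k => ?_
  induction k with
  | zero => rfl
  | succ k ih =>
    show _ = F k + (2 * 2 ^ F k) ^ (2 ^ F k)
    rw [← ih]

/-- The check of the top region. -/
def ChkT (x : Pm) : Prop := ∃ k < x.2.1, ∀ i < x.1, (MKc x k).testBit i = true

theorem cp_chkT : CP ChkT := by
  have b0 : Computable fun y : (Pm × ℕ) × ℕ => y.1.1 := Computable.fst.comp Computable.fst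
  have b1 : Computable fun y : (Pm × ℕ) × ℕ => y.1.2 := Computable.snd.comp Computable.fst
  have b2 : Computable fun y : (Pm × ℕ) × ℕ => y.2 := Computable.snd
  exact CP.bex (p := fun (x : Pm) k => ∀ i < x.1, (MKc x k).testBit i = true)
    (CP.ball (p := fun (y : Pm × ℕ) i => (MKc y.1 y.2).testBit i = true)
      (CP.mkb b0 b1 b2) (cn.comp Computable.fst)) clen

theorem topIn_iff {x : Pm} {L : List (ℕ × ℕ)} : TopIn x.1 (L1 x, L) ↔ ChkT x := by
  have hl : ((L1 x, L) : Typ).1.length = x.2.1 := l1_length x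
  unfold TopIn ChkT
  rw [hl]
  constructor
  · rintro ⟨k, hk, h⟩
    refine ⟨k, hk, fun i hi => ?_⟩
    have := h i hi
    unfold Typ.In at this
    rwa [show ((L1 x, L) : Typ).1.getD k 0 = MKc x k from l1_getD hk] at this
  · rintro ⟨k, hk, h⟩
    refine ⟨k, hk, fun i hi => ?_⟩
    unfold Typ.In
    rw [show ((L1 x, L) : Typ).1.getD k 0 = MKc x k from l1_getD hk]
    exact h i hi

/-- The general statement, with a decidable condition on the codes. -/
theorem main (hD : DecStatement) (C : Pm → Prop) (hC : CP C) (P : ℕ → Typ → Prop)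
    (hP : ∀ (x : Pm) (L : List (ℕ × ℕ)), P x.1 (L1 x, L) ↔ C x)
    (hP' : ∀ n (τ τ' : Typ), τ.1 = τ'.1 → P n τ → P n τ') :
    ∃ f : ℕ × ℕ → Bool, Computable f ∧ ∀ (n : ℕ) (φ : QF), f (n, φ.code) = true ↔
      ∀ τ, FrameTyp n τ → P n τ → τ.1.length ≤ F (2 ^ n) → Sat τ n φ := by
  obtain ⟨g, hg, hgs⟩ := hD
  obtain ⟨L2, hL2, hL2s⟩ := exists_l2
  -- the context `((((n, c), len), m), o), p`
  let mk : ((((ℕ × ℕ) × ℕ) × ℕ) × ℕ) × ℕ → Pm := fun y =>
    (y.1.1.1.1.1, y.1.1.1.2, y.1.1.2, y.1.2, y.2)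
  have p1 : Computable fun y : ((((ℕ × ℕ) × ℕ) × ℕ) × ℕ) × ℕ => y.1.1.1.1.1 :=
    Computable.fst.comp (Computable.fst.comp (Computable.fst.comp
      (Computable.fst.comp Computable.fst)))
  have p1' : Computable fun y : ((((ℕ × ℕ) × ℕ) × ℕ) × ℕ) × ℕ => y.1.1.1.1.2 :=
    Computable.snd.comp (Computable.fst.comp (Computable.fst.comp
      (Computable.fst.comp Computable.fst)))
  have p2 : Computable fun y : ((((ℕ × ℕ) × ℕ) × ℕ) × ℕ) × ℕ => y.1.1.1.2 :=
    Computable.snd.comp (Computable.fst.comp (Computable.fst.comp Computable.fst))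
  have p3 : Computable fun y : ((((ℕ × ℕ) × ℕ) × ℕ) × ℕ) × ℕ => y.1.1.2 :=
    Computable.snd.comp (Computable.fst.comp Computable.fst)
  have p4 : Computable fun y : ((((ℕ × ℕ) × ℕ) × ℕ) × ℕ) × ℕ => y.1.2 :=
    Computable.snd.comp Computable.fst
  have hmk : Computable mk :=
    Computable.pair p1 (Computable.pair p2 (Computable.pair p3 (Computable.pair p4
      Computable.snd)))
  have hgC : CP fun y : ((((ℕ × ℕ) × ℕ) × ℕ) × ℕ) × ℕ =>
      g (((L1 (mk y), L2 (mk y)), y.1.1.1.1.1), y.1.1.1.1.2) = true :=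
    ⟨fun y => g (((L1 (mk y), L2 (mk y)), y.1.1.1.1.1), y.1.1.1.1.2),
      hg.comp (Computable.pair (Computable.pair (Computable.pair (l1_comp.comp hmk)
        (hL2.comp hmk)) p1) p1'), fun y => Iff.rfl⟩
  have hbody : CP fun y : ((((ℕ × ℕ) × ℕ) × ℕ) × ℕ) × ℕ => Chk (mk y) → C (mk y) →
      g (((L1 (mk y), L2 (mk y)), y.1.1.1.1.1), y.1.1.1.1.2) = true :=
    CP.imp (cp_chk.comp hmk) (CP.imp (hC.comp hmk) hgC)
  have mul := Primrec.nat_mul.to_comp
  have pw := pow_prim.to_comp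
  have q3 := CP.ball (p := fun (y : ((((ℕ × ℕ) × ℕ) × ℕ) × ℕ)) p => Chk (mk (y, p)) →
      C (mk (y, p)) → g (((L1 (mk (y, p)), L2 (mk (y, p))), y.1.1.1.1), y.1.1.1.2) = true) hbody
    (b := fun y => y.1.1.2 ^ (y.1.1.2 * y.1.1.2))
    (pw.comp (Computable.snd.comp (Computable.fst.comp Computable.fst))
      (mul.comp (Computable.snd.comp (Computable.fst.comp Computable.fst))
        (Computable.snd.comp (Computable.fst.comp Computable.fst))))
  have q2 := CP.ball (p := fun (y : (((ℕ × ℕ) × ℕ) × ℕ)) o => ∀ p < y.1.2 ^ (y.1.2 * y.1.2),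
      Chk (mk ((y, o), p)) → C (mk ((y, o), p)) →
      g (((L1 (mk ((y, o), p)), L2 (mk ((y, o), p))), y.1.1.1), y.1.1.2) = true) q3
    (b := fun y => 2 ^ (y.1.2 * y.1.2))
    (pw.comp (Computable.const 2) (mul.comp (Computable.snd.comp Computable.fst)
      (Computable.snd.comp Computable.fst)))
  have q1 := CP.ball (p := fun (y : ((ℕ × ℕ) × ℕ)) m => ∀ o < 2 ^ (y.2 * y.2),
      ∀ p < y.2 ^ (y.2 * y.2), Chk (mk (((y, m), o), p)) → C (mk (((y, m), o), p)) →
      g (((L1 (mk (((y, m), o), p)), L2 (mk (((y, m), o), p))), y.1.1), y.1.2) = true) q2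
    (b := fun y => 2 ^ (y.1.1 * y.2))
    (pw.comp (Computable.const 2) (mul.comp (Computable.fst.comp Computable.fst)
      Computable.snd))
  have q0 := CP.ball (p := fun (y : (ℕ × ℕ)) len => ∀ m < 2 ^ (y.1 * len),
      ∀ o < 2 ^ (len * len), ∀ p < len ^ (len * len), Chk (mk ((((y, len), m), o), p)) →
      C (mk ((((y, len), m), o), p)) →
      g (((L1 (mk ((((y, len), m), o), p)), L2 (mk ((((y, len), m), o), p))), y.1), y.2) =
        true) q1
    (b := fun y => F (2 ^ y.1) + 1)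
    (Primrec.nat_add.to_comp.comp (F_comp.comp (pw.comp (Computable.const 2) Computable.fst))
      (Computable.const 1))
  obtain ⟨f, hf, hfs⟩ := q0
  refine ⟨f, hf, fun n φ => ?_⟩
  rw [hfs]
  show (∀ len < F (2 ^ n) + 1, ∀ m < 2 ^ (n * len), ∀ o < 2 ^ (len * len),
    ∀ p < len ^ (len * len), Chk (n, len, m, o, p) → C (n, len, m, o, p) →
      g (((L1 (n, len, m, o, p), L2 (n, len, m, o, p)), n), φ.code) = true) ↔ _
  constructor
  · intro h τ hτ hPτ hlen
    obtain ⟨m, hm, o, ho, p, hp, h1, h2, h3⟩ := exists_code_frame hτ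
    have hc : C (n, τ.1.length, m, o, p) := by
      rw [← hP (n, τ.1.length, m, o, p) []]
      exact hP' n τ (L1 (n, τ.1.length, m, o, p), []) h2.symm hPτ
    have h4 := h _ (by omega) m hm o ho p hp h1 hc
    rw [hgs (L1 (n, τ.1.length, m, o, p), L2 (n, τ.1.length, m, o, p)) n φ ?_] at h4
    · refine (sat_congr n φ h2 fun k l => ?_).1 h4
      rw [h3 k l]
      exact hL2s (n, τ.1.length, m, o, p) k l
    · rintro ⟨k, l⟩ hkl
      obtain ⟨e1, e2, -⟩ := (hL2s (n, τ.1.length, m, o, p) k l).1 hkl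
      show k < (L1 (n, τ.1.length, m, o, p)).length ∧ l < (L1 (n, τ.1.length, m, o, p)).length
      rw [l1_length]
      exact ⟨e1, e2⟩
  · intro h len hlen m hm o ho p hp h1 hc
    rw [hgs (L1 (n, len, m, o, p), L2 (n, len, m, o, p)) n φ ?_]
    · refine h _ ⟨_, _, isFT_of_chk (hL2s (n, len, m, o, p)) h1⟩
        ((hP (n, len, m, o, p) (L2 (n, len, m, o, p))).2 hc) ?_
      show (L1 (n, len, m, o, p)).length ≤ _
      rw [l1_length]
      show len ≤ _
      omega
    · rintro ⟨k, l⟩ hkl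
      obtain ⟨e1, e2, -⟩ := (hL2s (n, len, m, o, p) k l).1 hkl
      show k < (L1 (n, len, m, o, p)).length ∧ l < (L1 (n, len, m, o, p)).length
      rw [l1_length]
      exact ⟨e1, e2⟩

end Fdec

/-- Module FDEC. -/
theorem fdec (hD : DecStatement) : FdecStatement := by
  refine ⟨?_, ?_⟩
  · obtain ⟨f, hf, h⟩ := Fdec.main hD (fun _ => True)
      ⟨fun _ => true, Computable.const true, fun _ => by simp⟩ (fun _ _ => True)
      (fun _ _ => Iff.rfl) (fun _ _ _ _ h => h)
    refine ⟨f, hf, fun n φ => ?_⟩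
    rw [h]
    exact ⟨fun h τ hτ => h τ hτ trivial, fun h τ hτ _ => h τ hτ⟩
  · exact Fdec.main hD Fdec.ChkT Fdec.cp_chkT TopIn (fun x L => Fdec.topIn_iff)
      (fun n τ τ' h hT => by
        obtain ⟨k, hk, h'⟩ := hT
        refine ⟨k, by rw [← h]; exact hk, fun i hi => ?_⟩
        have := h' i hi
        unfold Typ.In at this ⊢
        rwa [← h])

end Pool.Agent.Lib.MP_d48993_lc.Bound
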