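import Pool.Agent.Lib.MP_d48993_lc.AE.Bound.Interfaces

/-!
# Board LB (MP_d48993): module FRAMEP, the points form a frame
-/

set_option autoImplicit false

namespace Pool.Agent.Lib.MP_d48993_lc.Bound

namespace Framep

variable {B : Set (ℕ → ℕ)} {Z : ℕ → ℕ} {N : Set (ℕ → ℕ)}

theorem uu_congr {X : ℕ → ℕ} {L L' : List (Set (Set (ℕ → ℕ)))} (h : ∀ t, t ∈ L ↔ t ∈ L') :
    UU B X L = UU B X L' := by
  ext U
  constructor
  · rintro ⟨h1, h2⟩
    exact ⟨h1, fun Y a b c => h2 Y a b fun t ht => c t ((h t).1 ht)⟩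
  · rintro ⟨h1, h2⟩
    exact ⟨h1, fun Y a b c => h2 Y a b fun t ht => c t ((h t).2 ht)⟩

theorem uu_nil {X : ℕ → ℕ} (hX : X ∉ Up B) :
    Fl B X = UU B X [] := by
  ext U
  constructor
  · rintro ⟨h1, h2⟩
    exact ⟨h1, fun Y _ h3 _ => (h3 ⟨h1, h2⟩).2⟩
  · rintro ⟨h1, h2⟩
    exact ⟨h1, h2 X hX (Set.Subset.refl _) (by simp)⟩

theorem sub_uu {X Y : ℕ → ℕ} {L : List (Set (Set (ℕ → ℕ)))} (hY : Y ∉ Up B)
    (h : Fl B X ⊆ Fl B Y) (hL : ∀ t ∈ L, ¬ Fl B Y ⊆ t) : UU B X L ⊆ Fl B Y :=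
  fun _ hU => ⟨hU.1, hU.2 Y hY h hL⟩

theorem pj_mono {t x y : Set (Set (ℕ → ℕ))} (h : x ⊆ y) : Pj B t x ⊆ Pj B t y :=
  fun _ hU => ⟨hU.1, fun Y h1 h2 h3 => hU.2 Y h1 (h.trans h2) h3⟩

theorem pj_infl {t x : Set (Set (ℕ → ℕ))} (hx : ∀ U ∈ x, IsC B U) : x ⊆ Pj B t x :=
  fun U hU => ⟨hx U hU, fun _ _ h2 _ => (h2 hU).2⟩

theorem pj_idem {t x : Set (Set (ℕ → ℕ))} :
    Pj B t (Pj B t x) = Pj B t x := by
  refine Set.Subset.antisymm ?_ (pj_infl fun U hU => hU.1)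
  rintro U ⟨h1, h2⟩
  exact ⟨h1, fun Y h3 h4 h5 => h2 Y h3 (fun V hV => ⟨hV.1, hV.2 Y h3 h4 h5⟩) h5⟩

theorem pj_off {t x : Set (Set (ℕ → ℕ))} (hx : PI B x) (h : ¬ x ⊆ t) : Pj B t x = x := by
  refine Set.Subset.antisymm ?_ (pj_infl hx.sub)
  rintro U ⟨h1, h2⟩
  by_contra hU
  obtain ⟨Y, h3, h4, h5⟩ := hx.repr U h1 hU
  exact h5 (h2 Y h3 h4 fun h6 => h (h4.trans h6))

/-- the invariant -/
def Inv (B : Set (ℕ → ℕ)) (Z : ℕ → ℕ) (N : Set (ℕ → ℕ)) (y : Set (Set (ℕ → ℕ))) : Prop :=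
  PI B y ∧ Adm B Z y ∧ ∃ X ∈ N, ∃ L : List (Set (Set (ℕ → ℕ))),
    (∀ t ∈ L, InP B N t ∧ PI B t ∧ Adm B Z t) ∧ y = UU B X L

theorem pj_proper (hBe : BelowStatement) (hN : Bases B Z N) {t x : Set (Set (ℕ → ℕ))}
    (ht : PI B t) (ht' : Adm B Z t) (hx : PI B x) : Up B ∉ Pj B t x := by
  by_cases h : x ⊆ t
  · exact fun h1 => ht.proper (hBe B Z t x hN.1 hN.2.1 ht' ht hx h h1)
  · rw [pj_off hx h]
    exact hx.proper

theorem inv_all (hT : TreecStatement) (hP : PrimeStatement) (hC : CompStatement)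
    (hBe : BelowStatement) (hA : AdmStatement) (hN : Bases B Z N) {y : Set (Set (ℕ → ℕ))}
    (hy : InP B N y) : Inv B Z N y := by
  induction hy with
  | base X hX =>
    obtain ⟨h1, k, hk⟩ := hN.2.2 X hX
    have e := uu_nil h1
    refine ⟨(hT B hN.1).2.2.2.2.2.2.2.2 X h1, ?_, X, hX, [], by simp, e⟩
    rw [e, hk]
    exact hA B Z k [] hN.1 hN.2.1 (by simp)
  | step t x _ht _hx iht ihx =>
    obtain ⟨ht1, ht2, -⟩ := iht
    obtain ⟨hx1, hx2, X, hX, L, hL, e⟩ := ihx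
    have hL' : ∀ s ∈ L, Adm B Z s ∧ PI B s := fun s hs => ⟨(hL s hs).2.2, (hL s hs).2.1⟩
    have e2 : Pj B t x = UU B X (L ++ [t]) := by
      rw [e]
      exact hC B Z X L t hN.1 hN.2.1 hL' ht2 ht1
    have hL2 : ∀ s ∈ L ++ [t], InP B N s ∧ PI B s ∧ Adm B Z s := by
      intro s hs
      rcases List.mem_append.1 hs with h | h
      · exact hL s h
      · rw [List.mem_singleton.1 h]
        exact ⟨_ht, ht1, ht2⟩
    have hL3 : ∀ s ∈ L ++ [t], Adm B Z s ∧ PI B s := fun s hs =>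
      ⟨(hL2 s hs).2.2, (hL2 s hs).2.1⟩
    obtain ⟨h1, k, hk⟩ := hN.2.2 X hX
    refine ⟨?_, ?_, X, hX, L ++ [t], hL2, e2⟩
    · refine ⟨fun U hU => hU.1, ?_, ?_, ?_, ?_, pj_proper hBe hN ht1 ht2 hx1⟩
      · rintro U ⟨h2, h3⟩ U' h4 h5
        exact ⟨h4, fun Y a b c => h5 (h3 Y a b c)⟩
      · rintro U ⟨h2, h3⟩ U' ⟨h4, h5⟩
        exact ⟨((hT B hN.1).2.2.1 U U' h2 h4).1, fun Y a b c => ⟨h3 Y a b c, h5 Y a b c⟩⟩
      · intro U U' h2 h3 h4
        rw [e2] at h4 ⊢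
        exact hP B Z X (L ++ [t]) hN.1 hN.2.1 hL3 U U' h2 h3 h4
      · intro U h2 h3
        have h4 : ¬ ∀ Y, Y ∉ Up B → x ⊆ Fl B Y → ¬ Fl B Y ⊆ t → Y ∈ U := fun h4 => h3 ⟨h2, h4⟩
        push Not at h4
        obtain ⟨Y, a, b, c, d⟩ := h4
        exact ⟨Y, a, fun V hV => ⟨hV.1, hV.2 Y a b c⟩, d⟩
    · rw [e2, hk]
      exact hA B Z k (L ++ [t]) hN.1 hN.2.1 hL3

end Framep

open Framep in
/-- Module FRAMEP. -/
theorem framep (hT : TreecStatement) (hP : PrimeStatement) (hC : CompStatement)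
    (hBe : BelowStatement) (hA : AdmStatement) : FramepStatement := by
  intro B Z N hN
  have inv : ∀ {y}, InP B N y → Inv B Z N y := fun hy => inv_all hT hP hC hBe hA hN hy
  -- products of closure operators
  have comp : ∀ {X : ℕ → ℕ} {L : List (Set (Set (ℕ → ℕ)))} {t : Set (Set (ℕ → ℕ))},
      (∀ s ∈ L, InP B N s) → InP B N t → Pj B t (UU B X L) = UU B X (L ++ [t]) := by
    intro X L t hL ht
    exact hC B Z X L t hN.1 hN.2.1 (fun s hs => ⟨(inv (hL s hs)).2.1, (inv (hL s hs)).1⟩)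
      (inv ht).2.1 (inv ht).1
  refine ⟨fun y hy => ?_, fun t x ht hx => ?_, fun t x y h => pj_mono h,
    fun s t x hs ht hx => ?_, fun x hx T hTT U hU hUx => ?_⟩
  · obtain ⟨h1, h2, X, hX, L, hL, e⟩ := inv hy
    exact ⟨h1, h2, X, hX, L, fun t ht => (hL t ht).1, e⟩
  · obtain ⟨ht1, ht2, -⟩ := inv ht
    obtain ⟨hx1, hx2, -⟩ := inv hx
    refine ⟨pj_infl hx1.sub, pj_idem, fun h => ?_, fun h => ?_⟩
    · by_cases h1 : x ⊆ t
      · have h2 : t ⊆ x := by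
          by_contra h3
          exact h ⟨h1, h3⟩
        refine Set.Subset.antisymm ?_ (pj_infl hx1.sub)
        exact (hBe B Z t x hN.1 hN.2.1 ht2 ht1 hx1 h1).trans h2
      · exact pj_off hx1 h1
    · exact hBe B Z t x hN.1 hN.2.1 ht2 ht1 hx1 h
  · obtain ⟨-, -, X, -, L, hL, e⟩ := inv hx
    have hL1 : ∀ r ∈ L, InP B N r := fun r hr => (hL r hr).1
    have hL2 : ∀ a, InP B N a → ∀ r ∈ L ++ [a], InP B N r := by
      intro a ha r hr
      rcases List.mem_append.1 hr with h | h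
      · exact hL1 r h
      · rw [List.mem_singleton.1 h]; exact ha
    rw [e, comp hL1 ht, comp hL1 hs, comp (hL2 t ht) hs, comp (hL2 s hs) ht]
    refine uu_congr fun r => ?_
    simp only [List.mem_append, List.mem_singleton]
    tauto
  · obtain ⟨-, -, X, -, L, hL, e⟩ := inv hx
    have hL1 : ∀ r ∈ L, InP B N r := fun r hr => (hL r hr).1
    -- `x = UU B X (L ++ T)`
    have key : ∀ T' : List (Set (Set (ℕ → ℕ))), (∀ t ∈ T', InP B N t ∧ Pj B t x = x) →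
        x = UU B X (L ++ T') := by
      intro T'
      induction T' using List.reverseRecOn with
      | nil => intro _; rw [List.append_nil]; exact e
      | append_singleton T' t ih =>
        intro h
        have h1 := ih fun s hs => h s (List.mem_append_left _ hs)
        have h2 := h t (List.mem_append_right _ (List.mem_singleton.2 rfl))
        have hL2 : ∀ r ∈ L ++ T', InP B N r := by
          intro r hr
          rcases List.mem_append.1 hr with h3 | h3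
          · exact hL1 r h3
          · exact (h r (List.mem_append_left _ h3)).1
        rw [← List.append_assoc, ← comp hL2 h2.1, ← h1]
        exact h2.2.symm
    have e2 := key T hTT
    have h4 : ¬ ∀ Y, Y ∉ Up B → Fl B X ⊆ Fl B Y → (∀ t ∈ L ++ T, ¬ Fl B Y ⊆ t) → Y ∈ U := by
      intro h4
      apply hUx
      rw [e2]
      exact ⟨hU, h4⟩
    push Not at h4
    obtain ⟨Y, a, b, c, d⟩ := h4
    refine ⟨Y, a, ?_, fun t ht => c t (List.mem_append_right _ ht), d⟩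
    rw [e2]
    exact sub_uu a b c

end Pool.Agent.Lib.MP_d48993_lc.Bound
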