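import Pool.Agent.Lib.MP_d48993_lc.AE.Bound.Interfaces
import Pool.Agent.Lib.MP_d48993_lc.AE.Bot

/-!
# Board LB: module GANDY (helper5)

Fusion with closed classes of sequences of columns: column `0` is the real, the other columns are
witnesses. The class `K j` depends on the columns `≤ j + 1` only, and positions `≤ n` lie in
columns `≤ n`.
-/

set_option autoImplicit false

namespace Pool.Agent.Lib.MP_d48993_lc.Bound

open MP_8c048d_lc (pre join RecF Sig Pih Clo Cop Del join_even join_odd pre_congr)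
open H84 (KK KK_clo KK_rec)

namespace Gandy

/-- Substitution in closed relations. -/
theorem clo_subst {α β : Type} [Primcodable α] [Primcodable β] {P : β → (ℕ → ℕ) → Prop}
    (h : Clo P) {ψ : α → β} (hψ : Computable ψ) {Ψ : α → (ℕ → ℕ) → ℕ → ℕ}
    (hΨ : RecF (fun (p : α × ℕ) F => Ψ p.1 F p.2)) : Clo (fun a F => P (ψ a) (Ψ a F)) := by
  obtain ⟨d, hd, h1⟩ := h
  refine ⟨fun p F => d (ψ p.1, p.2) (Ψ p.1 F), ?_, fun a F => h1 _ _⟩
  refine hd.subst (ψ := fun (p : α × ℕ) _ => (ψ p.1, p.2))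
    (RecF.of_computable ((hψ.comp Computable.fst).pair Computable.snd))
    (Ψ := fun (p : α × ℕ) F => Ψ p.1 F) ?_
  exact hΨ.comp₁ (f := fun p : (α × ℕ) × ℕ => (p.1.1, p.2))
    ((Computable.fst.comp Computable.fst).pair Computable.snd)

theorem recF_col {α : Type} [Primcodable α] (k : ℕ) :
    RecF (fun (p : α × ℕ) F => Colz F k p.2) := by
  refine RecF.at (f := fun p : α × ℕ => Nat.pair k p.2) ?_
  exact Primrec₂.natPair.to_comp.comp (Computable.const k) Computable.snd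

/-- The requirement number `i` for the real `Z`. -/
def Req (i : ℕ) (Z : ℕ → ℕ) : Prop :=
  ¬ ∀ e, (¬ ∃ G, G ∈ KK e 0) ↔ ∃ W, join Z W ∈ KK i e

/-- A closed class which depends on the columns `≤ c` only. -/
structure Cd (c : ℕ) (K : (ℕ → ℕ) → Prop) : Prop where
  clo : Clo (fun (_ : Unit) X => K X)
  dep : ∀ X Y : ℕ → ℕ, (∀ k ≤ c, ∀ i, X (Nat.pair k i) = Y (Nat.pair k i)) → K X → K Y

/-- Replace the column `c`. -/
def upd (X : ℕ → ℕ) (c : ℕ) (W : ℕ → ℕ) : ℕ → ℕ :=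
  fun n => if n.unpair.1 = c then W n.unpair.2 else X n

theorem upd_same (X : ℕ → ℕ) (c : ℕ) (W : ℕ → ℕ) : Colz (upd X c W) c = W := by
  funext i
  simp [Colz, upd]

theorem upd_other (X : ℕ → ℕ) (c : ℕ) (W : ℕ → ℕ) {k : ℕ} (h : k ≠ c) (i : ℕ) :
    upd X c W (Nat.pair k i) = X (Nat.pair k i) := by
  simp [upd, h]

theorem step {c : ℕ} {K : (ℕ → ℕ) → Prop} (h : Cd c K) (hne : ∃ X, K X) (i : ℕ) :
    ∃ K' : (ℕ → ℕ) → Prop, Cd (c + 1) K' ∧ (∃ X, K' X) ∧ (∀ X, K' X → K X) ∧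
      ∀ X, K' X → Req i (Colz X 0) := by
  -- the `Σ¹₁` set of numbers
  let R : ℕ → Prop := fun e => ∃ X, K X ∧ ∃ W, join (Colz X 0) W ∈ KK i e
  have hR : Sig (fun (e : ℕ) (_ : ℕ → ℕ) => R e) := by
    have r1 : RecF (fun (p : ℕ × ℕ) E => Hide.ev (Hide.od E) p.2) :=
      RecF.at (f := fun p : ℕ × ℕ => 2 * (2 * p.2) + 1) (Hide.c_dbl1 (Hide.c_dbl Computable.snd))
    have r2 : RecF (fun (p : ℕ × ℕ) E => join (Colz (Hide.ev (Hide.od E)) 0)
        (Hide.od (Hide.od E)) p.2) := by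
      refine RecF.joinF (α := ℕ) (Ψ := fun _ E => Colz (Hide.ev (Hide.od E)) 0)
        (Φ := fun _ E => Hide.od (Hide.od E)) ?_ ?_
      · refine RecF.at (f := fun p : ℕ × ℕ => 2 * (2 * Nat.pair 0 p.2) + 1)
          (Hide.c_dbl1 (Hide.c_dbl ?_))
        exact Primrec₂.natPair.to_comp.comp (Computable.const 0) Computable.snd
      · exact RecF.at (f := fun p : ℕ × ℕ => 2 * (2 * p.2 + 1) + 1)
          (Hide.c_dbl1 (Hide.c_dbl1 Computable.snd))
    have e1 : Clo (fun (_ : ℕ) E => K (Hide.ev (Hide.od E))) :=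
      clo_subst (P := fun (_ : Unit) X => K X) h.clo (ψ := fun _ : ℕ => ())
        (Computable.const ()) (Ψ := fun (_ : ℕ) E => Hide.ev (Hide.od E)) r1
    have e2 : Clo (fun (e : ℕ) E => join (Colz (Hide.ev (Hide.od E)) 0)
        (Hide.od (Hide.od E)) ∈ KK i e) :=
      clo_subst (P := fun (p : ℕ × ℕ) F => F ∈ KK p.1 p.2) KK_clo (ψ := fun e : ℕ => (i, e))
        ((Computable.const i).pair Computable.id)
        (Ψ := fun (_ : ℕ) E => join (Colz (Hide.ev (Hide.od E)) 0) (Hide.od (Hide.od E))) r2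
    refine (Sig.exF ((e1.and e2).del.1)).congr fun e F => ?_
    simp only [Hide.od_join]
    constructor
    · rintro ⟨G, h1, h2⟩
      exact ⟨_, h1, _, h2⟩
    · rintro ⟨X, h1, W, h2⟩
      refine ⟨join X W, ?_, ?_⟩
      · rw [Hide.ev_join]; exact h1
      · rw [Hide.ev_join, Hide.od_join]; exact h2
  obtain ⟨e, he⟩ := AE.Bot.sig_diag hR
  by_cases hNE : ∃ G, G ∈ KK e 0
  · -- the class is nonempty, and some member of `K` says the opposite
    obtain ⟨X, hX, W, hW⟩ := he.1 hNE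
    refine ⟨fun Y => K Y ∧ join (Colz Y 0) (Colz Y (c + 1)) ∈ KK i e, ⟨?_, ?_⟩, ?_,
      fun Y hY => hY.1, ?_⟩
    · refine h.clo.and ?_
      refine clo_subst (P := fun (p : ℕ × ℕ) F => F ∈ KK p.1 p.2) KK_clo
        (ψ := fun _ : Unit => (i, e)) (Computable.const (i, e))
        (Ψ := fun (_ : Unit) Y => join (Colz Y 0) (Colz Y (c + 1))) ?_
      exact RecF.joinF (α := Unit) (Ψ := fun _ Y => Colz Y 0) (Φ := fun _ Y => Colz Y (c + 1))
        (recF_col 0) (recF_col (c + 1))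
    · rintro Y Y' hYY ⟨h1, h2⟩
      refine ⟨h.dep Y Y' (fun k hk => hYY k (by omega)) h1, ?_⟩
      have h3 : Colz Y' 0 = Colz Y 0 := funext fun n => (hYY 0 (by omega) n).symm
      have h4 : Colz Y' (c + 1) = Colz Y (c + 1) := funext fun n => (hYY (c + 1) le_rfl n).symm
      rw [h3, h4]
      exact h2
    · refine ⟨upd X (c + 1) W, ?_, ?_⟩
      · refine h.dep X _ (fun k hk n => ?_) hX
        rw [upd_other X (c + 1) W (by omega)]
      · have h3 : Colz (upd X (c + 1) W) 0 = Colz X 0 :=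
          funext fun n => upd_other X (c + 1) W (by omega) n
        rw [upd_same, h3]
        exact hW
    · rintro Y ⟨-, hY⟩ hall
      exact (hall e).2 ⟨_, hY⟩ hNE
  · -- the class is empty, and no member of `K` says so
    have hno : ¬ R e := fun h1 => hNE (he.2 h1)
    refine ⟨K, ⟨h.clo, fun X Y hXY => h.dep X Y (fun k hk => hXY k (by omega))⟩, hne,
      fun X hX => hX, ?_⟩
    intro X hX hall
    obtain ⟨W, hW⟩ := (hall e).1 hNE
    exact hno ⟨X, hX, W, hW⟩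

theorem fix {c : ℕ} {K : (ℕ → ℕ) → Prop} (h : Cd c K) (X : ℕ → ℕ) :
    Cd c (fun Y => K Y ∧ pre Y (c + 1) = pre X (c + 1)) := by
  constructor
  · refine h.clo.and (Clo.of_cop ?_)
    refine Cop.of_recF (φ := fun (_ : Unit) Y => pre Y (c + 1))
      (p := fun l : List ℕ => l = pre X (c + 1))
      (RecF.pre.comp₁ (f := fun _ : Unit => c + 1) (Computable.const _)) ?_
    exact PrimrecPred.computablePred (PrimrecRel.comp Primrec.eq Primrec.id
      (Primrec.const (pre X (c + 1))))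
  · rintro Y Y' hYY ⟨h1, h2⟩
    refine ⟨h.dep Y Y' hYY h1, ?_⟩
    rw [← h2]
    refine pre_congr fun n hn => ?_
    have h3 := hYY n.unpair.1 (le_trans (Nat.unpair_left_le n) (by omega)) n.unpair.2
    rw [Nat.pair_unpair] at h3
    exact h3.symm

/-- The stages of the construction. -/
def Good (j : ℕ) (s : ((ℕ → ℕ) → Prop) × (ℕ → ℕ)) : Prop :=
  Cd (j + 1) s.1 ∧ s.1 s.2 ∧ ∀ Y, s.1 Y → pre Y (j + 2) = pre s.2 (j + 2)

theorem next (j : ℕ) (s : ((ℕ → ℕ) → Prop) × (ℕ → ℕ)) (h : Good j s) :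
    ∃ s' : ((ℕ → ℕ) → Prop) × (ℕ → ℕ), Good (j + 1) s' ∧ (∀ Y, s'.1 Y → s.1 Y) ∧
      ∀ Y, s'.1 Y → Req j (Colz Y 0) := by
  obtain ⟨h1, h2, -⟩ := h
  obtain ⟨K', h3, ⟨X, h4⟩, h5, h6⟩ := step h1 ⟨_, h2⟩ j
  exact ⟨(fun Y => K' Y ∧ pre Y (j + 1 + 1 + 1) = pre X (j + 1 + 1 + 1), X),
    ⟨fix h3 X, ⟨h4, rfl⟩, fun Y hY => hY.2⟩, fun Y hY => h5 Y hY.1, fun Y hY => h6 Y hY.1⟩

/-- Closed relations are topologically closed. -/
theorem clo_lim {K : (ℕ → ℕ) → Prop} (h : Clo (fun (_ : Unit) X => K X)) (X : ℕ → ℕ)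
    (hX : ∀ k, ∃ Y, K Y ∧ pre Y k = pre X k) : K X := by
  obtain ⟨d, ⟨q, -, h1, h2⟩, hd⟩ := h
  refine (hd () X).2 fun m => ?_
  obtain ⟨k, hk⟩ := h2 ((), m) X
  obtain ⟨Y, hY, hYX⟩ := hX k
  rw [← hYX] at hk
  rw [← h1 _ _ _ _ hk]
  exact (hd () Y).1 hY m

theorem main (A : (ℕ → ℕ) → Prop) (hA : Sig (fun (_ : Unit) F => A F)) (hne : ∃ F, A F) :
    ∃ Z, A Z ∧ ∀ i, Req i Z := by
  obtain ⟨d, hd, hdA⟩ := hA
  -- the first class
  let K₀ : (ℕ → ℕ) → Prop := fun X => ∀ m, d ((), m) (join (Colz X 0) (Colz X 1)) = true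
  have hK₀ : Cd 1 K₀ := by
    constructor
    · refine clo_subst (P := fun (a : Unit) E => ∀ m, d (a, m) E = true)
        ⟨d, hd, fun _ _ => Iff.rfl⟩ (ψ := fun _ : Unit => ()) (Computable.const ())
        (Ψ := fun (_ : Unit) X => join (Colz X 0) (Colz X 1)) ?_
      exact RecF.joinF (α := Unit) (Ψ := fun _ Y => Colz Y 0) (Φ := fun _ Y => Colz Y 1)
        (recF_col 0) (recF_col 1)
    · intro X Y hXY hX m
      have h3 : Colz Y 0 = Colz X 0 := funext fun n => (hXY 0 (by omega) n).symm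
      have h4 : Colz Y 1 = Colz X 1 := funext fun n => (hXY 1 le_rfl n).symm
      rw [h3, h4]
      exact hX m
  have hX₀ : ∃ X, K₀ X := by
    obtain ⟨F, hF⟩ := hne
    obtain ⟨G, hG⟩ := (hdA () F).1 hF
    refine ⟨upd (upd (fun _ => 0) 0 F) 1 G, fun m => ?_⟩
    have h3 : Colz (upd (upd (fun _ => 0) 0 F) 1 G) 0 = F := by
      have h4 : Colz (upd (upd (fun _ => 0) 0 F) 1 G) 0 = Colz (upd (fun _ => 0) 0 F) 0 :=
        funext fun n => upd_other _ 1 G (by omega) n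
      rw [h4, upd_same]
    rw [upd_same, h3]
    exact hG m
  obtain ⟨X₀, hX₀⟩ := hX₀
  choose f hf1 hf2 hf3 using next
  let s : ∀ j, {s : ((ℕ → ℕ) → Prop) × (ℕ → ℕ) // Good j s} := fun j =>
    Nat.rec (motive := fun j => {s : ((ℕ → ℕ) → Prop) × (ℕ → ℕ) // Good j s})
      ⟨(fun Y => K₀ Y ∧ pre Y (1 + 1) = pre X₀ (1 + 1), X₀),
        ⟨fix hK₀ X₀, ⟨hX₀, rfl⟩, fun Y hY => hY.2⟩⟩
      (fun j s => ⟨f j s.1 s.2, hf1 j s.1 s.2⟩) j
  let K : ℕ → (ℕ → ℕ) → Prop := fun j => (s j).1.1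
  let X : ℕ → ℕ → ℕ := fun j => (s j).1.2
  have h1 : ∀ j, Cd (j + 1) (K j) := fun j => (s j).2.1
  have h2 : ∀ j, K j (X j) := fun j => (s j).2.2.1
  have h3 : ∀ j Y, K j Y → pre Y (j + 2) = pre (X j) (j + 2) := fun j => (s j).2.2.2
  have h4 : ∀ j Y, K (j + 1) Y → K j Y := fun j => hf2 j (s j).1 (s j).2
  have h5 : ∀ j Y, K (j + 1) Y → Req j (Colz Y 0) := fun j => hf3 j (s j).1 (s j).2
  have h0 : ∀ Y, K 0 Y → K₀ Y := fun Y hY => hY.1
  have h6 : ∀ j k, j ≤ k → ∀ Y, K k Y → K j Y := by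
    intro j k hjk
    induction k, hjk using Nat.le_induction with
    | base => exact fun Y hY => hY
    | succ k _ ih => exact fun Y hY => ih Y (h4 k Y hY)
  have h7 : ∀ n k, n ≤ k → X k n = X n n := by
    intro n k hnk
    have h8 := h3 n (X k) (h6 n k hnk (X k) (h2 k))
    have h9 := congrArg (fun l : List ℕ => l[n]?) h8
    simp only [MP_8c048d_lc.pre_getElem?] at h9
    rw [if_pos (by omega), if_pos (by omega)] at h9
    exact Option.some.inj h9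
  let Y : ℕ → ℕ := fun n => X n n
  have h8 : ∀ j, K j Y := by
    intro j
    refine clo_lim (h1 j).clo Y fun k => ⟨X (max j k), ?_, ?_⟩
    · exact h6 j _ (le_max_left _ _) _ (h2 _)
    · exact pre_congr fun n hn => h7 n _ (le_trans hn.le (le_max_right _ _))
  refine ⟨Colz Y 0, ?_, fun i => h5 i Y (h8 (i + 1))⟩
  exact (hdA () (Colz Y 0)).2 ⟨Colz Y 1, h0 Y (h8 0)⟩

end Gandy

/-- Module GANDY. -/
theorem gandy : GandyStatement := by
  intro A hA hne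
  obtain ⟨Z, hZ, hreq⟩ := Gandy.main A hA hne
  refine ⟨Z, hZ, ?_⟩
  rintro ⟨Q, ⟨-, hQ⟩, hQZ⟩
  obtain ⟨d, hd, hdQ⟩ := hQ
  have hclo : Clo (fun (p : ℕ × ℕ) F => ∀ m, d (p.2, m) F = true) :=
    ⟨fun x F => d (x.1.2, x.2) F, hd.comp₁
      ((Computable.snd.comp Computable.fst).pair Computable.snd), fun _ _ => Iff.rfl⟩
  obtain ⟨r, hr⟩ := KK_rec hclo
  apply hreq r
  intro e
  have h0 : (∃ G, G ∈ KK e 0) ↔ Q e Z := hQZ e
  rw [h0]
  have h1 : ¬ Q e Z ↔ ∃ G : ℕ → ℕ, ∀ m, d (e, m) (join Z G) = true := hdQ e Z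
  rw [h1]
  exact exists_congr fun G => (hr e (join Z G)).symm

end Pool.Agent.Lib.MP_d48993_lc.Bound
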