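import Pool.Agent.Lib.MP_d48993_lc.AE.Bound.Interfaces

/-!
# Board LB, module HOMD: uniform trees and uniform definability of the homomorphisms (helper48)
-/

set_option autoImplicit false

namespace Pool.Agent.Lib.MP_d48993_lc.Bound.Homd

open MP_8c048d_lc (pre join RecF Sig Pih Clo Cop Del length_pre pre_take pre_succ)
open H84 (KK KK_clo P2 cons1 tl1 tl1_cons1 red_tl1 red_cons1 clo_reject up_del)
open H30 (HomC BTree hd zB zB_iff comp_zB comp_and)
open ResM (cp_comp prefPair lePair)

/-- No prefix of `s` is rejected. -/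
def nrej {α : Type} (b : α × List ℕ → Bool) (a : α) (s : List ℕ) : Bool :=
  Nat.rec (!b (a, s.take 0)) (fun k ih => ih && !b (a, s.take (k + 1))) s.length

theorem nrej_aux {α : Type} (b : α × List ℕ → Bool) (a : α) (s : List ℕ) (n : ℕ) :
    (Nat.rec (!b (a, s.take 0)) (fun k ih => ih && !b (a, s.take (k + 1))) n : Bool) = true ↔
      ∀ k ≤ n, b (a, s.take k) = false := by
  induction n with
  | zero => simp
  | succ n ih =>
    simp only [Bool.and_eq_true, ih, Bool.not_eq_true']
    constructor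
    · rintro ⟨h1, h2⟩ k hk
      rcases Nat.lt_or_ge k (n + 1) with h | h
      · exact h1 k (by omega)
      · have : k = n + 1 := by omega
        rw [this]; exact h2
    · intro h
      exact ⟨fun k hk => h k (by omega), h (n + 1) le_rfl⟩

theorem nrej_iff {α : Type} {b : α × List ℕ → Bool} {a : α} {s : List ℕ} :
    nrej b a s = true ↔ ∀ k ≤ s.length, b (a, s.take k) = false :=
  nrej_aux b a s s.length

theorem nrej_comp {α : Type} [Primcodable α] {b : α × List ℕ → Bool} (hb : Computable b) :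
    Computable (fun x : α × List ℕ => nrej b x.1 x.2) := by
  have hnot : Computable (fun b : Bool => !b) := Primrec.not.to_comp
  have htk : Computable (fun x : ℕ × List ℕ => x.2.take x.1) :=
    ((Primrec.list_take (α := ℕ)).to_comp).comp Computable.fst Computable.snd
  have c0 : Computable (fun x : α × List ℕ => !b (x.1, x.2.take 0)) :=
    hnot.comp (hb.comp (Computable.fst.pair
      (htk.comp ((Computable.const 0).pair Computable.snd))))
  have c1 : Computable (fun z : (α × List ℕ) × (ℕ × Bool) =>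
      z.2.2 && !b (z.1.1, z.1.2.take (z.2.1 + 1))) := by
    have a1 : Computable (fun z : (α × List ℕ) × (ℕ × Bool) => (z.2.1 + 1, z.1.2)) :=
      (Computable.succ.comp (Computable.fst.comp Computable.snd)).pair
        (Computable.snd.comp Computable.fst)
    have a2 : Computable (fun z : (α × List ℕ) × (ℕ × Bool) =>
        (z.1.1, z.1.2.take (z.2.1 + 1))) :=
      (Computable.fst.comp Computable.fst).pair (htk.comp a1)
    have a3 : Computable (fun z : (α × List ℕ) × (ℕ × Bool) =>
        !b (z.1.1, z.1.2.take (z.2.1 + 1))) := hnot.comp (hb.comp a2)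
    have a4 := comp_and.comp ((Computable.snd.comp Computable.snd).pair a3)
    exact a4
  exact Computable.nat_rec (f := fun x : α × List ℕ => x.2.length)
    (g := fun x : α × List ℕ => !b (x.1, x.2.take 0))
    (h := fun (x : α × List ℕ) (y : ℕ × Bool) => y.2 && !b (x.1, x.2.take (y.1 + 1)))
    (Computable.list_length.comp Computable.snd) c0 c1.to₂

theorem nrej_mono {α : Type} {b : α × List ℕ → Bool} {a : α} {s t : List ℕ} (h : s <+: t)
    (ht : nrej b a t = true) : nrej b a s = true := by
  rw [nrej_iff] at ht ⊢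
  intro k hk
  have h1 := ht k (hk.trans h.length_le)
  obtain ⟨u, rfl⟩ := h
  rwa [List.take_append_of_le_length hk] at h1

theorem nrej_pre {α : Type} {b : α × List ℕ → Bool} {a : α} {F : ℕ → ℕ} :
    (∀ k, nrej b a (pre F k) = true) ↔ ∀ k, b (a, pre F k) = false := by
  constructor
  · intro h k
    have := nrej_iff.1 (h k) k (by rw [length_pre])
    rwa [pre_take, min_self] at this
  · intro h k
    rw [nrej_iff]
    intro j hj
    rw [pre_take]
    exact h _

/-- The tree of the class `KK p` and of `B`, with a common root. -/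
def TT (bK : (ℕ × ℕ) × List ℕ → Bool) (bB : Unit × List ℕ → Bool) (p : ℕ × ℕ) (s : List ℕ) :
    Bool :=
  bif zB s.length then true else bif zB (s.getD 0 0) then nrej bK p s.tail else
    bif zB (s.getD 0 0 - 1) then nrej bB () s.tail else false

theorem zB_succ (n : ℕ) : zB (n + 1) = false := by
  by_contra hc
  exact absurd (zB_iff.1 (by simpa using hc)) (Nat.succ_ne_zero n)

theorem zB_zero : zB 0 = true := zB_iff.2 rfl

attribute [local irreducible] nrej

theorem c_tail : Computable (fun x : (ℕ × ℕ) × List ℕ => x.2.tail) :=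
  (Primrec.list_tail.comp Primrec.snd).to_comp

theorem c_get : Computable (fun x : (ℕ × ℕ) × List ℕ => x.2.getD 0 0) :=
  ((Primrec.list_getD 0).comp Primrec.snd (Primrec.const 0)).to_comp

theorem c_pred : Computable (fun n : ℕ => n - 1) :=
  (Primrec.nat_sub.comp Primrec.id (Primrec.const 1)).to_comp

theorem c_len : Computable (fun x : (ℕ × ℕ) × List ℕ => zB x.2.length) :=
  comp_zB.comp (Computable.list_length.comp Computable.snd)

theorem c_g0 : Computable (fun x : (ℕ × ℕ) × List ℕ => zB (x.2.getD 0 0)) :=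
  comp_zB.comp c_get

theorem c_g1 : Computable (fun x : (ℕ × ℕ) × List ℕ => zB (x.2.getD 0 0 - 1)) :=
  comp_zB.comp (c_pred.comp c_get)

theorem c_if {α : Type} [Primcodable α] {a b c d e : α → Bool} (ha : Computable a)
    (hb : Computable b) (hc : Computable c) (hd : Computable d) (he : Computable e) :
    Computable (fun x => bif a x then true else bif b x then d x else
      bif c x then e x else false) :=
  Computable.cond ha (Computable.const true) (Computable.cond hb hd
    (Computable.cond hc he (Computable.const false)))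

theorem c_pt : Computable (fun x : (ℕ × ℕ) × List ℕ => (x.1, x.2.tail)) :=
  Computable.fst.pair c_tail

theorem c_nK {bK : (ℕ × ℕ) × List ℕ → Bool} (hK : Computable bK) :
    Computable (fun x : (ℕ × ℕ) × List ℕ => nrej bK x.1 x.2.tail) := by
  have h := nrej_comp hK
  have h2 := h.comp c_pt
  exact h2

theorem c_nB {bB : Unit × List ℕ → Bool} (hB : Computable bB) :
    Computable (fun x : (ℕ × ℕ) × List ℕ => nrej bB () x.2.tail) :=
  (nrej_comp hB).comp ((Computable.const ()).pair c_tail)

theorem TT_comp {bK : (ℕ × ℕ) × List ℕ → Bool} {bB : Unit × List ℕ → Bool} (hK : Computable bK)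
    (hB : Computable bB) : Computable (fun x : (ℕ × ℕ) × List ℕ => TT bK bB x.1 x.2) :=
  (c_if c_len c_g0 c_g1 (c_nK hK) (c_nB hB)).of_eq fun _ => rfl

variable {bK : (ℕ × ℕ) × List ℕ → Bool} {bB : Unit × List ℕ → Bool} {p : ℕ × ℕ}

theorem TT_nil : TT bK bB p [] = true := by
  unfold TT
  rw [List.length_nil, zB_zero]
  rfl

theorem TT_zero {s : List ℕ} : TT bK bB p (0 :: s) = nrej bK p s := by
  unfold TT
  rw [List.length_cons, zB_succ, List.getD_cons_zero, zB_zero]
  rfl

theorem TT_one {s : List ℕ} : TT bK bB p (1 :: s) = nrej bB () s := by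
  unfold TT
  rw [List.length_cons, zB_succ, List.getD_cons_zero, zB_succ, Nat.sub_self, zB_zero]
  rfl

theorem TT_two {s : List ℕ} {n : ℕ} : TT bK bB p ((n + 2) :: s) = false := by
  unfold TT
  rw [List.length_cons, zB_succ, List.getD_cons_zero, zB_succ, Nat.add_sub_assoc (by omega), zB_succ]
  rfl

theorem TT_mono (s t : List ℕ) (h : s <+: t) (ht : TT bK bB p t = true) :
    TT bK bB p s = true := by
  rcases s with _ | ⟨i, s⟩
  · exact TT_nil
  rcases t with _ | ⟨j, t⟩
  · exact absurd (List.prefix_nil.1 h) (by simp)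
  obtain ⟨rfl, h'⟩ := List.cons_prefix_cons.1 h
  rcases i with _ | _ | i
  · rw [TT_zero] at ht ⊢
    exact nrej_mono h' ht
  · rw [TT_one] at ht ⊢
    exact nrej_mono h' ht
  · rw [TT_two] at ht
    exact absurd ht (by simp)

theorem pre_cons (F : ℕ → ℕ) (k : ℕ) : pre F (k + 1) = F 0 :: pre (tl1 F) k := by
  unfold pre
  rw [List.range_succ_eq_map, List.map_cons, List.map_map]
  rfl

theorem pre_cons1 (i : ℕ) (F : ℕ → ℕ) (k : ℕ) : pre (cons1 i F) (k + 1) = i :: pre F k := by
  rw [pre_cons, tl1_cons1]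
  rfl

theorem up_TT (hK : ∀ F, F ∈ KK p.1 p.2 ↔ ∀ k, bK (p, pre F k) = false) {B : Set (ℕ → ℕ)}
    (hB : ∀ F, F ∈ B ↔ ∀ k, bB ((), pre F k) = false) :
    Up (Pt (TT bK bB p)) = Up (KK p.1 p.2) ∪ Up B := by
  ext W
  constructor
  · rintro ⟨F, hF, hr⟩
    have hF' : ∀ k, TT bK bB p (pre F k) = true := hF
    rcases h0 : F 0 with _ | _ | n
    · left
      refine ⟨tl1 F, (hK _).2 (nrej_pre.1 fun k => ?_), (red_tl1 red1 F).trans hr⟩
      have := hF' (k + 1)
      rwa [pre_cons, h0, TT_zero] at this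
    · right
      refine ⟨tl1 F, (hB _).2 (nrej_pre.1 fun k => ?_), (red_tl1 red1 F).trans hr⟩
      have := hF' (k + 1)
      rwa [pre_cons, h0, TT_one] at this
    · have := hF' 1
      rw [pre_cons, h0, TT_two] at this
      exact absurd this (by simp)
  · rintro (⟨F, hF, hr⟩ | ⟨F, hF, hr⟩)
    · refine ⟨cons1 0 F, ?_, (red_cons1 red1 0 F).trans hr⟩
      show ∀ k, TT bK bB p (pre (cons1 0 F) k) = true
      intro k
      rcases k with _ | k
      · exact TT_nil
      · rw [pre_cons1, TT_zero]
        exact nrej_pre.2 ((hK F).1 hF) k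
    · refine ⟨cons1 1 F, ?_, (red_cons1 red1 1 F).trans hr⟩
      show ∀ k, TT bK bB p (pre (cons1 1 F) k) = true
      intro k
      rcases k with _ | k
      · exact TT_nil
      · rw [pre_cons1, TT_one]
        exact nrej_pre.2 ((hB F).1 hF) k

/-- The classes of the maps, uniformly. -/
theorem hom_clo {T : (ℕ × ℕ) × List ℕ → Bool} (hT : Computable T) :
    Clo (fun (q : (ℕ × ℕ) × (ℕ × ℕ)) F =>
      F ∈ HomC (fun s => T (q.1, s) = true) (fun s => T (q.2, s) = true)) := by
  have hh : RecF (fun (s : List ℕ) F => hd F s) := by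
    have h1 : RecF (fun (s : List ℕ) F => F (Encodable.encode s)) := RecF.at Computable.encode
    have h2 : Computable (fun n : ℕ => (Encodable.decode (α := List ℕ) n).getD []) :=
      Primrec.option_getD.to_comp.comp (Computable.decode) (Computable.const [])
    exact (RecF.comp h2 h1).congr fun a F => rfl
  have e0 : ComputablePred (fun b : Bool => b = true) := by
    rw [ComputablePred.computable_iff]
    exact ⟨id, Computable.id, rfl⟩
  have e1 : Cop (fun (s : ((ℕ × ℕ) × (ℕ × ℕ)) × List ℕ) (_ : ℕ → ℕ) =>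
      T (s.1.1, s.2) = true) := by
    refine Cop.of_computable (cp_comp (P := fun b : Bool => b = true)
      (f := fun s : ((ℕ × ℕ) × (ℕ × ℕ)) × List ℕ => T (s.1.1, s.2)) e0 ?_)
    exact hT.comp ((Computable.fst.comp Computable.fst).pair Computable.snd)
  have e2 : Cop (fun (s : ((ℕ × ℕ) × (ℕ × ℕ)) × List ℕ) F => T (s.1.2, hd F s.2) = true) := by
    refine Cop.of_recF (φ := fun (s : ((ℕ × ℕ) × (ℕ × ℕ)) × List ℕ) F => T (s.1.2, hd F s.2))
      (p := fun b : Bool => b = true) ?_ e0
    exact RecF.comp hT ((RecF.of_computable (Computable.snd.comp Computable.fst)).pair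
      (hh.comp₁ Computable.snd))
  have e3 : Cop (fun (s : ((ℕ × ℕ) × (ℕ × ℕ)) × List ℕ) F =>
      s.2.length ≤ (hd F s.2).length) := by
    refine Cop.of_recF (φ := fun (s : ((ℕ × ℕ) × (ℕ × ℕ)) × List ℕ) F =>
      (s.2.length, (hd F s.2).length)) (p := fun x : ℕ × ℕ => x.1 ≤ x.2) ?_ lePair
    exact (RecF.of_computable (Computable.list_length.comp Computable.snd)).pair
      (RecF.comp Computable.list_length (hh.comp₁ Computable.snd))
  have e4 : Cop (fun (z : (((ℕ × ℕ) × (ℕ × ℕ)) × List ℕ) × ℕ) F =>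
      hd F (z.1.2.take z.2) <+: hd F z.1.2) := by
    have c2 : Computable (fun z : (((ℕ × ℕ) × (ℕ × ℕ)) × List ℕ) × ℕ => z.1.2.take z.2) :=
      (Primrec.list_take (α := ℕ)).to_comp.comp Computable.snd
        (Computable.snd.comp Computable.fst)
    refine Cop.of_recF (φ := fun (z : (((ℕ × ℕ) × (ℕ × ℕ)) × List ℕ) × ℕ) F =>
      (hd F (z.1.2.take z.2), hd F z.1.2)) (p := fun x : List ℕ × List ℕ => x.1 <+: x.2) ?_
      prefPair
    exact (hh.comp₁ c2).pair (hh.comp₁ (Computable.snd.comp Computable.fst))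
  have e5 : Cop (fun (s : ((ℕ × ℕ) × (ℕ × ℕ)) × List ℕ) F => ∀ k < s.2.length + 1,
      hd F (s.2.take k) <+: hd F s.2) :=
    Cop.ball (P := fun (s : ((ℕ × ℕ) × (ℕ × ℕ)) × List ℕ) k F =>
      hd F (s.2.take k) <+: hd F s.2) e4
      (Computable.succ.comp (Computable.list_length.comp Computable.snd))
  exact Clo.all (P := fun (q : (ℕ × ℕ) × (ℕ × ℕ)) (s : List ℕ) F => T (q.1, s) = true →
      T (q.2, hd F s) = true ∧
    s.length ≤ (hd F s).length ∧ ∀ k < s.length + 1, hd F (s.take k) <+: hd F s)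
    (Clo.of_cop (Cop.imp e1 (e2.and (e3.and e5))))

/-- `Up` of uniform closed classes is uniformly `Δ¹₁`. -/
theorem up_clo {α : Type} [Primcodable α] {P : α → Set (ℕ → ℕ)}
    (hP : Clo (fun (a : α) F => F ∈ P a)) : Del (fun (a : α) W => W ∈ Up (P a)) := by
  obtain ⟨d, hd, hPd⟩ := hP
  have e := up_del enum (d := fun (x : α × (ℕ × ℕ)) F => d (x.1, x.2.1) F)
    (hd.comp₁ (Computable.fst.pair (Computable.fst.comp Computable.snd)))
  refine e.congr fun a W => ?_
  have : {F | ∀ (n : ℕ), ∃ _m : ℕ, d (a, n) F = true} = P a := by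
    ext F
    have h1 : F ∈ P a ↔ ∀ m, d (a, m) F = true := hPd a F
    rw [h1]
    constructor
    · intro h n
      obtain ⟨_, h⟩ := h n
      exact h
    · intro h n
      exact ⟨0, h n⟩
  show W ∈ Up {F | ∀ (n : ℕ), ∃ _m : ℕ, d (a, n) F = true} ↔ _
  rw [this]

end Pool.Agent.Lib.MP_d48993_lc.Bound.Homd

namespace Pool.Agent.Lib.MP_d48993_lc.Bound

open MP_8c048d_lc (Clo)
open Homd

/-- Module HOMD. -/
theorem homd : HomdStatement := by
  intro B hB
  obtain ⟨bK, hbK, hK⟩ := H84.clo_reject H84.KK_clo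
  obtain ⟨bB, hbB, hB'⟩ := H84.clo_reject hB
  have hT := TT_comp hbK hbB
  refine ⟨fun p s => TT bK bB p s, fun p => ⟨⟨?_, TT_mono⟩, TT_nil, ?_⟩, ?_⟩
  · exact hT.comp ((Computable.const p).pair Computable.id)
  · exact up_TT (fun F => hK p F) (fun F => hB' () F)
  · exact up_clo (hom_clo hT)

end Pool.Agent.Lib.MP_d48993_lc.Bound
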