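import Pool.Agent.Lib.MP_d48993_lc.AE.Bound.Interfaces
import Pool.Agent.Lib.MP_d48993_lc.AE.Sound
import Pool.Agent.Lib.MP_d48993_lc.AE.Mainc3
import Pool.Agent.Lib.MP_d48993_lc.AE.Syn

/-!
# Board LB (MP_d48993): module LBA, every embedding is dominated by a finite frame
-/

set_option autoImplicit false

namespace Pool.Agent.Lib.MP_d48993_lc.Bound

open MP_8c048d_lc (pre join RecF Sig Pih Clo Cop Del)
open AE.Sound (Cl col col_del del_const fin_del exists_join)
open AE.Mainc3 (exists_mask red_zero)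

namespace Lba

/-- `W` lies in the region of the mask `m`. -/
def Rg {D : Type} (B : Set (ℕ → ℕ)) (up : D → Set (ℕ → ℕ)) (n : ℕ) (x : ℕ → D) (m : ℕ)
    (W : ℕ → ℕ) : Prop :=
  W ∉ Up B ∧ ∀ i < n, (W ∈ up (x i) ↔ m.testBit i = true)

section Frame

variable {B : Set (ℕ → ℕ)} {N : Set (ℕ → ℕ)}

/-- the points -/
abbrev Pn (B : Set (ℕ → ℕ)) (N : Set (ℕ → ℕ)) : Type := {y : Set (Set (ℕ → ℕ)) // InP B N y}

/-- the closure operators -/
def piW (B : Set (ℕ → ℕ)) (N : Set (ℕ → ℕ)) : WithBot (Pn B N) → WithBot (Pn B N) →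
    WithBot (Pn B N)
  | ⊥, x => x
  | (t : Pn B N), ⊥ => ⊥
  | (t : Pn B N), (x : Pn B N) => ((⟨Pj B t.1 x.1, InP.step _ _ t.2 x.2⟩ : Pn B N) : WithBot _)

theorem piW_bot (t : WithBot (Pn B N)) : piW B N t ⊥ = ⊥ := by
  induction t using WithBot.recBotCoe with
  | bot => rfl
  | coe t => rfl

theorem piW_bot' (x : WithBot (Pn B N)) : piW B N ⊥ x = x := by
  induction x using WithBot.recBotCoe with
  | bot => rfl
  | coe t => rfl

theorem piW_coe (t x : Pn B N) : piW B N t x =
    ((⟨Pj B t.1 x.1, InP.step _ _ t.2 x.2⟩ : Pn B N) : WithBot _) := rfl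

/-- the labels -/
noncomputable def lamW {D : Type} (up : D → Set (ℕ → ℕ)) (n : ℕ) (x : ℕ → D) :
    WithBot (Pn B N) → Finset (Fin n) := by
  classical
  exact fun y => WithBot.recBotCoe (Finset.univ.filter fun i => (fun _ : ℕ => 0) ∈ up (x i))
    (fun y => Finset.univ.filter fun i => up (x i) ∈ y.1) y

variable {D : Type} {up : D → Set (ℕ → ℕ)} {n : ℕ} {x : ℕ → D}

theorem mem_lam_bot (i : Fin n) : i ∈ lamW (B := B) (N := N) up n x ⊥ ↔
    (fun _ : ℕ => 0) ∈ up (x i) := by
  classical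
  simp [lamW]

theorem mem_lam_coe (i : Fin n) (y : Pn B N) : i ∈ lamW up n x (y : WithBot (Pn B N)) ↔
    up (x i) ∈ y.1 := by
  classical
  simp [lamW]

theorem univ_mem (hT : TreecStatement) (hB : ClosedC B) {y : Set (Set (ℕ → ℕ))} (hy : PI B y) :
    Set.univ ∈ y := by
  by_contra h
  obtain ⟨Y, -, -, h1⟩ := hy.repr _ (hT B hB).2.1 h
  exact h1 (Set.mem_univ Y)

theorem up_univ (hT : TreecStatement) (hB : ClosedC B) {U : Set (ℕ → ℕ)} (hU : IsC B U)
    (h0 : (fun _ : ℕ => 0) ∈ U) : U = Set.univ :=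
  Set.eq_univ_of_forall fun W => ((hT B hB).2.2.2.1 U hU).2.1 _ W h0 (red_zero W)

/-- The frame of an embedding. -/
theorem isFr (hT : TreecStatement) {Z : ℕ → ℕ} (hN : Bases B Z N) (hFr : FramepStatement)
    (hup : ∀ a, IsC B (up a)) : IsFr (lamW (B := B) (N := N) up n x) (piW B N) := by
  obtain ⟨h1, h2, h3, h4, -⟩ := hFr B Z N hN
  constructor
  · intro y y' hyy
    induction y using WithBot.recBotCoe with
    | bot =>
      induction y' using WithBot.recBotCoe with
      | bot => exact le_refl _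
      | coe y' =>
        intro i hi
        rw [mem_lam_bot] at hi
        rw [mem_lam_coe, up_univ hT hN.1 (hup (x i)) hi]
        exact univ_mem hT hN.1 (h1 y'.1 y'.2).1
    | coe y =>
      induction y' using WithBot.recBotCoe with
      | bot => exact absurd hyy (WithBot.not_coe_le_bot y)
      | coe y' =>
        intro i hi
        rw [mem_lam_coe] at hi ⊢
        have h5 : y ≤ y' := WithBot.coe_le_coe.1 hyy
        exact h5 hi
  · intro t y y' hyy
    induction t using WithBot.recBotCoe with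
    | bot => rw [piW_bot', piW_bot']; exact hyy
    | coe t =>
      induction y using WithBot.recBotCoe with
      | bot => rw [piW_bot]; exact bot_le
      | coe y =>
        induction y' using WithBot.recBotCoe with
        | bot => exact absurd hyy (WithBot.not_coe_le_bot y)
        | coe y' =>
          rw [piW_coe, piW_coe, WithBot.coe_le_coe]
          have h5 : y ≤ y' := WithBot.coe_le_coe.1 hyy
          exact h3 t.1 y.1 y'.1 h5
  · intro t y
    induction t using WithBot.recBotCoe with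
    | bot => rw [piW_bot']
    | coe t =>
      induction y using WithBot.recBotCoe with
      | bot => exact bot_le
      | coe y =>
        rw [piW_coe, WithBot.coe_le_coe]
        exact (h2 t.1 y.1 t.2 y.2).1
  · intro t y
    induction t using WithBot.recBotCoe with
    | bot => rw [piW_bot', piW_bot']
    | coe t =>
      induction y using WithBot.recBotCoe with
      | bot => rw [piW_bot, piW_bot]
      | coe y =>
        rw [piW_coe, piW_coe, WithBot.coe_inj]
        exact Subtype.ext (h2 t.1 y.1 t.2 y.2).2.1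
  · intro s t y
    induction s using WithBot.recBotCoe with
    | bot => rw [piW_bot', piW_bot']
    | coe s =>
      induction t using WithBot.recBotCoe with
      | bot => rw [piW_bot', piW_bot']
      | coe t =>
        induction y using WithBot.recBotCoe with
        | bot => rw [piW_bot, piW_bot, piW_bot]
        | coe y =>
          rw [piW_coe, piW_coe, piW_coe, piW_coe, WithBot.coe_inj]
          exact Subtype.ext (h4 s.1 t.1 y.1 s.2 t.2 y.2)
  · intro t y hty
    induction t using WithBot.recBotCoe with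
    | bot => rw [piW_bot']
    | coe t =>
      induction y using WithBot.recBotCoe with
      | bot => rw [piW_bot]
      | coe y =>
        rw [piW_coe, WithBot.coe_inj]
        refine Subtype.ext ((h2 t.1 y.1 t.2 y.2).2.2.1 fun h => hty ?_)
        rw [WithBot.coe_lt_coe]
        exact h
  · intro t y hty
    induction t using WithBot.recBotCoe with
    | bot => exact absurd hty not_lt_bot
    | coe t =>
      induction y using WithBot.recBotCoe with
      | bot => rw [piW_bot]; exact bot_le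
      | coe y =>
        rw [piW_coe, WithBot.coe_le_coe]
        rw [WithBot.coe_lt_coe] at hty
        exact (h2 t.1 y.1 t.2 y.2).2.2.2 hty.le

end Frame

/-! ## Finite intersections and unions -/

theorem inter_fin (hT : TreecStatement) {B : Set (ℕ → ℕ)} (hB : ClosedC B)
    {y : Set (Set (ℕ → ℕ))} (hy : PI B y) (U : ℕ → Set (ℕ → ℕ)) (p : ℕ → Prop) (n : ℕ)
    (h : ∀ i < n, p i → U i ∈ y) : {W | ∀ i < n, p i → W ∈ U i} ∈ y := by
  induction n with
  | zero =>
    have : {W : ℕ → ℕ | ∀ i < 0, p i → W ∈ U i} = Set.univ := by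
      ext W
      simp
    rw [this]
    exact univ_mem hT hB hy
  | succ n ih =>
    have h1 := ih fun i hi => h i (Nat.lt_succ_of_lt hi)
    by_cases hp : p n
    · have h2 := hy.inter _ h1 _ (h n (Nat.lt_succ_self n) hp)
      have : {W | ∀ i < n + 1, p i → W ∈ U i} = {W | ∀ i < n, p i → W ∈ U i} ∩ U n := by
        ext W
        constructor
        · intro h3
          exact ⟨fun i hi => h3 i (Nat.lt_succ_of_lt hi), h3 n (Nat.lt_succ_self n) hp⟩
        · rintro ⟨h3, h4⟩ i hi hpi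
          rcases Nat.lt_succ_iff_lt_or_eq.1 hi with hi | rfl
          · exact h3 i hi hpi
          · exact h4
      rw [this]
      exact h2
    · have : {W | ∀ i < n + 1, p i → W ∈ U i} = {W | ∀ i < n, p i → W ∈ U i} := by
        ext W
        constructor
        · intro h3 i hi
          exact h3 i (Nat.lt_succ_of_lt hi)
        · intro h3 i hi hpi
          rcases Nat.lt_succ_iff_lt_or_eq.1 hi with hi | rfl
          · exact h3 i hi hpi
          · exact absurd hpi hp
      rw [this]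
      exact h1

theorem union_fin (hT : TreecStatement) {B : Set (ℕ → ℕ)} (hB : ClosedC B)
    {y : Set (Set (ℕ → ℕ))} (hy : PI B y) (U : ℕ → Set (ℕ → ℕ)) (p : ℕ → Prop) (n : ℕ)
    (hU : ∀ i < n, IsC B (U i)) (h : ∀ i < n, p i → U i ∉ y) :
    IsC B ({W | ∃ i < n, p i ∧ W ∈ U i} ∪ Up B) ∧ ({W | ∃ i < n, p i ∧ W ∈ U i} ∪ Up B) ∉ y := by
  induction n with
  | zero =>
    have : {W : ℕ → ℕ | ∃ i < 0, p i ∧ W ∈ U i} ∪ Up B = Up B := by
      ext W
      simp
    rw [this]
    exact ⟨(hT B hB).1, hy.proper⟩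
  | succ n ih =>
    obtain ⟨h1, h2⟩ := ih (fun i hi => hU i (Nat.lt_succ_of_lt hi))
      fun i hi => h i (Nat.lt_succ_of_lt hi)
    by_cases hp : p n
    · have : {W | ∃ i < n + 1, p i ∧ W ∈ U i} ∪ Up B =
          ({W | ∃ i < n, p i ∧ W ∈ U i} ∪ Up B) ∪ U n := by
        ext W
        constructor
        · rintro (⟨i, hi, hpi, hW⟩ | hW)
          · rcases Nat.lt_succ_iff_lt_or_eq.1 hi with hi | rfl
            · exact Or.inl (Or.inl ⟨i, hi, hpi, hW⟩)
            · exact Or.inr hW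
          · exact Or.inl (Or.inr hW)
        · rintro ((⟨i, hi, hpi, hW⟩ | hW) | hW)
          · exact Or.inl ⟨i, Nat.lt_succ_of_lt hi, hpi, hW⟩
          · exact Or.inr hW
          · exact Or.inl ⟨n, Nat.lt_succ_self n, hp, hW⟩
      rw [this]
      refine ⟨((hT B hB).2.2.1 _ _ h1 (hU n (Nat.lt_succ_self n))).2, fun h3 => ?_⟩
      rcases hy.prime _ _ h1 (hU n (Nat.lt_succ_self n)) h3 with h4 | h4
      · exact h2 h4
      · exact h n (Nat.lt_succ_self n) hp h4
    · have : {W | ∃ i < n + 1, p i ∧ W ∈ U i} ∪ Up B =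
          {W | ∃ i < n, p i ∧ W ∈ U i} ∪ Up B := by
        ext W
        constructor
        · rintro (⟨i, hi, hpi, hW⟩ | hW)
          · rcases Nat.lt_succ_iff_lt_or_eq.1 hi with hi | rfl
            · exact Or.inl ⟨i, hi, hpi, hW⟩
            · exact absurd hpi hp
          · exact Or.inr hW
        · rintro (⟨i, hi, hpi, hW⟩ | hW)
          · exact Or.inl ⟨i, Nat.lt_succ_of_lt hi, hpi, hW⟩
          · exact Or.inr hW
      rw [this]
      exact ⟨h1, h2⟩

/-! ## The base reals -/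

theorem isC_cl {B U : Set (ℕ → ℕ)} (hB : ClosedC B) (h : IsC B U) : Cl U := by
  obtain ⟨S, hS, rfl⟩ := h
  exact (Cl.of hS).union (Cl.of hB)

theorem exists_base (hG : GandyStatement) {D : Type} {B : Set (ℕ → ℕ)} (hB : ClosedC B)
    (up : D → Set (ℕ → ℕ)) (hup : ∀ a, IsC B (up a)) (n : ℕ) (x : ℕ → D) :
    ∃ Z, Nice Z ∧ ∀ m < 2 ^ n, (∃ W, Rg B up n x m W) → Rg B up n x m (Colz Z m) := by
  classical
  have h1 : ∀ m, Del (fun (_ : Unit) W => Rg B up n x m W) := by
    intro m
    refine (((Cl.of hB).del).not).and ?_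
    refine fin_del (fun i W => W ∈ up (x i) ↔ m.testBit i = true) n fun i _ => ?_
    have e1 := (isC_cl hB (hup (x i))).del
    have e2 := del_const (m.testBit i = true)
    refine ((Del.imp (P := fun (_ : Unit) W => W ∈ up (x i)) e1 e2).and
      (Del.imp (P := fun (_ : Unit) (_ : ℕ → ℕ) => m.testBit i = true) e2 e1)).congr
      fun a W => ?_
    exact iff_def.symm
  have h2 : Sig (fun (_ : Unit) Z => ∀ m < 2 ^ n, (∃ W, Rg B up n x m W) →
      Rg B up n x m (Colz Z m)) := by
    refine (fin_del (fun m Z => (∃ W, Rg B up n x m W) → Rg B up n x m (Colz Z m)) (2 ^ n)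
      fun m _ => ?_).1
    refine Del.imp (P := fun (_ : Unit) (_ : ℕ → ℕ) => ∃ W, Rg B up n x m W) (del_const _) ?_
    exact col_del (P := fun W => Rg B up n x m W) (h1 m) m
  obtain ⟨Z, hZ, hZN⟩ := hG _ h2 (by
    have h3 : ∀ m, ∃ W, (∃ W, Rg B up n x m W) → Rg B up n x m W := by
      intro m
      by_cases h : ∃ W, Rg B up n x m W
      · obtain ⟨W, hW⟩ := h
        exact ⟨W, fun _ => hW⟩
      · exact ⟨fun _ => 0, fun h' => absurd h' h⟩
    choose G hG' using h3
    refine ⟨fun k => G k.unpair.1 k.unpair.2, fun m _ hm => ?_⟩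
    have e : Colz (fun k => G k.unpair.1 k.unpair.2) m = G m := by
      funext i
      show G (Nat.pair m i).unpair.1 (Nat.pair m i).unpair.2 = G m i
      rw [Nat.unpair_pair]
    rw [e]
    exact hG' m hm)
  exact ⟨Z, hZN, hZ⟩

end Lba

open Lba in
/-- Module LBA. -/
theorem lba (hT : TreecStatement) (hG : GandyStatement) (hFr : FramepStatement)
    (hBx : BoxStatement) (hS : Sound2Statement) (hTy : TypStatement) : LbStatement := by
  classical
  intro D _ B up hF h0B n x
  have hB : ClosedC B := hF.closed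
  have hup : ∀ a, IsC B (up a) := hF.rep
  obtain ⟨Z, hZ, hZm⟩ := exists_base hG hB up hup n x
  let N : Set (ℕ → ℕ) := {X | ∃ m < 2 ^ n, (∃ i < n, m.testBit i = true ∧
    (fun _ : ℕ => 0) ∉ up (x i)) ∧ Rg B up n x m (Colz Z m) ∧ X = Colz Z m}
  have hN : Bases B Z N := by
    refine ⟨hB, hZ, ?_⟩
    rintro X ⟨m, _, _, h1, rfl⟩
    exact ⟨h1.1, m, rfl⟩
  obtain ⟨f1, f2, f3, f4, f5⟩ := hFr B Z N hN
  -- the labels of the points are not the least one
  have hlab : ∀ y, InP B N y → ∃ i < n, (fun _ : ℕ => 0) ∉ up (x i) ∧ up (x i) ∈ y := by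
    intro y hy
    induction hy with
    | base X hX =>
      obtain ⟨m, _, ⟨i, hi, h1, h2⟩, h3, rfl⟩ := hX
      exact ⟨i, hi, h2, hup (x i), (h3.2 i hi).2 h1⟩
    | step t y ht hy _ ihy =>
      obtain ⟨i, hi, h1, h2⟩ := ihy
      exact ⟨i, hi, h1, (f2 t y ht hy).1 h2⟩
  obtain ⟨τ, s, hτ, hlen, hs0, hinj, hmask, honto, hbl⟩ := hTy n (WithBot (Pn B N))
    (lamW up n x) (piW B N) ⊥ (isFr hT hN hFr hup) (fun _ => bot_le) (fun y hy => by
      induction y using WithBot.recBotCoe with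
      | bot => rfl
      | coe y =>
        exfalso
        obtain ⟨i, hi, h1, h2⟩ := hlab y.1 y.2
        have h3 : (⟨i, hi⟩ : Fin n) ∈ lamW (B := B) (N := N) up n x ⊥ :=
          hy ((mem_lam_coe (x := x) ⟨i, hi⟩ y).2 h2)
        exact h1 ((mem_lam_bot (x := x) ⟨i, hi⟩).1 h3)) piW_bot
  have hpos : 0 < τ.1.length := by
    obtain ⟨le, π, h⟩ := hτ
    exact h.pos
  have hm0 : ∀ i < n, ((fun _ : ℕ => 0) ∈ up (x i) ↔ τ.In 0 i) := by
    intro i hi
    have h1 := hmask 0 hpos ⟨i, hi⟩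
    rw [hs0, mem_lam_bot] at h1
    exact h1
  -- the masks of the reals
  have hreal : ∀ W, W ∉ Up B → ∃ k < τ.1.length, ∀ i < n, (W ∈ up (x i) ↔ τ.In k i) := by
    intro W hW
    obtain ⟨m, hm, hm1⟩ := exists_mask n fun i => W ∈ up (x i)
    have hRg : Rg B up n x m W := ⟨hW, fun i hi => (hm1 i hi).symm⟩
    by_cases h : ∃ i < n, m.testBit i = true ∧ (fun _ : ℕ => 0) ∉ up (x i)
    · have h1 := hZm m hm ⟨W, hRg⟩
      have h2 : Colz Z m ∈ N := ⟨m, hm, h, h1, rfl⟩
      obtain ⟨k, hk, hk1⟩ := honto ((⟨Fl B (Colz Z m), InP.base _ h2⟩ : Pn B N) : WithBot _)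
      refine ⟨k, hk, fun i hi => ?_⟩
      have h3 := hmask k hk ⟨i, hi⟩
      rw [hk1, mem_lam_coe] at h3
      rw [← h3]
      constructor
      · intro h4
        exact ⟨hup (x i), (h1.2 i hi).2 ((hRg.2 i hi).1 h4)⟩
      · intro h4
        exact (hRg.2 i hi).2 ((h1.2 i hi).1 h4.2)
    · push Not at h
      refine ⟨0, hpos, fun i hi => ?_⟩
      rw [← hm0 i hi]
      constructor
      · intro h1
        exact h i hi ((hRg.2 i hi).1 h1)
      · intro h1
        rw [up_univ hT hB (hup (x i)) h1]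
        exact Set.mem_univ W
  refine ⟨τ, hτ, hlen, fun hBe hne => ?_, fun φ hφ => ?_⟩
  · -- the top region in Baire space
    obtain ⟨W, -, hW⟩ := exists_join (fun i => up (x i)) (fun _ => True) (fun _ => 0) n
      (fun i _ => isC_cl hB (hup (x i))) fun i _ _ => hne (x i)
    obtain ⟨k, hk, hk1⟩ := hreal W (by
      rw [hBe]
      rintro ⟨f, hf, -⟩
      exact hf)
    exact ⟨k, hk, fun i hi => (hk1 i hi).1 (hW i hi trivial)⟩
  · -- the boxes
    let ι : Type := {k : ℕ // k < τ.1.length ∧ k ≠ 0}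
    have hιf : Finite ι := Finite.of_injective (fun k : ι => (⟨k.1, k.2.1⟩ : Fin τ.1.length))
      fun a b h => Subtype.ext (congrArg Fin.val h)
    have hy : ∀ k : ι, ∃ y : Pn B N, s k.1 = (y : WithBot (Pn B N)) := by
      intro k
      rcases h : s k.1 with _ | y
      · exact absurd (hinj k.1 k.2.1 0 hpos (h.trans hs0.symm)) k.2.2
      · exact ⟨y, rfl⟩
    choose yy hyy using hy
    have hlam : ∀ (k : ι) (i : ℕ), i < n → (up (x i) ∈ (yy k).1 ↔ τ.In k.1 i) := by
      intro k i hi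
      have h1 := hmask k.1 k.2.1 ⟨i, hi⟩
      rw [hyy k, mem_lam_coe] at h1
      exact h1
    obtain ⟨A, Bd, hAB, hfree⟩ := hBx B Z N hN ι (fun k => (yy k).1) (by
        intro k l h
        have h1 : yy k = yy l := Subtype.ext h
        exact Subtype.ext (hinj k.1 k.2.1 l.1 l.2.1 (by rw [hyy k, hyy l, h1])))
      (fun k => (yy k).2) (fun k => {W | ∀ i < n, τ.In k.1 i → W ∈ up (x i)})
      (fun k => {W | ∃ i < n, ¬ τ.In k.1 i ∧ W ∈ up (x i)} ∪ Up B)
      (fun k => inter_fin hT hB (f1 _ (yy k).2).1 (fun i => up (x i)) (fun i => τ.In k.1 i) n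
        fun i hi h => (hlam k i hi).2 h)
      (fun k => union_fin hT hB (f1 _ (yy k).2).1 (fun i => up (x i)) (fun i => ¬ τ.In k.1 i) n
        (fun i _ => hup (x i)) fun i hi h h1 => h ((hlam k i hi).1 h1))
    let A' : ℕ → Set (ℕ → ℕ) := fun k => if h : k < τ.1.length ∧ k ≠ 0 then A ⟨k, h⟩ else ∅
    let Bd' : ℕ → Set (ℕ → ℕ) := fun k => if h : k < τ.1.length ∧ k ≠ 0 then Bd ⟨k, h⟩ else ∅
    have eA : ∀ k (h : k < τ.1.length ∧ k ≠ 0), A' k = A ⟨k, h⟩ := fun k h => dif_pos h
    have eB : ∀ k (h : k < τ.1.length ∧ k ≠ 0), Bd' k = Bd ⟨k, h⟩ := fun k h => dif_pos h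
    obtain ⟨Np, hNp, v, hv1, hv2, hv3⟩ := hφ
    obtain ⟨w, hw1, hw2⟩ := hS D B up hF h0B n x τ A' Bd' hpos hm0 (by
        intro k hk hk0
        rw [eA k ⟨hk, hk0⟩, eB k ⟨hk, hk0⟩]
        obtain ⟨h1, h2, h3, h4, h5⟩ := hAB ⟨k, hk, hk0⟩
        refine ⟨h1, h2, fun i hi hin => h3.trans fun W hW => hW i hi hin,
          fun i hi hin => Set.Subset.trans ?_ h4, h5⟩
        exact fun W hW => Or.inl ⟨i, hi, hin, hW⟩)
      (by
        intro k hk l hl hk0 hl0 hkl hτ2
        rw [eA k ⟨hk, hk0⟩, eA l ⟨hl, hl0⟩, eB l ⟨hl, hl0⟩]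
        refine hfree ⟨k, hk, hk0⟩ ⟨l, hl, hl0⟩ (fun h => hkl (congrArg Subtype.val h)) ?_
        have h1 := hbl k hk l hl hτ2
        rw [hyy ⟨k, hk, hk0⟩, hyy ⟨l, hl, hl0⟩, piW_coe, WithBot.coe_inj] at h1
        exact congrArg Subtype.val h1)
      (by
        intro k hk hk0
        obtain ⟨i, hi, h1, h2⟩ := hlab _ (yy ⟨k, hk, hk0⟩).2
        exact ⟨i, hi, (hlam ⟨k, hk, hk0⟩ i hi).1 h2, fun h => h1 ((hm0 i hi).2 h)⟩)
      (by
        intro i hi j hj h
        rw [hF.le]
        intro W hW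
        by_cases hWB : W ∈ Up B
        · exact ((hT B hB).2.2.2.1 _ (hup (x i))).1 hWB
        · obtain ⟨k, hk, hk1⟩ := hreal W hWB
          exact (hk1 i hi).2 (h k hk ((hk1 j hj).1 hW)))
      Np hNp v hv1 hv2
    refine ⟨w, hw1, ?_⟩
    rw [AE.Syn.holds_iff]
    have e : (fun i j => w i ≤ w j) = fun i j => PLe τ Np (v i) (v j) := by
      funext i j
      exact propext (hw2 i j)
    rw [e]
    exact hv3

end Pool.Agent.Lib.MP_d48993_lc.Bound
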