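import Pool.Agent.Lib.MP_d48993_lc.AE.Bound.Interfaces

/-!
# Module MAINF (helper49): decidability from realisation
-/

set_option autoImplicit false

namespace Pool.Agent.Lib.MP_d48993_lc.Bound

namespace Mainf

theorem up_of_B {D : Type} [PartialOrder D] {B : Set (ℕ → ℕ)} {up : D → Set (ℕ → ℕ)}
    (hF : IsFrame D B up) {W : ℕ → ℕ} (hW : W ∈ Up B) (a : D) : W ∈ up a := by
  obtain ⟨S, hS, e⟩ := hF.rep a
  rw [e]
  exact Or.inr hW

theorem up_empty (X : ℕ → ℕ) : X ∉ Up (∅ : Set (ℕ → ℕ)) := by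
  rintro ⟨f, hf, -⟩
  exact hf

/-- If the sentence is true, then it is satisfiable over every realised frame type. -/
theorem sat_of_true (hSyn : SynStatement) (hFin : FinStatement) {D : Type} [PartialOrder D]
    {B : Set (ℕ → ℕ)} {up : D → Set (ℕ → ℕ)} (hF : IsFrame D B up) {n : ℕ} {φ : QF}
    (h : AETrue D n φ) {τ : Typ} (hτ : FrameTyp n τ) (hR : Realised D B up n τ) :
    Sat τ n φ := by
  obtain ⟨x, e, h1, h2, h3⟩ := hR
  obtain ⟨le, π, hT⟩ := hτ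
  obtain ⟨v, hv, hφ⟩ := h x
  rw [hSyn.2.2.1 D v φ] at hφ
  have key := hFin τ n φ
    (fun k => {W : ℕ → ℕ // k < τ.1.length → (W ∉ Up B ∧ e W = k)})
    (fun j _ a => a.1 ∈ up (v j)) (fun p hp => ?_) (fun k => ?_) (fun j p hp => ?_)
    (fun i hi k hk a => ?_) ?_
  · obtain ⟨N, hN, -, w, hw1, hw2, hw3⟩ := key
    exact ⟨N, hN, w, hw1, hw2, hw3⟩
  · have := (hT.bl p.1 p.2).1 hp
    exact ⟨this.1, this.2.1⟩
  · by_cases hk : k < τ.1.length
    · obtain ⟨W, hW⟩ := h2 k hk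
      exact ⟨⟨W, fun _ => hW⟩⟩
    · exact ⟨⟨fun _ => 0, fun h => absurd h hk⟩⟩
  · rintro ⟨⟨W, hW⟩, hWv⟩ ⟨W', hW'⟩
    have hb := (hT.bl p.1 p.2).1 hp
    obtain ⟨hW1, hW2⟩ := hW hb.1
    obtain ⟨hW1', hW2'⟩ := hW' hb.2.1
    refine h3 W W' hW1 hW1' ?_ (v j) hWv
    rw [hW2, hW2']
    exact hp
  · show a.1 ∈ up (v i) ↔ τ.In k i
    rw [hv i hi]
    obtain ⟨ha1, ha2⟩ := a.2 hk
    rw [(h1 a.1 ha1).2 i hi, ha2]
  · have e' : (fun i j => v i ≤ v j) = fun i j => ∀ k < τ.1.length,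
        ∀ a : {W : ℕ → ℕ // k < τ.1.length → (W ∉ Up B ∧ e W = k)},
        a.1 ∈ up (v j) → a.1 ∈ up (v i) := by
      funext i j
      rw [hF.le (v i) (v j)]
      refine propext ⟨fun hs k _ a ha => hs ha, fun hs W hW => ?_⟩
      by_cases hB : W ∈ Up B
      · exact up_of_B hF hB _
      · exact hs (e W) (h1 W hB).1 ⟨W, fun _ => ⟨hB, rfl⟩⟩ hW
    rw [← e']
    exact hφ

end Mainf

open Mainf

theorem mainf (hFin : FinStatement) (hSyn : SynStatement) (hFdec : FdecStatement)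
    (hLb : LbStatement) : MainfStatement := by
  obtain ⟨⟨f, hf, hfs⟩, ⟨g, hg, hgs⟩⟩ := hFdec
  refine ⟨?_, ?_⟩
  · intro B up hF h0 hR
    refine ⟨f, hf, fun n φ => ?_⟩
    rw [hfs n φ]
    constructor
    · intro h x
      obtain ⟨τ, h1, h2, -, h4⟩ := hLb PwCantor B up hF h0 n x
      exact h4 φ (h τ h1 h2)
    · intro h τ hτ _
      exact sat_of_true hSyn hFin hF h hτ (hR n τ hτ)
  · intro up hF hne hR
    refine ⟨g, hg, fun n φ => ?_⟩
    rw [hgs n φ]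
    constructor
    · intro h x
      obtain ⟨τ, h1, h2, h3, h4⟩ := hLb PwBaire ∅ up hF (up_empty _) n x
      exact h4 φ (h τ h1 (h3 rfl hne) h2)
    · intro h τ hτ ht _
      exact sat_of_true hSyn hFin hF h hτ (hR n τ hτ ht)

end Pool.Agent.Lib.MP_d48993_lc.Bound
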