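import Pool.Agent.Lib.MP_d48993_lc.AE.Bound.Interfaces

/-!
# Project AE (MP_d48993), board LB, module PRIME: the ideals `UU B X L` are prime
-/

set_option autoImplicit false

namespace Pool.Agent.Lib.MP_d48993_lc.Bound

open H30 (BTree)

/-- Module PRIME. -/
theorem prime (hC : CharStatement) (hR : RootStatement) (hT : TreecStatement) :
    PrimeStatement := by
  intro B Z X L hB hZ hL U U' hU hU' hUU
  by_contra hcon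
  rw [not_or] at hcon
  obtain ⟨h1, h2⟩ := hcon
  -- the witnesses against the two classes
  have key : ∀ W, IsC B W → W ∉ UU B X L → ∃ R, IsC B R ∧ (∀ t ∈ L, R ∉ t) ∧
      ∀ b c, BTree b → BTree c → R ⊆ Up (Pt b) → Up (Pt c) ⊆ W → X ∉ Up (Hm b c) := by
    intro W hW hn
    by_contra hcon
    push Not at hcon
    refine hn (hC.2 B X L hB (fun t ht => (hL t ht).2) W hW fun R hR hRt => ?_)
    obtain ⟨b, c, h3, h4, h5, h6, h7⟩ := hcon R hR hRt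
    exact ⟨b, c, h3, h4, h5, h6, h7⟩
  obtain ⟨R₁, hR₁, hR₁t, hn₁⟩ := key U hU h1
  obtain ⟨R₂, hR₂, hR₂t, hn₂⟩ := key U' hU' h2
  obtain ⟨-, -, hop, htr, -⟩ := hT B hB
  obtain ⟨-, -, ⟨b₁, hb₁, -, eb₁⟩, -⟩ := htr R₁ hR₁
  obtain ⟨-, -, ⟨b₂, hb₂, -, eb₂⟩, -⟩ := htr R₂ hR₂
  obtain ⟨-, -, ⟨c₁, hc₁, -, ec₁⟩, -⟩ := htr U hU
  obtain ⟨-, -, ⟨c₂, hc₂, -, ec₂⟩, -⟩ := htr U' hU'
  obtain ⟨b, c, hb, hc, hc0, eb, ec, hroot⟩ := hR b₁ b₂ c₁ c₂ hb₁ hb₂ hc₁ hc₂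
  rw [eb₁, eb₂] at eb
  rw [ec₁, ec₂] at ec
  have hRR : IsC B (R₁ ∪ R₂) := (hop R₁ R₂ hR₁ hR₂).2
  have hX : X ∈ Up (Hm b c) := by
    refine hC.1 B Z X L hB hZ hL b c hb hc hc0 (eb ▸ hRR) (fun t ht => ?_) (ec ▸ hUU)
    rw [eb]
    intro h3
    rcases (hL t ht).2.prime R₁ R₂ hR₁ hR₂ h3 with h4 | h4
    · exact hR₁t t ht h4
    · exact hR₂t t ht h4
  rcases hroot X hX with ⟨h3, -⟩ | ⟨-, h3⟩
  · exact hn₁ b₁ c₁ hb₁ hc₁ eb₁.symm.subset ec₁.subset h3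
  · exact hn₂ b₂ c₂ hb₂ hc₂ eb₂.symm.subset ec₂.subset h3

end Pool.Agent.Lib.MP_d48993_lc.Bound
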