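import Pool.Agent.Lib.MP_d48993_lc.AE.Bound.Interfaces

/-!
# Board LB, module ROOT: sums of trees, with an extra root (helper4)
-/

set_option autoImplicit false

namespace Pool.Agent.Lib.MP_d48993_lc.Bound.Root

open MP_8c048d_lc (pre join RecF)
open H84 (cons1 tl1 tl1_cons1 red_tl1 red_cons1)
open H30 (HomC BTree hd)

/-! ## The sum of two trees -/

/-- The sum of two trees. -/
def sm (b₁ b₂ : List ℕ → Bool) (s : List ℕ) : Bool :=
  decide (s.length = 0) ||
    ((decide (s.headI = 0) && b₁ s.tail) || (decide (s.headI = 1) && b₂ s.tail))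

variable {b₁ b₂ c₁ c₂ : List ℕ → Bool}

theorem sm_nil : sm b₁ b₂ [] = true := by simp [sm]

theorem sm_zero {s : List ℕ} : sm b₁ b₂ (0 :: s) = b₁ s := by simp [sm]

theorem sm_one {s : List ℕ} : sm b₁ b₂ (1 :: s) = b₂ s := by simp [sm]

theorem sm_two {s : List ℕ} {n : ℕ} : sm b₁ b₂ ((n + 2) :: s) = false := by simp [sm]

theorem c_eq {α : Type} [Primcodable α] {f : α → ℕ} (hf : Primrec f) (n : ℕ) :
    Computable fun a => decide (f a = n) :=
  (PrimrecRel.comp (Primrec.eq (α := ℕ)) hf (Primrec.const n)).decide.to_comp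

theorem sm_comp (h₁ : Computable b₁) (h₂ : Computable b₂) : Computable (sm b₁ b₂) := by
  have ht : Computable (fun s : List ℕ => s.tail) := Primrec.list_tail.to_comp
  exact Primrec.or.to_comp.comp (c_eq Primrec.list_length 0)
    (Primrec.or.to_comp.comp
      (Primrec.and.to_comp.comp (c_eq Primrec.list_headI 0) (h₁.comp ht))
      (Primrec.and.to_comp.comp (c_eq Primrec.list_headI 1) (h₂.comp ht)))

theorem sm_tree (h₁ : BTree b₁) (h₂ : BTree b₂) : BTree (sm b₁ b₂) := by
  refine ⟨sm_comp h₁.comp h₂.comp, fun s t h ht => ?_⟩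
  rcases s with _ | ⟨i, s⟩
  · exact sm_nil
  rcases t with _ | ⟨j, t⟩
  · exact absurd (List.prefix_nil.1 h) (by simp)
  obtain ⟨rfl, h'⟩ := List.cons_prefix_cons.1 h
  rcases i with _ | _ | i
  · rw [sm_zero] at ht ⊢
    exact h₁.tree _ _ h' ht
  · rw [sm_one] at ht ⊢
    exact h₂.tree _ _ h' ht
  · rw [sm_two] at ht
    exact absurd ht (by simp)

theorem pre_cons (F : ℕ → ℕ) (k : ℕ) : pre F (k + 1) = F 0 :: pre (tl1 F) k := by
  unfold pre
  rw [List.range_succ_eq_map, List.map_cons, List.map_map]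
  rfl

theorem pre_cons1 (i : ℕ) (F : ℕ → ℕ) (k : ℕ) : pre (cons1 i F) (k + 1) = i :: pre F k := by
  rw [pre_cons, tl1_cons1]
  rfl

theorem up_sm : Up (Pt (sm b₁ b₂)) = Up (Pt b₁) ∪ Up (Pt b₂) := by
  ext W
  constructor
  · rintro ⟨F, hF, hr⟩
    have hF' : ∀ k, sm b₁ b₂ (pre F k) = true := hF
    rcases h0 : F 0 with _ | _ | n
    · left
      refine ⟨tl1 F, fun k => ?_, (red_tl1 red1 F).trans hr⟩
      have := hF' (k + 1)
      rwa [pre_cons, h0, sm_zero] at this
    · right
      refine ⟨tl1 F, fun k => ?_, (red_tl1 red1 F).trans hr⟩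
      have := hF' (k + 1)
      rwa [pre_cons, h0, sm_one] at this
    · have := hF' 1
      rw [pre_cons, h0, sm_two] at this
      exact absurd this (by simp)
  · rintro (⟨F, hF, hr⟩ | ⟨F, hF, hr⟩)
    · refine ⟨cons1 0 F, ?_, (red_cons1 red1 0 F).trans hr⟩
      show ∀ k, sm b₁ b₂ (pre (cons1 0 F) k) = true
      intro k
      rcases k with _ | k
      · exact sm_nil
      · rw [pre_cons1, sm_zero]
        exact hF k
    · refine ⟨cons1 1 F, ?_, (red_cons1 red1 1 F).trans hr⟩
      show ∀ k, sm b₁ b₂ (pre (cons1 1 F) k) = true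
      intro k
      rcases k with _ | k
      · exact sm_nil
      · rw [pre_cons1, sm_one]
        exact hF k

theorem up_false : Up (Pt fun _ => false) = ∅ := by
  ext W
  constructor
  · rintro ⟨F, hF, _⟩
    have hF' : ∀ k, (fun _ : List ℕ => false) (pre F k) = true := hF
    exact absurd (hF' 0) (by simp)
  · exact fun h => h.elim

/-! ## Homomorphisms -/

theorem list_prefix_tail {s t : List ℕ} (h : s <+: t) : s.tail <+: t.tail := by
  rcases s with _ | ⟨a, s⟩
  · exact List.nil_prefix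
  rcases t with _ | ⟨b, t⟩
  · exact absurd (List.prefix_nil.1 h) (by simp)
  exact (List.cons_prefix_cons.1 h).2

/-- The map between the summands: `s ↦` the tail of the value at `0 :: j :: s`. -/
def restr (j m : ℕ) (g : ℕ → ℕ) : ℕ :=
  Encodable.encode (hd g (0 :: j :: Denumerable.ofNat (List ℕ) m)).tail

theorem recF_restr (j : ℕ) : RecF (restr j) := by
  have c1 : Computable fun m : ℕ =>
      Encodable.encode (0 :: j :: Denumerable.ofNat (List ℕ) m) :=
    Computable.encode.comp (Primrec.list_cons.to_comp.comp (Computable.const 0)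
      (Primrec.list_cons.to_comp.comp (Computable.const j) (Primrec.ofNat (List ℕ)).to_comp))
  have c2 : Computable fun n : ℕ =>
      Encodable.encode ((Encodable.decode (α := List ℕ) n).getD []).tail :=
    Computable.encode.comp (Primrec.list_tail.to_comp.comp
      (Primrec.option_getD.to_comp.comp Computable.decode (Computable.const [])))
  have r : RecF fun (m : ℕ) (g : ℕ → ℕ) =>
      g (Encodable.encode (0 :: j :: Denumerable.ofNat (List ℕ) m)) := RecF.at c1
  exact (RecF.comp c2 r).congr fun _ _ => rfl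

theorem hd_restr (j : ℕ) (g : ℕ → ℕ) (s : List ℕ) :
    hd (fun m => restr j m g) s = (hd g (0 :: j :: s)).tail := by
  show (Encodable.decode (α := List ℕ) (Encodable.encode
    (hd g (0 :: j :: Denumerable.ofNat (List ℕ) (Encodable.encode s))).tail)).getD [] = _
  rw [Encodable.encodek, Denumerable.ofNat_encode]
  rfl

/-- The restriction to a summand. -/
theorem restr_mem {g : ℕ → ℕ} (hg : g ∈ Hm (sm (sm b₁ b₂) fun _ => false) (sm c₁ c₂)) {j i : ℕ}
    {d e : List ℕ → Bool} (hd' : ∀ s, sm b₁ b₂ (j :: s) = d s)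
    (he : ∀ s, sm c₁ c₂ (i :: s) = e s) (hi : ∃ t, hd g [0] = i :: t) :
    (fun m => restr j m g) ∈ Hm d e := by
  obtain ⟨t, ht⟩ := hi
  intro s hs
  have h0 : sm (sm b₁ b₂) (fun _ => false) (0 :: j :: s) = true := by
    rw [sm_zero, hd']
    exact hs
  obtain ⟨g1, g2, g3⟩ := hg _ h0
  have hl : (0 :: j :: s).length = s.length + 2 := by simp
  rw [hl] at g2 g3
  -- the first entry
  have hp := g3 1 (by omega)
  rw [show (0 :: j :: s).take 1 = [0] from rfl, ht] at hp
  rcases hu : hd g (0 :: j :: s) with _ | ⟨a, u⟩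
  · rw [hu] at hp
    exact absurd (List.prefix_nil.1 hp) (by simp)
  have ha : i = a := by
    rw [hu] at hp
    exact (List.cons_prefix_cons.1 hp).1
  subst ha
  rw [hd_restr]
  refine ⟨?_, ?_, fun k hk => ?_⟩
  · rw [hu, List.tail_cons]
    show e u = true
    rw [← he, ← hu]
    exact g1
  · rw [List.length_tail]
    omega
  · rw [hd_restr]
    have h1 := g3 (k + 2) (by omega)
    exact list_prefix_tail h1

theorem up_restr {g X : ℕ → ℕ} (hg : g ∈ Hm (sm (sm b₁ b₂) fun _ => false) (sm c₁ c₂))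
    (hX : Red g X) {j i : ℕ} {d e : List ℕ → Bool} (hd' : ∀ s, sm b₁ b₂ (j :: s) = d s)
    (he : ∀ s, sm c₁ c₂ (i :: s) = e s) (hi : ∃ t, hd g [0] = i :: t) : X ∈ Up (Hm d e) :=
  ⟨_, restr_mem hg hd' he hi, (red1 _ (recF_restr j) g).trans hX⟩

/-- The first entry of the value at `[0]`. -/
theorem first {g : ℕ → ℕ} (hg : g ∈ Hm (sm (sm b₁ b₂) fun _ => false) (sm c₁ c₂)) :
    (∃ t, hd g [0] = 0 :: t) ∨ ∃ t, hd g [0] = 1 :: t := by
  have h0 : sm (sm b₁ b₂) (fun _ => false) [0] = true := by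
    rw [sm_zero]
    exact sm_nil
  obtain ⟨g1, g2, -⟩ := hg _ h0
  rcases hu : hd g [0] with _ | ⟨a, u⟩
  · rw [hu] at g2
    simp at g2
  rcases a with _ | _ | n
  · exact Or.inl ⟨u, rfl⟩
  · exact Or.inr ⟨u, rfl⟩
  · rw [hu, sm_two] at g1
    exact absurd g1 (by simp)

end Pool.Agent.Lib.MP_d48993_lc.Bound.Root

namespace Pool.Agent.Lib.MP_d48993_lc.Bound

open H30 (HomC BTree hd)
open Root

/-- **Module ROOT.** -/
theorem root : RootStatement := by
  intro b₁ b₂ c₁ c₂ h₁ h₂ k₁ k₂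
  refine ⟨sm (sm b₁ b₂) fun _ => false, sm c₁ c₂,
    sm_tree (sm_tree h₁ h₂) ⟨Computable.const false, fun _ _ _ h => h⟩, sm_tree k₁ k₂, sm_nil,
    ?_, up_sm, ?_⟩
  · rw [up_sm, up_sm, up_false, Set.union_empty]
  · rintro X ⟨g, hg, hgX⟩
    rcases first hg with hi | hi
    · exact Or.inl ⟨up_restr hg hgX (fun _ => sm_zero) (fun _ => sm_zero) hi,
        up_restr hg hgX (fun _ => sm_one) (fun _ => sm_zero) hi⟩
    · exact Or.inr ⟨up_restr hg hgX (fun _ => sm_zero) (fun _ => sm_one) hi,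
        up_restr hg hgX (fun _ => sm_one) (fun _ => sm_one) hi⟩

end Pool.Agent.Lib.MP_d48993_lc.Bound
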