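import Pool.Agent.Lib.MP_d48993_lc.AE.Bound.Interfaces

/-!
# Board LB, module TYP: the finite quotient of a frame, as a type
-/

set_option autoImplicit false
set_option linter.unusedSectionVars false

namespace Pool.Agent.Lib.MP_d48993_lc.Bound

namespace Typm

open Smt

variable {n : ℕ} {P : Type} [PartialOrder P] {lam : P → Finset (Fin n)} {π : P → P → P}
  {T : Finset P} {R : P → P → Prop}

open Classical in
/-- The elements of `T` below `t`, as a list. -/
noncomputable def Ls (T : Finset P) (R : P → P → Prop) (t : P) : List P :=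
  (T.filter fun s => R s t).toList

theorem mem_Ls {s t : P} : s ∈ Ls T R t ↔ s ∈ T ∧ R s t := by
  classical
  rw [Ls, Finset.mem_toList, Finset.mem_filter]

section

variable (h : IsFr lam π) (S : Stage lam π Finset.univ T R)

include S in
theorem rrefl (x : P) : R x x := S.ofle _ _ (Finset.mem_univ _) (le_refl _)

include S in
theorem exists_rep (x : P) : ∃ t ∈ T, R x t ∧ R t x := S.rep x (Finset.mem_univ _)

open Classical in
/-- The representative. -/
noncomputable def rep (T : Finset P) (R : P → P → Prop) (x : P) : P :=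
  if h : ∃ t ∈ T, R x t ∧ R t x then Classical.choose h else x

include S in
theorem rep_spec (x : P) : rep T R x ∈ T ∧ R x (rep T R x) ∧ R (rep T R x) x := by
  have h1 := exists_rep S x
  have e : rep T R x = Classical.choose h1 := dif_pos h1
  rw [e]
  exact Classical.choose_spec h1

include S in
theorem rep_eq {x y : P} (hx : R x y) (hy : R y x) : rep T R x = rep T R y := by
  obtain ⟨h1, h2, h3⟩ := rep_spec S x
  obtain ⟨h4, h5, h6⟩ := rep_spec S y
  exact S.uniq _ h1 _ h4 (S.trans _ _ _ h3 (S.trans _ _ _ hx h5))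
    (S.trans _ _ _ h6 (S.trans _ _ _ hy h2))

include S in
theorem rep_self {x : P} (hx : x ∈ T) : rep T R x = x := by
  obtain ⟨h1, h2, h3⟩ := rep_spec S x
  exact S.uniq _ h1 _ hx h3 h2

/-- The operator of the quotient. -/
noncomputable def pp (π : P → P → P) (T : Finset P) (R : P → P → Prop) (t x : P) : P :=
  rep T R (Pi π (Ls T R t) x)

include S in
theorem pp_mem (t x : P) : pp π T R t x ∈ T := (rep_spec S _).1

include S in
theorem pp_r (t x : P) : R (pp π T R t x) (Pi π (Ls T R t) x) ∧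
    R (Pi π (Ls T R t) x) (pp π T R t x) := ⟨(rep_spec S _).2.2, (rep_spec S _).2.1⟩

theorem Ls_sub (t : P) : ∀ s ∈ Ls T R t, s ∈ T := fun _ hs => (mem_Ls.1 hs).1

include S in
theorem pp_mono (t : P) {x y : P} (hxy : R x y) : R (pp π T R t x) (pp π T R t y) :=
  S.trans _ _ _ (pp_r S t x).1 (S.trans _ _ _ (inv_Pi S (Ls_sub t) hxy) (pp_r S t y).2)

include h S in
theorem pp_infl (t x : P) : R x (pp π T R t x) :=
  S.trans _ _ _ (S.ofle _ _ (Finset.mem_univ _) (Pi_infl h (Ls T R t) x)) (pp_r S t x).2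

include h S in
theorem pp_comp (s t x : P) : pp π T R s (pp π T R t x) =
    rep T R (Pi π (Ls T R s) (Pi π (Ls T R t) x)) :=
  rep_eq S (inv_Pi S (Ls_sub s) (pp_r S t x).1) (inv_Pi S (Ls_sub s) (pp_r S t x).2)

include h S in
theorem pp_idem (t x : P) : pp π T R t (pp π T R t x) = pp π T R t x := by
  rw [pp_comp h S, Pi_absorb h (fun _ hs => hs)]
  rfl

include h S in
theorem pp_comm (s t x : P) : pp π T R s (pp π T R t x) = pp π T R t (pp π T R s x) := by
  rw [pp_comp h S, pp_comp h S, Pi_comm h]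

theorem Pi_fix {L : List P} {x : P} (hL : ∀ s ∈ L, π s x = x) : Pi π L x = x := by
  induction L with
  | nil => rfl
  | cons s L ih =>
    rw [Pi_cons, ih fun t ht => hL t (List.mem_cons_of_mem _ ht), hL s List.mem_cons_self]

include h S in
theorem pp_off {t x : P} (ht : t ∈ T) (hx : x ∈ T) (h1 : ¬ (R x t ∧ x ≠ t)) :
    pp π T R t x = x := by
  have h2 : Pi π (Ls T R t) x = x := by
    refine Pi_fix fun s hs => h.off _ _ fun h3 => ?_
    obtain ⟨hsT, hst⟩ := mem_Ls.1 hs
    have h4 : R x s := S.ofle _ _ (Finset.mem_univ _) h3.le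
    have h5 : R x t := S.trans _ _ _ h4 hst
    have h6 : x = t := by
      by_contra h7
      exact h1 ⟨h5, h7⟩
    subst h6
    exact h3.ne (S.uniq _ hx _ hsT h4 hst)
  rw [pp, h2, rep_self S hx]

include h S in
theorem Pi_below {t : P} {L : List P} (hL : ∀ s ∈ L, R s t) {x : P} (hx : R x t) :
    R (Pi π L x) t := by
  induction L with
  | nil => exact hx
  | cons s L ih =>
    rw [Pi_cons]
    have h1 := ih fun t ht => hL t (List.mem_cons_of_mem _ ht)
    by_cases h2 : Pi π L x < s
    · exact S.trans _ _ _ (S.ofle _ _ (Finset.mem_univ _) (h.below _ _ h2))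
        (hL s List.mem_cons_self)
    · rw [h.off _ _ h2]; exact h1

include h S in
theorem pp_below {t x : P} (hx : R x t) : R (pp π T R t x) t :=
  S.trans _ _ _ (pp_r S t x).1 (Pi_below h S (fun _ hs => (mem_Ls.1 hs).2) hx)

include h S in
theorem pp_tmono {s t : P} (hst : R s t) (x : P) : R (pp π T R s x) (pp π T R t x) := by
  have h1 : ∀ r ∈ Ls T R s, r ∈ Ls T R t := fun r hr =>
    mem_Ls.2 ⟨(mem_Ls.1 hr).1, S.trans _ _ _ (mem_Ls.1 hr).2 hst⟩
  have h2 : Pi π (Ls T R t) (Pi π (Ls T R s) x) = Pi π (Ls T R t) x := by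
    rw [Pi_comm h, Pi_absorb h h1]
  have h3 : Pi π (Ls T R s) x ≤ Pi π (Ls T R t) x := by
    rw [← h2]; exact Pi_infl h _ _
  exact S.trans _ _ _ (pp_r S s x).1 (S.trans _ _ _ (S.ofle _ _ (Finset.mem_univ _) h3)
    (pp_r S t x).2)

include h S in
theorem pp_fix {t x : P} (ht : t ∈ T) (hx : x ∈ T) (h1 : pp π T R t x = x) : π t x = x := by
  have h2 : R (Pi π (Ls T R t) x) x := by
    have h3 := (pp_r (π := π) S t x).2
    rwa [h1] at h3
  refine S.nonred x hx t ht (S.trans _ _ _ (S.ofle _ _ (Finset.mem_univ _) ?_) h2)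
  have h4 : π t (Pi π (Ls T R t) x) = Pi π (Ls T R t) x :=
    Pi_absorb1 h (mem_Ls.2 ⟨ht, rrefl S t⟩) x
  rw [← h4]
  exact h.mono _ _ _ (Pi_infl h _ _)

end

open Classical in
/-- The mask of a finite set. -/
noncomputable def mk (A : Finset (Fin n)) : ℕ := Nat.ofBits fun i : Fin n => decide (i ∈ A)

theorem mk_lt (A : Finset (Fin n)) : mk A < 2 ^ n := Nat.ofBits_lt_two_pow _

theorem mk_testBit (A : Finset (Fin n)) (i : Fin n) : (mk A).testBit i = true ↔ i ∈ A := by
  rw [mk, Nat.testBit_ofBits_lt _ _ i.2]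
  exact decide_eq_true_iff

end Typm

open Typm Smt in
theorem typ : TypStatement := by
  classical
  intro n P _ lam π b h hb halone hfree
  obtain ⟨T, R, S⟩ := Smt.all h
  have hbT : b ∈ T := by
    obtain ⟨t, h1, h2, h3⟩ := exists_rep S b
    have h4 : t = b := halone t (S.mono _ _ h3)
    exact h4 ▸ h1
  -- the numbering
  set l : List P := b :: (T.erase b).toList with hl
  have hlmem : ∀ t, t ∈ l ↔ t ∈ T := by
    intro t
    rw [hl, List.mem_cons, Finset.mem_toList, Finset.mem_erase]
    constructor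
    · rintro (rfl | h1)
      · exact hbT
      · exact h1.2
    · intro h1
      by_cases h2 : t = b
      · exact Or.inl h2
      · exact Or.inr ⟨h2, h1⟩
  have hnd : l.Nodup := by
    rw [hl, List.nodup_cons]
    refine ⟨fun h1 => ?_, Finset.nodup_toList _⟩
    rw [Finset.mem_toList, Finset.mem_erase] at h1
    exact h1.1 rfl
  have hlen : l.length = T.card := by
    rw [hl, List.length_cons, Finset.length_toList, Finset.card_erase_of_mem hbT]
    have := Finset.card_pos.2 ⟨b, hbT⟩
    omega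
  set s : ℕ → P := fun k => l.getD k b with hs
  have hs0 : s 0 = b := rfl
  have hsg : ∀ k (hk : k < l.length), s k = l[k] := fun k hk => List.getD_eq_getElem l b hk
  have hsT : ∀ k < l.length, s k ∈ T := fun k hk => by
    rw [hsg k hk]; exact (hlmem _).1 (List.getElem_mem hk)
  have hinj : ∀ k < l.length, ∀ k' < l.length, s k = s k' → k = k' := by
    intro k hk k' hk' h1
    rw [hsg k hk, hsg k' hk'] at h1
    exact (hnd.getElem_inj_iff).1 h1
  set ix : P → ℕ := fun t => l.idxOf t with hix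
  have hixlt : ∀ t ∈ T, ix t < l.length := fun t ht => List.idxOf_lt_length_iff.2 ((hlmem t).2 ht)
  have hsix : ∀ t ∈ T, s (ix t) = t := fun t ht => by
    rw [hsg _ (hixlt t ht)]; exact List.getElem_idxOf _
  set π' : ℕ → ℕ → ℕ := fun t x => ix (pp π T R (s t) (s x)) with hπ'
  have hsπ : ∀ t x, s (π' t x) = pp π T R (s t) (s x) := fun t x => hsix _ (pp_mem S _ _)
  have hπlt : ∀ t x, π' t x < l.length := fun t x => hixlt _ (pp_mem S _ _)
  set bl : List (ℕ × ℕ) := ((List.range l.length).product (List.range l.length)).filter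
    (fun p => π' p.2 p.1 ≠ p.1) with hbl
  have hblm : ∀ k k', (k, k') ∈ bl ↔ k < l.length ∧ k' < l.length ∧ π' k' k ≠ k := by
    intro k k'
    rw [hbl, List.mem_filter, List.pair_mem_product, List.mem_range, List.mem_range]
    simp only [decide_eq_true_eq, and_assoc]
  set τ : Typ := (l.map fun t => mk (lam t), bl) with hτ
  have hτl : τ.1.length = l.length := by rw [hτ]; exact List.length_map _
  have hIn : ∀ k < l.length, ∀ i : Fin n, (τ.In k i ↔ i ∈ lam (s k)) := by
    intro k hk i
    have e : τ.1.getD k 0 = mk (lam (s k)) := by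
      rw [hτ, hsg k hk]
      show (l.map fun t => mk (lam t)).getD k 0 = _
      rw [List.getD_eq_getElem _ _ (by rw [List.length_map]; exact hk), List.getElem_map]
    rw [MP_d48993_lc.Typ.In, e]
    exact mk_testBit _ _
  have hext : ∀ x y : P, R x y → R y x → lam x = lam y := fun x y h1 h2 =>
    le_antisymm (S.mono _ _ h1) (S.mono _ _ h2)
  refine ⟨τ, s, ⟨fun k k' => R (s k) (s k'), π', ?_⟩, ?_, hs0, ?_, ?_, ?_, ?_⟩
  · constructor <;> try simp only [hτl]
    · rw [hlen]; exact Finset.card_pos.2 ⟨b, hbT⟩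
    · intro m hm
      obtain ⟨t, _, rfl⟩ := List.mem_map.1 hm
      exact mk_lt _
    · exact fun k _ => rrefl S _
    · exact fun k _ k' _ r _ h1 h2 => S.trans _ _ _ h1 h2
    · exact fun k hk k' hk' h1 h2 => hinj k hk k' hk' (S.uniq _ (hsT k hk) _ (hsT k' hk') h1 h2)
    · intro k hk k' hk' h1 i hi h2
      exact (hIn k' hk' ⟨i, hi⟩).2 (S.mono _ _ h1 ((hIn k hk ⟨i, hi⟩).1 h2))
    · exact fun t _ x _ => hπlt t x
    · intro t _ x _ y _ h1
      rw [hsπ, hsπ]
      exact pp_mono S _ h1
    · intro t _ x _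
      rw [hsπ]
      exact pp_infl h S _ _
    · intro t _ x _
      refine hinj _ (hπlt _ _) _ (hπlt _ _) ?_
      rw [hsπ, hsπ, pp_idem h S]
    · intro t _ t' _ x _
      refine hinj _ (hπlt _ _) _ (hπlt _ _) ?_
      rw [hsπ, hsπ, hsπ, hsπ, pp_comm h S]
    · intro t ht x hx h1
      refine hinj _ (hπlt _ _) _ hx ?_
      rw [hsπ]
      refine pp_off h S (hsT t ht) (hsT x hx) fun h2 => h1 ⟨h2.1, fun h3 => h2.2 ?_⟩
      rw [h3]
    · intro t _ x _ h1
      rw [hsπ]
      exact pp_below h S h1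
    · intro t _ t' _ x _ h1
      rw [hsπ, hsπ]
      exact pp_tmono h S h1 _
    · intro k _
      rw [hs0]
      exact S.ofle _ _ (Finset.mem_univ _) (hb _)
    · intro k hk h1
      refine hinj k hk 0 (by rw [hl]; simp) (halone _ fun i hi => ?_)
      have h2 := h1 i i.2 ((hIn k hk i).2 hi)
      exact (hIn 0 (by rw [hl]; simp) i).1 h2
    · intro t ht
      refine hinj _ (hπlt _ _) _ (by rw [hl]; simp) ?_
      rw [hsπ, hs0, pp, Pi_fix fun s' _ => hfree s', rep_self S hbT]
    · exact hblm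
  · rw [hτl, hlen]
    refine S.card.trans (le_of_eq ?_)
    simp
  · intro k hk k' hk' h1
    rw [hτl] at hk hk'
    exact hinj k hk k' hk' h1
  · intro k hk i
    rw [hτl] at hk
    exact (hIn k hk i).symm
  · intro x
    obtain ⟨h1, h2, h3⟩ := rep_spec S x
    refine ⟨ix (rep T R x), by rw [hτl]; exact hixlt _ h1, ?_⟩
    rw [hsix _ h1]
    exact hext _ _ h3 h2
  · intro k hk k' hk' h1
    rw [hτl] at hk hk'
    have h2 : π' k' k = k := by
      by_contra h3
      exact h1 ((hblm k k').2 ⟨hk, hk', h3⟩)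
    refine pp_fix h S (hsT k' hk') (hsT k hk) ?_
    rw [← hsπ, h2]

end Pool.Agent.Lib.MP_d48993_lc.Bound
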