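import Pool.Agent.Lib.MP_d48993_lc.AE.Bound.Interfaces
import Pool.Agent.Lib.MP_d48993_lc.Red

/-!
# Board LB (MP_d48993): module UPI2, uniform `Π⁰₂` classes are uniform closed classes, up to `Up`
-/

set_option autoImplicit false

namespace Pool.Agent.Lib.MP_d48993_lc.Bound

open MP_8c048d_lc (pre join RecF Sig Pih Clo Cop Del join_even join_odd join_eta)
open H84 (KK P2)

namespace Upi2

theorem c_dbl {α : Type} [Primcodable α] {f : α → ℕ} (hf : Computable f) :
    Computable (fun a => 2 * f a) :=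
  Primrec.nat_mul.to_comp.comp (Computable.const 2) hf

theorem c_dbl1 {α : Type} [Primcodable α] {f : α → ℕ} (hf : Computable f) :
    Computable (fun a => 2 * f a + 1) :=
  Primrec.nat_add.to_comp.comp (c_dbl hf) (Computable.const 1)

theorem even_join (F g : ℕ → ℕ) : (fun i => join F g (2 * i)) = F := by
  funext i; exact join_even F g i

/-- The closed relation of a uniform `Π⁰₂` class. -/
def Rel (dd : ℕ × (ℕ × ℕ) → (ℕ → ℕ) → Bool) (p : ℕ × ℕ) (E : ℕ → ℕ) : Prop :=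
  ∀ n, dd (p.2, (n, E (2 * n + 1))) (fun i => E (2 * i)) = true

theorem rel_clo {dd : ℕ × (ℕ × ℕ) → (ℕ → ℕ) → Bool} (hd : RecF dd) : Clo (Rel dd) := by
  have h1 : RecF (fun (p : (ℕ × ℕ) × ℕ) (E : ℕ → ℕ) => (p.1.2, (p.2, E (2 * p.2 + 1)))) :=
    (RecF.of_computable (Computable.snd.comp Computable.fst)).pair
      ((RecF.of_computable Computable.snd).pair (RecF.at (c_dbl1 Computable.snd)))
  have h2 : RecF (fun (p : (ℕ × ℕ) × ℕ) (E : ℕ → ℕ) =>
      dd (p.1.2, (p.2, E (2 * p.2 + 1))) (fun i => E (2 * i))) :=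
    hd.subst h1 (Ψ := fun (_ : (ℕ × ℕ) × ℕ) E i => E (2 * i)) (RecF.at (c_dbl Computable.snd))
  exact ⟨_, h2, fun _ _ => Iff.rfl⟩

/-- The section `e` of a uniform `Π⁰₂` class as a search problem. -/
theorem cop_sec {dd : ℕ × (ℕ × ℕ) → (ℕ → ℕ) → Bool} (hd : RecF dd) (e : ℕ) :
    Cop (fun (p : ℕ × ℕ) F => dd (e, (p.1, p.2)) F = true) := by
  refine ⟨fun p F => dd (e, p) F, hd.comp₁ (f := fun p : ℕ × ℕ => (e, p)) ?_, fun _ _ => Iff.rfl⟩
  exact (Computable.const e).pair Computable.id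

end Upi2

open Upi2 in
/-- Module UPI2. -/
theorem upi2 : Upi2Statement := by
  intro dd hd
  obtain ⟨r, hr⟩ := H84.KK_rec (rel_clo hd)
  refine ⟨r, fun e => ?_⟩
  ext W
  constructor
  · rintro ⟨E, hE, hEW⟩
    have hE' := (hr e E).1 hE
    refine ⟨fun i => E (2 * i), fun n => ⟨E (2 * n + 1), hE' n⟩, ?_⟩
    have h := joinS.1 (fun i => E (2 * i)) (fun i => E (2 * i + 1))
    rw [join_eta] at h
    exact h.trans hEW
  · rintro ⟨F, hF, hFW⟩
    obtain ⟨f, hf, hf'⟩ := redMu (fun n m F => dd (e, (n, m)) F = true) (cop_sec hd e) F hF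
    refine ⟨join F f, (hr e _).2 ?_, (joinS.2.2 F f F Red.rfl hf).trans hFW⟩
    intro n
    show dd (e, (n, join F f (2 * n + 1))) (fun i => join F f (2 * i)) = true
    rw [even_join, join_odd]
    exact hf' n

end Pool.Agent.Lib.MP_d48993_lc.Bound
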