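import Pool.Agent.Lib.MP_d48993_lc.AE.Bound.Below
import Pool.Agent.Lib.MP_d48993_lc.AE.Bound.Box
import Pool.Agent.Lib.MP_d48993_lc.AE.Bound.Char
import Pool.Agent.Lib.MP_d48993_lc.AE.Bound.Comp
import Pool.Agent.Lib.MP_d48993_lc.AE.Bound.Curry
import Pool.Agent.Lib.MP_d48993_lc.AE.Bound.Delz
import Pool.Agent.Lib.MP_d48993_lc.AE.Bound.Fdec
import Pool.Agent.Lib.MP_d48993_lc.AE.Bound.Framep
import Pool.Agent.Lib.MP_d48993_lc.AE.Bound.Gandy
import Pool.Agent.Lib.MP_d48993_lc.AE.Bound.Ghide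
import Pool.Agent.Lib.MP_d48993_lc.AE.Bound.Homd
import Pool.Agent.Lib.MP_d48993_lc.AE.Bound.Lba
import Pool.Agent.Lib.MP_d48993_lc.AE.Bound.Mainf
import Pool.Agent.Lib.MP_d48993_lc.AE.Bound.Prime
import Pool.Agent.Lib.MP_d48993_lc.AE.Bound.Root
import Pool.Agent.Lib.MP_d48993_lc.AE.Bound.Typ
import Pool.Agent.Lib.MP_d48993_lc.AE.Bound.Upi2

/-!
# Project AE (MP_d48993), board LB: assembly
-/

set_option autoImplicit false

namespace Pool.Agent.Lib.MP_d48993_lc.Bound

/-- The calculus. -/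
theorem delz' : DelzStatement := delz upi2

/-- FRAMEP from TREEC and ADM. -/
theorem framep_of (hT : TreecStatement) (hA : AdmStatement) : FramepStatement :=
  framep hT (prime (char ghide hT delz') root hT) (comp (char ghide hT delz') curry hT)
    (below ghide hT delz') hA

/-- Every embedding is dominated by a finite frame of bounded size. -/
theorem lb_of (hT : TreecStatement) (hA : AdmStatement) (hS : Sound2Statement) : LbStatement :=
  lba hT gandy (framep_of hT hA) (box (framep_of hT hA) hT) hS typ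

end Pool.Agent.Lib.MP_d48993_lc.Bound
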