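import Pool.Agent.Lib.MP_d48993_lc.AE.Bound.Interfaces
import Pool.Agent.Lib.MP_d48993_lc.AE.Sound

/-!
# Module SOUND2: all allowed patterns are realised by points in boxes
-/

set_option autoImplicit false

namespace Pool.Agent.Lib.MP_d48993_lc.Bound.Sound2

open MP_8c048d_lc (pre join RecF Sig Clo Cop Del Pih)
open Pool.Agent.Lib.MP_d48993_lc.AE.Sound

theorem isC_cl {B U : Set (ℕ → ℕ)} (hB : ClosedC B) (h : IsC B U) : Cl U := by
  obtain ⟨S, hS, rfl⟩ := h
  exact (Cl.of hS).union (Cl.of hB)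

theorem isC_sub {B U : Set (ℕ → ℕ)} (h : IsC B U) : Up B ⊆ U := by
  obtain ⟨S, hS, rfl⟩ := h
  exact Set.subset_union_right

/-- The core: boxes for all the positions. -/
theorem core (hI : IndStatement) (hB : BotStatement) (D : Type) [PartialOrder D]
    (B : Set (ℕ → ℕ)) (up : D → Set (ℕ → ℕ)) (hF : IsFrame D B up)
    (n : ℕ) (x : ℕ → D) (τ : Typ) (A Bd : ℕ → Set (ℕ → ℕ)) (_hlen : 0 < τ.1.length)
    (h0 : ∀ i < n, ((fun _ : ℕ => 0) ∈ up (x i) ↔ τ.In 0 i))
    (hA : ∀ k, Cl (A k)) (hBd : ∀ k, Cl (Bd k))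
    (hBB : ∀ k < τ.1.length, Up B ⊆ Bd k)
    (hWA : ∀ k < τ.1.length, ∃ W ∈ A k, W ∉ Bd k)
    (hAx : ∀ k < τ.1.length, ∀ i < n, τ.In k i → A k ⊆ up (x i))
    (hxB : ∀ k < τ.1.length, ∀ i < n, ¬ τ.In k i → up (x i) ⊆ Bd k)
    (hun : ∀ k < τ.1.length, ∀ l < τ.1.length, k ≠ 0 → l ≠ 0 → k ≠ l → (k, l) ∉ τ.2 →
      A k ∩ A l ⊆ Bd l)
    (hA0 : ∀ k < τ.1.length, k ≠ 0 → A k ⊆ Bd 0)
    (h0Bd : (fun _ : ℕ => 0) ∉ Bd 0)
    (hsep : ∀ i < n, ∀ j < n, (∀ k < τ.1.length, τ.In k j → τ.In k i) → x i ≤ x j)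
    (N : ℕ) (hN : 0 < N) (v : ℕ → ℕ → ℕ → Prop) (hall : ∀ j, Allowed τ N (v j))
    (hv : ∀ i < n, ∀ k < τ.1.length, ∀ a < N, (v i k a ↔ τ.In k i)) :
    ∃ w : ℕ → D, (∀ i < n, w i = x i) ∧ ∀ j l, (w j ≤ w l ↔ PLe τ N (v j) (v l)) := by
  classical
  have hcl : ∀ a, Cl (up a) := by
    intro a
    obtain ⟨S, hS, e⟩ := hF.rep a
    rw [e]
    exact (Cl.of hS).union (Cl.of hF.closed)
  have hBup : ∀ a, Up B ⊆ up a := by
    intro a
    obtain ⟨S, hS, e⟩ := hF.rep a
    rw [e]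
    exact Set.subset_union_right
  -- the independent classes
  have hu1 : ∀ k, ∃ u : ℕ → Set (ℕ → ℕ), (∀ a, ClosedC (u a)) ∧ (k < τ.1.length →
      (∀ a, Up (u a) ⊆ A k) ∧ ∀ a < N, ∃ W, W ∈ Up (u a) ∧ W ∉ Bd k ∧
        ∀ b < N, b ≠ a → W ∉ Up (u b)) := by
    intro k
    by_cases hk : k < τ.1.length
    · obtain ⟨RA, hRA, eA⟩ := hA k
      obtain ⟨RB, hRB, eB⟩ := hBd k
      obtain ⟨W, hW1, hW2⟩ := hWA k hk
      obtain ⟨u, W', h1, h2⟩ := hI RA RB hRA hRB ⟨W, by rw [eA]; exact hW1,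
        by rw [eB]; exact hW2⟩ N
      refine ⟨u, fun a => (h1 a).1, fun _ => ⟨fun a => ?_, fun a ha => ?_⟩⟩
      · have := (h1 a).2
        rwa [eA] at this
      · have h3 := h2 a ha
        rw [eB] at h3
        exact ⟨W' a, h3⟩
    · obtain ⟨R, hR, -⟩ := Cl.empty
      exact ⟨fun _ => R, fun _ => hR, fun h => absurd h hk⟩
  choose u hu hu2 using hu1
  -- the class `H` for the position `0`
  obtain ⟨H, hH, ⟨Z, hZH, hZU⟩, W1, hW1⟩ := botFam hB (u := u) (Bd := Bd) hu hBd N τ.1.length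
    (fun k => k ≠ 0) (hBd 0) h0Bd fun k hk _ a ha => by
      obtain ⟨W', h1, h2, h3⟩ := (hu2 k hk).2 a ha
      exact ⟨W', h1, h2, h3⟩
  obtain ⟨RH, hRH, eH⟩ := hH
  obtain ⟨RU, hRU, eU⟩ := hBd 0
  obtain ⟨u0, W0, hu0, hW0⟩ := hI RH RU hRH hRU ⟨Z, by rw [eH]; exact hZH,
    by rw [eU]; exact hZU⟩ N
  rw [eH] at hu0
  rw [eU] at hW0
  have hH : Cl H := ⟨RH, hRH, eH⟩
  -- all the points
  let u' : ℕ → ℕ → Set (ℕ → ℕ) := fun k a => if k = 0 then u0 a else u k a
  let Bd' : ℕ → Set (ℕ → ℕ) := fun k => if k = 0 then Bd 0 else Bd k ∪ H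
  have hu' : ∀ k a, ClosedC (u' k a) := by
    intro k a
    by_cases hk : k = 0
    · simp only [u', if_pos hk]
      exact (hu0 a).1
    · simp only [u', if_neg hk]
      exact hu k a
  have hBd' : ∀ k, Cl (Bd' k) := by
    intro k
    by_cases hk : k = 0
    · simp only [Bd', if_pos hk]
      exact hBd 0
    · simp only [Bd', if_neg hk]
      exact (hBd k).union hH
  obtain ⟨H', hH', ⟨Z', hZ', -⟩, W2, hW2⟩ := botFam hB (u := u') (Bd := Bd') hu' hBd' N
    τ.1.length (fun _ => True) Cl.empty (by simp) fun k hk _ a ha => by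
      by_cases hkk : k = 0
      · refine ⟨W0 a, ?_, ?_, fun b hb hba => ?_⟩
        · simp only [u', if_pos hkk]
          exact (hW0 a ha).1
        · simp only [Bd', if_pos hkk]
          exact (hW0 a ha).2.1
        · simp only [u', if_pos hkk]
          exact (hW0 a ha).2.2 b hb hba
      · obtain ⟨⟨h1, h2, h3⟩, h4⟩ := hW1 k hk hkk a ha
        refine ⟨W1 k a, ?_, ?_, fun b hb hba => ?_⟩
        · simp only [u', if_neg hkk]
          exact h1
        · simp only [Bd', if_neg hkk]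
          exact fun h => h.elim h2 h4
        · simp only [u', if_neg hkk]
          exact h3 b hb hba
  have f1 : ∀ k < τ.1.length, ∀ a < N, W2 k a ∈ Up (u' k a) ∧
      (∀ b < N, b ≠ a → W2 k a ∉ Up (u' k b)) ∧ W2 k a ∉ H' := fun k hk a ha =>
    ⟨(hW2 k hk trivial a ha).1.1, (hW2 k hk trivial a ha).1.2.2, (hW2 k hk trivial a ha).2⟩
  have f2 : ∀ k < τ.1.length, ∀ a < N, W2 k a ∉ Bd k := by
    intro k hk a ha h
    have h1 := (hW2 k hk trivial a ha).1.2.1
    by_cases hkk : k = 0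
    · simp only [Bd', if_pos hkk] at h1
      rw [hkk] at h h1
      exact h1 h
    · simp only [Bd', if_neg hkk] at h1
      exact h1 (Or.inl h)
  have f3 : ∀ k < τ.1.length, ∀ a < N, ∀ i < n, (W2 k a ∈ up (x i) ↔ τ.In k i) := by
    intro k hk a ha i hi
    constructor
    · intro h
      by_contra hin
      exact f2 k hk a ha (hxB k hk i hi hin h)
    · intro hin
      by_cases hkk : k = 0
      · rw [hkk] at hin
        exact (hcl (x i)).mono ((h0 i hi).2 hin) (red_zero _)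
      · have h1 := (f1 k hk a ha).1
        simp only [u', if_neg hkk] at h1
        exact hAx k hk i hi hin ((hu2 k hk).1 a h1)
  have f4 : ∀ k < τ.1.length, k ≠ 0 → ∀ a < N, W2 k a ∉ H := by
    intro k hk hkk a ha h
    have h1 := (hW2 k hk trivial a ha).1.2.1
    simp only [Bd', if_neg hkk] at h1
    exact h1 (Or.inr h)
  have f5 : ∀ k < τ.1.length, ∀ a < N, ∀ k' < τ.1.length, ∀ a' < N, W2 k a ∈ Up (u' k' a') →
      (k = k' ∧ a = a') ∨ (k', k) ∈ τ.2 := by
    intro k hk a ha k' hk' a' ha' h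
    by_cases e : k = k'
    · subst e
      by_cases e' : a = a'
      · exact Or.inl ⟨rfl, e'⟩
      · exact absurd h ((f1 k hk a ha).2.1 a' ha' (fun h => e' h.symm))
    · by_cases hkk : k' = 0
      · exfalso
        simp only [u', if_pos hkk] at h
        exact f4 k hk (fun h' => e (h'.trans hkk.symm)) a ha ((hu0 a').2 h)
      · right
        by_contra hbl
        simp only [u', if_neg hkk] at h
        have hAk' : W2 k a ∈ A k' := (hu2 k' hk').1 a' h
        by_cases hk0 : k = 0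
        · refine f2 k hk a ha ?_
          rw [hk0] at hAk' ⊢
          exact hA0 k' hk' hkk hAk'
        · have h1 := (f1 k hk a ha).1
          simp only [u', if_neg hk0] at h1
          exact f2 k hk a ha
            (hun k' hk' k hk hkk hk0 (fun h' => e h'.symm) hbl ⟨hAk', (hu2 k hk).1 a h1⟩)
  -- the classes
  have hz : ∀ s, Cl (zset up B n x τ N v u' H' s) := by
    intro s
    refine Cl.union (Cl.inter (Cl.union ?_ (Cl.union ?_ hH')) ?_) (Cl.of hF.closed)
    · exact Cl.fin_union (fun k => {W | ∃ a < N, s k a ∧ W ∈ Up (u' k a)}) (fun _ => True)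
        τ.1.length fun k _ => Cl.fin_union (fun a => Up (u' k a)) (fun a => s k a) N
          fun a _ => Cl.of (hu' k a)
    · exact Cl.fin_union (fun i => up (x i)) (fun i => PLe τ N s (v i)) n fun i _ => hcl (x i)
    · exact Cl.fin_inter (fun i => up (x i)) (fun i => PLe τ N (v i) s) n fun i _ => hcl (x i)
  have hzx : ∀ i < n, zset up B n x τ N v u' H' (v i) = up (x i) := by
    intro i hi
    apply Set.Subset.antisymm
    · rintro V (⟨-, h⟩ | h)
      · exact h i hi (ple_refl τ N (v i))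
      · exact hBup (x i) h
    · intro V hV
      refine Or.inl ⟨Or.inr (Or.inl ⟨i, hi, ple_refl τ N (v i), hV⟩), fun j hj hle => ?_⟩
      have h1 : x j ≤ x i := by
        refine hsep j hj i hi fun k hk hin => ?_
        exact (hv j hj k hk 0 hN).1 (hle k hk 0 hN ((hv i hi k hk 0 hN).2 hin))
      exact (hF.le _ _).1 h1 hV
  have hmono : ∀ s s', PLe τ N s s' →
      zset up B n x τ N v u' H' s' ⊆ zset up B n x τ N v u' H' s := by
    rintro s s' hss V (⟨h1, h2⟩ | h)
    · refine Or.inl ⟨?_, fun i hi hle => h2 i hi (ple_trans hle hss)⟩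
      rcases h1 with ⟨k, hk, -, a, ha, hs, hV⟩ | ⟨i, hi, hle, hV⟩ | hV
      · exact Or.inl ⟨k, hk, trivial, a, ha, hss k hk a ha hs, hV⟩
      · exact Or.inr (Or.inl ⟨i, hi, ple_trans hss hle, hV⟩)
      · exact Or.inr (Or.inr hV)
    · exact Or.inr h
  have hpt : ∀ s, Allowed τ N s → ∀ k < τ.1.length, ∀ a < N,
      (W2 k a ∈ zset up B n x τ N v u' H' s ↔ s k a) := by
    intro s hs k hk a ha
    constructor
    · rintro (⟨h1, h2⟩ | h)
      · rcases h1 with ⟨k', hk', -, a', ha', hs', hV⟩ | ⟨i, hi, hle, hV⟩ | hV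
        · rcases f5 k hk a ha k' hk' a' ha' hV with ⟨rfl, rfl⟩ | hb
          · exact hs'
          · exact hs _ hb ⟨a', ha', hs'⟩ a ha
        · exact hle k hk a ha ((hv i hi k hk a ha).2 ((f3 k hk a ha i hi).1 hV))
        · exact absurd hV (f1 k hk a ha).2.2
      · exact absurd (hBB k hk h) (f2 k hk a ha)
    · intro hsa
      refine Or.inl ⟨Or.inl ⟨k, hk, trivial, a, ha, hsa, (f1 k hk a ha).1⟩,
        fun i hi hle => ?_⟩
      exact (f3 k hk a ha i hi).2 ((hv i hi k hk a ha).1 (hle k hk a ha hsa))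
  have hex : ∀ s, ∃ w : D, up w = zset up B n x τ N v u' H' s := by
    intro s
    by_cases hne : ∃ i < n, PLe τ N (v i) s ∧ up (x i) = ∅
    · obtain ⟨i, hi, hle, he⟩ := hne
      refine ⟨x i, ?_⟩
      have hBe : Up B = ∅ := Set.subset_empty_iff.1 (he ▸ hBup (x i))
      rw [he]
      symm
      rw [Set.eq_empty_iff_forall_notMem]
      rintro V (⟨-, h⟩ | h)
      · have := h i hi hle
        rw [he] at this
        exact this
      · rw [hBe] at h
        exact h
    · push Not at hne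
      obtain ⟨V, hV1, hV2⟩ := exists_join (fun i => up (x i)) (fun i => PLe τ N (v i) s) Z' n
        (fun i _ => hcl (x i)) fun i hi hle => hne i hi hle
      obtain ⟨S, hS, e⟩ := hz s
      have hmem : V ∈ zset up B n x τ N v u' H' s :=
        Or.inl ⟨Or.inr (Or.inr (hH'.mono hZ' hV1)), hV2⟩
      rw [← e] at hmem
      obtain ⟨f, hf, -⟩ := hmem
      obtain ⟨w, hw⟩ := hF.real S hS ⟨f, Or.inl hf⟩
      refine ⟨w, ?_⟩
      rw [hw, e]
      exact Set.union_eq_self_of_subset_right (fun V hV => Or.inr hV)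
  choose w hw using hex
  let wf : ℕ → D := fun j => if j < n then x j else w (v j)
  have hwf : ∀ j, up (wf j) = zset up B n x τ N v u' H' (v j) := by
    intro j
    by_cases hj : j < n
    · simp only [wf, if_pos hj]
      exact (hzx j hj).symm
    · simp only [wf, if_neg hj]
      exact hw (v j)
  refine ⟨wf, fun i hi => by simp only [wf, if_pos hi], fun j l => ?_⟩
  rw [hF.le, hwf, hwf]
  constructor
  · intro h k hk a ha hva
    exact (hpt (v j) (hall j) k hk a ha).1 (h ((hpt (v l) (hall l) k hk a ha).2 hva))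
  · intro h
    exact hmono _ _ h

/-- Module SOUND2. -/
theorem _root_.Pool.Agent.Lib.MP_d48993_lc.Bound.sound2 (hI : IndStatement)
    (hB : BotStatement) : Sound2Statement := by
  classical
  intro D _ B up hF h0B n x τ A Bd hlen h0 hbox hun hnz hsep N hN v hall hv
  have hcl : ∀ a, Cl (up a) := by
    intro a
    obtain ⟨S, hS, e⟩ := hF.rep a
    rw [e]
    exact (Cl.of hS).union (Cl.of hF.closed)
  -- the boxes
  let A0 : Set (ℕ → ℕ) := {W | ∀ i < n, τ.In 0 i → W ∈ up (x i)}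
  let B0 : Set (ℕ → ℕ) := {W | ∃ i < n, ¬ τ.In 0 i ∧ W ∈ up (x i)} ∪ Up B
  have hA0 : Cl A0 :=
    Cl.fin_inter (fun i => up (x i)) (fun i => τ.In 0 i) n fun i _ => hcl (x i)
  have hB0 : Cl B0 :=
    (Cl.fin_union (fun i => up (x i)) (fun i => ¬ τ.In 0 i) n fun i _ => hcl (x i)).union
      (Cl.of hF.closed)
  let A' : ℕ → Set (ℕ → ℕ) := fun k => if k ≠ 0 ∧ k < τ.1.length then A k else A0
  let Bd' : ℕ → Set (ℕ → ℕ) := fun k => if k ≠ 0 ∧ k < τ.1.length then Bd k else B0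
  have eA : ∀ k < τ.1.length, k ≠ 0 → A' k = A k := fun k hk hk0 => if_pos ⟨hk0, hk⟩
  have eB : ∀ k < τ.1.length, k ≠ 0 → Bd' k = Bd k := fun k hk hk0 => if_pos ⟨hk0, hk⟩
  have eA0 : A' 0 = A0 := if_neg fun h => h.1 rfl
  have eB0 : Bd' 0 = B0 := if_neg fun h => h.1 rfl
  have hz0 : (fun _ : ℕ => 0) ∉ B0 := by
    rintro (⟨i, hi, hin, hm⟩ | hm)
    · exact hin ((h0 i hi).1 hm)
    · exact h0B hm
  refine core hI hB D B up hF n x τ A' Bd' hlen h0 ?_ ?_ ?_ ?_ ?_ ?_ ?_ ?_ ?_ hsep N hN v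
    hall hv
  · intro k
    by_cases h : k ≠ 0 ∧ k < τ.1.length
    · rw [eA k h.2 h.1]
      exact isC_cl hF.closed (hbox k h.2 h.1).1
    · have e : A' k = A0 := if_neg h
      rw [e]
      exact hA0
  · intro k
    by_cases h : k ≠ 0 ∧ k < τ.1.length
    · rw [eB k h.2 h.1]
      exact isC_cl hF.closed (hbox k h.2 h.1).2.1
    · have e : Bd' k = B0 := if_neg h
      rw [e]
      exact hB0
  · intro k hk
    by_cases h : k = 0
    · subst h
      rw [eB0]
      exact Set.subset_union_right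
    · rw [eB k hk h]
      exact isC_sub (hbox k hk h).2.1
  · intro k hk
    by_cases h : k = 0
    · subst h
      rw [eB0, eA0]
      exact ⟨fun _ => 0, fun i hi hin => (h0 i hi).2 hin, hz0⟩
    · rw [eB k hk h, eA k hk h]
      exact (hbox k hk h).2.2.2.2
  · intro k hk i hi hin
    by_cases h : k = 0
    · subst h
      rw [eA0]
      exact fun W hW => hW i hi hin
    · rw [eA k hk h]
      exact (hbox k hk h).2.2.1 i hi hin
  · intro k hk i hi hin
    by_cases h : k = 0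
    · subst h
      rw [eB0]
      exact fun W hW => Or.inl ⟨i, hi, hin, hW⟩
    · rw [eB k hk h]
      exact (hbox k hk h).2.2.2.1 i hi hin
  · intro k hk l hl hk0 hl0 hkl hbl
    rw [eA k hk hk0, eA l hl hl0, eB l hl hl0]
    exact hun k hk l hl hk0 hl0 hkl hbl
  · intro k hk hk0
    rw [eA k hk hk0, eB0]
    obtain ⟨i, hi, hin, hin0⟩ := hnz k hk hk0
    exact fun W hW => Or.inl ⟨i, hi, hin0, (hbox k hk hk0).2.2.1 i hi hin hW⟩
  · rw [eB0]
    exact hz0

end Pool.Agent.Lib.MP_d48993_lc.Bound.Sound2
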