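import Pool.Agent.Lib.MP_d48993_lc.AE.Bound.Interfaces
import Pool.Agent.Lib.MP_d48993_lc.AE.Bound.Homd

/-!
# Board LB, module TREEC: the calculus of classes (helper87)
-/

set_option autoImplicit false

namespace Pool.Agent.Lib.MP_d48993_lc.Bound.Treec

open MP_8c048d_lc (pre join RecF Sig Pih Clo Cop Del)
open H84 (KK KK_clo KK_rec P2 up_trans up_self)
open H30 (HomC BTree homC_clo up_hom cpred)

theorem clo_univ : ClosedC (Set.univ : Set (ℕ → ℕ)) :=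
  ⟨fun _ _ => true, RecF.of_computable (Computable.const true), fun _ _ => by simp⟩

theorem up_univ : Up (Set.univ : Set (ℕ → ℕ)) = Set.univ :=
  Set.eq_univ_of_forall fun W => up_self (Set.mem_univ W)

theorem isC_self {B : Set (ℕ → ℕ)} (hB : ClosedC B) : IsC B (Up B) :=
  ⟨B, hB, (Set.union_self _).symm⟩

theorem isC_univ (B : Set (ℕ → ℕ)) : IsC B Set.univ :=
  ⟨Set.univ, clo_univ, by rw [up_univ, Set.univ_union]⟩

theorem isC_inter {B U U' : Set (ℕ → ℕ)} (h : IsC B U) (h' : IsC B U') : IsC B (U ∩ U') := by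
  obtain ⟨S, hS, rfl⟩ := h
  obtain ⟨S', hS', rfl⟩ := h'
  obtain ⟨-, R, hR, hR'⟩ := ops joinS S S' hS hS'
  exact ⟨R, hR, by rw [hR', Set.inter_union_distrib_right]⟩

theorem isC_union {B U U' : Set (ℕ → ℕ)} (h : IsC B U) (h' : IsC B U') : IsC B (U ∪ U') := by
  obtain ⟨S, hS, rfl⟩ := h
  obtain ⟨S', hS', rfl⟩ := h'
  obtain ⟨⟨R, hR, hR'⟩, -⟩ := ops joinS S S' hS hS'
  exact ⟨R, hR, by rw [hR', ← Set.union_union_distrib_right]⟩

theorem isC_KK {B : Set (ℕ → ℕ)} (p : ℕ × ℕ) : IsC B (Up (KK p.1 p.2) ∪ Up B) := by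
  refine ⟨KK p.1 p.2, ?_, rfl⟩
  obtain ⟨d, hd, h1⟩ := KK_clo
  refine ⟨fun a F => d (p, a.2) F, hd.comp₁ (f := fun a : Unit × ℕ => (p, a.2))
    ((Computable.const p).pair Computable.snd), fun _ F => h1 p F⟩

theorem exists_KK {S : Set (ℕ → ℕ)} (hS : ClosedC S) : ∃ p : ℕ × ℕ, KK p.1 p.2 = S := by
  have h : Clo (fun (_ : ℕ × ℕ) F => F ∈ S) := by
    obtain ⟨d, hd, h1⟩ := hS
    exact ⟨fun a F => d ((), a.2) F, hd.comp₁ (f := fun a : (ℕ × ℕ) × ℕ => ((), a.2))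
      ((Computable.const ()).pair Computable.snd), fun _ F => h1 () F⟩
  obtain ⟨e, he⟩ := KK_rec h
  exact ⟨(e, 0), Set.ext fun F => he 0 F⟩

theorem up_mono_red {B U : Set (ℕ → ℕ)} (h : IsC B U) {X Y : ℕ → ℕ} (hX : X ∈ U)
    (hr : Red X Y) : Y ∈ U := by
  obtain ⟨S, -, rfl⟩ := h
  exact hX.imp (fun h => up_trans h hr) fun h => up_trans h hr

theorem pi_Fl {B : Set (ℕ → ℕ)} {Y : ℕ → ℕ} (hY : Y ∉ Up B) : PI B (Fl B Y) where
  sub := fun _ h => h.1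
  up := fun _ h _ h1 h2 => ⟨h1, h2 h.2⟩
  inter := fun _ h _ h' => ⟨isC_inter h.1 h'.1, h.2, h'.2⟩
  prime := fun _ _ h h' h1 => h1.2.imp (fun h2 => ⟨h, h2⟩) fun h2 => ⟨h', h2⟩
  repr := fun _ h h1 => ⟨Y, hY, Set.Subset.rfl, fun h2 => h1 ⟨h, h2⟩⟩
  proper := fun h => hY h.2

end Pool.Agent.Lib.MP_d48993_lc.Bound.Treec

namespace Pool.Agent.Lib.MP_d48993_lc.Bound

open H84 (KK)
open H30 (BTree up_hom homC_clo cpred)
open Treec

/-- Module TREEC. -/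
theorem treec : TreecStatement := by
  intro B hB
  refine ⟨isC_self hB, isC_univ B, fun U U' h h' => ⟨isC_inter h h', isC_union h h'⟩, ?_,
    isC_KK, ?_, ?_, ?_, fun Y hY => pi_Fl hY⟩
  · intro U hU
    have hU' := hU
    obtain ⟨S, hS, rfl⟩ := hU'
    obtain ⟨p, hp⟩ := exists_KK hS
    obtain ⟨T, hT, -⟩ := homd B hB
    refine ⟨Set.subset_union_right, fun X Y hX hr => up_mono_red hU hX hr,
      ⟨T p, (hT p).1, (hT p).2.1, ?_⟩, p, ?_⟩
    · rw [(hT p).2.2, hp]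
    · rw [hp]
  · intro b c hb hc
    exact ⟨Hm b c, homC_clo (cpred hb) (cpred hc), rfl⟩
  · intro b c Y hc h1 h2
    exact up_hom (fun σ τ h h1 => hc.tree σ τ h h1) h1 h2
  · intro c Y hc h1
    exact up_hom (fun σ τ h h1 => hc.tree σ τ h h1) h1 ⟨Y, fun _ => rfl, Red.rfl⟩

end Pool.Agent.Lib.MP_d48993_lc.Bound
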