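import Pool.Agent.Lib.MP_d48993_lc.AE.Bound.Adm
import Pool.Agent.Lib.MP_d48993_lc.AE.Bound.Allof
import Pool.Agent.Lib.MP_d48993_lc.AE.Bound.Sound2
import Pool.Agent.Lib.MP_d48993_lc.AE.Bound.Treec
import Pool.Agent.Lib.MP_d48993_lc.AE.Bot
import Pool.Agent.Lib.MP_d48993_lc.AE.Ind

/-!
# Project AE (MP_d48993), board LB: the bound, unconditionally
-/

set_option autoImplicit false

namespace Pool.Agent.Lib.MP_d48993_lc.Bound

/-- Every embedding is dominated by a finite frame of bounded size. -/
theorem lb : LbStatement :=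
  lb_of treec (adm (char ghide treec delz') homd delz' treec) (sound2 AE.ind AE.bot)

end Pool.Agent.Lib.MP_d48993_lc.Bound
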