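import Pool.Agent.Lib.MP_d48993_lc.AE.Bound.Interfaces
import Pool.Agent.Lib.MP_d48993_lc.AE.Sound

/-!
# Module UCR (finding 3932): every finite frame is dominated by a finite UC frame

In a UC frame the `t`-closed elements are upward closed, for every `t`.
-/

set_option autoImplicit false

namespace Pool.Agent.Lib.MP_d48993_lc.Bound

/-- UC frames: the `t`-closed elements form the upward closed set `U t`. -/
structure UCF (P : Type) [PartialOrder P] (U : P → Set P) : Prop where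
  upper : ∀ t x y, x ∈ U t → x ≤ y → y ∈ U t
  off : ∀ t x, ¬ x < t → x ∈ U t
  least : ∀ t x, ∃ y, x ≤ y ∧ y ∈ U t ∧ ∀ z, x ≤ z → z ∈ U t → y ≤ z
  tmono : ∀ s t, s ≤ t → U t ⊆ U s

/-- A UC frame `P` (without the least element) is realised over itself: there is one class for
every point, and the points are the types of the reals; `none` is the type of the reals which are
in none of the classes. -/
def RealisedU (D : Type) [PartialOrder D] (B : Set (ℕ → ℕ)) (up : D → Set (ℕ → ℕ)) (P : Type)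
    [PartialOrder P] (U : P → Set P) : Prop :=
  ∃ (z : P → D) (e : (ℕ → ℕ) → Option P),
    (∀ W, W ∉ Up B → ∀ k, (W ∈ up (z k) ↔ ∃ l, e W = some l ∧ k ≤ l)) ∧
    (∃ W, W ∉ Up B ∧ e W = none) ∧
    (∀ k, ∃ W, W ∉ Up B ∧ e W = some k) ∧
    ∀ W W', W ∉ Up B → W' ∉ Up B → ∀ k l, e W = some k → e W' = some l → k ∉ U l →
      ∀ y : D, W ∈ up y → W' ∈ up y

namespace Ucr

section Step

variable {K : Type} [PartialOrder K]

/-- The situation when the elements of the upward closed set `V` have been treated. -/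
structure Stg (π : K → K → K) (V : Finset K) (P : Type) (le : P → P → Prop) (s : P → K)
    (C : P → P → Prop) : Prop where
  mem : ∀ c, s c ∈ V
  refl : ∀ c, le c c
  trans : ∀ c d e, le c d → le d e → le c e
  anti : ∀ c d, le c d → le d c → c = d
  mono : ∀ c d, le c d → s c ≤ s d
  up : ∀ τ d e, C τ d → le d e → C τ e
  off : ∀ τ d, ¬ C τ d → le d τ ∧ s d < s τ
  cl : ∀ τ d, ∃ e, le d e ∧ C τ e ∧ (∀ f, le d f → C τ f → le e f) ∧ s e = π (s τ) (s d)
  ext : ∀ p ∈ V, ∀ S : Finset P, (∀ σ ∈ S, p < s σ ∧ π (s σ) p = p) →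
    (∀ σ ∈ S, ∀ ρ ∈ S, C ρ σ) → ∃ e, s e = p ∧ ∀ d, le e d ↔ p ≤ s d ∧ ∀ σ ∈ S, C σ d

variable {π : K → K → K} {V : Finset K} {P : Type} {le : P → P → Prop} {s : P → K}
  {C : P → P → Prop}

/-- The new elements over `k`. -/
def Nw (π : K → K → K) (P : Type) (s : P → K) (C : P → P → Prop) (k : K) : Type :=
  {S : Finset P // (∀ σ ∈ S, k < s σ ∧ π (s σ) k = k) ∧ ∀ σ ∈ S, ∀ ρ ∈ S, C ρ σ}

/-- The new type. -/
abbrev Ps (π : K → K → K) (P : Type) (s : P → K) (C : P → P → Prop) (k : K) : Type :=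
  P ⊕ Nw π P s C k

/-- The new map. -/
def ss (π : K → K → K) (P : Type) (s : P → K) (C : P → P → Prop) (k : K) : Ps π P s C k → K
  | Sum.inl c => s c
  | Sum.inr _ => k

/-- The new closed pairs. -/
def CC (π : K → K → K) (P : Type) (s : P → K) (C : P → P → Prop) (k : K) :
    Ps π P s C k → Ps π P s C k → Prop
  | Sum.inl τ, Sum.inl d => C τ d
  | Sum.inl τ, Sum.inr S => τ ∈ S.1 ∨ ¬ (k < s τ ∧ ∀ ρ ∈ S.1, C ρ τ)
  | Sum.inr _, _ => True

/-- The new order. -/
def ll (π : K → K → K) (P : Type) (le : P → P → Prop) (s : P → K) (C : P → P → Prop) (k : K) :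
    Ps π P s C k → Ps π P s C k → Prop
  | Sum.inl c, Sum.inl d => le c d
  | Sum.inl _, Sum.inr _ => False
  | Sum.inr S, d => k ≤ ss π P s C k d ∧ ∀ σ ∈ S.1, CC π P s C k (Sum.inl σ) d

theorem step {Q : Type} [PartialOrder Q] {lam : K → Q} (h : IsFr lam π)
    (tm : ∀ s t x, s ≤ t → π s x ≤ π t x) (S : Stg π V P le s C) {k : K} (hk : k ∉ V)
    (hV : ∀ x ∈ V, ∀ y, x ≤ y → y ∈ V) (hkV : ∀ x, k < x → x ∈ V) [DecidableEq K] :
    Stg π (insert k V) (Ps π P s C k) (ll π P le s C k) (ss π P s C k) (CC π P s C k) := by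
  classical
  -- elementary facts
  have f1 : ∀ {a : K} {c : P}, ¬ s c < k ∧ ¬ s c ≤ k := fun {_ c} =>
    ⟨fun h1 => hk (hV _ (S.mem c) _ h1.le), fun h1 => hk (hV _ (S.mem c) _ h1)⟩
  have fle : ∀ {c : P}, ¬ s c ≤ k := fun {c} h1 => hk (hV _ (S.mem c) _ h1)
  have fC : ∀ {τ d : P}, C τ d → π (s τ) (s d) = s d := by
    intro τ d h1
    obtain ⟨e, e1, e2, e3, e4⟩ := S.cl τ d
    have h2 : e = d := S.anti _ _ (e3 d (S.refl d) h1) e1
    rw [← e4, h2]
  -- upward closure
  have hup : ∀ τ d e, CC π P s C k τ d → ll π P le s C k d e → CC π P s C k τ e := by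
    rintro (τ | τ) d e h1 h2
    swap
    · trivial
    rcases d with d | D
    · rcases e with e | E
      · exact S.up _ _ _ h1 h2
      · exact h2.elim
    · by_contra h3
      obtain ⟨h2a, h2b⟩ := h2
      have h4 : τ ∉ D.1 := fun h4 => h3 (h2b _ h4)
      rcases h1 with h1 | h1
      · exact h4 h1
      rcases e with e | E
      · obtain ⟨h5, h6⟩ := S.off _ _ h3
        apply h1
        refine ⟨lt_of_le_of_lt h2a h6, fun ρ hρ => ?_⟩
        exact S.up _ _ _ (h2b _ hρ) h5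
      · have h5 : τ ∉ E.1 ∧ (k < s τ ∧ ∀ ρ ∈ E.1, C ρ τ) := by
          by_contra h6
          apply h3
          by_cases h7 : τ ∈ E.1
          · exact Or.inl h7
          · exact Or.inr fun h8 => h6 ⟨h7, h8⟩
        obtain ⟨h5, h6, h7⟩ := h5
        apply h1
        refine ⟨h6, fun ρ hρ => ?_⟩
        by_contra h8
        obtain ⟨h9, h10⟩ := S.off _ _ h8
        rcases h2b _ hρ with h11 | h11
        · exact h8 (h7 _ h11)
        · apply h11
          refine ⟨(D.2.1 _ hρ).1, fun ρ' hρ' => ?_⟩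
          exact S.up _ _ _ (h7 _ hρ') h9
  have hmono : ∀ c d, ll π P le s C k c d → ss π P s C k c ≤ ss π P s C k d := by
    rintro (c | c) d h1
    · rcases d with d | d
      · exact S.mono _ _ h1
      · exact h1.elim
    · exact h1.1
  have htrans : ∀ c d e, ll π P le s C k c d → ll π P le s C k d e → ll π P le s C k c e := by
    rintro (c | c) d e h1 h2
    · rcases d with d | d
      · rcases e with e | e
        · exact S.trans _ _ _ h1 h2
        · exact h2.elim
      · exact h1.elim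
    · exact ⟨h1.1.trans (hmono _ _ h2), fun σ hσ => hup _ _ _ (h1.2 σ hσ) h2⟩
  have hrefl : ∀ c, ll π P le s C k c c := by
    rintro (c | c)
    · exact S.refl c
    · exact ⟨le_refl _, fun σ hσ => Or.inl hσ⟩
  -- one inclusion of antisymmetry
  have hsub : ∀ c d : Nw π P s C k, ll π P le s C k (Sum.inr c) (Sum.inr d) →
      ll π P le s C k (Sum.inr d) (Sum.inr c) → c.1 ⊆ d.1 := by
    intro c d h1 h2 σ hσ
    rcases h1.2 σ hσ with h3 | h3
    · exact h3
    exfalso
    apply h3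
    refine ⟨(c.2.1 _ hσ).1, fun ρ' hρ' => ?_⟩
    by_contra h4
    rcases h2.2 _ hρ' with h5 | h5
    · exact h4 (c.2.2 _ hσ _ h5)
    · apply h5
      obtain ⟨h6, h7⟩ := S.off _ _ h4
      exact ⟨(d.2.1 _ hρ').1, fun ρ hρ => S.up _ _ _ (c.2.2 _ hσ _ hρ) h6⟩
  -- closed pairs over new elements
  have hdom : ∀ (τ : P) (D : Nw π P s C k), CC π P s C k (Sum.inl τ) (Sum.inr D) →
      π (s τ) k = k := by
    rintro τ D (h1 | h1)
    · exact (D.2.1 _ h1).2
    · by_contra h2
      apply h1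
      have h3 : k < s τ := by
        by_contra h3
        exact h2 (h.off _ _ h3)
      refine ⟨h3, fun ρ hρ => ?_⟩
      by_contra h4
      obtain ⟨h5, h6⟩ := S.off _ _ h4
      apply h2
      have h7 : π (s τ) k ≤ π (s ρ) k := tm _ _ _ h6.le
      rw [(D.2.1 _ hρ).2] at h7
      exact le_antisymm h7 (h.infl _ _)
  have hoff : ∀ τ d, ¬ CC π P s C k τ d → ll π P le s C k d τ ∧
      ss π P s C k d < ss π P s C k τ := by
    rintro (τ | τ) d h1
    swap
    · exact (h1 trivial).elim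
    rcases d with d | D
    · exact S.off _ _ h1
    · have h5 : k < s τ ∧ ∀ ρ ∈ D.1, C ρ τ := by
        by_contra h6
        exact h1 (Or.inr h6)
      exact ⟨⟨h5.1.le, h5.2⟩, h5.1⟩
  have hext : ∀ p ∈ insert k V, ∀ T : Finset (Ps π P s C k),
      (∀ σ ∈ T, p < ss π P s C k σ ∧ π (ss π P s C k σ) p = p) →
      (∀ σ ∈ T, ∀ ρ ∈ T, CC π P s C k ρ σ) →
      ∃ e, ss π P s C k e = p ∧ ∀ d, ll π P le s C k e d ↔ p ≤ ss π P s C k d ∧
        ∀ σ ∈ T, CC π P s C k σ d := by
    intro p hp T h1 h2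
    -- the elements of `T` are old
    have h3 : ∀ σ ∈ T, ∃ σ' : P, σ = Sum.inl σ' := by
      rintro (σ | σ) hσ
      · exact ⟨σ, rfl⟩
      · exfalso
        have h4 : p < k := (h1 _ hσ).1
        rcases Finset.mem_insert.1 hp with rfl | h5
        · exact lt_irrefl _ h4
        · exact hk (hV _ h5 _ h4.le)
    set T' : Finset P := T.preimage Sum.inl (Sum.inl_injective.injOn) with hT'
    have h4 : ∀ σ : P, σ ∈ T' ↔ Sum.inl σ ∈ T := fun σ => Finset.mem_preimage
    have h5 : ∀ σ ∈ T', p < s σ ∧ π (s σ) p = p := fun σ hσ => h1 _ ((h4 _).1 hσ)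
    have h6 : ∀ σ ∈ T', ∀ ρ ∈ T', C ρ σ := fun σ hσ ρ hρ => h2 _ ((h4 _).1 hσ) _ ((h4 _).1 hρ)
    have h7 : ∀ d, (∀ σ ∈ T, CC π P s C k σ d) ↔ ∀ σ ∈ T', CC π P s C k (Sum.inl σ) d := by
      intro d
      constructor
      · exact fun h8 σ hσ => h8 _ ((h4 _).1 hσ)
      · intro h8 σ hσ
        obtain ⟨σ', rfl⟩ := h3 σ hσ
        exact h8 _ ((h4 _).2 hσ)
    rcases Finset.mem_insert.1 hp with rfl | h8
    · refine ⟨Sum.inr ⟨T', h5, h6⟩, rfl, fun d => ?_⟩
      rw [h7]
      exact Iff.rfl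
    · obtain ⟨e, e1, e2⟩ := S.ext p h8 T' h5 h6
      refine ⟨Sum.inl e, e1, ?_⟩
      rintro (d | d)
      · rw [h7]
        exact e2 d
      · constructor
        · exact fun h9 => h9.elim
        · exact fun h9 => (hk (hV _ h8 _ h9.1)).elim
  refine ⟨?_, hrefl, htrans, ?_, hmono, hup, hoff, ?_, hext⟩
  · rintro (c | c)
    · exact Finset.mem_insert_of_mem (S.mem c)
    · exact Finset.mem_insert_self _ _
  · rintro (c | c) (d | d) h1 h2
    · exact congrArg _ (S.anti _ _ h1 h2)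
    · exact h1.elim
    · exact h2.elim
    · exact congrArg _ (Subtype.ext (Finset.Subset.antisymm (hsub _ _ h1 h2) (hsub _ _ h2 h1)))
  -- closures
  intro τ d
  by_cases hcl : CC π P s C k τ d
  · -- closed already
    refine ⟨d, hrefl d, hcl, fun f h1 _ => h1, ?_⟩
    rcases τ with τ | τ
    · rcases d with d | d
      · exact (fC hcl).symm
      · exact (hdom _ _ hcl).symm
    · rcases d with d | d
      · exact (h.off _ _ fun h1 => fle (c := d) h1.le).symm
      · exact (h.off _ _ (lt_irrefl _)).symm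
  rcases τ with τ | τ
  swap
  · exact (hcl trivial).elim
  rcases d with d | D
  · obtain ⟨e, e1, e2, e3, e4⟩ := S.cl τ d
    refine ⟨Sum.inl e, e1, e2, ?_, e4⟩
    rintro (f | f) h1 h2
    · exact e3 f h1 h2
    · exact h1.elim
  -- the main case
  have h1 : τ ∉ D.1 := fun h2 => hcl (Or.inl h2)
  have h2 : k < s τ ∧ ∀ ρ ∈ D.1, C ρ τ := by
    by_contra h6
    exact hcl (Or.inr h6)
  obtain ⟨hkt, h2⟩ := h2
  have hττ : C τ τ := by
    by_contra h3
    exact lt_irrefl _ (S.off _ _ h3).2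
  set p : K := π (s τ) k with hp
  have hkp : k ≤ p := h.infl _ _
  have hpt : p ≤ s τ := h.below _ _ hkt
  have hπp : ∀ σ : P, π (s σ) k = k → π (s σ) p = p := by
    intro σ hσ
    rw [hp, h.comm, hσ]
  have hπt : π (s τ) p = p := h.idem _ _
  set T : Finset (Ps π P s C k) :=
    ((insert τ D.1).filter fun σ => p < s σ ∧ C τ σ).image Sum.inl with hT
  have hTm : ∀ σ : P, Sum.inl σ ∈ T ↔ (σ = τ ∨ σ ∈ D.1) ∧ p < s σ ∧ C τ σ := by
    intro σ
    rw [hT, Finset.mem_image]
    constructor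
    · rintro ⟨σ', h3, h4⟩
      obtain rfl : σ' = σ := Sum.inl_injective h4
      rw [Finset.mem_filter, Finset.mem_insert] at h3
      exact h3
    · intro h3
      exact ⟨σ, by rw [Finset.mem_filter, Finset.mem_insert]; exact h3, rfl⟩
  have hTe : ∀ σ ∈ T, ∃ σ' : P, σ = Sum.inl σ' := by
    intro σ hσ
    rw [hT, Finset.mem_image] at hσ
    obtain ⟨σ', -, rfl⟩ := hσ
    exact ⟨σ', rfl⟩
  have hpV : p ∈ insert k V := by
    rcases hkp.eq_or_lt with h3 | h3
    · rw [← h3]; exact Finset.mem_insert_self _ _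
    · exact Finset.mem_insert_of_mem (hkV _ h3)
  obtain ⟨e, e1, e2⟩ := hext p hpV T
    (by
      intro σ hσ
      obtain ⟨σ, rfl⟩ := hTe σ hσ
      obtain ⟨h3 | h3, h4, h5⟩ := (hTm _).1 hσ
      · rw [h3]
        rw [h3] at h4
        exact ⟨h4, hπt⟩
      · exact ⟨h4, hπp _ (D.2.1 _ h3).2⟩)
    (by
      intro σ hσ ρ hρ
      obtain ⟨σ, rfl⟩ := hTe σ hσ
      obtain ⟨ρ, rfl⟩ := hTe ρ hρ
      obtain ⟨h3, h4, h5⟩ := (hTm _).1 hσ
      obtain ⟨h6, h7, h8⟩ := (hTm _).1 hρ
      show C ρ σ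
      rcases h6 with rfl | h6
      · exact h5
      · rcases h3 with rfl | h3
        · exact h2 _ h6
        · exact D.2.2 _ h3 _ h6)
  have hee := (e2 e).1 (hrefl e)
  -- `e` is closed
  have heτ : CC π P s C k (Sum.inl τ) e := by
    by_cases h3 : p < s τ
    · exact hee.2 _ ((hTm _).2 ⟨Or.inl rfl, h3, hττ⟩)
    · by_contra h4
      have h5 := (hoff _ _ h4).2
      rw [e1] at h5
      exact h3 h5
  refine ⟨e, ⟨?_, ?_⟩, heτ, ?_, ?_⟩
  · rw [e1]; exact hkp
  · intro σ hσ
    by_cases h3 : Sum.inl σ ∈ T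
    · exact hee.2 _ h3
    · by_contra h4
      obtain ⟨h5, h6⟩ := hoff _ _ h4
      rw [e1] at h6
      have h7 : CC π P s C k (Sum.inl τ) (Sum.inl σ) := hup _ _ _ heτ h5
      exact h3 ((hTm _).2 ⟨Or.inr hσ, h6, h7⟩)
  · intro f h3 h4
    rw [e2]
    have h5 : ∀ σ ∈ T, CC π P s C k σ f := by
      intro σ hσ
      obtain ⟨σ, rfl⟩ := hTe σ hσ
      obtain ⟨h6 | h6, -, -⟩ := (hTm _).1 hσ
      · rw [h6]; exact h4
      · exact h3.2 _ h6
    refine ⟨?_, h5⟩
    rcases f with f | f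
    · have h6 : π (s τ) (s f) = s f := fC h4
      show p ≤ s f
      rw [← h6]
      exact h.mono _ _ _ h3.1
    · have h6 : π (s τ) k = k := hdom _ _ h4
      show p ≤ k
      rw [hp, h6]
  · rw [e1]
    rfl

/-- All of `K`. -/
theorem exists_stg {Q : Type} [PartialOrder Q] {lam : K → Q} (h : IsFr lam π)
    (tm : ∀ s t x, s ≤ t → π s x ≤ π t x) (n : ℕ) : ∀ V : Finset K, V.card = n →
    (∀ x ∈ V, ∀ y, x ≤ y → y ∈ V) →
    ∃ (P : Type) (_ : Finite P) (le : P → P → Prop) (s : P → K) (C : P → P → Prop),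
      Stg π V P le s C := by
  classical
  induction n with
  | zero =>
    intro V h1 _
    obtain rfl : V = ∅ := Finset.card_eq_zero.1 h1
    refine ⟨Empty, inferInstance, fun _ _ => True, Empty.elim, fun _ _ => True, ?_⟩
    constructor
    · exact fun c => c.elim
    · exact fun c => c.elim
    · exact fun c => c.elim
    · exact fun c => c.elim
    · exact fun c => c.elim
    · exact fun c => c.elim
    · exact fun c => c.elim
    · exact fun c => c.elim
    · exact fun p hp => (Finset.notMem_empty _ hp).elim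
  | succ n ih =>
    intro V h1 h2
    have hne : V.Nonempty := by
      rw [← Finset.card_pos, h1]; exact Nat.succ_pos n
    obtain ⟨k, hk⟩ := V.exists_minimal hne
    have hkV : k ∈ V := hk.1
    have hmin : ∀ x ∈ V, x ≤ k → x = k := fun x hx hxk => le_antisymm hxk (hk.2 hx hxk)
    obtain ⟨P, hP, le, s, C, S⟩ := ih (V.erase k)
      (by rw [Finset.card_erase_of_mem hkV, h1]; rfl)
      (by
        intro x hx y hxy
        rw [Finset.mem_erase] at hx ⊢
        exact ⟨fun h3 => hx.1 (hmin x hx.2 (h3 ▸ hxy)), h2 x hx.2 y hxy⟩)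
    have S' := step h tm S (k := k) (Finset.notMem_erase _ _)
      (by
        intro x hx y hxy
        rw [Finset.mem_erase] at hx ⊢
        exact ⟨fun h3 => hx.1 (hmin x hx.2 (h3 ▸ hxy)), h2 x hx.2 y hxy⟩)
      (by
        intro x hx
        rw [Finset.mem_erase]
        exact ⟨hx.ne', h2 k hkV x hx.le⟩)
    rw [Finset.insert_erase hkV] at S'
    refine ⟨_, ?_, _, _, _, S'⟩
    have := hP
    have : Finite (Nw π P s C k) := Subtype.finite
    infer_instance

end Step

section Uc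

variable {K : Type} [PartialOrder K] {π : K → K → K}

/-- Every finite frame is the image of a finite UC frame. -/
theorem exists_ucf [Finite K] {Q : Type} [PartialOrder Q] {lam : K → Q} (h : IsFr lam π)
    (tm : ∀ s t x, s ≤ t → π s x ≤ π t x) :
    ∃ (P : Type) (_ : Finite P) (_ : PartialOrder P) (s : P → K) (U : P → Set P),
      UCF P U ∧ Function.Surjective s ∧ Monotone s ∧ ∀ t x, x ∈ U t → π (s t) (s x) = s x := by
  classical
  have := Fintype.ofFinite K
  obtain ⟨P, hP, le, s, C, S⟩ := exists_stg h tm _ (Finset.univ : Finset K) rfl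
    (fun _ _ _ _ => Finset.mem_univ _)
  let _ : PartialOrder P :=
    { le := le
      le_refl := S.refl
      le_trans := S.trans
      le_antisymm := S.anti }
  have hC : ∀ {τ d : P}, C τ d → π (s τ) (s d) = s d := by
    intro τ d h1
    obtain ⟨e, e1, e2, e3, e4⟩ := S.cl τ d
    have h2 : e = d := S.anti _ _ (e3 d (S.refl d) h1) e1
    rw [← e4, h2]
  refine ⟨P, hP, inferInstance, s, fun t => {x | ∀ σ, σ ≤ t → C σ x}, ?_, ?_, S.mono, ?_⟩
  · have := Fintype.ofFinite P
    constructor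
    · exact fun t x y hx hxy σ hσ => S.up _ _ _ (hx σ hσ) hxy
    · intro t x hx σ hσ
      by_contra h1
      obtain ⟨h2, h3⟩ := S.off _ _ h1
      have h4 : x ≤ σ := h2
      have h5 : x ≠ σ := fun h6 => by rw [h6] at h3; exact lt_irrefl _ h3
      exact hx ((lt_of_le_of_ne h4 h5).trans_le hσ)
    · intro t x
      -- close under the elements of a finite set
      have h1 : ∀ T : Finset P, ∃ y, x ≤ y ∧ (∀ σ ∈ T, C σ y) ∧
          ∀ z, x ≤ z → (∀ σ ∈ T, C σ z) → y ≤ z := by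
        intro T
        induction T using Finset.induction_on with
        | empty => exact ⟨x, le_refl _, fun _ h1 => (Finset.notMem_empty _ h1).elim,
            fun z hz _ => hz⟩
        | insert a T _ ih =>
          obtain ⟨y, y1, y2, y3⟩ := ih
          obtain ⟨e, e1, e2, e3, -⟩ := S.cl a y
          refine ⟨e, y1.trans e1, ?_, ?_⟩
          · intro σ hσ
            rcases Finset.mem_insert.1 hσ with rfl | hσ
            · exact e2
            · exact S.up _ _ _ (y2 σ hσ) e1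
          · intro z hz h2
            exact e3 z (y3 z hz fun σ hσ => h2 σ (Finset.mem_insert_of_mem hσ))
              (h2 a (Finset.mem_insert_self _ _))
      obtain ⟨y, y1, y2, y3⟩ := h1 (Finset.univ.filter fun σ => σ ≤ t)
      refine ⟨y, y1, fun σ hσ => y2 σ (by simp [hσ]), fun z hz hzt => y3 z hz ?_⟩
      intro σ hσ
      exact hzt σ (by simpa using hσ)
    · exact fun a b hab x hx σ hσ => hx σ (hσ.trans hab)
  · intro k
    obtain ⟨e, e1, -⟩ := S.ext k (Finset.mem_univ _) ∅ (by simp) (by simp)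
    exact ⟨e, e1⟩
  · exact fun t x hx => hC (hx t (le_refl _))

end Uc

/-- The positions of a type other than `0`. -/
@[ext] structure Kk (τ : Typ) where
  /-- the position -/
  val : ℕ
  lt : val < τ.1.length
  ne : val ≠ 0

instance (τ : Typ) : Finite (Kk τ) :=
  Finite.of_injective (fun k : Kk τ => (⟨k.val, k.lt⟩ : Fin τ.1.length)) fun _ _ h =>
    Kk.ext (congrArg Fin.val h)

/-- Unions of finitely many classes. -/
theorem exists_union {D : Type} [PartialOrder D] {B : Set (ℕ → ℕ)} {up : D → Set (ℕ → ℕ)}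
    (hF : IsFrame D B up) {P : Type} (z : P → D) (F : Finset P) :
    ∃ S, ClosedC S ∧ ∀ W, W ∈ Up S ∪ Up B ↔ (∃ k ∈ F, W ∈ up (z k)) ∨ W ∈ Up B := by
  classical
  induction F using Finset.induction_on with
  | empty =>
    obtain ⟨S, h1, h2⟩ := AE.Sound.Cl.empty
    refine ⟨S, h1, fun W => ?_⟩
    rw [h2]
    simp
  | insert a F _ ih =>
    obtain ⟨S, h1, h2⟩ := ih
    obtain ⟨T, h3, h4⟩ := hF.rep (z a)
    obtain ⟨R, h5, h6⟩ := (AE.Sound.Cl.of h1).union (AE.Sound.Cl.of h3)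
    refine ⟨R, h5, fun W => ?_⟩
    have h7 := h2 W
    rw [h6]
    constructor
    · rintro ((h8 | h8) | h8)
      · rcases h7.1 (Or.inl h8) with ⟨k, hk, h9⟩ | h9
        · exact Or.inl ⟨k, Finset.mem_insert_of_mem hk, h9⟩
        · exact Or.inr h9
      · exact Or.inl ⟨a, Finset.mem_insert_self _ _, by rw [h4]; exact Or.inl h8⟩
      · exact Or.inr h8
    · rintro (⟨k, hk, h9⟩ | h9)
      · rcases Finset.mem_insert.1 hk with rfl | hk
        · rw [h4] at h9
          rcases h9 with h9 | h9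
          · exact Or.inl (Or.inr h9)
          · exact Or.inr h9
        · rcases h7.2 (Or.inl ⟨k, hk, h9⟩) with h10 | h10
          · exact Or.inl (Or.inl h10)
          · exact Or.inr h10
      · exact Or.inr h9

/-- A realisation of `P` over itself gives a realisation of a type over which `P` lies. -/
theorem realised_of {D : Type} [PartialOrder D] {B : Set (ℕ → ℕ)} {up : D → Set (ℕ → ℕ)}
    (hF : IsFrame D B up) {n : ℕ} {τ : Typ} {le : ℕ → ℕ → Prop} {π : ℕ → ℕ → ℕ}
    (h : IsFT n τ le π) {P : Type} [Finite P] [PartialOrder P] {U : P → Set P}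
    (s : P → Kk τ) (hsur : Function.Surjective s)
    (hB : B.Nonempty ∨ ∀ i < n, ∃ k : P, τ.In (s k).1 i)
    (hmask : ∀ k l, k ≤ l → ∀ i < n, τ.In (s k).1 i → τ.In (s l).1 i)
    (hcl : ∀ t x, x ∈ U t → π (s t).1 (s x).1 = (s x).1) (hR : RealisedU D B up P U) :
    Realised D B up n τ := by
  classical
  have h0 : (0 : ℕ) < τ.1.length := h.pos
  obtain ⟨z, e, e1, e2, e3, e4⟩ := hR
  have := Fintype.ofFinite P
  -- the classes
  have hx : ∀ i : ℕ, ∃ a : D, i < n → ∀ W, W ∉ Up B → (W ∈ up a ↔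
      τ.In 0 i ∨ ∃ l, e W = some l ∧ τ.In (s l).1 i) := by
    intro i
    by_cases h1 : τ.In 0 i
    · obtain ⟨R, h2, h3⟩ := AE.Sound.Cl.univ
      have h5 : (R ∪ B).Nonempty := by
        have h6 : (fun _ => 0 : ℕ → ℕ) ∈ Up R := by rw [h3]; exact Set.mem_univ _
        obtain ⟨f, hf, -⟩ := h6
        exact ⟨f, Or.inl hf⟩
      obtain ⟨a, h4⟩ := hF.real R h2 h5
      refine ⟨a, fun _ W _ => ?_⟩
      rw [h4, h3]
      simp [h1]
    · by_cases hin : i < n
      swap
      · obtain ⟨W, -, -⟩ := e2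
        obtain ⟨R, h2, h3⟩ := AE.Sound.Cl.univ
        have h5 : (R ∪ B).Nonempty := by
          have h6 : (fun _ => 0 : ℕ → ℕ) ∈ Up R := by rw [h3]; exact Set.mem_univ _
          obtain ⟨f, hf, -⟩ := h6
          exact ⟨f, Or.inl hf⟩
        obtain ⟨a, -⟩ := hF.real R h2 h5
        exact ⟨a, fun h4 => (hin h4).elim⟩
      obtain ⟨S, h2, h3⟩ := exists_union hF z (Finset.univ.filter fun k : P => τ.In (s k).1 i)
      have h5 : (S ∪ B).Nonempty := by
        rcases hB with hB | hB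
        · exact Set.nonempty_of_mem (Set.mem_union_right _ hB.some_mem)
        · obtain ⟨k, hk⟩ := hB i hin
          obtain ⟨W, h6, h7⟩ := e3 k
          rcases (h3 W).2 (Or.inl ⟨k, by simpa using hk, (e1 W h6 k).2 ⟨k, h7, le_refl _⟩⟩) with
            ⟨f, hf, -⟩ | ⟨f, hf, -⟩
          · exact ⟨f, Or.inl hf⟩
          · exact ⟨f, Or.inr hf⟩
      obtain ⟨a, h4⟩ := hF.real S h2 h5
      refine ⟨a, fun hi W hW => ?_⟩
      rw [h4, h3]
      constructor
      · rintro (⟨k, hk, h5⟩ | h5)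
        · obtain ⟨l, h6, h7⟩ := (e1 W hW k).1 h5
          exact Or.inr ⟨l, h6, hmask k l h7 i hi (by simpa using hk)⟩
        · exact (hW h5).elim
      · rintro (h5 | ⟨l, h5, h6⟩)
        · exact (h1 h5).elim
        · exact Or.inl ⟨l, by simpa using h6, (e1 W hW l).2 ⟨l, h5, le_refl _⟩⟩
  choose x hx using hx
  let e' : (ℕ → ℕ) → ℕ := fun W => (e W).elim 0 fun l => (s l).1
  have he0 : ∀ W, e W = none → e' W = 0 := fun W h1 => by
    show (e W).elim 0 _ = 0
    rw [h1]; rfl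
  have he1 : ∀ W l, e W = some l → e' W = (s l).1 := fun W l h1 => by
    show (e W).elim 0 _ = _
    rw [h1]; rfl
  refine ⟨x, e', ?_, ?_, ?_⟩
  · intro W hW
    rcases h1 : e W with _ | l
    · rw [he0 W h1]
      refine ⟨h0, fun i hi => ?_⟩
      rw [hx i hi W hW, h1]
      simp
    · rw [he1 W l h1]
      refine ⟨(s l).2, fun i hi => ?_⟩
      rw [hx i hi W hW, h1]
      constructor
      · rintro (h2 | ⟨l', h2, h3⟩)
        · exact h.mask _ h0 _ (s l).2 (h.bot _ (s l).2) i hi h2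
        · obtain rfl : l = l' := Option.some_injective _ h2
          exact h3
      · exact fun h2 => Or.inr ⟨l, rfl, h2⟩
  · intro k hk
    rcases Nat.eq_zero_or_pos k with rfl | hk0
    · obtain ⟨W, h1, h2⟩ := e2
      exact ⟨W, h1, he0 W h2⟩
    · obtain ⟨l, hl⟩ := hsur ⟨k, hk, hk0.ne'⟩
      obtain ⟨W, h1, h2⟩ := e3 l
      refine ⟨W, h1, ?_⟩
      rw [he1 W l h2, hl]
  · intro W W' hW hW' hb y hy
    obtain ⟨-, -, h1⟩ := (h.bl _ _).1 hb
    rcases h2 : e W with _ | k
    · rw [he0 W h2] at h1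
      rcases h3 : e W' with _ | l
      · rw [he0 W' h3] at h1
        exact (h1 (h.free _ h0)).elim
      · rw [he1 W' l h3] at h1
        exact (h1 (h.free _ (s l).2)).elim
    · rw [he1 W k h2] at h1
      rcases h3 : e W' with _ | l
      · rw [he0 W' h3] at h1
        refine (h1 (h.off _ h0 _ (s k).2 fun h4 => ?_)).elim
        exact h4.2 (h.antisymm _ (s k).2 _ h0 h4.1 (h.bot _ (s k).2))
      · rw [he1 W' l h3] at h1
        exact e4 W W' hW hW' k l h2 h3 (fun h4 => h1 (hcl l k h4)) y hy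

/-- The frame of the positions of a type, without position `0`, is the image of a UC frame. -/
theorem exists_over {n : ℕ} {τ : Typ} {le : ℕ → ℕ → Prop} {π : ℕ → ℕ → ℕ} (h : IsFT n τ le π) :
    ∃ (P : Type) (_ : Finite P) (_ : PartialOrder P) (U : P → Set P) (s : P → Kk τ),
      UCF P U ∧ Function.Surjective s ∧ (∀ k l, k ≤ l → le (s k).1 (s l).1) ∧
      ∀ t x, x ∈ U t → π (s t).1 (s x).1 = (s x).1 := by
  have h0 : (0 : ℕ) < τ.1.length := h.pos
  let _ : PartialOrder (Kk τ) :=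
    { le := fun a b => le a.1 b.1
      le_refl := fun a => h.refl _ a.2
      le_trans := fun a b c => h.trans _ a.2 _ b.2 _ c.2
      le_antisymm := fun a b h1 h2 => Kk.ext (h.antisymm _ a.2 _ b.2 h1 h2) }
  have hKne : ∀ a b : Kk τ, a.1 = b.1 → a = b := fun a b h1 => Kk.ext h1
  have hπ0 : ∀ t x : Kk τ, π t.1 x.1 ≠ 0 := by
    intro t x h1
    have h2 := h.infl _ t.2 _ x.2
    rw [h1] at h2
    exact x.3 (h.antisymm _ x.2 _ h0 h2 (h.bot _ x.2))
  let πK : Kk τ → Kk τ → Kk τ := fun t x => ⟨π t.1 x.1, h.mem _ t.2 _ x.2, hπ0 t x⟩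
  have hfr : IsFr (fun k : Kk τ => {i : ℕ | i < n ∧ τ.In k.1 i}) πK := by
    constructor
    · exact fun x y hxy i hi => ⟨hi.1, h.mask _ x.2 _ y.2 hxy i hi.1 hi.2⟩
    · exact fun t x y hxy => h.mono _ t.2 _ x.2 _ y.2 hxy
    · exact fun t x => h.infl _ t.2 _ x.2
    · exact fun t x => hKne _ _ (h.idem _ t.2 _ x.2)
    · exact fun s t x => hKne _ _ (h.comm _ s.2 _ t.2 _ x.2)
    · intro t x h1
      refine hKne _ _ (h.off _ t.2 _ x.2 fun h2 => h1 (lt_of_le_of_ne h2.1 fun h3 => ?_))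
      exact h2.2 (congrArg (fun a : Kk τ => a.1) h3)
    · exact fun t x h1 => h.below _ t.2 _ x.2 h1.le
  have htm : ∀ s t x : Kk τ, s ≤ t → πK s x ≤ πK t x :=
    fun s t x hst => h.tmono _ s.2 _ t.2 _ x.2 hst
  obtain ⟨P, hP, hPo, s, U, hU, hsur, hsm, hcl⟩ := exists_ucf hfr htm
  exact ⟨P, hP, hPo, U, s, hU, hsur, fun k l hkl => hsm hkl,
    fun t x hx => congrArg (fun a : Kk τ => a.1) (hcl t x hx)⟩

end Ucr

open Ucr in
/-- Module UCR: it is enough to realise the finite UC frames, each over itself. -/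
theorem ucr {D : Type} [PartialOrder D] {B : Set (ℕ → ℕ)} {up : D → Set (ℕ → ℕ)}
    (hF : IsFrame D B up) (hB : B.Nonempty)
    (hR : ∀ (P : Type) [Finite P] [PartialOrder P] (U : P → Set P), UCF P U →
      RealisedU D B up P U) :
    ∀ n τ, FrameTyp n τ → Realised D B up n τ := by
  rintro n τ ⟨le, π, h⟩
  obtain ⟨P, hP, hPo, U, s, hU, hsur, hsm, hcl⟩ := exists_over h
  exact realised_of hF h s hsur (Or.inl hB)
    (fun k l hkl => h.mask _ (s k).2 _ (s l).2 (hsm k l hkl)) hcl (hR P U hU)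

/-- The closed sets, with a largest point, which blocks all others. -/
def UTop {S : Type} (U : S → Set S) : WithTop S → Set (WithTop S)
  | ⊤ => {⊤}
  | (t : S) => {x | x = ⊤ ∨ ∃ a ∈ U t, x = (a : WithTop S)}

open Ucr in
/-- Module UCR with a largest point (for Baire space): it is enough to realise, each over itself,
the frames `WithTop S`, where `S` is a finite UC frame, not empty, and the largest point blocks
all other points. -/
theorem ucr_top {D : Type} [PartialOrder D] {B : Set (ℕ → ℕ)} {up : D → Set (ℕ → ℕ)}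
    (hF : IsFrame D B up) (h00 : (fun _ : ℕ => 0) ∉ Up B)
    (hR : ∀ (S : Type) [Finite S] [Nonempty S] [PartialOrder S] (U : S → Set S), UCF S U →
      RealisedU D B up (WithTop S) (UTop U)) :
    ∀ n τ, FrameTyp n τ → TopIn n τ → Realised D B up n τ := by
  classical
  rintro n τ ⟨le, π, h⟩ ⟨k0, hk0, hk0'⟩
  have h0 : (0 : ℕ) < τ.1.length := h.pos
  by_cases hne : Nonempty (Kk τ)
  swap
  · -- only position `0`
    have h1 : ∀ k < τ.1.length, k = 0 := by
      intro k hk
      by_contra h2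
      exact hne ⟨⟨k, hk, h2⟩⟩
    have hk00 := h1 k0 hk0
    subst hk00
    obtain ⟨R, h2, h3⟩ := AE.Sound.Cl.univ
    have h5 : (R ∪ B).Nonempty := by
      have h6 : (fun _ => 0 : ℕ → ℕ) ∈ Up R := by rw [h3]; exact Set.mem_univ _
      obtain ⟨f, hf, -⟩ := h6
      exact ⟨f, Or.inl hf⟩
    obtain ⟨a, h4⟩ := hF.real R h2 h5
    refine ⟨fun _ => a, fun _ => 0, fun W _ => ⟨h0, fun i hi => ?_⟩, fun k hk =>
      ⟨fun _ => 0, h00, (h1 k hk).symm⟩, fun W W' _ _ hb => ?_⟩
    · rw [h4, h3]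
      simp [hk0' i hi]
    · exact (((h.bl _ _).1 hb).2.2 (h.free 0 h0)).elim
  obtain ⟨P, hP, hPo, U, s, hU, hsur, hsm, hcl⟩ := exists_over h
  have hPne : Nonempty P := by
    obtain ⟨a⟩ := hne
    obtain ⟨b, -⟩ := hsur a
    exact ⟨b⟩
  -- a maximal position with the full mask
  have hm : ∃ m : Kk τ, (∀ i < n, τ.In m.1 i) ∧ ∀ x < τ.1.length, le m.1 x → x = m.1 := by
    have h1 : ∃ k : Kk τ, ∀ i < n, τ.In k.1 i := by
      by_cases h2 : k0 = 0
      · obtain ⟨a⟩ := hne
        refine ⟨a, fun i hi => h.mask 0 h0 _ a.2 (h.bot _ a.2) i hi ?_⟩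
        rw [← h2]
        exact hk0' i hi
      · exact ⟨⟨k0, hk0, h2⟩, hk0'⟩
    let _ : PartialOrder (Kk τ) :=
      { le := fun a b => le a.1 b.1
        le_refl := fun a => h.refl _ a.2
        le_trans := fun a b c => h.trans _ a.2 _ b.2 _ c.2
        le_antisymm := fun a b h1 h2 => Kk.ext (h.antisymm _ a.2 _ b.2 h1 h2) }
    obtain ⟨m, hm⟩ := (Set.toFinite {k : Kk τ | ∀ i < n, τ.In k.1 i}).exists_maximal h1
    refine ⟨m, hm.1, fun x hx hmx => ?_⟩
    have hx0 : x ≠ 0 := by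
      intro h2
      rw [h2] at hmx
      exact m.3 (h.antisymm _ m.2 _ h0 hmx (h.bot _ m.2))
    have h3 : le x m.1 := hm.2 (y := ⟨x, hx, hx0⟩) (fun i hi => h.mask _ m.2 _ hx hmx i hi
      (hm.1 i hi)) hmx
    exact h.antisymm _ hx _ m.2 h3 hmx
  obtain ⟨m, hm1, hm2⟩ := hm
  let s' : WithTop P → Kk τ := fun x => x.recTopCoe m s
  have hs1 : s' ⊤ = m := rfl
  have hs2 : ∀ a : P, s' a = s a := fun _ => rfl
  refine realised_of hF h s' ?_ (Or.inr fun i hi => ⟨⊤, hm1 i hi⟩) ?_ ?_ (hR P U hU)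
  · intro a
    obtain ⟨b, hb⟩ := hsur a
    exact ⟨b, hb⟩
  · intro k l hkl i hi hki
    induction l using WithTop.recTopCoe with
    | top => exact hm1 i hi
    | coe l =>
      induction k using WithTop.recTopCoe with
      | top => exact (WithTop.not_top_le_coe l hkl).elim
      | coe k =>
        exact h.mask _ (s k).2 _ (s l).2 (hsm k l (WithTop.coe_le_coe.1 hkl)) i hi hki
  · intro t x hx
    induction t using WithTop.recTopCoe with
    | top =>
      obtain rfl : x = ⊤ := hx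
      exact h.off _ m.2 _ m.2 fun h1 => h1.2 rfl
    | coe t =>
      rcases hx with rfl | ⟨a, ha, rfl⟩
      · refine h.off _ (s t).2 _ m.2 fun h1 => h1.2 (hm2 _ (s t).2 h1.1).symm
      · exact hcl t a ha

end Pool.Agent.Lib.MP_d48993_lc.Bound
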