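import Pool.Agent.Lib.MP_d48993_lc.AE.Bound.Fdec
import Pool.Agent.Lib.MP_d48993_lc.AE.Bound.Lbfull
import Pool.Agent.Lib.MP_d48993_lc.AE.Bound.Mainf
import Pool.Agent.Lib.MP_d48993_lc.AE.Bound.Ucr
import Pool.Agent.Lib.MP_d48993_lc.AE.Dec
import Pool.Agent.Lib.MP_d48993_lc.AE.Fin
import Pool.Agent.Lib.MP_d48993_lc.AE.Frame
import Pool.Agent.Lib.MP_d48993_lc.AE.Syn
import Pool.Agent.Lib.MP_d48993_lc.AE.Top

/-!
# Project AE (MP_d48993): everything except the realisation of the finite UC frames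
-/

set_option autoImplicit false

namespace Pool.Agent.Lib.MP_d48993_lc.Bound

/-- Decidability from realisation, without further hypotheses. -/
theorem mainf' : MainfStatement := mainf AE.fin AE.syn (fdec (AE.dec AE.syn AE.fin)) lb

/-- If the finite UC frames are realised, both theories are decidable. -/
theorem decidable_of_realisedU
    (hC : ∀ (B : Set (ℕ → ℕ)) (up : PwCantor → Set (ℕ → ℕ)), IsFrame PwCantor B up →
      B.Nonempty → Bin B → (∀ G, IsGeneric G → G ∉ Up B) → (fun _ : ℕ => 0) ∉ Up B →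
      ∀ (P : Type) [Finite P] [PartialOrder P] (U : P → Set P), UCF P U →
        RealisedU PwCantor B up P U)
    (hB : ∀ up : PwBaire → Set (ℕ → ℕ), IsFrame PwBaire ∅ up → (∀ a, (up a).Nonempty) →
      ∀ (S : Type) [Finite S] [Nonempty S] [PartialOrder S] (U : S → Set S), UCF S U →
        RealisedU PwBaire ∅ up (WithTop S) (UTop U)) :
    (∃ f : ℕ × ℕ → Bool, Computable f ∧
      ∀ n φ, f (n, QF.code φ) = true ↔ AETrue PwCantor n φ) ∧
    ∃ f : ℕ × ℕ → Bool, Computable f ∧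
      ∀ n φ, f (n, QF.code φ) = true ↔ AETrue PwBaire n φ := by
  obtain ⟨⟨B, up, h1, h2, h3, h4, h5⟩, -⟩ := AE.frame AE.top
  obtain ⟨hM1, hM2⟩ := mainf'
  refine ⟨hM1 B up h1 h5 (ucr h1 h2 fun P _ _ U hU => hC B up h1 h2 h3 h4 h5 P U hU), ?_⟩
  have h6 : IsFrame PwBaire ∅ AE.Frame.upB := AE.Frame.frameB cls
  have h7 : ∀ a, (AE.Frame.upB a).Nonempty := fun a => by
    obtain ⟨h8, -⟩ := (cls.1 _).1 (ofAntisymmetrization (· ≤ ·) a).2
    exact ⟨h8.some, h8.some, h8.some_mem, Red.rfl⟩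
  have h8 : (fun _ : ℕ => 0) ∉ Up (∅ : Set (ℕ → ℕ)) := by
    rintro ⟨f, hf, -⟩
    exact hf
  exact hM2 _ h6 h7 (ucr_top h6 h8 fun S _ _ _ U hU => hB _ h6 h7 S U hU)

end Pool.Agent.Lib.MP_d48993_lc.Bound
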