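import Pool.Agent.Lib.MP_d48993_lc.AE.Bound.Interfaces

/-!
# MP_d48993, board LB, module BELOW (helper5)

The closure operator of `t` does not leave `t`: finding 3854 (2) (d).
-/

set_option autoImplicit false

namespace Pool.Agent.Lib.MP_d48993_lc.Bound

open MP_8c048d_lc (pre join RecF Sig Pih Clo Cop Del)
open H84 (KK P2)

/-- Module BELOW. -/
theorem below (hG : GhideStatement) (hT : TreecStatement) (hD : DelzStatement) :
    BelowStatement := by
  intro B Z t x hB hZ hadm ht hx hxt z hz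
  obtain ⟨-, -, -, hcls, -, -, -, htriv, -⟩ := hT B hB
  by_contra hzt
  have hzC : IsC B z := hz.1
  obtain ⟨hBz, hup, ⟨c, hc, hc0, hcz⟩, -⟩ := hcls z hzC
  have hzx : z ∉ x := fun h => hzt (hxt h)
  obtain ⟨X', hX'B, hX'x, hX'z⟩ := hx.repr z hzC hzx
  obtain ⟨dd, hdd, h1, h2⟩ := hG (fun _ => true) c H30.btree_true hc hc0
  obtain ⟨hK, hKt⟩ := hD.2.2.2.2.2 B Z t dd hadm hdd
  have hX' : X' ∉ Up (Hm (fun _ => true) c) := fun h => hX'z (hcz ▸ htriv c X' hc h)
  refine hZ ?_
  have hiff : (fun e : ℕ => ∃ G, G ∈ KK e 0) = fun e : ℕ => Up (P2 dd e) ∪ Up B ∈ t := by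
    funext e
    apply propext
    constructor
    · intro he
      obtain ⟨F, hF, hred, hFc⟩ := h2 e X' he hX'
      rw [hcz] at hFc
      have hFB : F ∉ Up B := fun h => hFc (hBz h)
      have hxF : x ⊆ Fl B F := fun U hU =>
        ⟨(hX'x hU).1, (hcls U (hX'x hU).1).2.1 X' F (hX'x hU).2 hred⟩
      have hFt : Fl B F ⊆ t := by
        by_contra h
        exact hFc (hz.2 F hFB hxF h)
      exact hFt ⟨hK e, Or.inl ⟨F, hF, Red.rfl⟩⟩
    · intro he
      by_contra hne
      apply hzt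
      refine ht.up _ he z hzC ?_
      rintro Y (⟨F, hF, hred⟩ | hY)
      · rcases h1 e F hF with h | ⟨-, h⟩
        · exact absurd h hne
        · rw [hcz] at h
          exact hup F Y h hred
      · exact hBz hY
  rw [hiff]
  exact hKt

end Pool.Agent.Lib.MP_d48993_lc.Bound
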