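import Pool.Agent.Lib.MP_d48993_lc.AE.Bound.Interfaces

/-!
# Module GHIDE (helper88): guided hiding, from `H30.hide_pay`
-/

set_option autoImplicit false

namespace Pool.Agent.Lib.MP_d48993_lc.Bound

open MP_8c048d_lc (pre join RecF Sig Pih Clo Cop Del join_even join_odd)
open H84 (KK KK_clo P2 up_trans up_self tl2 cons2)
open H30 (HomC BTree Fam tr hide_pay)
open Hide (ev od)

theorem ghide : GhideStatement := by
  classical
  intro b c hb hc hc0
  have hjoin := joinS
  have hred := red1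
  -- the constant families
  have hR : Fam (fun x : ℕ × List ℕ => b x.2) :=
    ⟨hb.comp.comp Computable.snd, fun _ σ τ h => hb.tree σ τ h⟩
  have hT : Fam (fun x : ℕ × List ℕ => c x.2) :=
    ⟨hc.comp.comp Computable.snd, fun _ σ τ h => hc.tree σ τ h⟩
  have htR : ∀ i, tr (fun x : ℕ × List ℕ => b x.2) i = fun s => b s = true := fun _ => rfl
  have htT : ∀ i, tr (fun x : ℕ × List ℕ => c x.2) i = fun s => c s = true := fun _ => rfl
  let Θ : (ℕ → ℕ) → Prop := fun Y => ∃ F, F ∈ KK (Y 0) 0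
  have hΘ : Sig (fun (_ : Unit) Y => Θ Y) := by
    have e2 : Sig (fun (_ : Unit) E => od E ∈ KK (ev E 0) 0) := by
      refine (Clo.del KK_clo).1.subst (P := fun (p : ℕ × ℕ) F => F ∈ KK p.1 p.2)
        (ψ := fun (_ : Unit) E => (ev E 0, 0)) ?_ (Ψ := fun (_ : Unit) E => od E)
        Hide.recF_od
      exact (RecF.at (f := fun _ : Unit => 0) (Computable.const 0)).pair
        (RecF.of_computable (Computable.const 0))
    have e3 := Sig.exF (P := fun (_ : Unit) E => od E ∈ KK (ev E 0) 0) e2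
    refine e3.congr fun a F => ?_
    simp only [Hide.od_join, Hide.ev_join]
    exact Iff.rfl
  obtain ⟨D, hD, hD1, hD2⟩ := hide_pay hR hT (fun _ => hc0) Θ hΘ
  let dd : ℕ × (ℕ × ℕ) → (ℕ → ℕ) → Bool := fun x F => D x.2 F && decide (F 0 = x.1)
  have hand : Computable (fun x : Bool × Bool => x.1 && x.2) :=
    (Primrec.and.to_comp).comp Computable.fst Computable.snd
  have heq : Computable (fun x : ℕ × ℕ => decide (x.1 = x.2)) :=
    (Primrec.eq (α := ℕ)).decide.to_comp
  have hdd : RecF dd := by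
    have e1 : RecF (fun (x : ℕ × (ℕ × ℕ)) F => D x.2 F) := hD.comp₁ Computable.snd
    have e2 : RecF (fun (x : ℕ × (ℕ × ℕ)) F => decide (F 0 = x.1)) :=
      RecF.comp (g := fun x : ℕ × ℕ => decide (x.1 = x.2)) heq
        ((RecF.at (f := fun _ : ℕ × (ℕ × ℕ) => 0) (Computable.const 0)).pair
          (RecF.of_computable Computable.fst))
    exact RecF.comp (g := fun x : Bool × Bool => x.1 && x.2) hand (e1.pair e2)
  have hmem : ∀ (e : ℕ) (F : ℕ → ℕ), F ∈ P2 dd e ↔
      (∀ n, ∃ m, D (n, m) F = true) ∧ F 0 = e := by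
    intro e F
    constructor
    · intro h
      have h' : ∀ n, ∃ m, D (n, m) F = true ∧ F 0 = e := by
        intro n
        obtain ⟨m, hm⟩ := h n
        have hm' : (D (n, m) F && decide (F 0 = e)) = true := hm
        simp only [Bool.and_eq_true, decide_eq_true_eq] at hm'
        exact ⟨m, hm'⟩
      refine ⟨fun n => ?_, ?_⟩
      · obtain ⟨m, hm, -⟩ := h' n
        exact ⟨m, hm⟩
      · obtain ⟨m, -, hm⟩ := h' 0
        exact hm
    · rintro ⟨h, h0⟩ n
      obtain ⟨m, hm⟩ := h n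
      refine ⟨m, ?_⟩
      show (D (n, m) F && decide (F 0 = e)) = true
      simp [hm, h0]
  refine ⟨dd, hdd, ?_, ?_⟩
  · intro e F hF
    obtain ⟨h1, h2⟩ := (hmem e F).1 hF
    rcases hD2 F h1 with ⟨i, h3, h4⟩ | ⟨G, h5⟩
    · exact Or.inr ⟨h3, h4⟩
    · have e0 : ev F 0 = F 0 := rfl
      rw [e0, h2] at h5
      exact Or.inl ⟨G, h5⟩
  · rintro e X ⟨G, hG⟩ hX
    have hYΘ : Θ (cons2 e 0 X) := by
      refine ⟨G, ?_⟩
      rw [H84.cons2_zero]
      exact hG
    have hrc : Red (cons2 e 0 X) X := by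
      refine hred (fun n F => cons2 e 0 F n) ?_ X
      have c0 : Computable (fun n : ℕ => decide (n = 0)) :=
        (PrimrecRel.comp (Primrec.eq (α := ℕ)) Primrec.id (Primrec.const 0)).decide.to_comp
      have c1 : Computable (fun n : ℕ => decide (n = 1)) :=
        (PrimrecRel.comp (Primrec.eq (α := ℕ)) Primrec.id (Primrec.const 1)).decide.to_comp
      have r := RecF.cond (c := fun (n : ℕ) (_ : ℕ → ℕ) => decide (n = 0))
        (RecF.of_computable c0)
        (φ := fun (_ : ℕ) (_ : ℕ → ℕ) => e) (RecF.of_computable (Computable.const e))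
        (RecF.cond (c := fun (n : ℕ) (_ : ℕ → ℕ) => decide (n = 1)) (RecF.of_computable c1)
          (φ := fun (_ : ℕ) (_ : ℕ → ℕ) => 0) (RecF.of_computable (Computable.const 0))
          (ψ := fun (n : ℕ) (F : ℕ → ℕ) => F (n - 2))
          (RecF.at (Primrec.nat_sub.comp Primrec.id (Primrec.const 2)).to_comp))
      refine r.congr fun n F => ?_
      unfold cons2
      by_cases h0 : n = 0
      · simp [h0]
      · by_cases h1 : n = 1
        · simp [h1]
        · simp [h0, h1]
    obtain ⟨Z, hZ1, hZ2⟩ := hD1 _ hYΘ fun i h => hX (up_trans h hrc)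
    refine ⟨join (cons2 e 0 X) Z, (hmem e _).2 ⟨hZ1, ?_⟩, ?_, hZ2 0⟩
    · show join (cons2 e 0 X) Z (2 * 0) = e
      rw [MP_8c048d_lc.join_even]; rfl
    · have h1 : Red (cons2 e 0 X) (join (cons2 e 0 X) Z) := hjoin.1 _ _
      have h2 := H84.red_tl2 hred (cons2 e 0 X)
      rw [H84.tl2_cons2] at h2
      exact h2.trans h1

end Pool.Agent.Lib.MP_d48993_lc.Bound
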