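import Mathlib

/-!
# Small model theorem for frames (MP_d48993, finding 3854 (1))

A frame over a finite partial order `Q` is a partial order `P` with a monotone map `lam` to `Q`
and commuting closure operators `π t`, `t : P`, which move only points below `t`, and keep them
below `t`.  Every frame has a finite quotient, of bounded size, with the same blocked pairs.
-/

set_option autoImplicit false
set_option linter.unusedSectionVars false

namespace Pool.Agent.Lib.MP_d48993_lc.Bound

/-- A frame over `Q`. -/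
structure IsFr {Q P : Type} [PartialOrder Q] [PartialOrder P] (lam : P → Q) (π : P → P → P) :
    Prop where
  lamMono : ∀ x y, x ≤ y → lam x ≤ lam y
  mono : ∀ t x y, x ≤ y → π t x ≤ π t y
  infl : ∀ t x, x ≤ π t x
  idem : ∀ t x, π t (π t x) = π t x
  comm : ∀ s t x, π s (π t x) = π t (π s x)
  off : ∀ t x, ¬ x < t → π t x = x
  below : ∀ t x, x < t → π t x ≤ t

/-- The bound. -/
def F : ℕ → ℕ
  | 0 => 0
  | k + 1 => F k + (2 * 2 ^ F k) ^ (2 ^ F k)

theorem F_mono : Monotone F := monotone_nat_of_le_succ fun _ => Nat.le_add_right _ _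

namespace Smt

/-- The product of the operators of a list. -/
def Pi {P : Type} (π : P → P → P) (L : List P) (x : P) : P := L.foldr (fun t y => π t y) x

section

variable {P : Type} {π : P → P → P}

@[simp] theorem Pi_nil (x : P) : Pi π [] x = x := rfl

@[simp] theorem Pi_cons (t : P) (L : List P) (x : P) : Pi π (t :: L) x = π t (Pi π L x) := rfl

theorem Pi_append (L L' : List P) (x : P) : Pi π (L ++ L') x = Pi π L (Pi π L' x) := by
  induction L with
  | nil => rfl
  | cons t L ih => simp [ih]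

end

variable {Q P : Type} [PartialOrder Q] [PartialOrder P] {lam : P → Q} {π : P → P → P}

theorem Pi_mono (h : IsFr lam π) (L : List P) {x y : P} (hxy : x ≤ y) :
    Pi π L x ≤ Pi π L y := by
  induction L with
  | nil => exact hxy
  | cons t L ih => exact h.mono _ _ _ ih

theorem Pi_infl (h : IsFr lam π) (L : List P) (x : P) : x ≤ Pi π L x := by
  induction L with
  | nil => exact le_refl _
  | cons t L ih => exact ih.trans (h.infl _ _)

theorem Pi_comm1 (h : IsFr lam π) (t : P) (L : List P) (x : P) :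
    Pi π L (π t x) = π t (Pi π L x) := by
  induction L with
  | nil => rfl
  | cons s L ih => rw [Pi_cons, Pi_cons, ih, h.comm]

theorem Pi_comm (h : IsFr lam π) (L L' : List P) (x : P) :
    Pi π L (Pi π L' x) = Pi π L' (Pi π L x) := by
  induction L' with
  | nil => rfl
  | cons s L' ih => rw [Pi_cons, Pi_cons, Pi_comm1 h, ih]

theorem Pi_absorb1 (h : IsFr lam π) {t : P} {L : List P} (ht : t ∈ L) (x : P) :
    π t (Pi π L x) = Pi π L x := by
  induction L with
  | nil => exact absurd ht (by simp)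
  | cons s L ih =>
    rcases List.mem_cons.1 ht with rfl | h1
    · rw [Pi_cons, h.idem]
    · rw [Pi_cons, h.comm, ih h1]

theorem Pi_absorb (h : IsFr lam π) {L L' : List P} (hs : ∀ t ∈ L', t ∈ L) (x : P) :
    Pi π L' (Pi π L x) = Pi π L x := by
  induction L' with
  | nil => rfl
  | cons s L' ih =>
    rw [Pi_cons, ih fun t ht => hs t (List.mem_cons_of_mem _ ht),
      Pi_absorb1 h (hs s List.mem_cons_self)]

theorem Pi_congr (h : IsFr lam π) {L L' : List P} (hs : ∀ t, t ∈ L ↔ t ∈ L') (x : P) :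
    Pi π L x = Pi π L' x := by
  rw [← Pi_absorb h (fun t ht => (hs t).2 ht) x, Pi_comm h,
    Pi_absorb h (fun t ht => (hs t).1 ht) x]

/-- The situation when the fibres over the upward closed set `U` have been treated. -/
structure Stage (lam : P → Q) (π : P → P → P) (U : Finset Q) (T : Finset P)
    (R : P → P → Prop) : Prop where
  mem : ∀ t ∈ T, lam t ∈ U
  dom : ∀ x y, R x y → lam x ∈ U ∧ lam y ∈ U
  ofle : ∀ x y, lam x ∈ U → x ≤ y → R x y
  trans : ∀ x y z, R x y → R y z → R x z
  mono : ∀ x y, R x y → lam x ≤ lam y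
  inv : ∀ t ∈ T, ∀ x y, R x y → R (π t x) (π t y)
  rep : ∀ x, lam x ∈ U → ∃ t ∈ T, R x t ∧ R t x
  uniq : ∀ t ∈ T, ∀ t' ∈ T, R t t' → R t' t → t = t'
  nonred : ∀ t ∈ T, ∀ t' ∈ T, R (π t' t) t → π t' t = t
  card : T.card ≤ F U.card

section Step

variable (h : IsFr lam π) {U : Finset Q} {T : Finset P} {R : P → P → Prop}
  (hup : ∀ q ∈ U, ∀ q', q ≤ q' → q' ∈ U) (S : Stage lam π U T R) {l : Q} (hl : l ∉ U)
  (hup' : ∀ q', l < q' → q' ∈ U)

/-- `v` is above `u`, through an element over `U`. -/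
def Ab (lam : P → Q) (U : Finset Q) (R : P → P → Prop) (u v : P) : Prop :=
  ∃ r, lam r ∈ U ∧ u ≤ r ∧ R r v

/-- The label belongs to `U` or is `l`. -/
def Dm (lam : P → Q) (U : Finset Q) (l : Q) (x : P) : Prop := lam x = l ∨ lam x ∈ U

/-- The new preorder. -/
def R' (lam : P → Q) (π : P → P → P) (U : Finset Q) (T : Finset P) (R : P → P → Prop) (l : Q)
    (x y : P) : Prop :=
  Dm lam U l x ∧ Dm lam U l y ∧ ∀ L : List P, (∀ t ∈ L, t ∈ T) →
    (lam (Pi π L y) = l → lam (Pi π L x) = l) ∧
    ∀ v, Ab lam U R (Pi π L y) v → Ab lam U R (Pi π L x) v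

include h hup hup' in
theorem Dm.up {x y : P} (hx : Dm lam U l x) (hxy : x ≤ y) : Dm lam U l y := by
  have h1 := h.lamMono _ _ hxy
  rcases hx with hx | hx
  · rw [hx] at h1
    rcases h1.eq_or_lt with h2 | h2
    · exact Or.inl h2.symm
    · exact Or.inr (hup' _ h2)
  · exact Or.inr (hup _ hx _ h1)

include h hup hup' hl in
theorem Dm.down {x y : P} (hx : Dm lam U l x) (hxy : x ≤ y) (hy : lam y = l) : lam x = l := by
  rcases hx with hx | hx
  · exact hx
  · exact absurd (hup _ hx _ ((h.lamMono _ _ hxy).trans_eq hy)) hl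

theorem R'_trans {x y z : P} (h1 : R' lam π U T R l x y) (h2 : R' lam π U T R l y z) :
    R' lam π U T R l x z :=
  ⟨h1.1, h2.2.1, fun L hL => ⟨fun h3 => (h1.2.2 L hL).1 ((h2.2.2 L hL).1 h3),
    fun v hv => (h1.2.2 L hL).2 v ((h2.2.2 L hL).2 v hv)⟩⟩

include h hup hup' hl in
theorem R'_ofle {x y : P} (hx : Dm lam U l x) (hxy : x ≤ y) : R' lam π U T R l x y := by
  refine ⟨hx, hx.up h hup hup' hxy, fun L _ => ⟨fun h1 => ?_, ?_⟩⟩
  · exact (hx.up h hup hup' (Pi_infl h L x)).down h hup hl hup' (Pi_mono h L hxy) h1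
  · rintro v ⟨r, h1, h2, h3⟩
    exact ⟨r, h1, (Pi_mono h L hxy).trans h2, h3⟩

include S in
theorem Ab_iff {x v : P} (hx : lam x ∈ U) : Ab lam U R x v ↔ R x v := by
  constructor
  · rintro ⟨r, _, h2, h3⟩
    exact S.trans _ _ _ (S.ofle _ _ hx h2) h3
  · intro h1
    exact ⟨x, hx, le_refl _, h1⟩

include S in
theorem inv_Pi {L : List P} (hL : ∀ t ∈ L, t ∈ T) {x y : P} (hxy : R x y) :
    R (Pi π L x) (Pi π L y) := by
  induction L with
  | nil => exact hxy
  | cons t L ih =>
    exact S.inv t (hL t List.mem_cons_self) _ _ (ih fun t ht => hL t (List.mem_cons_of_mem _ ht))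

include h hup S hl in
theorem R'_iff {x y : P} (hx : lam x ∈ U) (hy : lam y ∈ U) :
    R' lam π U T R l x y ↔ R x y := by
  constructor
  · rintro ⟨_, _, h1⟩
    obtain ⟨r, _, h3, h4⟩ := (h1 [] (by simp)).2 y ⟨y, hy, le_refl _, S.ofle _ _ hy (le_refl _)⟩
    exact S.trans _ _ _ (S.ofle _ _ hx h3) h4
  · intro h1
    refine ⟨Or.inr hx, Or.inr hy, fun L hL => ?_⟩
    have hx' : lam (Pi π L x) ∈ U := hup _ hx _ (h.lamMono _ _ (Pi_infl h L x))
    have hy' : lam (Pi π L y) ∈ U := hup _ hy _ (h.lamMono _ _ (Pi_infl h L y))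
    refine ⟨fun h2 => absurd (h2 ▸ hy') hl, fun v hv => ?_⟩
    rw [Ab_iff S hy'] at hv
    rw [Ab_iff S hx']
    exact S.trans _ _ _ (inv_Pi S hL h1) hv

include S in
theorem R'_mono {x y : P} (h1 : R' lam π U T R l x y) (h : IsFr lam π) : lam x ≤ lam y := by
  rcases h1.2.1 with hy | hy
  · exact ((h1.2.2 [] (by simp)).1 hy).trans hy.symm |>.le
  · obtain ⟨r, _, h3, h4⟩ :=
      (h1.2.2 [] (by simp)).2 y ⟨y, hy, le_refl _, S.ofle _ _ hy (le_refl _)⟩
    exact (h.lamMono _ _ h3).trans (S.mono _ _ h4)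

include h hup hup' in
theorem R'_inv {t : P} (ht : t ∈ T) {x y : P} (h1 : R' lam π U T R l x y) :
    R' lam π U T R l (π t x) (π t y) := by
  refine ⟨h1.1.up h hup hup' (h.infl _ _), h1.2.1.up h hup hup' (h.infl _ _), fun L hL => ?_⟩
  have e : ∀ z, Pi π L (π t z) = Pi π (L ++ [t]) z := fun z => by rw [Pi_append]; rfl
  rw [e, e]
  refine h1.2.2 _ fun s hs => ?_
  rcases List.mem_append.1 hs with h2 | h2
  · exact hL s h2
  · rw [List.mem_singleton.1 h2]; exact ht

/-- elements over `U` are not moved by elements over `l` -/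
theorem off_fibre (h : IsFr lam π) (hup : ∀ q ∈ U, ∀ q', q ≤ q' → q' ∈ U) (hl : l ∉ U) {r b : P}
    (hb : lam b = l) (hr : lam r ∈ U) : π b r = r :=
  h.off _ _ fun h1 => hl (hup _ hr _ ((h.lamMono _ _ h1.le).trans_eq hb))

include h hup hup' hl in
/-- In-fibre moves are invisible. -/
theorem infib {b x : P} (hb : lam b = l) (hx : Dm lam U l x) :
    R' lam π U T R l (π b x) x := by
  have hx' : Dm lam U l (π b x) := hx.up h hup hup' (h.infl _ _)
  refine ⟨hx', hx, fun L _ => ?_⟩
  rw [Pi_comm1 h]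
  constructor
  · intro h1
    by_cases h2 : Pi π L x < b
    · have h3 := h.lamMono _ _ (h.below _ _ h2)
      refine ((hx.up h hup hup' (Pi_infl h L x)).up h hup hup' (h.infl b _)).down h hup hl hup'
        (h.below _ _ h2) hb
    · rw [h.off _ _ h2]; exact h1
  · rintro v ⟨r, h1, h2, h3⟩
    refine ⟨r, h1, ?_, h3⟩
    rw [← off_fibre h hup hl hb h1]
    exact h.mono _ _ _ h2

include h hup hup' hl in
theorem R'_inv_fib {b x y : P} (hb : lam b = l) (h1 : R' lam π U T R l x y) :
    R' lam π U T R l (π b x) (π b y) :=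
  R'_trans (infib h hup hl hup' hb h1.1)
    (R'_trans h1 (R'_ofle h hup hl hup' h1.2.1 (h.infl _ _)))

/-- Not moved by `T`, except to another class. -/
def Nonred (lam : P → Q) (π : P → P → P) (U : Finset Q) (T : Finset P) (R : P → P → Prop) (l : Q)
    (x : P) : Prop :=
  ∀ t ∈ T, R' lam π U T R l (π t x) x → π t x = x

include h hup hup' hl in
theorem exists_nonred {x : P} (hx : lam x = l) :
    ∃ y, lam y = l ∧ R' lam π U T R l y x ∧ x ≤ y ∧ Nonred lam π U T R l y := by
  classical
  have hxD : Dm lam U l x := Or.inl hx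
  set D : List P := (T.filter fun t => R' lam π U T R l (π t x) x).toList with hD
  have hD1 : ∀ t, t ∈ D ↔ t ∈ T ∧ R' lam π U T R l (π t x) x := by
    intro t
    rw [hD, Finset.mem_toList, Finset.mem_filter]
  have h1 : ∀ L : List P, (∀ t ∈ L, t ∈ T ∧ R' lam π U T R l (π t x) x) →
      R' lam π U T R l (Pi π L x) x := by
    intro L
    induction L with
    | nil => intro _; exact R'_ofle h hup hl hup' hxD (le_refl _)
    | cons t L ih =>
      intro hL
      have h2 := hL t List.mem_cons_self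
      exact R'_trans (R'_inv h hup hup' h2.1
        (ih fun t ht => hL t (List.mem_cons_of_mem _ ht))) h2.2
  have h2 := h1 D fun t ht => (hD1 t).1 ht
  refine ⟨Pi π D x, ?_, h2, Pi_infl h _ _, ?_⟩
  · exact (h2.2.2 [] (by simp)).1 hx
  · intro t ht h3
    refine Pi_absorb1 h ((hD1 t).2 ⟨ht, ?_⟩) x
    exact R'_trans (R'_ofle h hup hl hup' (hxD.up h hup hup' (h.infl _ _))
      (h.mono t _ _ (Pi_infl h D x))) (R'_trans h3 h2)

include h hup hup' hl in
theorem close_nonred {y : P} (hy : lam y = l) (hn : Nonred lam π U T R l y) {B : List P}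
    (hB : ∀ b ∈ B, lam b = l) :
    lam (Pi π B y) = l ∧ R' lam π U T R l (Pi π B y) y ∧ Nonred lam π U T R l (Pi π B y) := by
  have hyD : Dm lam U l y := Or.inl hy
  have h1 : R' lam π U T R l (Pi π B y) y := by
    induction B with
    | nil => exact R'_ofle h hup hl hup' hyD (le_refl _)
    | cons b B ih =>
      refine R'_trans (infib h hup hl hup' (hB b List.mem_cons_self)
        (hyD.up h hup hup' (Pi_infl h _ _))) (ih fun t ht => hB t (List.mem_cons_of_mem _ ht))
  refine ⟨(h1.2.2 [] (by simp)).1 hy, h1, fun t ht h2 => ?_⟩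
  have h3 : π t y = y := by
    refine hn t ht (R'_trans (R'_ofle h hup hl hup' (hyD.up h hup hup' (h.infl _ _))
      (h.mono t _ _ (Pi_infl h B y))) (R'_trans h2 h1))
  rw [← Pi_comm1 h, h3]

open Classical in
/-- The class of an element of the fibre. -/
noncomputable def cl (lam : P → Q) (π : P → P → P) (U : Finset Q) (T : Finset P)
    (R : P → P → Prop) (l : Q) (x : P) : Finset T → Bool × Finset T :=
  fun G => (decide (lam (Pi π (G.toList.map Subtype.val) x) = l),
    Finset.univ.filter fun v : T => Ab lam U R (Pi π (G.toList.map Subtype.val) x) v.1)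

include h S in
theorem cl_le {x y : P} (hx : lam x = l) (hy : lam y = l) :
    cl lam π U T R l y ≤ cl lam π U T R l x ↔ R' lam π U T R l x y := by
  classical
  constructor
  · intro h1
    refine ⟨Or.inl hx, Or.inl hy, fun L hL => ?_⟩
    set G : Finset T := Finset.univ.filter fun t : T => t.1 ∈ L with hG
    have h2 : ∀ t, t ∈ G.toList.map Subtype.val ↔ t ∈ L := by
      intro t
      rw [List.mem_map]
      constructor
      · rintro ⟨s, h3, rfl⟩
        rw [Finset.mem_toList, hG, Finset.mem_filter] at h3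
        exact h3.2
      · intro h3
        exact ⟨⟨t, hL t h3⟩, by rw [Finset.mem_toList, hG, Finset.mem_filter]
                                exact ⟨Finset.mem_univ _, h3⟩, rfl⟩
    have h3 := h1 G
    rw [Prod.le_def] at h3
    simp only [cl] at h3
    rw [Pi_congr h h2, Pi_congr h h2] at h3
    refine ⟨fun h4 => ?_, ?_⟩
    · have h5 := h3.1
      rw [decide_eq_true h4] at h5
      exact of_decide_eq_true (Bool.eq_true_of_true_le h5)
    · rintro v hv
      obtain ⟨r, h4, h5, h6⟩ := hv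
      obtain ⟨t, ht, h7, h8⟩ := S.rep v (S.dom _ _ h6).2
      have h9 := h3.2 (Finset.mem_filter.2 ⟨Finset.mem_univ (⟨t, ht⟩ : T), ⟨r, h4, h5,
        S.trans _ _ _ h6 h7⟩⟩)
      obtain ⟨r', h10, h11, h12⟩ := (Finset.mem_filter.1 h9).2
      exact ⟨r', h10, h11, S.trans _ _ _ h12 h8⟩
  · intro h1 G
    have h2 := h1.2.2 (G.toList.map Subtype.val) (by
      intro t ht
      obtain ⟨s, _, rfl⟩ := List.mem_map.1 ht
      exact s.2)
    rw [Prod.le_def]
    refine ⟨?_, ?_⟩
    · show decide _ ≤ decide _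
      by_cases h3 : lam (Pi π (G.toList.map Subtype.val) y) = l
      · rw [decide_eq_true h3, decide_eq_true (h2.1 h3)]
      · rw [decide_eq_false h3]
        exact Bool.false_le _
    · intro v hv
      exact Finset.mem_filter.2 ⟨Finset.mem_univ _, h2.2 _ (Finset.mem_filter.1 hv).2⟩

include h hup hup' hl S in
/-- The choice of the representatives. -/
theorem choice [Nonempty P] (k : ℕ) : ∀ G : Finset (Finset T → Bool × Finset T), G.card = k →
    (∀ g ∈ G, ∃ x, lam x = l ∧ cl lam π U T R l x = g) →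
    ∃ τ : (Finset T → Bool × Finset T) → P, ∀ g ∈ G, lam (τ g) = l ∧
      cl lam π U T R l (τ g) = g ∧ Nonred lam π U T R l (τ g) ∧ ∀ g' ∈ G, π (τ g') (τ g) = τ g := by
  classical
  induction k with
  | zero =>
    intro G hG _
    rw [Finset.card_eq_zero] at hG
    subst hG
    exact ⟨fun _ => Classical.arbitrary P, by simp⟩
  | succ k ih =>
    intro G hG hx
    have hne : G.Nonempty := by
      rw [← Finset.card_pos]; omega
    obtain ⟨g, hgm⟩ := G.exists_maximal hne
    have hg : g ∈ G := hgm.prop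
    obtain ⟨x, hxl, hxg⟩ := hx g hg
    obtain ⟨τ, hτ⟩ := ih (G.erase g) (by rw [Finset.card_erase_of_mem hg, hG]; rfl)
      fun g' hg' => hx g' (Finset.mem_of_mem_erase hg')
    obtain ⟨y, hyl, hyx, hxy, hyn⟩ := exists_nonred h hup hl hup' (R := R) (T := T) hxl
    set B : List P := (G.erase g).toList.map τ with hB
    have hBm : ∀ g' ∈ G, g' ≠ g → τ g' ∈ B := fun g' h1 h2 => by
      rw [hB, List.mem_map]
      exact ⟨g', Finset.mem_toList.2 (Finset.mem_erase.2 ⟨h2, h1⟩), rfl⟩
    have hBl : ∀ b ∈ B, lam b = l := by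
      intro b hb
      rw [hB, List.mem_map] at hb
      obtain ⟨g', h1, rfl⟩ := hb
      exact (hτ g' (Finset.mem_toList.1 h1)).1
    obtain ⟨hzl, hzy, hzn⟩ := close_nonred h hup hl hup' hyl hyn hBl
    set z := Pi π B y with hz
    have hcl : cl lam π U T R l z = g := by
      rw [← hxg]
      refine le_antisymm ?_ ?_
      · exact (cl_le h S hxl hzl).2 (R'_ofle h hup hl hup' (Or.inl hxl)
          (hxy.trans (Pi_infl h _ _)))
      · exact (cl_le h S hzl hxl).2 (R'_trans hzy hyx)
    refine ⟨Function.update τ g z, fun g₁ hg₁ => ?_⟩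
    by_cases e₁ : g₁ = g
    · subst e₁
      rw [Function.update_self]
      refine ⟨hzl, hcl, hzn, fun g₂ hg₂ => ?_⟩
      by_cases e₂ : g₂ = g₁
      · subst e₂
        rw [Function.update_self]
        exact h.off _ _ (lt_irrefl _)
      · rw [Function.update_of_ne e₂]
        exact Pi_absorb1 h (hBm g₂ hg₂ e₂) y
    · rw [Function.update_of_ne e₁]
      obtain ⟨h1, h2, h3, h4⟩ := hτ g₁ (Finset.mem_erase.2 ⟨e₁, hg₁⟩)
      refine ⟨h1, h2, h3, fun g₂ hg₂ => ?_⟩
      by_cases e₂ : g₂ = g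
      · subst e₂
        rw [Function.update_self]
        refine h.off _ _ fun h5 => e₁ ?_
        have h6 := (cl_le h S h1 hzl).2 (R'_ofle h hup hl hup' (Or.inl h1) h5.le)
        rw [h2, hcl] at h6
        exact le_antisymm (hgm.le_of_ge hg₁ h6) h6
      · rw [Function.update_of_ne e₂]
        exact h4 g₂ (Finset.mem_erase.2 ⟨e₂, hg₂⟩)

include h hup hup' hl S in
/-- One step. -/
theorem step [DecidableEq Q] : ∃ T' R₁, Stage lam π (insert l U) T' R₁ := by
  classical
  by_cases hP : Nonempty P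
  swap
  · refine ⟨∅, fun _ _ => False, ?_⟩
    have hE : ∀ x : P, False := fun x => hP ⟨x⟩
    exact ⟨fun t => (hE t).elim, fun x => (hE x).elim, fun x => (hE x).elim, fun x => (hE x).elim,
      fun x => (hE x).elim, fun x => (hE x).elim, fun x => (hE x).elim, fun x => (hE x).elim,
      fun x => (hE x).elim, by simp⟩
  have hD : ∀ x, Dm lam U l x ↔ lam x ∈ insert l U := fun x => by
    rw [Finset.mem_insert]; exact Iff.rfl
  set C : Finset (Finset T → Bool × Finset T) :=
    Finset.univ.filter fun g => ∃ x, lam x = l ∧ cl lam π U T R l x = g with hC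
  obtain ⟨τ, hτ⟩ := choice h hup S hl hup' C.card C rfl fun g hg => (Finset.mem_filter.1 hg).2
  have hT : ∀ t, t ∈ T ∪ C.image τ ↔ t ∈ T ∨ ∃ g ∈ C, τ g = t := fun t => by
    rw [Finset.mem_union, Finset.mem_image]
  have hUl : ∀ x, lam x ∈ U → lam x ≠ l := fun x hx e => hl (e ▸ hx)
  refine ⟨T ∪ C.image τ, R' lam π U T R l, ?_, ?_, ?_, ?_, ?_, ?_, ?_, ?_, ?_, ?_⟩
  · intro t ht
    rcases (hT t).1 ht with h1 | ⟨g, h1, rfl⟩
    · exact Finset.mem_insert_of_mem (S.mem t h1)
    · rw [(hτ g h1).1]; exact Finset.mem_insert_self _ _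
  · exact fun x y h1 => ⟨(hD x).1 h1.1, (hD y).1 h1.2.1⟩
  · exact fun x y h1 h2 => R'_ofle h hup hl hup' ((hD x).2 h1) h2
  · exact fun x y z h1 h2 => R'_trans h1 h2
  · exact fun x y h1 => R'_mono S h1 h
  · intro t ht x y h1
    rcases (hT t).1 ht with h2 | ⟨g, h2, rfl⟩
    · exact R'_inv h hup hup' h2 h1
    · exact R'_inv_fib h hup hl hup' (hτ g h2).1 h1
  · intro x hx
    rcases (hD x).2 hx with h1 | h1
    · have h2 : cl lam π U T R l x ∈ C := Finset.mem_filter.2 ⟨Finset.mem_univ _, x, h1, rfl⟩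
      obtain ⟨h3, h4, _, _⟩ := hτ _ h2
      refine ⟨τ (cl lam π U T R l x), (hT _).2 (Or.inr ⟨_, h2, rfl⟩), ?_, ?_⟩
      · exact (cl_le h S h1 h3).1 h4.le
      · exact (cl_le h S h3 h1).1 h4.ge
    · obtain ⟨t, h2, h3, h4⟩ := S.rep x h1
      refine ⟨t, (hT t).2 (Or.inl h2), ?_, ?_⟩
      · exact (R'_iff h hup S hl h1 (S.mem t h2)).2 h3
      · exact (R'_iff h hup S hl (S.mem t h2) h1).2 h4
  · intro t ht t' ht' h1 h2
    have e := le_antisymm (R'_mono S h1 h) (R'_mono S h2 h)
    rcases (hT t).1 ht with h3 | ⟨g, h3, rfl⟩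
    · rcases (hT t').1 ht' with h4 | ⟨g', h4, rfl⟩
      · exact S.uniq t h3 t' h4 ((R'_iff h hup S hl (S.mem t h3) (S.mem t' h4)).1 h1)
          ((R'_iff h hup S hl (S.mem t' h4) (S.mem t h3)).1 h2)
      · exact absurd (e.trans (hτ g' h4).1) (hUl _ (S.mem t h3))
    · rcases (hT t').1 ht' with h4 | ⟨g', h4, rfl⟩
      · exact absurd (e.symm.trans (hτ g h3).1) (hUl _ (S.mem t' h4))
      · have h5 := (cl_le h S (hτ g h3).1 (hτ g' h4).1).2 h1
        have h6 := (cl_le h S (hτ g' h4).1 (hτ g h3).1).2 h2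
        rw [(hτ g h3).2.1, (hτ g' h4).2.1] at h5 h6
        rw [le_antisymm h6 h5]
  · intro t ht t' ht' h1
    rcases (hT t).1 ht with h3 | ⟨g, h3, rfl⟩
    · rcases (hT t').1 ht' with h4 | ⟨g', h4, rfl⟩
      · refine S.nonred t h3 t' h4 ((R'_iff h hup S hl ?_ (S.mem t h3)).1 h1)
        exact hup _ (S.mem t h3) _ (h.lamMono _ _ (h.infl _ _))
      · exact off_fibre h hup hl (hτ g' h4).1 (S.mem t h3)
    · rcases (hT t').1 ht' with h4 | ⟨g', h4, rfl⟩
      · exact (hτ g h3).2.2.1 t' h4 h1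
      · exact (hτ g h3).2.2.2 g' h4
  · rw [Finset.card_insert_of_notMem hl]
    have h1 : C.card ≤ (2 * 2 ^ T.card) ^ (2 ^ T.card) := by
      refine (Finset.card_le_univ _).trans_eq ?_
      simp
    have h2 := S.card
    calc (T ∪ C.image τ).card ≤ T.card + (C.image τ).card := Finset.card_union_le _ _
      _ ≤ T.card + C.card := Nat.add_le_add_left Finset.card_image_le _
      _ ≤ F U.card + (2 * 2 ^ F U.card) ^ (2 ^ F U.card) := by
        refine Nat.add_le_add h2 (h1.trans ?_)
        have h3 : 2 ^ T.card ≤ 2 ^ F U.card := Nat.pow_le_pow_right (by norm_num) h2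
        exact (Nat.pow_le_pow_left (Nat.mul_le_mul_left 2 h3) _).trans
          (Nat.pow_le_pow_right (Nat.mul_pos (by norm_num) (Nat.pow_pos (by norm_num))) h3)
      _ = F (U.card + 1) := rfl

end Step

/-- All the fibres. -/
theorem all (h : IsFr lam π) [Fintype Q] [DecidableEq Q] : ∃ T R, Stage lam π Finset.univ T R := by
  classical
  -- upward closed sets, by the number of the missing labels
  have key : ∀ k : ℕ, k ≤ Fintype.card Q → ∃ U : Finset Q, U.card = k ∧
      (∀ q ∈ U, ∀ q', q ≤ q' → q' ∈ U) ∧ ∃ T R, Stage lam π U T R := by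
    intro k
    induction k with
    | zero =>
      intro _
      refine ⟨∅, rfl, by simp, ∅, fun _ _ => False, ?_⟩
      exact ⟨by simp, by simp, by simp, by simp, by simp, by simp, by simp, by simp, by simp,
        by simp⟩
    | succ k ih =>
      intro hk
      obtain ⟨U, hU, hup, T, R, S⟩ := ih (by omega)
      have hne : (Uᶜ).Nonempty := by
        rw [← Finset.card_pos, Finset.card_compl]; omega
      obtain ⟨l, hlm⟩ := (Uᶜ).exists_maximal hne
      have hl : l ∉ U := Finset.mem_compl.1 hlm.prop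
      have hup' : ∀ q', l < q' → q' ∈ U := by
        intro q' h1
        by_contra h2
        exact absurd (hlm.le_of_ge (Finset.mem_compl.2 h2) h1.le) (not_le_of_gt h1)
      refine ⟨insert l U, by rw [Finset.card_insert_of_notMem hl, hU], ?_,
        step h hup S hl hup'⟩
      intro q hq q' hqq
      rcases Finset.mem_insert.1 hq with rfl | h1
      · rcases hqq.eq_or_lt with rfl | h2
        · exact Finset.mem_insert_self _ _
        · exact Finset.mem_insert_of_mem (hup' _ h2)
      · exact Finset.mem_insert_of_mem (hup _ h1 _ hqq)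
  obtain ⟨U, hU, _, T, R, S⟩ := key _ le_rfl
  have e : U = Finset.univ := (Finset.card_eq_iff_eq_univ U).1 hU
  subst e
  exact ⟨T, R, S⟩

end Smt

end Pool.Agent.Lib.MP_d48993_lc.Bound
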