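import Pool.Agent.Lib.MP_d48993_lc.AE.Interfaces
import Pool.Agent.Lib.MP_d48993_lc.AE.Bound.Smt
import Pool.Agent.Lib.MP_d48993_lc.H30.NodeV
import Pool.Agent.Lib.MP_d48993_lc.H84.RecFam
import Pool.Agent.Lib.MP_d48993_lc.H84.Seq

/-!
# Project AE (MP_d48993), board LB: every embedding is dominated by a finite frame of bounded size

Findings 3854 (helper99) and 3862 (helper36).  A class is an upward closed set `Up S ∪ Up B` of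
reals, `S` closed.  A point is a prime ideal of classes.  `Pj B t x` is the least ideal above `x`
of a real which is not below `t`.  For base reals which are computable from one nice real `Z`
the points form a frame (`Bound.IsFr`), and every finite pattern with a free lift is realised.
-/

set_option autoImplicit false

namespace Pool.Agent.Lib.MP_d48993_lc.Bound

open MP_8c048d_lc (pre join RecF Sig Pih Clo Cop Del)
open H84 (KK P2)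
open H30 (HomC BTree)

/-- The paths of a tree with values in `Bool`. -/
def Pt (b : List ℕ → Bool) : Set (ℕ → ℕ) := paths (fun s => b s = true)

/-- The homomorphisms between two such trees. -/
def Hm (b c : List ℕ → Bool) : Set (ℕ → ℕ) := HomC (fun s => b s = true) (fun s => c s = true)

/-! ## Classes and ideals -/

/-- The classes. -/
def IsC (B U : Set (ℕ → ℕ)) : Prop := ∃ S, ClosedC S ∧ U = Up S ∪ Up B

/-- The ideal of a real (used for `Y ∉ Up B`). -/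
def Fl (B : Set (ℕ → ℕ)) (Y : ℕ → ℕ) : Set (Set (ℕ → ℕ)) := {U | IsC B U ∧ Y ∈ U}

/-- The intersection of the ideals of the reals above `X` which are below no ideal of `L`. -/
def UU (B : Set (ℕ → ℕ)) (X : ℕ → ℕ) (L : List (Set (Set (ℕ → ℕ)))) : Set (Set (ℕ → ℕ)) :=
  {U | IsC B U ∧ ∀ Y, Y ∉ Up B → Fl B X ⊆ Fl B Y → (∀ t ∈ L, ¬ Fl B Y ⊆ t) → Y ∈ U}

/-- The closure operator of `t`. -/
def Pj (B : Set (ℕ → ℕ)) (t x : Set (Set (ℕ → ℕ))) : Set (Set (ℕ → ℕ)) :=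
  {U | IsC B U ∧ ∀ Y, Y ∉ Up B → x ⊆ Fl B Y → ¬ Fl B Y ⊆ t → Y ∈ U}

/-- Prime ideals which are intersections of ideals of reals. -/
structure PI (B : Set (ℕ → ℕ)) (t : Set (Set (ℕ → ℕ))) : Prop where
  sub : ∀ U ∈ t, IsC B U
  up : ∀ U ∈ t, ∀ U', IsC B U' → U ⊆ U' → U' ∈ t
  inter : ∀ U ∈ t, ∀ U' ∈ t, U ∩ U' ∈ t
  prime : ∀ U U', IsC B U → IsC B U' → U ∪ U' ∈ t → U ∈ t ∨ U' ∈ t
  repr : ∀ U, IsC B U → U ∉ t → ∃ Y, Y ∉ Up B ∧ t ⊆ Fl B Y ∧ Y ∉ U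
  proper : Up B ∉ t

/-- The points: generated from the ideals of the reals of `N` by the closure operators. -/
inductive InP (B : Set (ℕ → ℕ)) (N : Set (ℕ → ℕ)) : Set (Set (ℕ → ℕ)) → Prop
  | base (X : ℕ → ℕ) (h : X ∈ N) : InP B N (Fl B X)
  | step (t x : Set (Set (ℕ → ℕ))) (ht : InP B N t) (hx : InP B N x) : InP B N (Pj B t x)

/-! ## Definability -/

/-- `R` is uniformly `Δ¹₁` in `Z`. -/
def DelZ (Z : ℕ → ℕ) {α : Type} [Primcodable α] (R : α → Prop) : Prop :=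
  ∃ Q : α → (ℕ → ℕ) → Prop, Del Q ∧ ∀ a, R a ↔ Q a Z

/-- Nonemptiness of closed classes is not `Δ¹₁` in `Z`. -/
def Nice (Z : ℕ → ℕ) : Prop := ¬ DelZ Z (fun e : ℕ => ∃ G, G ∈ KK e 0)

/-- The ideal `t` is definable from `Z`. -/
def Adm (B : Set (ℕ → ℕ)) (Z : ℕ → ℕ) (t : Set (Set (ℕ → ℕ))) : Prop :=
  DelZ Z (fun p : ℕ × ℕ => Up (KK p.1 p.2) ∪ Up B ∈ t)

/-- A column of `Z`. -/
def Colz (Z : ℕ → ℕ) (k : ℕ) : ℕ → ℕ := fun i => Z (Nat.pair k i)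

/-! ## Modules -/

/-- Module GANDY: every nonempty `Σ¹₁` class has a nice member. -/
def GandyStatement : Prop :=
  ∀ A : (ℕ → ℕ) → Prop, Sig (fun (_ : Unit) F => A F) → (∃ F, A F) → ∃ Z, A Z ∧ Nice Z

/-- Module UPI2 (from RED, KK_rec): uniform `Π⁰₂` classes are uniform closed classes, up to `Up`. -/
def Upi2Statement : Prop :=
  ∀ dd : ℕ × (ℕ × ℕ) → (ℕ → ℕ) → Bool, RecF dd → ∃ r, ∀ e, Up (KK r e) = Up (P2 dd e)

/-- Module GHIDE (from H30 `hide_pay`): guided hiding. -/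
def GhideStatement : Prop :=
  ∀ b c : List ℕ → Bool, BTree b → BTree c → c [] = true →
    ∃ dd : ℕ × (ℕ × ℕ) → (ℕ → ℕ) → Bool, RecF dd ∧
      (∀ e, ∀ F ∈ P2 dd e, (∃ G, G ∈ KK e 0) ∨ (F ∈ Up (Pt b) ∧ F ∈ Up (Pt c))) ∧
      ∀ e X, (∃ G, G ∈ KK e 0) → X ∉ Up (Hm b c) → ∃ F ∈ P2 dd e, Red X F ∧ F ∉ Up (Pt c)

/-- Module CURRY: homomorphisms from a product. -/
def CurryStatement : Prop :=
  ∀ b₁ b₂ c : List ℕ → Bool, BTree b₁ → BTree b₂ → BTree c → c [] = true →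
    ∃ p H : List ℕ → Bool, BTree p ∧ BTree H ∧ H [] = true ∧
      Up (Pt p) = Up (Pt b₁) ∩ Up (Pt b₂) ∧ Pt H = Hm b₂ c ∧
      ∀ X, X ∈ Up (Hm p c) → X ∈ Up (Hm b₁ H)

/-- Module ROOT: homomorphisms between sums, with an extra root. -/
def RootStatement : Prop :=
  ∀ b₁ b₂ c₁ c₂ : List ℕ → Bool, BTree b₁ → BTree b₂ → BTree c₁ → BTree c₂ →
    ∃ b c : List ℕ → Bool, BTree b ∧ BTree c ∧ c [] = true ∧
      Up (Pt b) = Up (Pt b₁) ∪ Up (Pt b₂) ∧ Up (Pt c) = Up (Pt c₁) ∪ Up (Pt c₂) ∧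
      ∀ X, X ∈ Up (Hm b c) → (X ∈ Up (Hm b₁ c₁) ∧ X ∈ Up (Hm b₂ c₁)) ∨
        (X ∈ Up (Hm b₁ c₂) ∧ X ∈ Up (Hm b₂ c₂))

/-- Module TREEC: classes are closed under `∩`, `∪`, contain `Up B`, are upward closed, and have
trees. -/
def TreecStatement : Prop :=
  ∀ B : Set (ℕ → ℕ), ClosedC B →
    IsC B (Up B) ∧ IsC B Set.univ ∧
    (∀ U U', IsC B U → IsC B U' → IsC B (U ∩ U') ∧ IsC B (U ∪ U')) ∧
    (∀ U, IsC B U → Up B ⊆ U ∧ (∀ X Y, X ∈ U → Red X Y → Y ∈ U) ∧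
      (∃ c, BTree c ∧ c [] = true ∧ Up (Pt c) = U) ∧ ∃ p : ℕ × ℕ, U = Up (KK p.1 p.2) ∪ Up B) ∧
    (∀ p : ℕ × ℕ, IsC B (Up (KK p.1 p.2) ∪ Up B)) ∧
    (∀ b c, BTree b → BTree c → IsC B (Up (Hm b c) ∪ Up B)) ∧
    (∀ b c Y, BTree c → Y ∈ Up (Hm b c) → Y ∈ Up (Pt b) → Y ∈ Up (Pt c)) ∧
    (∀ c Y, BTree c → Y ∈ Up (Hm (fun _ => true) c) → Y ∈ Up (Pt c)) ∧
    ∀ Y, Y ∉ Up B → PI B (Fl B Y)

/-- Module HOMD (from `up_del`): uniform trees, and uniform definability of `Hm`. -/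
def HomdStatement : Prop :=
  ∀ B : Set (ℕ → ℕ), ClosedC B → ∃ T : ℕ × ℕ → List ℕ → Bool,
    (∀ p, BTree (T p) ∧ T p [] = true ∧ Up (Pt (T p)) = Up (KK p.1 p.2) ∪ Up B) ∧
    Del (fun (q : (ℕ × ℕ) × (ℕ × ℕ)) X => X ∈ Up (Hm (T q.1) (T q.2)))

/-- Module DELZ: the calculus. -/
def DelzStatement : Prop :=
  (∀ (Z : ℕ → ℕ) (α : Type) [Primcodable α] (R R' : α → Prop), DelZ Z R → DelZ Z R' →
    DelZ Z (fun a => R a ∧ R' a) ∧ DelZ Z (fun a => R a ∨ R' a) ∧ DelZ Z (fun a => ¬ R a) ∧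
      DelZ Z (fun a => R a → R' a)) ∧
  (∀ (Z : ℕ → ℕ) (α : Type) [Primcodable α] (ι : Type) (L : List ι) (R : ι → α → Prop),
    (∀ i ∈ L, DelZ Z (R i)) →
      DelZ Z (fun a => ∀ i ∈ L, R i a) ∧ DelZ Z (fun a => ∃ i ∈ L, R i a)) ∧
  (∀ (Z : ℕ → ℕ) (α β : Type) [Primcodable α] [Primcodable β] (R : α × β → Prop), DelZ Z R →
    DelZ Z (fun a => ∀ b, R (a, b)) ∧ DelZ Z (fun a => ∃ b, R (a, b))) ∧
  (∀ (Z : ℕ → ℕ) (α β : Type) [Primcodable α] [Primcodable β] (R : β → Prop) (g : α → β),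
    Computable g → DelZ Z R → DelZ Z (fun a => R (g a))) ∧
  (∀ (Z : ℕ → ℕ) (α : Type) [Primcodable α] (Q : α → (ℕ → ℕ) → Prop) (k : ℕ), Del Q →
    DelZ Z (fun a => Q a (Colz Z k))) ∧
  -- families of `Π⁰₂` classes
  ∀ (B : Set (ℕ → ℕ)) (Z : ℕ → ℕ) (t : Set (Set (ℕ → ℕ)))
    (dd : ℕ × (ℕ × ℕ) → (ℕ → ℕ) → Bool), Adm B Z t → RecF dd →
    (∀ e, IsC B (Up (P2 dd e) ∪ Up B)) ∧ DelZ Z (fun e : ℕ => Up (P2 dd e) ∪ Up B ∈ t)

/-- Module CHAR (from GHIDE, TREEC, DELZ): finding 3854 (2) (a), both directions. -/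
def CharStatement : Prop :=
  (∀ (B : Set (ℕ → ℕ)) (Z X : ℕ → ℕ) (L : List (Set (Set (ℕ → ℕ)))), ClosedC B → Nice Z →
    (∀ t ∈ L, Adm B Z t ∧ PI B t) →
    ∀ b c : List ℕ → Bool, BTree b → BTree c → c [] = true → IsC B (Up (Pt b)) →
      (∀ t ∈ L, Up (Pt b) ∉ t) → Up (Pt c) ∈ UU B X L → X ∈ Up (Hm b c)) ∧
  ∀ (B : Set (ℕ → ℕ)) (X : ℕ → ℕ) (L : List (Set (Set (ℕ → ℕ)))), ClosedC B →
    (∀ t ∈ L, PI B t) → ∀ U, IsC B U →
    (∀ R, IsC B R → (∀ t ∈ L, R ∉ t) → ∃ b c, BTree b ∧ BTree c ∧ R ⊆ Up (Pt b) ∧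
      Up (Pt c) ⊆ U ∧ X ∈ Up (Hm b c)) → U ∈ UU B X L

/-- Module PRIME (from CHAR, ROOT, TREEC). -/
def PrimeStatement : Prop :=
  ∀ (B : Set (ℕ → ℕ)) (Z X : ℕ → ℕ) (L : List (Set (Set (ℕ → ℕ)))), ClosedC B → Nice Z →
    (∀ t ∈ L, Adm B Z t ∧ PI B t) → ∀ U U', IsC B U → IsC B U' → U ∪ U' ∈ UU B X L →
      U ∈ UU B X L ∨ U' ∈ UU B X L

/-- Module COMP (from CHAR, CURRY, TREEC). -/
def CompStatement : Prop :=
  ∀ (B : Set (ℕ → ℕ)) (Z X : ℕ → ℕ) (L : List (Set (Set (ℕ → ℕ)))) (t : Set (Set (ℕ → ℕ))),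
    ClosedC B → Nice Z → (∀ t ∈ L, Adm B Z t ∧ PI B t) → Adm B Z t → PI B t →
      Pj B t (UU B X L) = UU B X (L ++ [t])

/-- Module BELOW (from GHIDE, TREEC, DELZ): finding 3854 (2) (d). -/
def BelowStatement : Prop :=
  ∀ (B : Set (ℕ → ℕ)) (Z : ℕ → ℕ) (t x : Set (Set (ℕ → ℕ))), ClosedC B → Nice Z → Adm B Z t →
    PI B t → PI B x → x ⊆ t → Pj B t x ⊆ t

/-- Module ADM (from CHAR, HOMD, DELZ, TREEC). -/
def AdmStatement : Prop :=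
  ∀ (B : Set (ℕ → ℕ)) (Z : ℕ → ℕ) (k : ℕ) (L : List (Set (Set (ℕ → ℕ)))), ClosedC B → Nice Z →
    (∀ t ∈ L, Adm B Z t ∧ PI B t) → Adm B Z (UU B (Colz Z k) L)

/-- The base reals. -/
def Bases (B : Set (ℕ → ℕ)) (Z : ℕ → ℕ) (N : Set (ℕ → ℕ)) : Prop :=
  ClosedC B ∧ Nice Z ∧ ∀ X ∈ N, X ∉ Up B ∧ ∃ k, X = Colz Z k

/-- Module FRAMEP (from PRIME, COMP, BELOW, ADM, TREEC): the points form a frame. -/
def FramepStatement : Prop :=
  ∀ (B : Set (ℕ → ℕ)) (Z : ℕ → ℕ) (N : Set (ℕ → ℕ)), Bases B Z N →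
    (∀ y, InP B N y → PI B y ∧ Adm B Z y ∧ ∃ X ∈ N, ∃ L : List (Set (Set (ℕ → ℕ))),
      (∀ t ∈ L, InP B N t) ∧ y = UU B X L) ∧
    (∀ t x, InP B N t → InP B N x → x ⊆ Pj B t x ∧ Pj B t (Pj B t x) = Pj B t x ∧
      (¬ x ⊂ t → Pj B t x = x) ∧ (x ⊆ t → Pj B t x ⊆ t)) ∧
    (∀ t x y : Set (Set (ℕ → ℕ)), x ⊆ y → Pj B t x ⊆ Pj B t y) ∧
    (∀ s t x, InP B N s → InP B N t → InP B N x → Pj B s (Pj B t x) = Pj B t (Pj B s x)) ∧
    -- a real above `x`, not below finitely many points unblocked from `x`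
    ∀ x, InP B N x → ∀ T : List (Set (Set (ℕ → ℕ))), (∀ t ∈ T, InP B N t ∧ Pj B t x = x) →
      ∀ U, IsC B U → U ∉ x → ∃ Y, Y ∉ Up B ∧ x ⊆ Fl B Y ∧ (∀ t ∈ T, ¬ Fl B Y ⊆ t) ∧ Y ∉ U

/-- Module BOX (from FRAMEP, TREEC): finding 3854 (3), the boxes. -/
def BoxStatement : Prop :=
  ∀ (B : Set (ℕ → ℕ)) (Z : ℕ → ℕ) (N : Set (ℕ → ℕ)), Bases B Z N →
    ∀ (ι : Type) [Finite ι] (e : ι → Set (Set (ℕ → ℕ))), Function.Injective e →
      (∀ k, InP B N (e k)) → ∀ g h : ι → Set (ℕ → ℕ), (∀ k, g k ∈ e k) →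
      (∀ k, IsC B (h k) ∧ h k ∉ e k) →
      ∃ A Bd : ι → Set (ℕ → ℕ), (∀ k, IsC B (A k) ∧ IsC B (Bd k) ∧ A k ⊆ g k ∧ h k ⊆ Bd k ∧
        ∃ W ∈ A k, W ∉ Bd k) ∧
        ∀ k l, k ≠ l → Pj B (e l) (e k) = e k → A k ∩ A l ⊆ Bd l

/-- Module SOUND2 (from IND, BOT; generalise `AE/Sound.lean`): all allowed patterns are realised
by points in boxes. -/
def Sound2Statement : Prop :=
  ∀ (D : Type) [PartialOrder D] (B : Set (ℕ → ℕ)) (up : D → Set (ℕ → ℕ)), IsFrame D B up →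
    (fun _ : ℕ => 0) ∉ Up B →
    ∀ (n : ℕ) (x : ℕ → D) (τ : Typ) (A Bd : ℕ → Set (ℕ → ℕ)), 0 < τ.1.length →
    (∀ i < n, ((fun _ : ℕ => 0) ∈ up (x i) ↔ τ.In 0 i)) →
    (∀ k < τ.1.length, k ≠ 0 → IsC B (A k) ∧ IsC B (Bd k) ∧
      (∀ i < n, τ.In k i → A k ⊆ up (x i)) ∧ (∀ i < n, ¬ τ.In k i → up (x i) ⊆ Bd k) ∧
      ∃ W ∈ A k, W ∉ Bd k) →
    (∀ k < τ.1.length, ∀ l < τ.1.length, k ≠ 0 → l ≠ 0 → k ≠ l → (k, l) ∉ τ.2 →
      A k ∩ A l ⊆ Bd l) →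
    (∀ k < τ.1.length, k ≠ 0 → ∃ i < n, τ.In k i ∧ ¬ τ.In 0 i) →
    (∀ i < n, ∀ j < n, (∀ k < τ.1.length, τ.In k j → τ.In k i) → x i ≤ x j) →
    ∀ (N : ℕ), 0 < N → ∀ v : ℕ → ℕ → ℕ → Prop, (∀ j, Allowed τ N (v j)) →
    (∀ i < n, ∀ k < τ.1.length, ∀ a < N, (v i k a ↔ τ.In k i)) →
    ∃ w : ℕ → D, (∀ i < n, w i = x i) ∧ ∀ j l, (w j ≤ w l ↔ PLe τ N (v j) (v l))

/-! ## Finite frames -/

/-- The list `τ.1` of masks (a mask may occur several times) with the order `le` and the closure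
operators `π t` is a frame; `τ.2` lists the blocked pairs. Position `0` is the least element, is
alone over its mask, and is not blocked. -/
structure IsFT (n : ℕ) (τ : Typ) (le : ℕ → ℕ → Prop) (π : ℕ → ℕ → ℕ) : Prop where
  pos : 0 < τ.1.length
  lt : ∀ m ∈ τ.1, m < 2 ^ n
  refl : ∀ k < τ.1.length, le k k
  trans : ∀ k < τ.1.length, ∀ l < τ.1.length, ∀ r < τ.1.length, le k l → le l r → le k r
  antisymm : ∀ k < τ.1.length, ∀ l < τ.1.length, le k l → le l k → k = l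
  mask : ∀ k < τ.1.length, ∀ l < τ.1.length, le k l → ∀ i < n, τ.In k i → τ.In l i
  mem : ∀ t < τ.1.length, ∀ x < τ.1.length, π t x < τ.1.length
  mono : ∀ t < τ.1.length, ∀ x < τ.1.length, ∀ y < τ.1.length, le x y → le (π t x) (π t y)
  infl : ∀ t < τ.1.length, ∀ x < τ.1.length, le x (π t x)
  idem : ∀ t < τ.1.length, ∀ x < τ.1.length, π t (π t x) = π t x
  comm : ∀ s < τ.1.length, ∀ t < τ.1.length, ∀ x < τ.1.length, π s (π t x) = π t (π s x)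
  off : ∀ t < τ.1.length, ∀ x < τ.1.length, ¬ (le x t ∧ x ≠ t) → π t x = x
  below : ∀ t < τ.1.length, ∀ x < τ.1.length, le x t → le (π t x) t
  tmono : ∀ s < τ.1.length, ∀ t < τ.1.length, ∀ x < τ.1.length, le s t → le (π s x) (π t x)
  bot : ∀ k < τ.1.length, le 0 k
  alone : ∀ k < τ.1.length, (∀ i < n, τ.In k i → τ.In 0 i) → k = 0
  free : ∀ t < τ.1.length, π t 0 = 0
  bl : ∀ k l, (k, l) ∈ τ.2 ↔ k < τ.1.length ∧ l < τ.1.length ∧ π l k ≠ k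

/-- Types of finite frames. -/
def FrameTyp (n : ℕ) (τ : Typ) : Prop := ∃ le π, IsFT n τ le π

/-- The region of all variables is present. -/
def TopIn (n : ℕ) (τ : Typ) : Prop := ∃ k < τ.1.length, ∀ i < n, τ.In k i

/-- Module TYP (from SMT): a frame `P` over the sets of variables, with a least element `b` which
is alone in its fibre and not blocked, has a finite quotient, as a type. (For `tmono` replace
the operator of `t` by the product of the operators of all `s ≤ t`.) -/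
def TypStatement : Prop :=
  ∀ (n : ℕ) (P : Type) [PartialOrder P] (lam : P → Finset (Fin n)) (π : P → P → P) (b : P),
    IsFr lam π → (∀ x, b ≤ x) → (∀ x, lam x ⊆ lam b → x = b) → (∀ t, π t b = b) →
    ∃ (τ : Typ) (s : ℕ → P), FrameTyp n τ ∧ τ.1.length ≤ F (2 ^ n) ∧ s 0 = b ∧
      (∀ k < τ.1.length, ∀ l < τ.1.length, s k = s l → k = l) ∧
      (∀ k < τ.1.length, ∀ i : Fin n, (i ∈ lam (s k) ↔ τ.In k i)) ∧
      (∀ x, ∃ k < τ.1.length, lam (s k) = lam x) ∧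
      ∀ k < τ.1.length, ∀ l < τ.1.length, (k, l) ∉ τ.2 → π (s l) (s k) = s k

/-- Module FDEC (from DEC, SYN): satisfiability in all small finite frames is decidable, uniformly;
without and with a top region. -/
def FdecStatement : Prop :=
  (∃ f : ℕ × ℕ → Bool, Computable f ∧ ∀ (n : ℕ) (φ : QF), f (n, φ.code) = true ↔
    ∀ τ, FrameTyp n τ → τ.1.length ≤ F (2 ^ n) → Sat τ n φ) ∧
  ∃ f : ℕ × ℕ → Bool, Computable f ∧ ∀ (n : ℕ) (φ : QF), f (n, φ.code) = true ↔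
    ∀ τ, FrameTyp n τ → TopIn n τ → τ.1.length ≤ F (2 ^ n) → Sat τ n φ

/-- Module LBA (from GANDY, FRAMEP, BOX, SOUND2, TYP, SYN): every embedding is dominated by a
finite frame of bounded size. -/
def LbStatement : Prop :=
  ∀ (D : Type) [PartialOrder D] (B : Set (ℕ → ℕ)) (up : D → Set (ℕ → ℕ)), IsFrame D B up →
    (fun _ : ℕ => 0) ∉ Up B → ∀ (n : ℕ) (x : ℕ → D), ∃ τ : Typ, FrameTyp n τ ∧
      τ.1.length ≤ F (2 ^ n) ∧ (B = ∅ → (∀ a, (up a).Nonempty) → TopIn n τ) ∧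
      ∀ φ, Sat τ n φ → ∃ v : ℕ → D, (∀ i < n, v i = x i) ∧ φ.Holds v

/-- Realisation of a type (the other half of the theorem). -/
def Realised (D : Type) [PartialOrder D] (B : Set (ℕ → ℕ)) (up : D → Set (ℕ → ℕ)) (n : ℕ)
    (τ : Typ) : Prop :=
  ∃ (x : ℕ → D) (e : (ℕ → ℕ) → ℕ),
    (∀ W, W ∉ Up B → e W < τ.1.length ∧ ∀ i < n, (W ∈ up (x i) ↔ τ.In (e W) i)) ∧
    (∀ k < τ.1.length, ∃ W, W ∉ Up B ∧ e W = k) ∧
    ∀ W W', W ∉ Up B → W' ∉ Up B → (e W, e W') ∈ τ.2 → ∀ z : D, W ∈ up z → W' ∈ up z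

/-- Module MAINF (from FIN, SYN, FDEC, LBA): if all finite frames are realised, then truth is
decidable, for every number of universal variables. -/
def MainfStatement : Prop :=
  (∀ (B : Set (ℕ → ℕ)) (up : PwCantor → Set (ℕ → ℕ)), IsFrame PwCantor B up →
    (fun _ : ℕ => 0) ∉ Up B → (∀ n τ, FrameTyp n τ → Realised PwCantor B up n τ) →
    ∃ f : ℕ × ℕ → Bool, Computable f ∧ ∀ n φ, f (n, QF.code φ) = true ↔ AETrue PwCantor n φ) ∧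
  ∀ up : PwBaire → Set (ℕ → ℕ), IsFrame PwBaire ∅ up → (∀ a, (up a).Nonempty) →
    (∀ n τ, FrameTyp n τ → TopIn n τ → Realised PwBaire ∅ up n τ) →
    ∃ f : ℕ × ℕ → Bool, Computable f ∧ ∀ n φ, f (n, QF.code φ) = true ↔ AETrue PwBaire n φ

end Pool.Agent.Lib.MP_d48993_lc.Bound
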