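import Pool.Agent.Lib.MP_d48993_lc.AE.Bound.Ucr

/-!
# Module LT (findings 4011, 4021, 4022): dual products

For every point `s` of a UC frame there are a class `A s`, a class `W s ⊇ A s` (a real of homs,
hidden modulo `A s`), and for every upward closed set `R` a class `F R`.
-/

set_option autoImplicit false

namespace Pool.Agent.Lib.MP_d48993_lc.Bound

/-- The class of the type `c`. -/
def DD {P : Type} [PartialOrder P] (A W : P → Set (ℕ → ℕ)) (F : Set P → Set (ℕ → ℕ)) (c : P) :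
    Set (ℕ → ℕ) :=
  {X | (∀ s, c ≤ s → X ∈ W s) ∧ (∀ s, ¬ c ≤ s → X ∈ A s) ∧ ∀ R : Set P, IsUpperSet R → X ∈ F R}

/-- The lattice statement. -/
structure LT (D : Type) [PartialOrder D] (B : Set (ℕ → ℕ)) (up : D → Set (ℕ → ℕ)) (P : Type)
    [PartialOrder P] (U : P → Set P) (A W : P → Set (ℕ → ℕ)) (F : Set P → Set (ℕ → ℕ)) :
    Prop where
  clsA : ∀ s, IsC B (A s)
  clsW : ∀ s, IsC B (W s)
  clsF : ∀ R, IsC B (F R)
  sub : ∀ s, A s ⊆ W s
  zero : ∀ c, (fun _ => 0) ∉ DD A W F c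
  join : ∀ R : Set P, IsUpperSet R → (∀ b, R ≠ Set.Ici b) → ∀ X ∈ F R, (∀ s, s ∉ R → X ∈ A s) →
    X ∉ Up B → ∃ b, Minimal (· ∈ R) b ∧ X ∈ A b
  win : ∀ s t, s ∉ U t → ∀ y : D, ¬ DD A W F t ⊆ up y → ∀ X ∈ W s, X ∈ up y → X ∈ A s
  ex : ∀ c, ∃ X ∈ DD A W F c, X ∉ A c

namespace Ltm

variable {D : Type} [PartialOrder D] {B : Set (ℕ → ℕ)} {up : D → Set (ℕ → ℕ)} {P : Type}
  [PartialOrder P] {U : P → Set P} {A W : P → Set (ℕ → ℕ)} {F : Set P → Set (ℕ → ℕ)}

theorem isC_inter {V V' : Set (ℕ → ℕ)} (h : IsC B V) (h' : IsC B V') : IsC B (V ∩ V') := by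
  obtain ⟨S, h1, rfl⟩ := h
  obtain ⟨S', h2, rfl⟩ := h'
  obtain ⟨R, h3, h4⟩ := (AE.Sound.Cl.of h1).inter (AE.Sound.Cl.of h2)
  refine ⟨R, h3, ?_⟩
  rw [h4, Set.union_comm, Set.union_comm (Up S'), ← Set.union_inter_distrib_left, Set.union_comm]

theorem isC_univ : IsC B (Set.univ : Set (ℕ → ℕ)) := by
  obtain ⟨R, h3, h4⟩ := AE.Sound.Cl.univ
  exact ⟨R, h3, by rw [h4, Set.univ_union]⟩

theorem isC_iInter {ι : Type} [Finite ι] (f : ι → Set (ℕ → ℕ)) (h : ∀ i, IsC B (f i)) :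
    IsC B {X | ∀ i, X ∈ f i} := by
  classical
  have := Fintype.ofFinite ι
  have h1 : ∀ T : Finset ι, IsC B {X | ∀ i ∈ T, X ∈ f i} := by
    intro T
    induction T using Finset.induction_on with
    | empty =>
      have e : {X : ℕ → ℕ | ∀ i ∈ (∅ : Finset ι), X ∈ f i} = Set.univ :=
        Set.eq_univ_of_forall fun X i hi => (Finset.notMem_empty _ hi).elim
      rw [e]
      exact isC_univ
    | insert a T _ ih =>
      have e : {X : ℕ → ℕ | ∀ i ∈ insert a T, X ∈ f i} = f a ∩ {X | ∀ i ∈ T, X ∈ f i} := by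
        ext X
        simp
      rw [e]
      exact isC_inter (h a) ih
  have e : {X : ℕ → ℕ | ∀ i, X ∈ f i} = {X | ∀ i ∈ (Finset.univ : Finset ι), X ∈ f i} := by
    ext X
    simp
  rw [e]
  exact h1 _

theorem isC_if {p : Prop} {V : Set (ℕ → ℕ)} (h : IsC B V) : IsC B {X | p → X ∈ V} := by
  by_cases hp : p
  · have e : {X : ℕ → ℕ | p → X ∈ V} = V := by
      ext X
      simp [hp]
    rw [e]
    exact h
  · have e : {X : ℕ → ℕ | p → X ∈ V} = Set.univ := by
      ext X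
      simp [hp]
    rw [e]
    exact isC_univ

/-- Classes which are closed under least upper bounds of types realise the frame. -/
theorem realised_of_classes [Finite P] (hF : IsFrame D B up) (h0 : (fun _ : ℕ => 0) ∉ Up B)
    (C : P → Set (ℕ → ℕ)) (hC : ∀ c, IsC B (C c)) (hmono : ∀ c d, c ≤ d → C d ⊆ C c)
    (hjoin : ∀ x y X, X ∉ Up B → X ∈ C x → X ∈ C y → ∃ b, x ≤ b ∧ y ≤ b ∧ X ∈ C b)
    (hzero : ∀ c, (fun _ => 0) ∉ C c)
    (hex : ∀ k, ∃ X, X ∉ Up B ∧ X ∈ C k ∧ ∀ l, k ≤ l → X ∈ C l → l ≤ k)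
    (hbl : ∀ k l, k ∉ U l → ∀ X, X ∈ C k → (∀ m, X ∈ C m → m ≤ k) → ∀ y : D, X ∈ up y →
      C l ⊆ up y) : RealisedU D B up P U := by
  classical
  have hgr : ∀ X, X ∉ Up B → ∀ c, X ∈ C c → ∃ l, X ∈ C l ∧ ∀ k, X ∈ C k → k ≤ l := by
    intro X hX c hc
    obtain ⟨l, hl⟩ := (Set.toFinite {k | X ∈ C k}).exists_maximal ⟨c, hc⟩
    refine ⟨l, hl.1, fun k hk => ?_⟩
    obtain ⟨b, h1, h2, h3⟩ := hjoin l k X hX hl.1 hk
    exact h2.trans (hl.2 h3 h1)
  -- the classes
  have h1 : ∀ c, ∃ a : D, up a = C c := by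
    intro c
    obtain ⟨S, h2, h3⟩ := hC c
    obtain ⟨X, -, hX, -⟩ := hex c
    have h4 : (S ∪ B).Nonempty := by
      rw [h3] at hX
      rcases hX with ⟨f, hf, -⟩ | ⟨f, hf, -⟩
      · exact ⟨f, Or.inl hf⟩
      · exact ⟨f, Or.inr hf⟩
    obtain ⟨a, ha⟩ := hF.real S h2 h4
    exact ⟨a, by rw [ha, h3]⟩
  choose z hz using h1
  -- the type of a real
  let e : (ℕ → ℕ) → Option P := fun X =>
    if hX : ∃ l, X ∈ C l ∧ ∀ k, X ∈ C k → k ≤ l then some (Classical.choose hX) else none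
  have he : ∀ X l, e X = some l → X ∈ C l ∧ ∀ k, X ∈ C k → k ≤ l := by
    intro X l h2
    by_cases hX : ∃ l, X ∈ C l ∧ ∀ k, X ∈ C k → k ≤ l
    · have h3 : e X = some (Classical.choose hX) := dif_pos hX
      rw [h3] at h2
      obtain rfl := Option.some_injective _ h2
      exact Classical.choose_spec hX
    · have h3 : e X = none := dif_neg hX
      rw [h3] at h2
      exact (Option.some_ne_none _ h2.symm).elim
  have he' : ∀ X, X ∉ Up B → ∀ c, X ∈ C c → ∃ l, e X = some l ∧ c ≤ l := by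
    intro X hX c hc
    have h2 := hgr X hX c hc
    have h3 : e X = some (Classical.choose h2) := dif_pos h2
    exact ⟨_, h3, (Classical.choose_spec h2).2 c hc⟩
  refine ⟨z, e, ?_, ?_, ?_, ?_⟩
  · intro X hX k
    rw [hz]
    constructor
    · exact fun h2 => he' X hX k h2
    · rintro ⟨l, h2, h3⟩
      exact hmono k l h3 (he X l h2).1
  · refine ⟨fun _ => 0, h0, ?_⟩
    by_contra h2
    obtain ⟨l, hl⟩ := Option.ne_none_iff_exists'.1 h2
    exact hzero l (he _ l hl).1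
  · intro k
    obtain ⟨X, hX, h2, h3⟩ := hex k
    obtain ⟨l, h4, h5⟩ := he' X hX k h2
    refine ⟨X, hX, ?_⟩
    rw [h4]
    exact congrArg some (le_antisymm (h3 l h5 (he X l h4).1) h5)
  · intro X X' hX hX' k l hk hl hkl y hy
    obtain ⟨h2, h3⟩ := he X k hk
    obtain ⟨h4, -⟩ := he X' l hl
    exact hbl k l hkl X h2 h3 y hy h4

theorem isC_DD [Finite P] (h : LT D B up P U A W F) (c : P) : IsC B (DD A W F c) := by
  have e : DD A W F c = {X | ∀ s, X ∈ {X | c ≤ s → X ∈ W s}} ∩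
      ({X | ∀ s, X ∈ {X | ¬ c ≤ s → X ∈ A s}} ∩
        {X | ∀ R : Set P, X ∈ {X | IsUpperSet R → X ∈ F R}}) := rfl
  rw [e]
  exact isC_inter (isC_iInter _ fun s => isC_if (h.clsW s))
    (isC_inter (isC_iInter _ fun s => isC_if (h.clsA s))
      (isC_iInter _ fun R => isC_if (h.clsF R)))

theorem DD_mono (h : LT D B up P U A W F) {c d : P} (hcd : c ≤ d) :
    DD A W F d ⊆ DD A W F c := by
  rintro X ⟨h1, h2, h3⟩
  refine ⟨fun s hs => ?_, fun s hs => h2 s fun h4 => hs (hcd.trans h4), h3⟩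
  by_cases h4 : d ≤ s
  · exact h1 s h4
  · exact h.sub s (h2 s h4)

theorem join_aux [Finite P] (h : LT D B up P U A W F) {x y : P} {X : ℕ → ℕ} (hX : X ∉ Up B)
    (hx : X ∈ DD A W F x) (n : ℕ) : ∀ R : Set P, R.ncard = n → IsUpperSet R →
      (∀ s ∈ R, x ≤ s ∧ y ≤ s) → (∀ s, s ∉ R → X ∈ A s) →
      ∃ b, x ≤ b ∧ y ≤ b ∧ X ∈ DD A W F b := by
  induction n with
  | zero =>
    intro R hn hR h1 h2
    have h3 : R = ∅ := (Set.ncard_eq_zero R.toFinite).1 hn
    subst h3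
    obtain ⟨b, hb, -⟩ := h.join ∅ hR (fun b hb => Set.notMem_empty b (hb ▸ Set.self_mem_Ici))
      X (hx.2.2 _ hR) h2 hX
    exact hb.1.elim
  | succ n ih =>
    intro R hn hR h1 h2
    by_cases h3 : ∃ b, R = Set.Ici b
    · obtain ⟨b, rfl⟩ := h3
      obtain ⟨h4, h5⟩ := h1 b Set.self_mem_Ici
      exact ⟨b, h4, h5, fun s hs => hx.1 s (h4.trans hs), fun s hs => h2 s hs, hx.2.2⟩
    · have h3' : ∀ b, R ≠ Set.Ici b := fun b hb => h3 ⟨b, hb⟩
      obtain ⟨b, hb, hbX⟩ := h.join R hR h3' X (hx.2.2 _ hR) h2 hX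
      refine ih (R \ {b}) ?_ ?_ ?_ ?_
      · rw [Set.ncard_sdiff_singleton_of_mem hb.1, hn]
        rfl
      · rintro s s' hss' ⟨h4, h5⟩
        refine ⟨hR hss' h4, fun h6 => h5 ?_⟩
        have h7 : s' = b := h6
        exact le_antisymm (h7 ▸ hss') (hb.2 h4 (h7 ▸ hss'))
      · exact fun s hs => h1 s hs.1
      · intro s hs
        by_cases h4 : s = b
        · rw [h4]; exact hbX
        · exact h2 s fun h5 => hs ⟨h5, h4⟩

theorem join [Finite P] (h : LT D B up P U A W F) {x y : P} {X : ℕ → ℕ} (hX : X ∉ Up B)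
    (hx : X ∈ DD A W F x) (hy : X ∈ DD A W F y) :
    ∃ b, x ≤ b ∧ y ≤ b ∧ X ∈ DD A W F b := by
  refine join_aux h hX hx _ {s | x ≤ s ∧ y ≤ s} rfl ?_ (fun s hs => hs) ?_
  · exact fun s s' hss' h1 => ⟨h1.1.trans hss', h1.2.trans hss'⟩
  · intro s hs
    by_cases h1 : x ≤ s
    · exact hy.2.1 s fun h2 => hs ⟨h1, h2⟩
    · exact hx.2.1 s h1

end Ltm

open Ltm in
/-- The lattice statement realises the frame. -/
theorem lt_realised {D : Type} [PartialOrder D] {B : Set (ℕ → ℕ)} {up : D → Set (ℕ → ℕ)}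
    (hF : IsFrame D B up) (h0 : (fun _ : ℕ => 0) ∉ Up B) {P : Type} [Finite P] [PartialOrder P]
    {U : P → Set P} (hU : UCF P U) {A W : P → Set (ℕ → ℕ)} {F : Set P → Set (ℕ → ℕ)}
    (h : LT D B up P U A W F) : RealisedU D B up P U := by
  refine realised_of_classes hF h0 (DD A W F) (isC_DD h) (fun c d hcd => DD_mono h hcd)
    (fun x y X hX hx hy => join h hX hx hy) h.zero ?_ ?_
  · intro k
    obtain ⟨X, h2, h3⟩ := h.ex k
    refine ⟨X, ?_, h2, ?_⟩
    · intro h4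
      obtain ⟨S, -, h5⟩ := h.clsA k
      exact h3 (by rw [h5]; exact Or.inr h4)
    · intro l _ h6
      by_contra h7
      exact h3 (h6.2.1 k h7)
  · intro k l hkl X h2 h3 y hy
    by_contra h5
    obtain ⟨p, p1, p2, p3⟩ := hU.least l k
    have h6 : X ∈ DD A W F p := by
      refine ⟨fun s hs => h2.1 s (p1.trans hs), fun s hs => ?_, h2.2.2⟩
      by_cases h7 : k ≤ s
      · exact h.win s l (fun h8 => hs (p3 s h7 h8)) y h5 X (h2.1 s h7) hy
      · exact h2.2.1 s h7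
    have h7 : p = k := le_antisymm (h3 p h6) p1
    exact hkl (h7 ▸ p2)

/-! ## The version with a largest type -/

/-- The class of the largest type. -/
def DT {P : Type} [PartialOrder P] (A : P → Set (ℕ → ℕ)) (F : Set P → Set (ℕ → ℕ)) :
    Set (ℕ → ℕ) :=
  {X | (∀ s, X ∈ A s) ∧ ∀ R : Set P, IsUpperSet R → X ∈ F R}

/-- The lattice statement, with a largest type which blocks all others. -/
structure LTT (D : Type) [PartialOrder D] (B : Set (ℕ → ℕ)) (up : D → Set (ℕ → ℕ)) (S : Type)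
    [PartialOrder S] (U : S → Set S) (A W : S → Set (ℕ → ℕ)) (F : Set S → Set (ℕ → ℕ)) :
    Prop where
  clsA : ∀ s, IsC B (A s)
  clsW : ∀ s, IsC B (W s)
  clsF : ∀ R, IsC B (F R)
  sub : ∀ s, A s ⊆ W s
  zero : ∀ c, (fun _ => 0) ∉ DD A W F c
  join : ∀ R : Set S, IsUpperSet R → R.Nonempty → (∀ b, R ≠ Set.Ici b) → ∀ X ∈ F R,
    (∀ s, s ∉ R → X ∈ A s) → X ∉ Up B → ∃ b, Minimal (· ∈ R) b ∧ X ∈ A b
  win : ∀ s t, s ∉ U t → ∀ y : D, ¬ DD A W F t ⊆ up y → ∀ X ∈ W s, X ∈ up y → X ∈ A s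
  winT : ∀ s, ∀ y : D, ¬ DT A F ⊆ up y → ∀ X ∈ W s, X ∈ up y → X ∈ A s
  ex : ∀ c, ∃ X ∈ DD A W F c, X ∉ A c
  exT : ∃ X ∈ DT A F, X ∉ Up B

namespace Ltm

/-- All classes. -/
def DW {S : Type} [PartialOrder S] (A W : S → Set (ℕ → ℕ)) (F : Set S → Set (ℕ → ℕ)) :
    WithTop S → Set (ℕ → ℕ) := fun x => x.recTopCoe (DT A F) (DD A W F)

variable {D : Type} [PartialOrder D] {B : Set (ℕ → ℕ)} {up : D → Set (ℕ → ℕ)} {S : Type}
  [PartialOrder S] {U : S → Set S} {A W : S → Set (ℕ → ℕ)} {F : Set S → Set (ℕ → ℕ)}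

theorem isC_DW [Finite S] (h : LTT D B up S U A W F) (c : WithTop S) : IsC B (DW A W F c) := by
  induction c using WithTop.recTopCoe with
  | top =>
    have e : DW A W F ⊤ = {X | ∀ s, X ∈ A s} ∩
        {X | ∀ R : Set S, X ∈ {X | IsUpperSet R → X ∈ F R}} := rfl
    rw [e]
    exact isC_inter (isC_iInter _ h.clsA) (isC_iInter _ fun R => isC_if (h.clsF R))
  | coe c =>
    have e : DW A W F c = {X | ∀ s, X ∈ {X | c ≤ s → X ∈ W s}} ∩
        ({X | ∀ s, X ∈ {X | ¬ c ≤ s → X ∈ A s}} ∩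
          {X | ∀ R : Set S, X ∈ {X | IsUpperSet R → X ∈ F R}}) := rfl
    rw [e]
    exact isC_inter (isC_iInter _ fun s => isC_if (h.clsW s))
      (isC_inter (isC_iInter _ fun s => isC_if (h.clsA s))
        (isC_iInter _ fun R => isC_if (h.clsF R)))

theorem DT_sub (h : LTT D B up S U A W F) (c : S) : DT A F ⊆ DD A W F c :=
  fun _ hX => ⟨fun s _ => h.sub s (hX.1 s), fun s _ => hX.1 s, hX.2⟩

theorem DW_mono (h : LTT D B up S U A W F) {c d : WithTop S} (hcd : c ≤ d) :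
    DW A W F d ⊆ DW A W F c := by
  induction d using WithTop.recTopCoe with
  | top =>
    induction c using WithTop.recTopCoe with
    | top => exact subset_rfl
    | coe c => exact DT_sub h c
  | coe d =>
    induction c using WithTop.recTopCoe with
    | top => exact (WithTop.not_top_le_coe d hcd).elim
    | coe c =>
      have hcd' : c ≤ d := WithTop.coe_le_coe.1 hcd
      rintro X ⟨h1, h2, h3⟩
      refine ⟨fun s hs => ?_, fun s hs => h2 s fun h4 => hs (hcd'.trans h4), h3⟩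
      by_cases h4 : d ≤ s
      · exact h1 s h4
      · exact h.sub s (h2 s h4)

theorem joinT_aux [Finite S] (h : LTT D B up S U A W F) {x y : S} {X : ℕ → ℕ} (hX : X ∉ Up B)
    (hx : X ∈ DD A W F x) (n : ℕ) : ∀ R : Set S, R.ncard = n → IsUpperSet R →
      (∀ s ∈ R, x ≤ s ∧ y ≤ s) → (∀ s, s ∉ R → X ∈ A s) →
      ∃ b : WithTop S, (x : WithTop S) ≤ b ∧ (y : WithTop S) ≤ b ∧ X ∈ DW A W F b := by
  induction n with
  | zero =>
    intro R hn hR h1 h2
    have h3 : R = ∅ := (Set.ncard_eq_zero R.toFinite).1 hn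
    subst h3
    exact ⟨⊤, le_top, le_top, fun s => h2 s (Set.notMem_empty s), hx.2.2⟩
  | succ n ih =>
    intro R hn hR h1 h2
    by_cases h3 : ∃ b, R = Set.Ici b
    · obtain ⟨b, rfl⟩ := h3
      obtain ⟨h4, h5⟩ := h1 b Set.self_mem_Ici
      exact ⟨b, WithTop.coe_le_coe.2 h4, WithTop.coe_le_coe.2 h5,
        fun s hs => hx.1 s (h4.trans hs), fun s hs => h2 s hs, hx.2.2⟩
    · have h3' : ∀ b, R ≠ Set.Ici b := fun b hb => h3 ⟨b, hb⟩
      have hne : R.Nonempty := by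
        rw [Set.nonempty_iff_ne_empty]
        intro h4
        rw [h4, Set.ncard_empty] at hn
        exact (Nat.succ_ne_zero n hn.symm).elim
      obtain ⟨b, hb, hbX⟩ := h.join R hR hne h3' X (hx.2.2 _ hR) h2 hX
      refine ih (R \ {b}) ?_ ?_ ?_ ?_
      · rw [Set.ncard_sdiff_singleton_of_mem hb.1, hn]
        rfl
      · rintro s s' hss' ⟨h4, h5⟩
        refine ⟨hR hss' h4, fun h6 => h5 ?_⟩
        have h7 : s' = b := h6
        exact le_antisymm (h7 ▸ hss') (hb.2 h4 (h7 ▸ hss'))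
      · exact fun s hs => h1 s hs.1
      · intro s hs
        by_cases h4 : s = b
        · rw [h4]; exact hbX
        · exact h2 s fun h5 => hs ⟨h5, h4⟩

theorem joinT [Finite S] (h : LTT D B up S U A W F) (x y : WithTop S) {X : ℕ → ℕ}
    (hX : X ∉ Up B) (hx : X ∈ DW A W F x) (hy : X ∈ DW A W F y) :
    ∃ b, x ≤ b ∧ y ≤ b ∧ X ∈ DW A W F b := by
  induction x using WithTop.recTopCoe with
  | top => exact ⟨⊤, le_rfl, le_top, hx⟩
  | coe x =>
    induction y using WithTop.recTopCoe with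
    | top => exact ⟨⊤, le_top, le_rfl, hy⟩
    | coe y =>
      have hx' : X ∈ DD A W F x := hx
      have hy' : X ∈ DD A W F y := hy
      refine joinT_aux h hX hx' _ {s | x ≤ s ∧ y ≤ s} rfl ?_ (fun s hs => hs) ?_
      · exact fun s s' hss' h1 => ⟨h1.1.trans hss', h1.2.trans hss'⟩
      · intro s hs
        by_cases h1 : x ≤ s
        · exact hy'.2.1 s fun h2 => hs ⟨h1, h2⟩
        · exact hx'.2.1 s h1

end Ltm

open Ltm in
/-- The lattice statement with a largest type realises the frame with a largest point. -/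
theorem ltt_realised {D : Type} [PartialOrder D] {B : Set (ℕ → ℕ)} {up : D → Set (ℕ → ℕ)}
    (hF : IsFrame D B up) (h0 : (fun _ : ℕ => 0) ∉ Up B) {S : Type} [Finite S] [Nonempty S]
    [PartialOrder S] {U : S → Set S} (hU : UCF S U) {A W : S → Set (ℕ → ℕ)}
    {F : Set S → Set (ℕ → ℕ)} (h : LTT D B up S U A W F) :
    RealisedU D B up (WithTop S) (UTop U) := by
  have : Finite (WithTop S) := inferInstanceAs (Finite (Option S))
  refine realised_of_classes hF h0 (DW A W F) (isC_DW h) (fun c d hcd => DW_mono h hcd)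
    (fun x y X hX hx hy => joinT h x y hX hx hy) ?_ ?_ ?_
  · intro c hc
    obtain ⟨a⟩ := ‹Nonempty S›
    induction c using WithTop.recTopCoe with
    | top => exact h.zero a (DT_sub h a hc)
    | coe c => exact h.zero c hc
  · intro k
    induction k using WithTop.recTopCoe with
    | top =>
      obtain ⟨X, h2, h3⟩ := h.exT
      exact ⟨X, h3, h2, fun l _ _ => le_top⟩
    | coe k =>
      obtain ⟨X, h2, h3⟩ := h.ex k
      refine ⟨X, ?_, h2, ?_⟩
      · intro h4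
        obtain ⟨T, -, h5⟩ := h.clsA k
        exact h3 (by rw [h5]; exact Or.inr h4)
      · intro l _ h6
        induction l using WithTop.recTopCoe with
        | top => exact (h3 (h6.1 k)).elim
        | coe l =>
          by_contra h7
          exact h3 (h6.2.1 k fun h8 => h7 (WithTop.coe_le_coe.2 h8))
  · intro k l hkl X h2 h3 y hy
    by_contra h5
    induction k using WithTop.recTopCoe with
    | top =>
      induction l using WithTop.recTopCoe with
      | top => exact hkl rfl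
      | coe l => exact hkl (Or.inl rfl)
    | coe k =>
      have h2' : X ∈ DD A W F k := h2
      induction l using WithTop.recTopCoe with
      | top =>
        have h6 : X ∈ DT A F := by
          refine ⟨fun s => ?_, h2'.2.2⟩
          by_cases h7 : k ≤ s
          · exact h.winT s y h5 X (h2'.1 s h7) hy
          · exact h2'.2.1 s h7
        exact WithTop.not_top_le_coe k (h3 ⊤ h6)
      | coe l =>
        have hkl' : k ∉ U l := fun h6 => hkl (Or.inr ⟨k, h6, rfl⟩)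
        obtain ⟨p, p1, p2, p3⟩ := hU.least l k
        have h6 : X ∈ DD A W F p := by
          refine ⟨fun s hs => h2'.1 s (p1.trans hs), fun s hs => ?_, h2'.2.2⟩
          by_cases h7 : k ≤ s
          · exact h.win s l (fun h8 => hs (p3 s h7 h8)) y h5 X (h2'.1 s h7) hy
          · exact h2'.2.1 s h7
        have h7 : p = k := le_antisymm (WithTop.coe_le_coe.1 (h3 p h6)) p1
        exact hkl' (h7 ▸ p2)

/-- Module LT for the Cantor lattice: if every finite UC frame has the classes, then every frame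
is realised. -/
theorem realised_of_lt {D : Type} [PartialOrder D] {B : Set (ℕ → ℕ)} {up : D → Set (ℕ → ℕ)}
    (hF : IsFrame D B up) (h0 : (fun _ : ℕ => 0) ∉ Up B) (hB : B.Nonempty)
    (hL : ∀ (P : Type) [Finite P] [PartialOrder P] (U : P → Set P), UCF P U →
      ∃ A W F, LT D B up P U A W F) : ∀ n τ, FrameTyp n τ → Realised D B up n τ := by
  refine ucr hF hB fun P _ _ U hU => ?_
  obtain ⟨A, W, F, h⟩ := hL P U hU
  exact lt_realised hF h0 hU h

/-- Module LT for the Baire lattice. -/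
theorem realised_of_ltt {D : Type} [PartialOrder D] {B : Set (ℕ → ℕ)} {up : D → Set (ℕ → ℕ)}
    (hF : IsFrame D B up) (h0 : (fun _ : ℕ => 0) ∉ Up B)
    (hL : ∀ (S : Type) [Finite S] [Nonempty S] [PartialOrder S] (U : S → Set S), UCF S U →
      ∃ A W F, LTT D B up S U A W F) :
    ∀ n τ, FrameTyp n τ → TopIn n τ → Realised D B up n τ := by
  refine ucr_top hF h0 fun S _ _ _ U hU => ?_
  obtain ⟨A, W, F, h⟩ := hL S U hU
  exact ltt_realised hF h0 hU h

end Pool.Agent.Lib.MP_d48993_lc.Bound
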