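import Pool.Agent.Lib.MP_d48993_lc.AE.Bound.Lt

/-!
# Module LT2 (finding 4031): dual products and shares

For every point `s` of a UC frame there are a class `A s` and a class `W s ⊇ A s` (a real of
homs, hidden modulo `A s`); for every upward closed set `R` of the form `UB(G)` which is not
principal, and every lower bound `q` of `R`, there is a class `F R q` (a share). The share is
known to the lower bounds of `R` which are not below `q`.
-/

set_option autoImplicit false

namespace Pool.Agent.Lib.MP_d48993_lc.Bound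

section Defs

variable {P : Type} [PartialOrder P]

/-- `c` is the least point above `q` which is closed for all `t ∈ S`, for some `S`. -/
def Im (U : P → Set P) (c q : P) : Prop :=
  ∃ S : Set P, IsLeast {y | q ≤ y ∧ ∀ t ∈ S, y ∈ U t} c

/-- The preorder of the lower bounds of `R`. -/
def LeR (U : P → Set P) (R : Set P) : P → P → Prop :=
  Relation.ReflTransGen fun c q => c ∈ lowerBounds R ∧ q ∈ lowerBounds R ∧ (c ≤ q ∨ Im U c q)

/-- The upper sets which need shares. -/
def Good (R : Set P) : Prop :=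
  (∃ G : Set P, G.Nonempty ∧ R = upperBounds G) ∧ ∀ b, R ≠ Set.Ici b

/-- The class of the type `c`, with the shares of the sets `R` with `p R`. -/
def DS (U : P → Set P) (A W : P → Set (ℕ → ℕ)) (F : Set P → P → Set (ℕ → ℕ))
    (p : Set P → Prop) (c : P) : Set (ℕ → ℕ) :=
  {X | (∀ s, c ≤ s → X ∈ W s) ∧ (∀ s, ¬ c ≤ s → X ∈ A s) ∧
    ∀ R, p R → Good R → c ∈ lowerBounds R → ∀ q ∈ lowerBounds R, ¬ LeR U R c q → X ∈ F R q}

/-- The class of the type `c`. -/
def DC (U : P → Set P) (A W : P → Set (ℕ → ℕ)) (F : Set P → P → Set (ℕ → ℕ)) (c : P) :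
    Set (ℕ → ℕ) := DS U A W F (fun _ => True) c

/-- The lattice statement with shares. -/
structure LT2 (D : Type) [PartialOrder D] (B : Set (ℕ → ℕ)) (up : D → Set (ℕ → ℕ))
    (U : P → Set P) (A W : P → Set (ℕ → ℕ)) (F : Set P → P → Set (ℕ → ℕ)) : Prop where
  clsA : ∀ s, IsC B (A s)
  clsW : ∀ s, IsC B (W s)
  clsF : ∀ R q, IsC B (F R q)
  sub : ∀ s, A s ⊆ W s
  zero : ∀ c, (fun _ => 0) ∉ DC U A W F c
  low : ∀ R, Good R → ∀ q ∈ lowerBounds R, ∀ t, t ∉ lowerBounds R →
    DS U A W F (· ⊂ R) t ⊆ F R q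
  join : ∀ R, Good R → ∀ X, X ∉ Up B → (∀ q ∈ lowerBounds R, X ∈ F R q) →
    (∃ l ∈ R, X ∈ DC U A W F l) ∨ ∃ t, t ∉ lowerBounds R ∧ X ∈ DS U A W F (· ⊂ R) t
  win : ∀ s t, s ∉ U t → ∀ y : D, ¬ DC U A W F t ⊆ up y → ∀ X ∈ W s, X ∈ up y → X ∈ A s
  ex : ∀ c, ∃ X ∈ DC U A W F c, X ∉ A c

end Defs

namespace Lt2m

variable {P : Type} [PartialOrder P] {U : P → Set P}

/-- Closed points above, for a set of thresholds. -/
theorem exists_pi [Finite P] (hU : UCF P U) (S : Set P) (q : P) :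
    ∃ c, IsLeast {y | q ≤ y ∧ ∀ t ∈ S, y ∈ U t} c := by
  classical
  have := Fintype.ofFinite P
  have h1 : ∀ T : Finset P, ∃ y, q ≤ y ∧ (∀ t ∈ T, y ∈ U t) ∧
      ∀ z, q ≤ z → (∀ t ∈ T, z ∈ U t) → y ≤ z := by
    intro T
    induction T using Finset.induction_on with
    | empty => exact ⟨q, le_refl _, fun _ h1 => (Finset.notMem_empty _ h1).elim,
        fun z hz _ => hz⟩
    | insert a T _ ih =>
      obtain ⟨y, y1, y2, y3⟩ := ih
      obtain ⟨e, e1, e2, e3⟩ := hU.least a y
      refine ⟨e, y1.trans e1, ?_, ?_⟩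
      · intro t ht
        rcases Finset.mem_insert.1 ht with rfl | ht
        · exact e2
        · exact hU.upper t y e (y2 t ht) e1
      · intro z hz h2
        exact e3 z (y3 z hz fun t ht => h2 t (Finset.mem_insert_of_mem ht))
          (h2 a (Finset.mem_insert_self _ _))
  obtain ⟨y, y1, y2, y3⟩ := h1 (Finset.univ.filter fun t => t ∈ S)
  refine ⟨y, ⟨y1, fun t ht => y2 t (by simpa using ht)⟩, ?_⟩
  rintro z ⟨hz1, hz2⟩
  exact y3 z hz1 fun t ht => hz2 t (by simpa using ht)

theorem Im.infl {c q : P} (h : Im U c q) : q ≤ c := by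
  obtain ⟨S, hS⟩ := h
  exact hS.1.1

/-- `π_S' (π_S q) = π_(S ∪ S') q`. -/
theorem Im.trans (hU : UCF P U) {c d q : P} (h : Im U c d) (h' : Im U d q) : Im U c q := by
  obtain ⟨S, hS⟩ := h
  obtain ⟨S', hS'⟩ := h'
  refine ⟨S ∪ S', ⟨hS'.1.1.trans hS.1.1, ?_⟩, ?_⟩
  · rintro t (ht | ht)
    · exact hS.1.2 t ht
    · exact hU.upper t d c (hS'.1.2 t ht) hS.1.1
  · rintro z ⟨h1, h2⟩
    exact hS.2 ⟨hS'.2 ⟨h1, fun t ht => h2 t (Or.inr ht)⟩, fun t ht => h2 t (Or.inl ht)⟩

theorem Im.refl (q : P) : Im U q q :=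
  ⟨∅, ⟨le_refl _, fun _ h => h.elim⟩, fun _ h => h.1⟩

/-- Lemma 1. -/
theorem lemma1 [Finite P] (hU : UCF P U) {R : Set P} {c q : P} (hc : c ∈ lowerBounds R)
    (h : LeR U R c q) : q ∈ lowerBounds R ∧ ∃ c', c ≤ c' ∧ Im U c' q ∧ c' ∈ lowerBounds R := by
  induction h with
  | refl => exact ⟨hc, c, le_refl _, Im.refl c, hc⟩
  | tail _ h2 ih =>
    obtain ⟨hq', c', h3, h4, h5⟩ := ih
    obtain ⟨-, h6, h7⟩ := h2
    refine ⟨h6, ?_⟩
    rcases h7 with h7 | h7
    · obtain ⟨S, hS⟩ := h4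
      obtain ⟨e, he⟩ := exists_pi hU S _
      refine ⟨e, h3.trans (hS.2 ⟨h7.trans he.1.1, he.1.2⟩), ⟨S, he⟩, fun r hr => ?_⟩
      exact he.2 ⟨h6 hr, fun t ht => hU.upper t _ _ (hS.1.2 t ht) (h5 hr)⟩
    · exact ⟨c', h3, Im.trans hU h4 h7, h5⟩

/-- Lemma 2. -/
theorem lemma2 [Finite P] (hU : UCF P U) {R : Set P} {q : P} (hq : q ∈ lowerBounds R)
    {G : Set P} (hG : ∀ g ∈ G, g ∈ lowerBounds R ∧ LeR U R g q) :
    ∃ l ∈ lowerBounds R, LeR U R l q ∧ ∀ g ∈ G, g ≤ l := by
  classical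
  have := Fintype.ofFinite P
  have h1 : ∀ T : Finset P, (∀ g ∈ T, g ∈ G) → ∃ l ∈ lowerBounds R, Im U l q ∧
      ∀ g ∈ T, g ≤ l := by
    intro T
    induction T using Finset.induction_on with
    | empty => exact fun _ => ⟨q, hq, Im.refl q, fun _ h => (Finset.notMem_empty _ h).elim⟩
    | insert a T _ ih =>
      intro hT
      obtain ⟨l, l1, ⟨S, hS⟩, l3⟩ := ih fun g hg => hT g (Finset.mem_insert_of_mem hg)
      obtain ⟨ha1, ha2⟩ := hG a (hT a (Finset.mem_insert_self _ _))
      obtain ⟨-, a', h2, ⟨S', hS'⟩, h4⟩ := lemma1 hU ha1 ha2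
      obtain ⟨e, he⟩ := exists_pi hU (S ∪ S') q
      have hle : l ≤ e := hS.2 ⟨he.1.1, fun t ht => he.1.2 t (Or.inl ht)⟩
      have hae : a' ≤ e := hS'.2 ⟨he.1.1, fun t ht => he.1.2 t (Or.inr ht)⟩
      refine ⟨e, fun r hr => he.2 ⟨hq hr, ?_⟩, ⟨_, he⟩, ?_⟩
      · rintro t (ht | ht)
        · exact hU.upper t _ _ (hS.1.2 t ht) (l1 hr)
        · exact hU.upper t _ _ (hS'.1.2 t ht) (h4 hr)
      · intro g hg
        rcases Finset.mem_insert.1 hg with rfl | hg
        · exact h2.trans hae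
        · exact (l3 g hg).trans hle
  obtain ⟨l, l1, l2, l3⟩ := h1 (Finset.univ.filter fun g => g ∈ G) (by simp)
  exact ⟨l, l1, Relation.ReflTransGen.single ⟨l1, hq, Or.inr l2⟩, fun g hg => l3 g (by simpa)⟩

variable {D : Type} [PartialOrder D] {B : Set (ℕ → ℕ)} {up : D → Set (ℕ → ℕ)}
  {A W : P → Set (ℕ → ℕ)} {F : Set P → P → Set (ℕ → ℕ)}

theorem DS_mono {p p' : Set P → Prop} (hp : ∀ R, p R → p' R) (c : P) :
    DS U A W F p' c ⊆ DS U A W F p c :=
  fun _ hX => ⟨hX.1, hX.2.1, fun R hR => hX.2.2 R (hp R hR)⟩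

theorem DC_mono (h : LT2 D B up U A W F) {c d : P} (hcd : c ≤ d) :
    DC U A W F d ⊆ DC U A W F c := by
  intro X hX
  refine ⟨fun s hs => ?_, fun s hs => hX.2.1 s fun h4 => hs (hcd.trans h4), ?_⟩
  · by_cases h4 : d ≤ s
    · exact hX.1 s h4
    · exact h.sub s (hX.2.1 s h4)
  · intro R hR hG hc q hq hcq
    by_cases hd : d ∈ lowerBounds R
    · refine hX.2.2 R hR hG hd q hq fun h5 => hcq ?_
      exact Relation.ReflTransGen.head ⟨hc, hd, Or.inl hcd⟩ h5
    · exact h.low R hG q hq d hd (DS_mono (fun _ _ => trivial) d hX)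

/-- The situation in the proof of `join`. -/
structure Sit (U : P → Set P) (A W : P → Set (ℕ → ℕ)) (F : Set P → P → Set (ℕ → ℕ))
    (x y : P) (X : ℕ → ℕ) (G : Set P) : Prop where
  hx : x ∈ G
  hy : y ∈ G
  a : ∀ g ∈ G, ∀ s, ¬ g ≤ s → X ∈ A s
  f : ∀ g ∈ G, ∀ R, Good R → R ⊆ upperBounds G → ∀ q ∈ lowerBounds R, ¬ LeR U R g q → X ∈ F R q

theorem join_aux [Finite P] (hU : UCF P U) (h : LT2 D B up U A W F) {x y : P} {X : ℕ → ℕ}
    (hX : X ∉ Up B) (hx : X ∈ DC U A W F x) (n : ℕ) : ∀ G : Set P,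
      (upperBounds G).ncard ≤ n → Sit U A W F x y X G →
      ∃ b, x ≤ b ∧ y ≤ b ∧ X ∈ DC U A W F b := by
  induction n with
  | zero =>
    intro G hn hG
    have h3 : upperBounds G = ∅ := (Set.ncard_eq_zero (Set.toFinite _)).1 (Nat.le_zero.1 hn)
    have hgood : Good (upperBounds G) := by
      refine ⟨⟨G, ⟨x, hG.hx⟩, rfl⟩, fun b hb => ?_⟩
      rw [h3] at hb
      exact Set.notMem_empty b (hb ▸ Set.self_mem_Ici)
    have h4 : ∀ q ∈ lowerBounds (upperBounds G), X ∈ F (upperBounds G) q := by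
      intro q hq
      by_contra h5
      have h6 : ∀ g ∈ G, g ∈ lowerBounds (upperBounds G) ∧ LeR U (upperBounds G) g q := by
        intro g hg
        refine ⟨fun r hr => hr hg, ?_⟩
        by_contra h7
        exact h5 (hG.f g hg _ hgood subset_rfl q hq h7)
      obtain ⟨l, l1, -, l3⟩ := lemma2 hU hq h6
      have h7 : l ∈ upperBounds G := fun g hg => l3 g hg
      rw [h3] at h7
      exact h7.elim
    rcases h.join _ hgood X hX h4 with ⟨l, hl, -⟩ | ⟨t, ht, -⟩
    · rw [h3] at hl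
      exact hl.elim
    · rw [h3] at ht
      exact (ht fun r hr => hr.elim).elim
  | succ n ih =>
    intro G hn hG
    by_cases h3 : ∃ b, upperBounds G = Set.Ici b
    · obtain ⟨l, hl⟩ := h3
      have hlG : l ∈ upperBounds G := by rw [hl]; exact Set.self_mem_Ici
      refine ⟨l, hlG hG.hx, hlG hG.hy, ?_, ?_, ?_⟩
      · exact fun s hs => hx.1 s ((hlG hG.hx).trans hs)
      · intro s hs
        have h4 : s ∉ upperBounds G := by rw [hl]; exact hs
        have h5 : ∃ g ∈ G, ¬ g ≤ s := by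
          by_contra h6
          exact h4 fun g hg => by
            by_contra h7
            exact h6 ⟨g, hg, h7⟩
        obtain ⟨g, hg, h6⟩ := h5
        exact hG.a g hg s h6
      · intro R _ hR hlR q hq hlq
        by_contra h5
        have hRG : R ⊆ upperBounds G := by
          intro r hr
          rw [hl]
          exact hlR hr
        have h6 : ∀ g ∈ G, g ∈ lowerBounds R ∧ LeR U R g q := by
          intro g hg
          refine ⟨fun r hr => hRG hr hg, ?_⟩
          by_contra h7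
          exact h5 (hG.f g hg R hR hRG q hq h7)
        obtain ⟨l', l1, l2, l3⟩ := lemma2 hU hq h6
        have h7 : l' ∈ upperBounds G := fun g hg => l3 g hg
        rw [hl] at h7
        exact hlq (Relation.ReflTransGen.head ⟨hlR, l1, Or.inl h7⟩ l2)
    · have h3' : ∀ b, upperBounds G ≠ Set.Ici b := fun b hb => h3 ⟨b, hb⟩
      have hgood : Good (upperBounds G) := ⟨⟨G, ⟨x, hG.hx⟩, rfl⟩, h3'⟩
      have h4 : ∀ q ∈ lowerBounds (upperBounds G), X ∈ F (upperBounds G) q := by
        intro q hq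
        by_contra h5
        have h6 : ∀ g ∈ G, g ∈ lowerBounds (upperBounds G) ∧ LeR U (upperBounds G) g q := by
          intro g hg
          refine ⟨fun r hr => hr hg, ?_⟩
          by_contra h7
          exact h5 (hG.f g hg _ hgood subset_rfl q hq h7)
        obtain ⟨l, l1, -, l3⟩ := lemma2 hU hq h6
        have h7 : l ∈ upperBounds G := fun g hg => l3 g hg
        refine h3' l (Set.Subset.antisymm (fun r hr => l1 hr) fun r hr g hg => ?_)
        exact (h7 hg).trans hr
      rcases h.join _ hgood X hX h4 with ⟨l, hl, hXl⟩ | ⟨t, ht, hXt⟩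
      · exact ⟨l, hl hG.hx, hl hG.hy, hXl⟩
      · -- add `t`
        have hsub : upperBounds (insert t G) ⊂ upperBounds G := by
          refine ⟨upperBounds_mono_set (Set.subset_insert t G), fun h5 => ht fun r hr => ?_⟩
          exact h5 hr (Set.mem_insert t G)
        refine ih (insert t G) ?_ ⟨Set.mem_insert_of_mem t hG.hx, Set.mem_insert_of_mem t hG.hy,
          ?_, ?_⟩
        · have h5 := Set.ncard_lt_ncard hsub (Set.toFinite _)
          omega
        · rintro g (rfl | hg) s hs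
          · exact hXt.2.1 s hs
          · exact hG.a g hg s hs
        · rintro g (rfl | hg) R hR hRG q hq hgq
          · refine hXt.2.2 R (lt_of_le_of_lt hRG hsub) hR ?_ q hq hgq
            exact fun r hr => hRG hr (Set.mem_insert _ _)
          · exact hG.f g hg R hR (hRG.trans hsub.1) q hq hgq

theorem join [Finite P] (hU : UCF P U) (h : LT2 D B up U A W F) {x y : P} {X : ℕ → ℕ}
    (hX : X ∉ Up B) (hx : X ∈ DC U A W F x) (hy : X ∈ DC U A W F y) :
    ∃ b, x ≤ b ∧ y ≤ b ∧ X ∈ DC U A W F b := by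
  refine join_aux hU h hX hx _ {x, y} le_rfl ⟨Or.inl rfl, Or.inr rfl, ?_, ?_⟩
  · rintro g (rfl | rfl) s hs
    · exact hx.2.1 s hs
    · exact hy.2.1 s hs
  · rintro g (rfl | rfl) R hR hRG q hq hgq
    · exact hx.2.2 R trivial hR (fun r hr => hRG hr (Or.inl rfl)) q hq hgq
    · exact hy.2.2 R trivial hR (fun r hr => hRG hr (Or.inr rfl)) q hq hgq

theorem isC_DC [Finite P] (h : LT2 D B up U A W F) (c : P) : IsC B (DC U A W F c) := by
  have e : DC U A W F c = {X | ∀ s, X ∈ {X | c ≤ s → X ∈ W s}} ∩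
      ({X | ∀ s, X ∈ {X | ¬ c ≤ s → X ∈ A s}} ∩
        {X | ∀ R : Set P, X ∈ {X | ∀ q, X ∈ {X | (Good R ∧ c ∈ lowerBounds R ∧
          q ∈ lowerBounds R ∧ ¬ LeR U R c q) → X ∈ F R q}}}) := by
    ext X
    constructor
    · rintro ⟨h1, h2, h3⟩
      exact ⟨h1, h2, fun R q h4 => h3 R trivial h4.1 h4.2.1 q h4.2.2.1 h4.2.2.2⟩
    · rintro ⟨h1, h2, h3⟩
      exact ⟨h1, h2, fun R _ h4 h5 q h6 h7 => h3 R q ⟨h4, h5, h6, h7⟩⟩
  rw [e]
  exact Ltm.isC_inter (Ltm.isC_iInter _ fun s => Ltm.isC_if (h.clsW s))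
    (Ltm.isC_inter (Ltm.isC_iInter _ fun s => Ltm.isC_if (h.clsA s))
      (Ltm.isC_iInter _ fun R => Ltm.isC_iInter _ fun q => Ltm.isC_if (h.clsF R q)))

end Lt2m

open Lt2m in
/-- The lattice statement with shares realises the frame. -/
theorem lt2_realised {D : Type} [PartialOrder D] {B : Set (ℕ → ℕ)} {up : D → Set (ℕ → ℕ)}
    (hF : IsFrame D B up) (h0 : (fun _ : ℕ => 0) ∉ Up B) {P : Type} [Finite P] [PartialOrder P]
    {U : P → Set P} (hU : UCF P U) {A W : P → Set (ℕ → ℕ)} {F : Set P → P → Set (ℕ → ℕ)}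
    (h : LT2 D B up U A W F) : RealisedU D B up P U := by
  refine Ltm.realised_of_classes hF h0 (DC U A W F) (isC_DC h) (fun c d hcd => DC_mono h hcd)
    (fun x y X hX hx hy => join hU h hX hx hy) h.zero ?_ ?_
  · intro k
    obtain ⟨X, h2, h3⟩ := h.ex k
    refine ⟨X, ?_, h2, ?_⟩
    · intro h4
      obtain ⟨S, -, h5⟩ := h.clsA k
      exact h3 (by rw [h5]; exact Or.inr h4)
    · intro l _ h6
      by_contra h7
      exact h3 (h6.2.1 k h7)
  · intro k l hkl X h2 h3 y hy
    by_contra h5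
    obtain ⟨p, p1, p2, p3⟩ := hU.least l k
    have hIm : Im U p k := ⟨{l}, ⟨p1, fun t ht => by rw [Set.mem_singleton_iff.1 ht]; exact p2⟩,
      fun z hz => p3 z hz.1 (hz.2 l rfl)⟩
    have h6 : X ∈ DC U A W F p := by
      refine ⟨fun s hs => h2.1 s (p1.trans hs), fun s hs => ?_, ?_⟩
      · by_cases h7 : k ≤ s
        · exact h.win s l (fun h8 => hs (p3 s h7 h8)) y h5 X (h2.1 s h7) hy
        · exact h2.2.1 s h7
      · intro R hR hG hp q hq hpq
        have hk : k ∈ lowerBounds R := fun r hr => p1.trans (hp hr)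
        refine h2.2.2 R hR hG hk q hq fun h7 => hpq ?_
        exact Relation.ReflTransGen.head ⟨hp, hk, Or.inr hIm⟩ h7
    have h7 : p = k := le_antisymm (h3 p h6) p1
    exact hkl (h7 ▸ p2)

/-- Frames with a largest point. -/
theorem ucf_top {S : Type} [PartialOrder S] {U : S → Set S} (hU : UCF S U) :
    UCF (WithTop S) (UTop U) := by
  have htop : ∀ t : WithTop S, (⊤ : WithTop S) ∈ UTop U t := by
    intro t
    induction t using WithTop.recTopCoe with
    | top => exact rfl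
    | coe t => exact Or.inl rfl
  constructor
  · intro t x y hx hxy
    induction y using WithTop.recTopCoe with
    | top => exact htop t
    | coe y =>
      induction x using WithTop.recTopCoe with
      | top => exact (WithTop.not_top_le_coe y hxy).elim
      | coe x =>
        induction t using WithTop.recTopCoe with
        | top => exact (WithTop.coe_ne_top (show (x : WithTop S) = ⊤ from hx)).elim
        | coe t =>
          rcases hx with hx | ⟨a, ha, hx⟩
          · exact (WithTop.coe_ne_top hx).elim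
          · obtain rfl := WithTop.coe_injective hx
            exact Or.inr ⟨y, hU.upper t _ y ha (WithTop.coe_le_coe.1 hxy), rfl⟩
  · intro t x h1
    induction x using WithTop.recTopCoe with
    | top => exact htop t
    | coe x =>
      induction t using WithTop.recTopCoe with
      | top => exact (h1 (WithTop.coe_lt_top x)).elim
      | coe t => exact Or.inr ⟨x, hU.off t x fun h2 => h1 (WithTop.coe_lt_coe.2 h2), rfl⟩
  · intro t x
    induction x using WithTop.recTopCoe with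
    | top => exact ⟨⊤, le_rfl, htop t, fun z hz _ => hz⟩
    | coe x =>
      induction t using WithTop.recTopCoe with
      | top => exact ⟨⊤, le_top, rfl, fun z _ hz => (show z = ⊤ from hz) ▸ le_rfl⟩
      | coe t =>
        obtain ⟨y, y1, y2, y3⟩ := hU.least t x
        refine ⟨y, WithTop.coe_le_coe.2 y1, Or.inr ⟨y, y2, rfl⟩, fun z hz1 hz2 => ?_⟩
        induction z using WithTop.recTopCoe with
        | top => exact le_top
        | coe z =>
          rcases hz2 with hz2 | ⟨a, ha, hz2⟩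
          · exact (WithTop.coe_ne_top hz2).elim
          · obtain rfl := WithTop.coe_injective hz2
            exact WithTop.coe_le_coe.2 (y3 _ (WithTop.coe_le_coe.1 hz1) ha)
  · intro s t hst x hx
    induction t using WithTop.recTopCoe with
    | top =>
      obtain rfl : x = ⊤ := hx
      exact htop s
    | coe t =>
      induction s using WithTop.recTopCoe with
      | top => exact (WithTop.not_top_le_coe t hst).elim
      | coe s =>
        rcases hx with rfl | ⟨a, ha, rfl⟩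
        · exact htop _
        · exact Or.inr ⟨a, hU.tmono s t (WithTop.coe_le_coe.1 hst) ha, rfl⟩

/-- Module LT2 for the Cantor lattice. -/
theorem realised_of_lt2 {D : Type} [PartialOrder D] {B : Set (ℕ → ℕ)} {up : D → Set (ℕ → ℕ)}
    (hF : IsFrame D B up) (h0 : (fun _ : ℕ => 0) ∉ Up B) (hB : B.Nonempty)
    (hL : ∀ (P : Type) [Finite P] [PartialOrder P] (U : P → Set P), UCF P U →
      ∃ A W F, LT2 D B up U A W F) : ∀ n τ, FrameTyp n τ → Realised D B up n τ := by
  refine ucr hF hB fun P _ _ U hU => ?_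
  obtain ⟨A, W, F, h⟩ := hL P U hU
  exact lt2_realised hF h0 hU h

/-- Module LT2 for the Baire lattice. -/
theorem realised_of_lt2_top {D : Type} [PartialOrder D] {B : Set (ℕ → ℕ)} {up : D → Set (ℕ → ℕ)}
    (hF : IsFrame D B up) (h0 : (fun _ : ℕ => 0) ∉ Up B)
    (hL : ∀ (S : Type) [Finite S] [Nonempty S] [PartialOrder S] (U : S → Set S), UCF S U →
      ∃ A W F, LT2 D B up (UTop U) A W F) :
    ∀ n τ, FrameTyp n τ → TopIn n τ → Realised D B up n τ := by
  refine ucr_top hF h0 fun S _ _ _ U hU => ?_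
  have : Finite (WithTop S) := inferInstanceAs (Finite (Option S))
  obtain ⟨A, W, F, h⟩ := hL S U hU
  exact lt2_realised hF h0 (ucf_top hU) h

end Pool.Agent.Lib.MP_d48993_lc.Bound
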